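import Pool.Agent.Lib.MP_131fce_co.Flag.Reps7

/-!
# The adjacency function of a triangle-free graph
-/

set_option autoImplicit false

namespace Pool.Agent.ICyc.Flag

open scoped Classical

theorem adjOK_of_cliqueFree {V : Type} (G : SimpleGraph V) (hG : G.CliqueFree 3) :
    AdjOK (adjG G) := by
  refine ⟨fun u v => ?_, fun v => ?_, fun u v => ?_, fun u v w h1 h2 h3 => ?_⟩
  · simp only [adjG, G.adj_comm u v]
  · simp [adjG]
  · unfold adjG; split <;> omega
  · have f : ∀ a b : V, adjG G a b = 1 → G.Adj a b := by
      intro a b h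
      by_contra hc
      unfold adjG at h
      rw [if_neg hc] at h
      omega
    exact hG {u, v, w} (SimpleGraph.is3Clique_triple_iff.mpr ⟨f u v h1, f u w h3, f v w h2⟩)

end Pool.Agent.ICyc.Flag
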