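import Pool.Agent.Lib.MP_131fce_co.Flag.T5

/-!
# Check of the graphs on `5` vertices, part 1
-/

set_option autoImplicit false
set_option maxRecDepth 100000

namespace Pool.Agent.ICyc.Flag

def rk5_0 : List ℕ :=
  [0x0, 0x80010000000000000, 0xc0010001000000000, 0xe0010001000100000, 0xf0010001000100010, 
    0x80010000200040000, 0xc0010001000010002, 0xa0014000800100000, 0xe0011001000100008, 
    0xc0011001200040008, 0xa0014000a00140000, 0xd00120012000c0010, 0x70007001800180018, 
    0x90014000a00050012]

theorem k5_0 : ok5 0x0 = true := by decide +kernel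

theorem k5_1 : ok5 0x80010000000000000 = true := by decide +kernel

theorem k5_2 : ok5 0xc0010001000000000 = true := by decide +kernel

theorem k5_3 : ok5 0xe0010001000100000 = true := by decide +kernel

theorem k5_4 : ok5 0xf0010001000100010 = true := by decide +kernel

theorem k5_5 : ok5 0x80010000200040000 = true := by decide +kernel

theorem k5_6 : ok5 0xc0010001000010002 = true := by decide +kernel

theorem k5_7 : ok5 0xa0014000800100000 = true := by decide +kernel

theorem k5_8 : ok5 0xe0011001000100008 = true := by decide +kernel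

theorem k5_9 : ok5 0xc0011001200040008 = true := by decide +kernel

theorem k5_10 : ok5 0xa0014000a00140000 = true := by decide +kernel

theorem k5_11 : ok5 0xd00120012000c0010 = true := by decide +kernel

theorem k5_12 : ok5 0x70007001800180018 = true := by decide +kernel

theorem k5_13 : ok5 0x90014000a00050012 = true := by decide +kernel

theorem ck5_0 : ∀ H ∈ rk5_0, ok5 H = true :=
  List.forall_mem_cons.mpr ⟨k5_0, List.forall_mem_cons.mpr ⟨k5_1, List.forall_mem_cons.mpr ⟨k5_2, List.forall_mem_cons.mpr ⟨k5_3, List.forall_mem_cons.mpr ⟨k5_4, List.forall_mem_cons.mpr ⟨k5_5, List.forall_mem_cons.mpr ⟨k5_6, List.forall_mem_cons.mpr ⟨k5_7, List.forall_mem_cons.mpr ⟨k5_8, List.forall_mem_cons.mpr ⟨k5_9, List.forall_mem_cons.mpr ⟨k5_10, List.forall_mem_cons.mpr ⟨k5_11, List.forall_mem_cons.mpr ⟨k5_12, List.forall_mem_cons.mpr ⟨k5_13, List.forall_mem_nil _⟩⟩⟩⟩⟩⟩⟩⟩⟩⟩⟩⟩⟩⟩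

end Pool.Agent.ICyc.Flag
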