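import Pool.Agent.Lib.MP_131fce_co.Flag.Psd5a
import Pool.Agent.Lib.MP_131fce_co.Flag.Chk5a
import Pool.Agent.Lib.MP_131fce_co.Flag.Reps7

/-!
# The bound for `k = 5`
-/

set_option autoImplicit false
set_option maxRecDepth 100000

namespace Pool.Agent.ICyc.Flag

theorem rk5_eq : reps5 = rk5_0 := by decide +kernel

/-- triangle-free graphs have at most `(n / 5) ^ 5` induced cycles of length `5` -/
theorem bound5 (V : Type) [Fintype V] (G : SimpleGraph V) (hA : AdjOK (adjG G)) :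
    (({S : Finset V | S.card = 5 ∧
          Nonempty (G.induce (S : Set V) ≃g SimpleGraph.cycleGraph 5)}.ncard : ℝ)
        ≤ ((Fintype.card V : ℝ) / ((5 : ℕ) : ℝ)) ^ 5) := by
  refine final_bound 5 (by norm_num) G 20 (by norm_num) (by norm_num) T5 [0, 1, 1, 1, 9] (by decide +kernel)
    (fun H => H ∈ reps5) (cls5 hA) (by decide +kernel) (by decide +kernel) ?_ ?_
  · exact ⟨⟨⟨g5_2, trivial⟩, ⟨⟨g5_1, ⟨g5_0, trivial⟩⟩, trivial⟩⟩, trivial⟩
  · intro H hH
    rw [show List.range 5 = [0, 1, 2, 3, 4] by decide, show 2 * 20 * Nat.factorial 5 = 4800 by decide +kernel,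
      show 20 * 5 ^ (5 - 1) = 12500 by norm_num]
    rw [rk5_eq] at hH
    exact ck5_0 H hH

end Pool.Agent.ICyc.Flag
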