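import Pool.Agent.Lib.MP_131fce_co.Flag.T6

/-!
# Check of the graphs on `6` vertices, part 1
-/

set_option autoImplicit false
set_option maxRecDepth 100000

namespace Pool.Agent.ICyc.Flag

def rk6_0 : List ℕ :=
  [0x0, 0x1000200000000000000000, 0x1800200020000000000000, 0x1c00200020002000000000, 
    0x1e00200020002000200000, 0x1f00200020002000200020, 0x1000200004000800000000, 
    0x1800200020000200040000, 0x1c00200020002000010002, 0x1400280010002000000000, 
    0x1c00220020002000100000, 0x1e00210020002000200010, 0x3000c0010001000200020, 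
    0x1800220024000800100000, 0x1600280011002000200008, 0x1400280014002800000000, 
    0x1a00240024001800200000, 0x1b00240024001800200020, 0x13002c0010001000200020, 
    0xd000e0030003000100020, 0xe000e0030003000300000, 0xf000e0030003000300020, 
    0xf000f0030003000300030, 0x1000200004000800010002, 0x1400280010002000010002, 
    0x1c00210022002000080010, 0x1400280011002200040008, 0x1400280014002800010002, 
    0x1a00240024001800210002, 0x1200280014000a00240000, 0x1900220024000a00140020, 
    0x15002a0014002800100020, 0xd000e0030003000110022, 0xe000e0031003000300008, 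
    0x1100280014000a00050022, 0x15002a0014002800110022, 0x15002a0015002a00140028, 
    0x15002a0015002a0015002a]

theorem k6_0 : ok6 0x0 = true := by decide +kernel

theorem k6_1 : ok6 0x1000200000000000000000 = true := by decide +kernel

theorem k6_2 : ok6 0x1800200020000000000000 = true := by decide +kernel

theorem k6_3 : ok6 0x1c00200020002000000000 = true := by decide +kernel

theorem k6_4 : ok6 0x1e00200020002000200000 = true := by decide +kernel

theorem k6_5 : ok6 0x1f00200020002000200020 = true := by decide +kernel

theorem k6_6 : ok6 0x1000200004000800000000 = true := by decide +kernel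

theorem k6_7 : ok6 0x1800200020000200040000 = true := by decide +kernel

theorem k6_8 : ok6 0x1c00200020002000010002 = true := by decide +kernel

theorem k6_9 : ok6 0x1400280010002000000000 = true := by decide +kernel

theorem k6_10 : ok6 0x1c00220020002000100000 = true := by decide +kernel

theorem k6_11 : ok6 0x1e00210020002000200010 = true := by decide +kernel

theorem k6_12 : ok6 0x3000c0010001000200020 = true := by decide +kernel

theorem k6_13 : ok6 0x1800220024000800100000 = true := by decide +kernel

theorem k6_14 : ok6 0x1600280011002000200008 = true := by decide +kernel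

theorem k6_15 : ok6 0x1400280014002800000000 = true := by decide +kernel

theorem k6_16 : ok6 0x1a00240024001800200000 = true := by decide +kernel

theorem k6_17 : ok6 0x1b00240024001800200020 = true := by decide +kernel

theorem k6_18 : ok6 0x13002c0010001000200020 = true := by decide +kernel

theorem k6_19 : ok6 0xd000e0030003000100020 = true := by decide +kernel

theorem k6_20 : ok6 0xe000e0030003000300000 = true := by decide +kernel

theorem k6_21 : ok6 0xf000e0030003000300020 = true := by decide +kernel

theorem k6_22 : ok6 0xf000f0030003000300030 = true := by decide +kernel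

theorem k6_23 : ok6 0x1000200004000800010002 = true := by decide +kernel

theorem k6_24 : ok6 0x1400280010002000010002 = true := by decide +kernel

theorem k6_25 : ok6 0x1c00210022002000080010 = true := by decide +kernel

theorem k6_26 : ok6 0x1400280011002200040008 = true := by decide +kernel

theorem k6_27 : ok6 0x1400280014002800010002 = true := by decide +kernel

theorem k6_28 : ok6 0x1a00240024001800210002 = true := by decide +kernel

theorem k6_29 : ok6 0x1200280014000a00240000 = true := by decide +kernel

theorem k6_30 : ok6 0x1900220024000a00140020 = true := by decide +kernel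

theorem k6_31 : ok6 0x15002a0014002800100020 = true := by decide +kernel

theorem k6_32 : ok6 0xd000e0030003000110022 = true := by decide +kernel

theorem k6_33 : ok6 0xe000e0031003000300008 = true := by decide +kernel

theorem k6_34 : ok6 0x1100280014000a00050022 = true := by decide +kernel

theorem k6_35 : ok6 0x15002a0014002800110022 = true := by decide +kernel

theorem k6_36 : ok6 0x15002a0015002a00140028 = true := by decide +kernel

theorem k6_37 : ok6 0x15002a0015002a0015002a = true := by decide +kernel

theorem ck6_0 : ∀ H ∈ rk6_0, ok6 H = true :=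
  List.forall_mem_cons.mpr ⟨k6_0, List.forall_mem_cons.mpr ⟨k6_1, List.forall_mem_cons.mpr ⟨k6_2, List.forall_mem_cons.mpr ⟨k6_3, List.forall_mem_cons.mpr ⟨k6_4, List.forall_mem_cons.mpr ⟨k6_5, List.forall_mem_cons.mpr ⟨k6_6, List.forall_mem_cons.mpr ⟨k6_7, List.forall_mem_cons.mpr ⟨k6_8, List.forall_mem_cons.mpr ⟨k6_9, List.forall_mem_cons.mpr ⟨k6_10, List.forall_mem_cons.mpr ⟨k6_11, List.forall_mem_cons.mpr ⟨k6_12, List.forall_mem_cons.mpr ⟨k6_13, List.forall_mem_cons.mpr ⟨k6_14, List.forall_mem_cons.mpr ⟨k6_15, List.forall_mem_cons.mpr ⟨k6_16, List.forall_mem_cons.mpr ⟨k6_17, List.forall_mem_cons.mpr ⟨k6_18, List.forall_mem_cons.mpr ⟨k6_19, List.forall_mem_cons.mpr ⟨k6_20, List.forall_mem_cons.mpr ⟨k6_21, List.forall_mem_cons.mpr ⟨k6_22, List.forall_mem_cons.mpr ⟨k6_23, List.forall_mem_cons.mpr ⟨k6_24, List.forall_mem_cons.mpr ⟨k6_25, List.forall_mem_cons.mpr ⟨k6_26, List.forall_mem_cons.mpr ⟨k6_27, List.forall_mem_cons.mpr ⟨k6_28, List.forall_mem_cons.mpr ⟨k6_29, List.forall_mem_cons.mpr ⟨k6_30, List.forall_mem_cons.mpr ⟨k6_31, List.forall_mem_cons.mpr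 ⟨k6_32, List.forall_mem_cons.mpr ⟨k6_33, List.forall_mem_cons.mpr ⟨k6_34, List.forall_mem_cons.mpr ⟨k6_35, List.forall_mem_cons.mpr ⟨k6_36, List.forall_mem_cons.mpr ⟨k6_37, List.forall_mem_nil _⟩⟩⟩⟩⟩⟩⟩⟩⟩⟩⟩⟩⟩⟩⟩⟩⟩⟩⟩⟩⟩⟩⟩⟩⟩⟩⟩⟩⟩⟩⟩⟩⟩⟩⟩⟩⟩⟩

end Pool.Agent.ICyc.Flag
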