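import Pool.Agent.Lib.MP_131fce_co.Flag.Psd6a
import Pool.Agent.Lib.MP_131fce_co.Flag.Chk6a
import Pool.Agent.Lib.MP_131fce_co.Flag.Reps7

/-!
# The bound for `k = 6`
-/

set_option autoImplicit false
set_option maxRecDepth 100000

namespace Pool.Agent.ICyc.Flag

theorem rk6_eq : reps6 = rk6_0 := by decide +kernel

/-- triangle-free graphs have at most `(n / 6) ^ 6` induced cycles of length `6` -/
theorem bound6 (V : Type) [Fintype V] (G : SimpleGraph V) (hA : AdjOK (adjG G)) :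
    (({S : Finset V | S.card = 6 ∧
          Nonempty (G.induce (S : Set V) ≃g SimpleGraph.cycleGraph 6)}.ncard : ℝ)
        ≤ ((Fintype.card V : ℝ) / ((6 : ℕ) : ℝ)) ^ 6) := by
  refine final_bound 6 (by norm_num) G 200 (by norm_num) (by norm_num) T6 [0, 1, 1, 1, 1, 17] (by decide +kernel)
    (fun H => H ∈ reps6) (cls6 hA) (by decide +kernel) (by decide +kernel) ?_ ?_
  · exact ⟨⟨⟨⟨g6_6, trivial⟩, trivial⟩, ⟨⟨⟨g6_5, ⟨g6_4, trivial⟩⟩, ⟨⟨g6_3, ⟨g6_2, ⟨g6_1, ⟨g6_0, trivial⟩⟩⟩⟩, trivial⟩⟩, trivial⟩⟩, trivial⟩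
  · intro H hH
    rw [show List.range 6 = [0, 1, 2, 3, 4, 5] by decide, show 2 * 200 * Nat.factorial 6 = 288000 by decide +kernel,
      show 200 * 6 ^ (6 - 1) = 1555200 by norm_num]
    rw [rk6_eq] at hH
    exact ck6_0 H hH

end Pool.Agent.ICyc.Flag
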