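import Pool.Agent.Lib.MP_131fce_co.Flag.T7

/-!
# Check of the graphs on `7` vertices, part 1
-/

set_option autoImplicit false
set_option maxRecDepth 100000

namespace Pool.Agent.ICyc.Flag

def rk7_0 : List ℕ :=
  [0x0, 0x20004000000000000000000000, 0x30004000400000000000000000, 0x38004000400040000000000000, 
    0x3c004000400040004000000000, 0x3e004000400040004000400000, 0x3f004000400040004000400040, 
    0x20004000080010000000000000, 0x30004000400004000800000000, 0x38004000400040000200040000, 
    0x3c004000400040004000010002, 0x28005000200040000000000000, 0x38004400400040002000000000, 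
    0x3c004200400040004000200000, 0x3e004100400040004000400020, 0x6001800200020004000400000, 
    0x1c000300400040004000200020, 0x30004400480010002000000000, 0x2c005000220040004000100000, 
    0x2e005000210040004000400010, 0x28005000280050000000000000, 0x34004800480030004000000000, 
    0x36004800480030004000400000, 0x37004800480030004000400040, 0x26005800200020004000400000, 
    0x3c004300400040004000200020, 0x13001c00600020002000400040]

theorem k7_0 : ok7 0x0 = true := by decide +kernel

theorem k7_1 : ok7 0x20004000000000000000000000 = true := by decide +kernel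

theorem k7_2 : ok7 0x30004000400000000000000000 = true := by decide +kernel

theorem k7_3 : ok7 0x38004000400040000000000000 = true := by decide +kernel

theorem k7_4 : ok7 0x3c004000400040004000000000 = true := by decide +kernel

theorem k7_5 : ok7 0x3e004000400040004000400000 = true := by decide +kernel

theorem k7_6 : ok7 0x3f004000400040004000400040 = true := by decide +kernel

theorem k7_7 : ok7 0x20004000080010000000000000 = true := by decide +kernel

theorem k7_8 : ok7 0x30004000400004000800000000 = true := by decide +kernel

theorem k7_9 : ok7 0x38004000400040000200040000 = true := by decide +kernel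

theorem k7_10 : ok7 0x3c004000400040004000010002 = true := by decide +kernel

theorem k7_11 : ok7 0x28005000200040000000000000 = true := by decide +kernel

theorem k7_12 : ok7 0x38004400400040002000000000 = true := by decide +kernel

theorem k7_13 : ok7 0x3c004200400040004000200000 = true := by decide +kernel

theorem k7_14 : ok7 0x3e004100400040004000400020 = true := by decide +kernel

theorem k7_15 : ok7 0x6001800200020004000400000 = true := by decide +kernel

theorem k7_16 : ok7 0x1c000300400040004000200020 = true := by decide +kernel

theorem k7_17 : ok7 0x30004400480010002000000000 = true := by decide +kernel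

theorem k7_18 : ok7 0x2c005000220040004000100000 = true := by decide +kernel

theorem k7_19 : ok7 0x2e005000210040004000400010 = true := by decide +kernel

theorem k7_20 : ok7 0x28005000280050000000000000 = true := by decide +kernel

theorem k7_21 : ok7 0x34004800480030004000000000 = true := by decide +kernel

theorem k7_22 : ok7 0x36004800480030004000400000 = true := by decide +kernel

theorem k7_23 : ok7 0x37004800480030004000400040 = true := by decide +kernel

theorem k7_24 : ok7 0x26005800200020004000400000 = true := by decide +kernel

theorem k7_25 : ok7 0x3c004300400040004000200020 = true := by decide +kernel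

theorem k7_26 : ok7 0x13001c00600020002000400040 = true := by decide +kernel

theorem ck7_0 : ∀ H ∈ rk7_0, ok7 H = true :=
  List.forall_mem_cons.mpr ⟨k7_0, List.forall_mem_cons.mpr ⟨k7_1, List.forall_mem_cons.mpr ⟨k7_2, List.forall_mem_cons.mpr ⟨k7_3, List.forall_mem_cons.mpr ⟨k7_4, List.forall_mem_cons.mpr ⟨k7_5, List.forall_mem_cons.mpr ⟨k7_6, List.forall_mem_cons.mpr ⟨k7_7, List.forall_mem_cons.mpr ⟨k7_8, List.forall_mem_cons.mpr ⟨k7_9, List.forall_mem_cons.mpr ⟨k7_10, List.forall_mem_cons.mpr ⟨k7_11, List.forall_mem_cons.mpr ⟨k7_12, List.forall_mem_cons.mpr ⟨k7_13, List.forall_mem_cons.mpr ⟨k7_14, List.forall_mem_cons.mpr ⟨k7_15, List.forall_mem_cons.mpr ⟨k7_16, List.forall_mem_cons.mpr ⟨k7_17, List.forall_mem_cons.mpr ⟨k7_18, List.forall_mem_cons.mpr ⟨k7_19, List.forall_mem_cons.mpr ⟨k7_20, List.forall_mem_cons.mpr ⟨k7_21, List.forall_mem_cons.mpr ⟨k7_22, List.forall_mem_cons.mpr ⟨k7_23, List.forall_mem_cons.mpr ⟨k7_24, List.forall_mem_cons.mpr ⟨k7_25, List.forall_mem_cons.mpr ⟨k7_26, List.forall_mem_nil _⟩⟩⟩⟩⟩⟩⟩⟩⟩⟩⟩⟩⟩⟩⟩⟩⟩⟩⟩⟩⟩⟩⟩⟩⟩⟩⟩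

end Pool.Agent.ICyc.Flag
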