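import Pool.Agent.Lib.MP_131fce_co.Flag.T7

/-!
# Check of the graphs on `7` vertices, part 2
-/

set_option autoImplicit false
set_option maxRecDepth 100000

namespace Pool.Agent.ICyc.Flag

def rk7_1 : List ℕ :=
  [0x1a001c00600060002000400000, 0x1e001900600060004000400020, 0x1c001c00600060006000000000, 
    0x1e001c00600060006000400000, 0x1f001c00600060006000400040, 0x1d001e00600060006000200040, 
    0x1e001e00600060006000600000, 0x1f001e00600060006000600040, 0x1f001f00600060006000600060, 
    0x20004000080010000200040000, 0x30004000400004000800010002, 0x28005000200040000200040000, 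
    0x38004400400040002000010002, 0x38004200440040001000200000, 0x3c004100420040004000100020, 
    0x24004800030020004000100010, 0x30004400480010002000010002, 0x28005000220044000800100000, 
    0x34004800420021004000100008, 0x28005000280050000200040000, 0x34004800480030004000010002, 
    0x34004800480030004200040000, 0x36004800480030004100400004, 0x38004600410040002000200010, 
    0x26005000280011004000400008, 0x1c001a00600060004100200004, 0x1c001c00600060006000010002]

theorem k7_27 : ok7 0x1a001c00600060002000400000 = true := by decide +kernel

theorem k7_28 : ok7 0x1e001900600060004000400020 = true := by decide +kernel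

theorem k7_29 : ok7 0x1c001c00600060006000000000 = true := by decide +kernel

theorem k7_30 : ok7 0x1e001c00600060006000400000 = true := by decide +kernel

theorem k7_31 : ok7 0x1f001c00600060006000400040 = true := by decide +kernel

theorem k7_32 : ok7 0x1d001e00600060006000200040 = true := by decide +kernel

theorem k7_33 : ok7 0x1e001e00600060006000600000 = true := by decide +kernel

theorem k7_34 : ok7 0x1f001e00600060006000600040 = true := by decide +kernel

theorem k7_35 : ok7 0x1f001f00600060006000600060 = true := by decide +kernel

theorem k7_36 : ok7 0x20004000080010000200040000 = true := by decide +kernel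

theorem k7_37 : ok7 0x30004000400004000800010002 = true := by decide +kernel

theorem k7_38 : ok7 0x28005000200040000200040000 = true := by decide +kernel

theorem k7_39 : ok7 0x38004400400040002000010002 = true := by decide +kernel

theorem k7_40 : ok7 0x38004200440040001000200000 = true := by decide +kernel

theorem k7_41 : ok7 0x3c004100420040004000100020 = true := by decide +kernel

theorem k7_42 : ok7 0x24004800030020004000100010 = true := by decide +kernel

theorem k7_43 : ok7 0x30004400480010002000010002 = true := by decide +kernel

theorem k7_44 : ok7 0x28005000220044000800100000 = true := by decide +kernel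

theorem k7_45 : ok7 0x34004800420021004000100008 = true := by decide +kernel

theorem k7_46 : ok7 0x28005000280050000200040000 = true := by decide +kernel

theorem k7_47 : ok7 0x34004800480030004000010002 = true := by decide +kernel

theorem k7_48 : ok7 0x34004800480030004200040000 = true := by decide +kernel

theorem k7_49 : ok7 0x36004800480030004100400004 = true := by decide +kernel

theorem k7_50 : ok7 0x38004600410040002000200010 = true := by decide +kernel

theorem k7_51 : ok7 0x26005000280011004000400008 = true := by decide +kernel

theorem k7_52 : ok7 0x1c001a00600060004100200004 = true := by decide +kernel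

theorem k7_53 : ok7 0x1c001c00600060006000010002 = true := by decide +kernel

theorem ck7_1 : ∀ H ∈ rk7_1, ok7 H = true :=
  List.forall_mem_cons.mpr ⟨k7_27, List.forall_mem_cons.mpr ⟨k7_28, List.forall_mem_cons.mpr ⟨k7_29, List.forall_mem_cons.mpr ⟨k7_30, List.forall_mem_cons.mpr ⟨k7_31, List.forall_mem_cons.mpr ⟨k7_32, List.forall_mem_cons.mpr ⟨k7_33, List.forall_mem_cons.mpr ⟨k7_34, List.forall_mem_cons.mpr ⟨k7_35, List.forall_mem_cons.mpr ⟨k7_36, List.forall_mem_cons.mpr ⟨k7_37, List.forall_mem_cons.mpr ⟨k7_38, List.forall_mem_cons.mpr ⟨k7_39, List.forall_mem_cons.mpr ⟨k7_40, List.forall_mem_cons.mpr ⟨k7_41, List.forall_mem_cons.mpr ⟨k7_42, List.forall_mem_cons.mpr ⟨k7_43, List.forall_mem_cons.mpr ⟨k7_44, List.forall_mem_cons.mpr ⟨k7_45, List.forall_mem_cons.mpr ⟨k7_46, List.forall_mem_cons.mpr ⟨k7_47, List.forall_mem_cons.mpr ⟨k7_48, List.forall_mem_cons.mpr ⟨k7_49, List.forall_mem_cons.mpr ⟨k7_50, List.forall_mem_cons.mpr ⟨k7_51, List.forall_mem_cons.mpr ⟨k7_52, List.forall_mem_cons.mpr ⟨k7_53, List.forall_mem_nil _⟩⟩⟩⟩⟩⟩⟩⟩⟩⟩⟩⟩⟩⟩⟩⟩⟩⟩⟩⟩⟩⟩⟩⟩⟩⟩⟩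

end Pool.Agent.ICyc.Flag
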