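import Pool.Agent.Lib.MP_131fce_co.Flag.T7

/-!
# Check of the graphs on `7` vertices, part 3
-/

set_option autoImplicit false
set_option maxRecDepth 100000

namespace Pool.Agent.ICyc.Flag

def rk7_2 : List ℕ :=
  [0x1e001c00600060006000410002, 0x24005000280014004800000000, 0x32004400480014002800400000, 
    0x33004400480014002800400040, 0x2a005400280050002000400000, 0x36004900480030004000400020, 
    0x15001a00600024004800200040, 0x1a001c00600060002200440000, 0x1d001a00600060004200240040, 
    0x340049004a0030004000100020, 0x1c001c00620060006000100000, 0x1e001c00610060006000400010, 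
    0x1d001e00600060006000210042, 0x1e001e00610060006000600010, 0x28005000280050000300040004, 
    0x30004400480011002200040008, 0x38004200440044001800210002, 0x3c0041004100420042000c0030, 
    0x38004300440044001800200020, 0x22005000280014000a00440000, 0x310044004800120022000c0040, 
    0x29005200240044001800200040, 0x38004100420044000800100020, 0x34004a00480030004100200004, 
    0x2a005400280050002200440000, 0x39004600420044002800300040, 0x1a001c00600060002100410006]

theorem k7_54 : ok7 0x1e001c00600060006000410002 = true := by decide +kernel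

theorem k7_55 : ok7 0x24005000280014004800000000 = true := by decide +kernel

theorem k7_56 : ok7 0x32004400480014002800400000 = true := by decide +kernel

theorem k7_57 : ok7 0x33004400480014002800400040 = true := by decide +kernel

theorem k7_58 : ok7 0x2a005400280050002000400000 = true := by decide +kernel

theorem k7_59 : ok7 0x36004900480030004000400020 = true := by decide +kernel

theorem k7_60 : ok7 0x15001a00600024004800200040 = true := by decide +kernel

theorem k7_61 : ok7 0x1a001c00600060002200440000 = true := by decide +kernel

theorem k7_62 : ok7 0x1d001a00600060004200240040 = true := by decide +kernel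

theorem k7_63 : ok7 0x340049004a0030004000100020 = true := by decide +kernel

theorem k7_64 : ok7 0x1c001c00620060006000100000 = true := by decide +kernel

theorem k7_65 : ok7 0x1e001c00610060006000400010 = true := by decide +kernel

theorem k7_66 : ok7 0x1d001e00600060006000210042 = true := by decide +kernel

theorem k7_67 : ok7 0x1e001e00610060006000600010 = true := by decide +kernel

theorem k7_68 : ok7 0x28005000280050000300040004 = true := by decide +kernel

theorem k7_69 : ok7 0x30004400480011002200040008 = true := by decide +kernel

theorem k7_70 : ok7 0x38004200440044001800210002 = true := by decide +kernel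

theorem k7_71 : ok7 0x3c0041004100420042000c0030 = true := by decide +kernel

theorem k7_72 : ok7 0x38004300440044001800200020 = true := by decide +kernel

theorem k7_73 : ok7 0x22005000280014000a00440000 = true := by decide +kernel

theorem k7_74 : ok7 0x310044004800120022000c0040 = true := by decide +kernel

theorem k7_75 : ok7 0x29005200240044001800200040 = true := by decide +kernel

theorem k7_76 : ok7 0x38004100420044000800100020 = true := by decide +kernel

theorem k7_77 : ok7 0x34004a00480030004100200004 = true := by decide +kernel

theorem k7_78 : ok7 0x2a005400280050002200440000 = true := by decide +kernel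

theorem k7_79 : ok7 0x39004600420044002800300040 = true := by decide +kernel

theorem k7_80 : ok7 0x1a001c00600060002100410006 = true := by decide +kernel

theorem ck7_2 : ∀ H ∈ rk7_2, ok7 H = true :=
  List.forall_mem_cons.mpr ⟨k7_54, List.forall_mem_cons.mpr ⟨k7_55, List.forall_mem_cons.mpr ⟨k7_56, List.forall_mem_cons.mpr ⟨k7_57, List.forall_mem_cons.mpr ⟨k7_58, List.forall_mem_cons.mpr ⟨k7_59, List.forall_mem_cons.mpr ⟨k7_60, List.forall_mem_cons.mpr ⟨k7_61, List.forall_mem_cons.mpr ⟨k7_62, List.forall_mem_cons.mpr ⟨k7_63, List.forall_mem_cons.mpr ⟨k7_64, List.forall_mem_cons.mpr ⟨k7_65, List.forall_mem_cons.mpr ⟨k7_66, List.forall_mem_cons.mpr ⟨k7_67, List.forall_mem_cons.mpr ⟨k7_68, List.forall_mem_cons.mpr ⟨k7_69, List.forall_mem_cons.mpr ⟨k7_70, List.forall_mem_cons.mpr ⟨k7_71, List.forall_mem_cons.mpr ⟨k7_72, List.forall_mem_cons.mpr ⟨k7_73, List.forall_mem_cons.mpr ⟨k7_74, List.forall_mem_cons.mpr ⟨k7_75, List.forall_mem_cons.mpr ⟨k7_76, List.forall_mem_cons.mpr ⟨k7_77, List.forall_mem_cons.mpr ⟨k7_78, List.forall_mem_cons.mpr ⟨k7_79, List.forall_mem_cons.mpr ⟨k7_80, List.forall_mem_nil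 _⟩⟩⟩⟩⟩⟩⟩⟩⟩⟩⟩⟩⟩⟩⟩⟩⟩⟩⟩⟩⟩⟩⟩⟩⟩⟩⟩

end Pool.Agent.ICyc.Flag
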