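import Pool.Agent.Lib.MP_131fce_co.Flag.T7

/-!
# Check of the graphs on `7` vertices, part 4
-/

set_option autoImplicit false
set_option maxRecDepth 100000

namespace Pool.Agent.ICyc.Flag

def rk7_3 : List ℕ :=
  [0x16000e00490030006000600010, 0x34004a00490030004200240010, 0x32004c004c0030003000410002, 
    0x2e0051002c0050005000410022, 0x33004c004c0030003000400040, 0x1c001c00610062006000080010, 
    0x2a0054002a0054002800500000, 0x35004a004a0034004800300040, 0xf0013002c0050005000600060, 
    0x1e001e00610061006000600018, 0x38004300450046001800280030, 0x1c001c00620062006100180004, 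
    0x33004c004c0031003200440048, 0x2a0054002a0054002a00540000, 0x39004600460046003800380040, 
    0x1d001d006200620062001c0060, 0xf000f000f0070007000700070, 0x24005000280014004800010002, 
    0x32004400480014002800410002, 0x15001a00600024004800210042, 0x1a001c00610060002200440010, 
    0x21005000280014000a00050042, 0x2a005400210041002200440018, 0x19001a00640064001800210042, 
    0x29005200250046001800280050, 0x2a0054002a0054002900510006]

theorem k7_81 : ok7 0x16000e00490030006000600010 = true := by decide +kernel

theorem k7_82 : ok7 0x34004a00490030004200240010 = true := by decide +kernel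

theorem k7_83 : ok7 0x32004c004c0030003000410002 = true := by decide +kernel

theorem k7_84 : ok7 0x2e0051002c0050005000410022 = true := by decide +kernel

theorem k7_85 : ok7 0x33004c004c0030003000400040 = true := by decide +kernel

theorem k7_86 : ok7 0x1c001c00610062006000080010 = true := by decide +kernel

theorem k7_87 : ok7 0x2a0054002a0054002800500000 = true := by decide +kernel

theorem k7_88 : ok7 0x35004a004a0034004800300040 = true := by decide +kernel

theorem k7_89 : ok7 0xf0013002c0050005000600060 = true := by decide +kernel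

theorem k7_90 : ok7 0x1e001e00610061006000600018 = true := by decide +kernel

theorem k7_91 : ok7 0x38004300450046001800280030 = true := by decide +kernel

theorem k7_92 : ok7 0x1c001c00620062006100180004 = true := by decide +kernel

theorem k7_93 : ok7 0x33004c004c0031003200440048 = true := by decide +kernel

theorem k7_94 : ok7 0x2a0054002a0054002a00540000 = true := by decide +kernel

theorem k7_95 : ok7 0x39004600460046003800380040 = true := by decide +kernel

theorem k7_96 : ok7 0x1d001d006200620062001c0060 = true := by decide +kernel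

theorem k7_97 : ok7 0xf000f000f0070007000700070 = true := by decide +kernel

theorem k7_98 : ok7 0x24005000280014004800010002 = true := by decide +kernel

theorem k7_99 : ok7 0x32004400480014002800410002 = true := by decide +kernel

theorem k7_100 : ok7 0x15001a00600024004800210042 = true := by decide +kernel

theorem k7_101 : ok7 0x1a001c00610060002200440010 = true := by decide +kernel

theorem k7_102 : ok7 0x21005000280014000a00050042 = true := by decide +kernel

theorem k7_103 : ok7 0x2a005400210041002200440018 = true := by decide +kernel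

theorem k7_104 : ok7 0x19001a00640064001800210042 = true := by decide +kernel

theorem k7_105 : ok7 0x29005200250046001800280050 = true := by decide +kernel

theorem k7_106 : ok7 0x2a0054002a0054002900510006 = true := by decide +kernel

theorem ck7_3 : ∀ H ∈ rk7_3, ok7 H = true :=
  List.forall_mem_cons.mpr ⟨k7_81, List.forall_mem_cons.mpr ⟨k7_82, List.forall_mem_cons.mpr ⟨k7_83, List.forall_mem_cons.mpr ⟨k7_84, List.forall_mem_cons.mpr ⟨k7_85, List.forall_mem_cons.mpr ⟨k7_86, List.forall_mem_cons.mpr ⟨k7_87, List.forall_mem_cons.mpr ⟨k7_88, List.forall_mem_cons.mpr ⟨k7_89, List.forall_mem_cons.mpr ⟨k7_90, List.forall_mem_cons.mpr ⟨k7_91, List.forall_mem_cons.mpr ⟨k7_92, List.forall_mem_cons.mpr ⟨k7_93, List.forall_mem_cons.mpr ⟨k7_94, List.forall_mem_cons.mpr ⟨k7_95, List.forall_mem_cons.mpr ⟨k7_96, List.forall_mem_cons.mpr ⟨k7_97, List.forall_mem_cons.mpr ⟨k7_98, List.forall_mem_cons.mpr ⟨k7_99, List.forall_mem_cons.mpr ⟨k7_100, List.forall_mem_cons.mpr ⟨k7_101, List.forall_mem_cons.mpr ⟨k7_102, List.forall_mem_cons.mpr ⟨k7_103, List.forall_mem_cons.mpr ⟨k7_104, List.forall_mem_cons.mpr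 ⟨k7_105, List.forall_mem_cons.mpr ⟨k7_106, List.forall_mem_nil _⟩⟩⟩⟩⟩⟩⟩⟩⟩⟩⟩⟩⟩⟩⟩⟩⟩⟩⟩⟩⟩⟩⟩⟩⟩⟩

end Pool.Agent.ICyc.Flag
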