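import Pool.Agent.Lib.MP_131fce_co.Flag.Psd7a
import Pool.Agent.Lib.MP_131fce_co.Flag.Chk7a
import Pool.Agent.Lib.MP_131fce_co.Flag.Chk7b
import Pool.Agent.Lib.MP_131fce_co.Flag.Chk7c
import Pool.Agent.Lib.MP_131fce_co.Flag.Chk7d
import Pool.Agent.Lib.MP_131fce_co.Flag.Reps7

/-!
# The bound for `k = 7`
-/

set_option autoImplicit false
set_option maxRecDepth 100000

namespace Pool.Agent.ICyc.Flag

theorem rk7_eq : reps7 = rk7_0 ++ rk7_1 ++ rk7_2 ++ rk7_3 := by decide +kernel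

/-- triangle-free graphs have at most `(n / 7) ^ 7` induced cycles of length `7` -/
theorem bound7 (V : Type) [Fintype V] (G : SimpleGraph V) (hA : AdjOK (adjG G)) :
    (({S : Finset V | S.card = 7 ∧
          Nonempty (G.induce (S : Set V) ≃g SimpleGraph.cycleGraph 7)}.ncard : ℝ)
        ≤ ((Fintype.card V : ℝ) / ((7 : ℕ) : ℝ)) ^ 7) := by
  refine final_bound 7 (by norm_num) G 2160000 (by norm_num) (by norm_num) T7 [0, 1, 1, 1, 1, 1, 33] (by decide +kernel)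
    (fun H => H ∈ reps7) (cls7 hA) (by decide +kernel) (by decide +kernel) ?_ ?_
  · exact ⟨⟨⟨⟨g7_2, trivial⟩, ⟨⟨g7_1, ⟨g7_0, trivial⟩⟩, trivial⟩⟩, trivial⟩, ⟨⟨⟨⟨⟨g7_16, trivial⟩, trivial⟩, trivial⟩, ⟨⟨⟨⟨g7_15, trivial⟩, ⟨⟨g7_14, trivial⟩, trivial⟩⟩, ⟨⟨⟨g7_13, ⟨g7_12, trivial⟩⟩, ⟨⟨g7_11, ⟨g7_10, ⟨g7_9, trivial⟩⟩⟩, ⟨⟨g7_8, ⟨g7_7, ⟨g7_6, trivial⟩⟩⟩, ⟨⟨g7_5, ⟨g7_4, ⟨g7_3, trivial⟩⟩⟩, trivial⟩⟩⟩⟩, trivial⟩⟩, trivial⟩⟩, trivial⟩⟩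
  · intro H hH
    rw [show List.range 7 = [0, 1, 2, 3, 4, 5, 6] by decide, show 2 * 2160000 * Nat.factorial 7 = 21772800000 by decide +kernel,
      show 2160000 * 7 ^ (7 - 1) = 254121840000 by norm_num]
    rw [rk7_eq] at hH
    simp only [List.mem_append] at hH
    rcases hH with ((hH | hH) | hH) | hH
    · exact ck7_0 H hH
    · exact ck7_1 H hH
    · exact ck7_2 H hH
    · exact ck7_3 H hH

end Pool.Agent.ICyc.Flag
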