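import Pool.Agent.Lib.MP_131fce_co.Flag.T8

/-!
# Check of the graphs on `8` vertices, part 1
-/

set_option autoImplicit false
set_option maxRecDepth 100000

namespace Pool.Agent.ICyc.Flag

def rk8_0 : List ℕ :=
  [0x0, 0x400080000000000000000000000000, 0x600080008000000000000000000000, 
    0x700080008000800000000000000000, 0x780080008000800080000000000000, 
    0x7c0080008000800080008000000000, 0x7e0080008000800080008000800000, 
    0x7f0080008000800080008000800080, 0x400080001000200000000000000000, 
    0x600080008000080010000000000000, 0x700080008000800004000800000000, 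
    0x780080008000800080000200040000, 0x7c0080008000800080008000010002, 
    0x5000a0004000800000000000000000, 0x700088008000800040000000000000, 
    0x780084008000800080004000000000, 0x7c0082008000800080008000400000, 
    0x7e0081008000800080008000800040, 0xc0030004000400080008000000000, 
    0x380006008000800080004000400000, 0x3c0003008000800080008000400040, 
    0x600088009000200040000000000000, 0x5800a0004400800080002000000000, 
    0x5c00a0004200800080008000200000, 0x5e00a0004100800080008000800020, 
    0x5000a0005000a00000000000000000, 0x680090009000600080000000000000, 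
    0x6c0090009000600080008000000000, 0x6e0090009000600080008000800000, 
    0x6f0090009000600080008000800080, 0x4c00b0004000400080008000000000, 
    0x780086008000800080004000400000, 0x7c0083008000800080008000400040, 
    0x70038004000400040008000800080, 0x26003800c000400040008000800000]

theorem k8_0 : ok8 0x0 = true := by decide +kernel

theorem k8_1 : ok8 0x400080000000000000000000000000 = true := by decide +kernel

theorem k8_2 : ok8 0x600080008000000000000000000000 = true := by decide +kernel

theorem k8_3 : ok8 0x700080008000800000000000000000 = true := by decide +kernel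

theorem k8_4 : ok8 0x780080008000800080000000000000 = true := by decide +kernel

theorem k8_5 : ok8 0x7c0080008000800080008000000000 = true := by decide +kernel

theorem k8_6 : ok8 0x7e0080008000800080008000800000 = true := by decide +kernel

theorem k8_7 : ok8 0x7f0080008000800080008000800080 = true := by decide +kernel

theorem k8_8 : ok8 0x400080001000200000000000000000 = true := by decide +kernel

theorem k8_9 : ok8 0x600080008000080010000000000000 = true := by decide +kernel

theorem k8_10 : ok8 0x700080008000800004000800000000 = true := by decide +kernel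

theorem k8_11 : ok8 0x780080008000800080000200040000 = true := by decide +kernel

theorem k8_12 : ok8 0x7c0080008000800080008000010002 = true := by decide +kernel

theorem k8_13 : ok8 0x5000a0004000800000000000000000 = true := by decide +kernel

theorem k8_14 : ok8 0x700088008000800040000000000000 = true := by decide +kernel

theorem k8_15 : ok8 0x780084008000800080004000000000 = true := by decide +kernel

theorem k8_16 : ok8 0x7c0082008000800080008000400000 = true := by decide +kernel

theorem k8_17 : ok8 0x7e0081008000800080008000800040 = true := by decide +kernel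

theorem k8_18 : ok8 0xc0030004000400080008000000000 = true := by decide +kernel

theorem k8_19 : ok8 0x380006008000800080004000400000 = true := by decide +kernel

theorem k8_20 : ok8 0x3c0003008000800080008000400040 = true := by decide +kernel

theorem k8_21 : ok8 0x600088009000200040000000000000 = true := by decide +kernel

theorem k8_22 : ok8 0x5800a0004400800080002000000000 = true := by decide +kernel

theorem k8_23 : ok8 0x5c00a0004200800080008000200000 = true := by decide +kernel

theorem k8_24 : ok8 0x5e00a0004100800080008000800020 = true := by decide +kernel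

theorem k8_25 : ok8 0x5000a0005000a00000000000000000 = true := by decide +kernel

theorem k8_26 : ok8 0x680090009000600080000000000000 = true := by decide +kernel

theorem k8_27 : ok8 0x6c0090009000600080008000000000 = true := by decide +kernel

theorem k8_28 : ok8 0x6e0090009000600080008000800000 = true := by decide +kernel

theorem k8_29 : ok8 0x6f0090009000600080008000800080 = true := by decide +kernel

theorem k8_30 : ok8 0x4c00b0004000400080008000000000 = true := by decide +kernel

theorem k8_31 : ok8 0x780086008000800080004000400000 = true := by decide +kernel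

theorem k8_32 : ok8 0x7c0083008000800080008000400040 = true := by decide +kernel

theorem k8_33 : ok8 0x70038004000400040008000800080 = true := by decide +kernel

theorem k8_34 : ok8 0x26003800c000400040008000800000 = true := by decide +kernel

theorem ck8_0 : ∀ H ∈ rk8_0, ok8 H = true :=
  List.forall_mem_cons.mpr ⟨k8_0, List.forall_mem_cons.mpr ⟨k8_1, List.forall_mem_cons.mpr ⟨k8_2, List.forall_mem_cons.mpr ⟨k8_3, List.forall_mem_cons.mpr ⟨k8_4, List.forall_mem_cons.mpr ⟨k8_5, List.forall_mem_cons.mpr ⟨k8_6, List.forall_mem_cons.mpr ⟨k8_7, List.forall_mem_cons.mpr ⟨k8_8, List.forall_mem_cons.mpr ⟨k8_9, List.forall_mem_cons.mpr ⟨k8_10, List.forall_mem_cons.mpr ⟨k8_11, List.forall_mem_cons.mpr ⟨k8_12, List.forall_mem_cons.mpr ⟨k8_13, List.forall_mem_cons.mpr ⟨k8_14, List.forall_mem_cons.mpr ⟨k8_15, List.forall_mem_cons.mpr ⟨k8_16, List.forall_mem_cons.mpr ⟨k8_17, List.forall_mem_cons.mpr ⟨k8_18, List.forall_mem_cons.mpr ⟨k8_19, List.forall_mem_cons.mpr ⟨k8_20, List.forall_mem_cons.mpr ⟨k8_21, List.forall_mem_cons.mpr ⟨k8_22, List.forall_mem_cons.mpr ⟨k8_23, List.forall_mem_cons.mpr ⟨k8_24, List.forall_mem_cons.mpr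 ⟨k8_25, List.forall_mem_cons.mpr ⟨k8_26, List.forall_mem_cons.mpr ⟨k8_27, List.forall_mem_cons.mpr ⟨k8_28, List.forall_mem_cons.mpr ⟨k8_29, List.forall_mem_cons.mpr ⟨k8_30, List.forall_mem_cons.mpr ⟨k8_31, List.forall_mem_cons.mpr ⟨k8_32, List.forall_mem_cons.mpr ⟨k8_33, List.forall_mem_cons.mpr ⟨k8_34, List.forall_mem_nil _⟩⟩⟩⟩⟩⟩⟩⟩⟩⟩⟩⟩⟩⟩⟩⟩⟩⟩⟩⟩⟩⟩⟩⟩⟩⟩⟩⟩⟩⟩⟩⟩⟩⟩⟩

end Pool.Agent.ICyc.Flag
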