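import Pool.Agent.Lib.MP_131fce_co.Flag.T8

/-!
# Check of the graphs on `8` vertices, part 2
-/

set_option autoImplicit false
set_option maxRecDepth 100000

namespace Pool.Agent.ICyc.Flag

def rk8_1 : List ℕ :=
  [0x3c002300c000800080008000400040, 0x34003800c000c00040008000000000, 
    0x3c003200c000c00080008000400000, 0x3e003100c000c00080008000800040, 
    0x38003800c000c000c0000000000000, 0x3c003800c000c000c0008000000000, 
    0x3e003800c000c000c0008000800000, 0x3f003800c000c000c0008000800080, 
    0x4700b8004000400040008000800080, 0x33003c00c000c00040004000800080, 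
    0x3a003c00c000c000c0004000800000, 0x3e003900c000c000c0008000800040, 
    0x3c003c00c000c000c000c000000000, 0x3e003c00c000c000c000c000800000, 
    0x3f003c00c000c000c000c000800080, 0x3d003e00c000c000c000c000400080, 
    0x3e003e00c000c000c000c000c00000, 0x3f003e00c000c000c000c000c00080, 
    0x3f003f00c000c000c000c000c000c0, 0x400080001000200004000800000000, 
    0x600080008000080010000200040000, 0x700080008000800004000800010002, 
    0x5000a0004000800004000800000000, 0x700088008000800040000200040000, 
    0x780084008000800080004000010002, 0x700084008800800020004000000000, 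
    0x780082008400800080002000400000, 0x7c0081008200800080008000200040, 
    0xc0030004000400080008000010002, 0x480090000600400080002000200000, 
    0x580084000300800080004000200020, 0x600088009000200040000200040000, 
    0x5800a0004400800080002000010002, 0x5000a0004400880010002000000000, 
    0x680090008400420080002000100000]

theorem k8_35 : ok8 0x3c002300c000800080008000400040 = true := by decide +kernel

theorem k8_36 : ok8 0x34003800c000c00040008000000000 = true := by decide +kernel

theorem k8_37 : ok8 0x3c003200c000c00080008000400000 = true := by decide +kernel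

theorem k8_38 : ok8 0x3e003100c000c00080008000800040 = true := by decide +kernel

theorem k8_39 : ok8 0x38003800c000c000c0000000000000 = true := by decide +kernel

theorem k8_40 : ok8 0x3c003800c000c000c0008000000000 = true := by decide +kernel

theorem k8_41 : ok8 0x3e003800c000c000c0008000800000 = true := by decide +kernel

theorem k8_42 : ok8 0x3f003800c000c000c0008000800080 = true := by decide +kernel

theorem k8_43 : ok8 0x4700b8004000400040008000800080 = true := by decide +kernel

theorem k8_44 : ok8 0x33003c00c000c00040004000800080 = true := by decide +kernel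

theorem k8_45 : ok8 0x3a003c00c000c000c0004000800000 = true := by decide +kernel

theorem k8_46 : ok8 0x3e003900c000c000c0008000800040 = true := by decide +kernel

theorem k8_47 : ok8 0x3c003c00c000c000c000c000000000 = true := by decide +kernel

theorem k8_48 : ok8 0x3e003c00c000c000c000c000800000 = true := by decide +kernel

theorem k8_49 : ok8 0x3f003c00c000c000c000c000800080 = true := by decide +kernel

theorem k8_50 : ok8 0x3d003e00c000c000c000c000400080 = true := by decide +kernel

theorem k8_51 : ok8 0x3e003e00c000c000c000c000c00000 = true := by decide +kernel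

theorem k8_52 : ok8 0x3f003e00c000c000c000c000c00080 = true := by decide +kernel

theorem k8_53 : ok8 0x3f003f00c000c000c000c000c000c0 = true := by decide +kernel

theorem k8_54 : ok8 0x400080001000200004000800000000 = true := by decide +kernel

theorem k8_55 : ok8 0x600080008000080010000200040000 = true := by decide +kernel

theorem k8_56 : ok8 0x700080008000800004000800010002 = true := by decide +kernel

theorem k8_57 : ok8 0x5000a0004000800004000800000000 = true := by decide +kernel

theorem k8_58 : ok8 0x700088008000800040000200040000 = true := by decide +kernel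

theorem k8_59 : ok8 0x780084008000800080004000010002 = true := by decide +kernel

theorem k8_60 : ok8 0x700084008800800020004000000000 = true := by decide +kernel

theorem k8_61 : ok8 0x780082008400800080002000400000 = true := by decide +kernel

theorem k8_62 : ok8 0x7c0081008200800080008000200040 = true := by decide +kernel

theorem k8_63 : ok8 0xc0030004000400080008000010002 = true := by decide +kernel

theorem k8_64 : ok8 0x480090000600400080002000200000 = true := by decide +kernel

theorem k8_65 : ok8 0x580084000300800080004000200020 = true := by decide +kernel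

theorem k8_66 : ok8 0x600088009000200040000200040000 = true := by decide +kernel

theorem k8_67 : ok8 0x5800a0004400800080002000010002 = true := by decide +kernel

theorem k8_68 : ok8 0x5000a0004400880010002000000000 = true := by decide +kernel

theorem k8_69 : ok8 0x680090008400420080002000100000 = true := by decide +kernel

theorem ck8_1 : ∀ H ∈ rk8_1, ok8 H = true :=
  List.forall_mem_cons.mpr ⟨k8_35, List.forall_mem_cons.mpr ⟨k8_36, List.forall_mem_cons.mpr ⟨k8_37, List.forall_mem_cons.mpr ⟨k8_38, List.forall_mem_cons.mpr ⟨k8_39, List.forall_mem_cons.mpr ⟨k8_40, List.forall_mem_cons.mpr ⟨k8_41, List.forall_mem_cons.mpr ⟨k8_42, List.forall_mem_cons.mpr ⟨k8_43, List.forall_mem_cons.mpr ⟨k8_44, List.forall_mem_cons.mpr ⟨k8_45, List.forall_mem_cons.mpr ⟨k8_46, List.forall_mem_cons.mpr ⟨k8_47, List.forall_mem_cons.mpr ⟨k8_48, List.forall_mem_cons.mpr ⟨k8_49, List.forall_mem_cons.mpr ⟨k8_50, List.forall_mem_cons.mpr ⟨k8_51, List.forall_mem_cons.mpr ⟨k8_52, List.forall_mem_cons.mpr ⟨k8_53, List.forall_mem_cons.mpr ⟨k8_54, List.forall_mem_cons.mpr ⟨k8_55, List.forall_mem_cons.mpr ⟨k8_56,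 List.forall_mem_cons.mpr ⟨k8_57, List.forall_mem_cons.mpr ⟨k8_58, List.forall_mem_cons.mpr ⟨k8_59, List.forall_mem_cons.mpr ⟨k8_60, List.forall_mem_cons.mpr ⟨k8_61, List.forall_mem_cons.mpr ⟨k8_62, List.forall_mem_cons.mpr ⟨k8_63, List.forall_mem_cons.mpr ⟨k8_64, List.forall_mem_cons.mpr ⟨k8_65, List.forall_mem_cons.mpr ⟨k8_66, List.forall_mem_cons.mpr ⟨k8_67, List.forall_mem_cons.mpr ⟨k8_68, List.forall_mem_cons.mpr ⟨k8_69, List.forall_mem_nil _⟩⟩⟩⟩⟩⟩⟩⟩⟩⟩⟩⟩⟩⟩⟩⟩⟩⟩⟩⟩⟩⟩⟩⟩⟩⟩⟩⟩⟩⟩⟩⟩⟩⟩⟩

end Pool.Agent.ICyc.Flag
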