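import Pool.Agent.Lib.MP_131fce_co.Flag.T8

/-!
# Check of the graphs on `8` vertices, part 3
-/

set_option autoImplicit false
set_option maxRecDepth 100000

namespace Pool.Agent.ICyc.Flag

def rk8_2 : List ℕ :=
  [0x6c0090008200410080008000200010, 0x5000a0005000a00004000800000000, 
    0x680090009000600080000200040000, 0x6c0090009000600080008000010002, 
    0x680090009000600084000800000000, 0x6c0090009000600082008000080000, 
    0x6e0090009000600081008000800008, 0x4c00b0004000400080008000010002, 
    0x70008c008200800040004000200000, 0x780086008100800080004000400020, 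
    0x1c0021004200800080008000200040, 0x4c00a0005000220080008000100000, 
    0x38002600c000810080004000400010, 0x34003800c000c00040008000010002, 
    0x38003400c000c00082004000080000, 0x3c003200c000c00081008000400008, 
    0x38003800c000c000c0000200040000, 0x3c003800c000c000c0008000010002, 
    0x3c003800c000c000c0008200040000, 0x3e003800c000c000c0008100800004, 
    0x5c00a2004100800080008000400020, 0x4e00a0005000210080008000800010, 
    0x36003800c000c00041008000800008, 0x3c003a00c000c000c0008100400004, 
    0x3c003c00c000c000c000c000010002, 0x3e003c00c000c000c000c000810002, 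
    0x4800a0005000280090000000000000, 0x640088009000280050008000000000, 
    0x660088009000280050008000800000, 0x670088009000280050008000800080, 
    0x5400a8005000a00040008000000000, 0x6c0092009000600080008000400000, 
    0x6e0091009000600080008000800040, 0x13002c005000a00040004000800080, 
    0x2a003400c000480090004000800000]

theorem k8_70 : ok8 0x6c0090008200410080008000200010 = true := by decide +kernel

theorem k8_71 : ok8 0x5000a0005000a00004000800000000 = true := by decide +kernel

theorem k8_72 : ok8 0x680090009000600080000200040000 = true := by decide +kernel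

theorem k8_73 : ok8 0x6c0090009000600080008000010002 = true := by decide +kernel

theorem k8_74 : ok8 0x680090009000600084000800000000 = true := by decide +kernel

theorem k8_75 : ok8 0x6c0090009000600082008000080000 = true := by decide +kernel

theorem k8_76 : ok8 0x6e0090009000600081008000800008 = true := by decide +kernel

theorem k8_77 : ok8 0x4c00b0004000400080008000010002 = true := by decide +kernel

theorem k8_78 : ok8 0x70008c008200800040004000200000 = true := by decide +kernel

theorem k8_79 : ok8 0x780086008100800080004000400020 = true := by decide +kernel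

theorem k8_80 : ok8 0x1c0021004200800080008000200040 = true := by decide +kernel

theorem k8_81 : ok8 0x4c00a0005000220080008000100000 = true := by decide +kernel

theorem k8_82 : ok8 0x38002600c000810080004000400010 = true := by decide +kernel

theorem k8_83 : ok8 0x34003800c000c00040008000010002 = true := by decide +kernel

theorem k8_84 : ok8 0x38003400c000c00082004000080000 = true := by decide +kernel

theorem k8_85 : ok8 0x3c003200c000c00081008000400008 = true := by decide +kernel

theorem k8_86 : ok8 0x38003800c000c000c0000200040000 = true := by decide +kernel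

theorem k8_87 : ok8 0x3c003800c000c000c0008000010002 = true := by decide +kernel

theorem k8_88 : ok8 0x3c003800c000c000c0008200040000 = true := by decide +kernel

theorem k8_89 : ok8 0x3e003800c000c000c0008100800004 = true := by decide +kernel

theorem k8_90 : ok8 0x5c00a2004100800080008000400020 = true := by decide +kernel

theorem k8_91 : ok8 0x4e00a0005000210080008000800010 = true := by decide +kernel

theorem k8_92 : ok8 0x36003800c000c00041008000800008 = true := by decide +kernel

theorem k8_93 : ok8 0x3c003a00c000c000c0008100400004 = true := by decide +kernel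

theorem k8_94 : ok8 0x3c003c00c000c000c000c000010002 = true := by decide +kernel

theorem k8_95 : ok8 0x3e003c00c000c000c000c000810002 = true := by decide +kernel

theorem k8_96 : ok8 0x4800a0005000280090000000000000 = true := by decide +kernel

theorem k8_97 : ok8 0x640088009000280050008000000000 = true := by decide +kernel

theorem k8_98 : ok8 0x660088009000280050008000800000 = true := by decide +kernel

theorem k8_99 : ok8 0x670088009000280050008000800080 = true := by decide +kernel

theorem k8_100 : ok8 0x5400a8005000a00040008000000000 = true := by decide +kernel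

theorem k8_101 : ok8 0x6c0092009000600080008000400000 = true := by decide +kernel

theorem k8_102 : ok8 0x6e0091009000600080008000800040 = true := by decide +kernel

theorem k8_103 : ok8 0x13002c005000a00040004000800080 = true := by decide +kernel

theorem k8_104 : ok8 0x2a003400c000480090004000800000 = true := by decide +kernel

theorem ck8_2 : ∀ H ∈ rk8_2, ok8 H = true :=
  List.forall_mem_cons.mpr ⟨k8_70, List.forall_mem_cons.mpr ⟨k8_71, List.forall_mem_cons.mpr ⟨k8_72, List.forall_mem_cons.mpr ⟨k8_73, List.forall_mem_cons.mpr ⟨k8_74, List.forall_mem_cons.mpr ⟨k8_75, List.forall_mem_cons.mpr ⟨k8_76, List.forall_mem_cons.mpr ⟨k8_77, List.forall_mem_cons.mpr ⟨k8_78, List.forall_mem_cons.mpr ⟨k8_79, List.forall_mem_cons.mpr ⟨k8_80, List.forall_mem_cons.mpr ⟨k8_81, List.forall_mem_cons.mpr ⟨k8_82, List.forall_mem_cons.mpr ⟨k8_83, List.forall_mem_cons.mpr ⟨k8_84, List.forall_mem_cons.mpr ⟨k8_85, List.forall_mem_cons.mpr ⟨k8_86, List.forall_mem_cons.mpr ⟨k8_87, List.forall_mem_cons.mpr ⟨k8_88, List.forall_mem_cons.mpr ⟨k8_89, List.forall_mem_cons.mpr ⟨k8_90, List.forall_mem_cons.mpr ⟨k8_91,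 List.forall_mem_cons.mpr ⟨k8_92, List.forall_mem_cons.mpr ⟨k8_93, List.forall_mem_cons.mpr ⟨k8_94, List.forall_mem_cons.mpr ⟨k8_95, List.forall_mem_cons.mpr ⟨k8_96, List.forall_mem_cons.mpr ⟨k8_97, List.forall_mem_cons.mpr ⟨k8_98, List.forall_mem_cons.mpr ⟨k8_99, List.forall_mem_cons.mpr ⟨k8_100, List.forall_mem_cons.mpr ⟨k8_101, List.forall_mem_cons.mpr ⟨k8_102, List.forall_mem_cons.mpr ⟨k8_103, List.forall_mem_cons.mpr ⟨k8_104, List.forall_mem_nil _⟩⟩⟩⟩⟩⟩⟩⟩⟩⟩⟩⟩⟩⟩⟩⟩⟩⟩⟩⟩⟩⟩⟩⟩⟩⟩⟩⟩⟩⟩⟩⟩⟩⟩⟩

end Pool.Agent.ICyc.Flag
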