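import Pool.Agent.Lib.MP_131fce_co.Flag.T8

/-!
# Check of the graphs on `8` vertices, part 4
-/

set_option autoImplicit false
set_option maxRecDepth 100000

namespace Pool.Agent.ICyc.Flag

def rk8_3 : List ℕ :=
  [0x36002900c000880050008000800040, 0x34003800c000c00044008800000000, 
    0x3a003400c000c00084004800800000, 0x3b003400c000c00084004800800080, 
    0x700083008c00800020002000400040, 0x680092009400600080002000400000, 
    0x5c00a2005100a00080008000400020, 0x38003800c400c000c0002000000000, 
    0x3c003800c200c000c0008000200000, 0x3e003800c100c000c0008000800020, 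
    0x5300ac005000a00040004000800080, 0x35003a00c000c00044008800400080, 
    0x3a003c00c000c000c0004200840000, 0x3d003a00c000c000c0008200440080, 
    0x3a003c00c100c000c0004000800020, 0x3c003c00c200c000c000c000200000, 
    0x3e003c00c100c000c000c000800020, 0x3d003e00c000c000c000c000410082, 
    0x3e003e00c100c000c000c000c00020, 0x600084008800030020004000100010, 
    0x5000a0005000a00006000800080000, 0x640090009000600003008000080008, 
    0x600088009000220044000800100000, 0x640088009000210042008000080010, 
    0x700084008800880030004200040000, 0x720084008800880030004100800004, 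
    0x780082008200840084001800600000, 0x790082008200840084001800600080, 
    0x680086009000210080004000400010, 0x700086008800880030004000400000, 
    0x740083008800880030008000400040, 0x70028005000280050008000800080, 
    0x4600a0005000280011008000800008, 0x38002300c000840084001800400040, 
    0x38003200c000c00084000900400004]

theorem k8_105 : ok8 0x36002900c000880050008000800040 = true := by decide +kernel

theorem k8_106 : ok8 0x34003800c000c00044008800000000 = true := by decide +kernel

theorem k8_107 : ok8 0x3a003400c000c00084004800800000 = true := by decide +kernel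

theorem k8_108 : ok8 0x3b003400c000c00084004800800080 = true := by decide +kernel

theorem k8_109 : ok8 0x700083008c00800020002000400040 = true := by decide +kernel

theorem k8_110 : ok8 0x680092009400600080002000400000 = true := by decide +kernel

theorem k8_111 : ok8 0x5c00a2005100a00080008000400020 = true := by decide +kernel

theorem k8_112 : ok8 0x38003800c400c000c0002000000000 = true := by decide +kernel

theorem k8_113 : ok8 0x3c003800c200c000c0008000200000 = true := by decide +kernel

theorem k8_114 : ok8 0x3e003800c100c000c0008000800020 = true := by decide +kernel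

theorem k8_115 : ok8 0x5300ac005000a00040004000800080 = true := by decide +kernel

theorem k8_116 : ok8 0x35003a00c000c00044008800400080 = true := by decide +kernel

theorem k8_117 : ok8 0x3a003c00c000c000c0004200840000 = true := by decide +kernel

theorem k8_118 : ok8 0x3d003a00c000c000c0008200440080 = true := by decide +kernel

theorem k8_119 : ok8 0x3a003c00c100c000c0004000800020 = true := by decide +kernel

theorem k8_120 : ok8 0x3c003c00c200c000c000c000200000 = true := by decide +kernel

theorem k8_121 : ok8 0x3e003c00c100c000c000c000800020 = true := by decide +kernel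

theorem k8_122 : ok8 0x3d003e00c000c000c000c000410082 = true := by decide +kernel

theorem k8_123 : ok8 0x3e003e00c100c000c000c000c00020 = true := by decide +kernel

theorem k8_124 : ok8 0x600084008800030020004000100010 = true := by decide +kernel

theorem k8_125 : ok8 0x5000a0005000a00006000800080000 = true := by decide +kernel

theorem k8_126 : ok8 0x640090009000600003008000080008 = true := by decide +kernel

theorem k8_127 : ok8 0x600088009000220044000800100000 = true := by decide +kernel

theorem k8_128 : ok8 0x640088009000210042008000080010 = true := by decide +kernel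

theorem k8_129 : ok8 0x700084008800880030004200040000 = true := by decide +kernel

theorem k8_130 : ok8 0x720084008800880030004100800004 = true := by decide +kernel

theorem k8_131 : ok8 0x780082008200840084001800600000 = true := by decide +kernel

theorem k8_132 : ok8 0x790082008200840084001800600080 = true := by decide +kernel

theorem k8_133 : ok8 0x680086009000210080004000400010 = true := by decide +kernel

theorem k8_134 : ok8 0x700086008800880030004000400000 = true := by decide +kernel

theorem k8_135 : ok8 0x740083008800880030008000400040 = true := by decide +kernel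

theorem k8_136 : ok8 0x70028005000280050008000800080 = true := by decide +kernel

theorem k8_137 : ok8 0x4600a0005000280011008000800008 = true := by decide +kernel

theorem k8_138 : ok8 0x38002300c000840084001800400040 = true := by decide +kernel

theorem k8_139 : ok8 0x38003200c000c00084000900400004 = true := by decide +kernel

theorem ck8_3 : ∀ H ∈ rk8_3, ok8 H = true :=
  List.forall_mem_cons.mpr ⟨k8_105, List.forall_mem_cons.mpr ⟨k8_106, List.forall_mem_cons.mpr ⟨k8_107, List.forall_mem_cons.mpr ⟨k8_108, List.forall_mem_cons.mpr ⟨k8_109, List.forall_mem_cons.mpr ⟨k8_110, List.forall_mem_cons.mpr ⟨k8_111, List.forall_mem_cons.mpr ⟨k8_112, List.forall_mem_cons.mpr ⟨k8_113, List.forall_mem_cons.mpr ⟨k8_114, List.forall_mem_cons.mpr ⟨k8_115, List.forall_mem_cons.mpr ⟨k8_116, List.forall_mem_cons.mpr ⟨k8_117, List.forall_mem_cons.mpr ⟨k8_118, List.forall_mem_cons.mpr ⟨k8_119, List.forall_mem_cons.mpr ⟨k8_120, List.forall_mem_cons.mpr ⟨k8_121, List.forall_mem_cons.mpr ⟨k8_122, List.forall_mem_cons.mpr ⟨k8_123, List.forall_mem_cons.mpr ⟨k8_124, List.forall_mem_cons.mpr ⟨k8_125, List.forall_mem_cons.mpr ⟨k8_126,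 List.forall_mem_cons.mpr ⟨k8_127, List.forall_mem_cons.mpr ⟨k8_128, List.forall_mem_cons.mpr ⟨k8_129, List.forall_mem_cons.mpr ⟨k8_130, List.forall_mem_cons.mpr ⟨k8_131, List.forall_mem_cons.mpr ⟨k8_132, List.forall_mem_cons.mpr ⟨k8_133, List.forall_mem_cons.mpr ⟨k8_134, List.forall_mem_cons.mpr ⟨k8_135, List.forall_mem_cons.mpr ⟨k8_136, List.forall_mem_cons.mpr ⟨k8_137, List.forall_mem_cons.mpr ⟨k8_138, List.forall_mem_cons.mpr ⟨k8_139, List.forall_mem_nil _⟩⟩⟩⟩⟩⟩⟩⟩⟩⟩⟩⟩⟩⟩⟩⟩⟩⟩⟩⟩⟩⟩⟩⟩⟩⟩⟩⟩⟩⟩⟩⟩⟩⟩⟩

end Pool.Agent.ICyc.Flag
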