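import Pool.Agent.Lib.MP_131fce_co.Flag.T8

/-!
# Check of the graphs on `8` vertices, part 5
-/

set_option autoImplicit false
set_option maxRecDepth 100000

namespace Pool.Agent.ICyc.Flag

def rk8_4 : List ℕ :=
  [0x3c003100c000c000820082000c0040, 0x38003800c000c000c0000300040004, 
    0x3c003800c000c000c0008200050002, 0x3e003800c000c000c0008100810006, 
    0x38001c008300c000c0004000200020, 0x3c001c008300c000c000c000200020, 
    0x4700b0004800480030008000800080, 0x4400a0005000280014008800000000, 
    0x620088009000240044001800800000, 0x630088009000240044001800800080, 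
    0x5200a4004800880030004000800000, 0x660091008800480030008000800040, 
    0x6c0091009200600080008000200040, 0x700082008400880010002000400000, 
    0x70008c008100820040004000100020, 0x680094009000600082004000080000, 
    0x660098009000600041008000800008, 0x5400a8005000a00044008800000000, 
    0x72008c008400880050006000800000, 0x73008c008400880050006000800080, 
    0x29003200c000440084001800400080, 0x34003800c000c000420082000c0000, 
    0x39003400c000c000820042000c0080, 0x4a00940019006000a0004000800020, 
    0x2c001c0092006000c000c000200000, 0x3a001c008500c000c0006000800020, 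
    0x70008c008300880050004000200020, 0x680092009400600081002000400008, 
    0x680094009200600084004800200000, 0x5a00a4005100a00084004800800020, 
    0x640098009800600060008200040000, 0x5a00a4005800a000a0004100800004, 
    0x5c00a2005800a000a0008200440000, 0x5d00a2005800a000a0008200440080, 
    0x3a003c00c000c000c0004100810006]

theorem k8_140 : ok8 0x3c003100c000c000820082000c0040 = true := by decide +kernel

theorem k8_141 : ok8 0x38003800c000c000c0000300040004 = true := by decide +kernel

theorem k8_142 : ok8 0x3c003800c000c000c0008200050002 = true := by decide +kernel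

theorem k8_143 : ok8 0x3e003800c000c000c0008100810006 = true := by decide +kernel

theorem k8_144 : ok8 0x38001c008300c000c0004000200020 = true := by decide +kernel

theorem k8_145 : ok8 0x3c001c008300c000c000c000200020 = true := by decide +kernel

theorem k8_146 : ok8 0x4700b0004800480030008000800080 = true := by decide +kernel

theorem k8_147 : ok8 0x4400a0005000280014008800000000 = true := by decide +kernel

theorem k8_148 : ok8 0x620088009000240044001800800000 = true := by decide +kernel

theorem k8_149 : ok8 0x630088009000240044001800800080 = true := by decide +kernel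

theorem k8_150 : ok8 0x5200a4004800880030004000800000 = true := by decide +kernel

theorem k8_151 : ok8 0x660091008800480030008000800040 = true := by decide +kernel

theorem k8_152 : ok8 0x6c0091009200600080008000200040 = true := by decide +kernel

theorem k8_153 : ok8 0x700082008400880010002000400000 = true := by decide +kernel

theorem k8_154 : ok8 0x70008c008100820040004000100020 = true := by decide +kernel

theorem k8_155 : ok8 0x680094009000600082004000080000 = true := by decide +kernel

theorem k8_156 : ok8 0x660098009000600041008000800008 = true := by decide +kernel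

theorem k8_157 : ok8 0x5400a8005000a00044008800000000 = true := by decide +kernel

theorem k8_158 : ok8 0x72008c008400880050006000800000 = true := by decide +kernel

theorem k8_159 : ok8 0x73008c008400880050006000800080 = true := by decide +kernel

theorem k8_160 : ok8 0x29003200c000440084001800400080 = true := by decide +kernel

theorem k8_161 : ok8 0x34003800c000c000420082000c0000 = true := by decide +kernel

theorem k8_162 : ok8 0x39003400c000c000820042000c0080 = true := by decide +kernel

theorem k8_163 : ok8 0x4a00940019006000a0004000800020 = true := by decide +kernel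

theorem k8_164 : ok8 0x2c001c0092006000c000c000200000 = true := by decide +kernel

theorem k8_165 : ok8 0x3a001c008500c000c0006000800020 = true := by decide +kernel

theorem k8_166 : ok8 0x70008c008300880050004000200020 = true := by decide +kernel

theorem k8_167 : ok8 0x680092009400600081002000400008 = true := by decide +kernel

theorem k8_168 : ok8 0x680094009200600084004800200000 = true := by decide +kernel

theorem k8_169 : ok8 0x5a00a4005100a00084004800800020 = true := by decide +kernel

theorem k8_170 : ok8 0x640098009800600060008200040000 = true := by decide +kernel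

theorem k8_171 : ok8 0x5a00a4005800a000a0004100800004 = true := by decide +kernel

theorem k8_172 : ok8 0x5c00a2005800a000a0008200440000 = true := by decide +kernel

theorem k8_173 : ok8 0x5d00a2005800a000a0008200440080 = true := by decide +kernel

theorem k8_174 : ok8 0x3a003c00c000c000c0004100810006 = true := by decide +kernel

theorem ck8_4 : ∀ H ∈ rk8_4, ok8 H = true :=
  List.forall_mem_cons.mpr ⟨k8_140, List.forall_mem_cons.mpr ⟨k8_141, List.forall_mem_cons.mpr ⟨k8_142, List.forall_mem_cons.mpr ⟨k8_143, List.forall_mem_cons.mpr ⟨k8_144, List.forall_mem_cons.mpr ⟨k8_145, List.forall_mem_cons.mpr ⟨k8_146, List.forall_mem_cons.mpr ⟨k8_147, List.forall_mem_cons.mpr ⟨k8_148, List.forall_mem_cons.mpr ⟨k8_149, List.forall_mem_cons.mpr ⟨k8_150, List.forall_mem_cons.mpr ⟨k8_151, List.forall_mem_cons.mpr ⟨k8_152, List.forall_mem_cons.mpr ⟨k8_153, List.forall_mem_cons.mpr ⟨k8_154, List.forall_mem_cons.mpr ⟨k8_155, List.forall_mem_cons.mpr ⟨k8_156, List.forall_mem_cons.mpr ⟨k8_157, List.forall_mem_cons.mpr ⟨k8_158, List.forall_mem_cons.mpr ⟨k8_159, List.forall_mem_cons.mpr ⟨k8_160, List.forall_mem_cons.mpr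 ⟨k8_161, List.forall_mem_cons.mpr ⟨k8_162, List.forall_mem_cons.mpr ⟨k8_163, List.forall_mem_cons.mpr ⟨k8_164, List.forall_mem_cons.mpr ⟨k8_165, List.forall_mem_cons.mpr ⟨k8_166, List.forall_mem_cons.mpr ⟨k8_167, List.forall_mem_cons.mpr ⟨k8_168, List.forall_mem_cons.mpr ⟨k8_169, List.forall_mem_cons.mpr ⟨k8_170, List.forall_mem_cons.mpr ⟨k8_171, List.forall_mem_cons.mpr ⟨k8_172, List.forall_mem_cons.mpr ⟨k8_173, List.forall_mem_cons.mpr ⟨k8_174, List.forall_mem_nil _⟩⟩⟩⟩⟩⟩⟩⟩⟩⟩⟩⟩⟩⟩⟩⟩⟩⟩⟩⟩⟩⟩⟩⟩⟩⟩⟩⟩⟩⟩⟩⟩⟩⟩⟩

end Pool.Agent.ICyc.Flag
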