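import Pool.Agent.Lib.MP_131fce_co.Flag.T8

/-!
# Check of the graphs on `8` vertices, part 6
-/

set_option autoImplicit false
set_option maxRecDepth 100000

namespace Pool.Agent.ICyc.Flag

def rk8_5 : List ℕ :=
  [0x1e002c005100a000c000c000800020, 0x3c001e008300c000c000c000600020, 
    0x5300a8005400a00044002800800080, 0x3c003900c200c000c0008200240040, 
    0x3c003c00c200c000c000c000210002, 0x3e003c00c100c000c000c000810022, 
    0x660098009800600060008000800000, 0x670098009800600060008000800080, 
    0x53008c001c00a00060006000800080, 0x38003800c200c400c0001000200000, 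
    0x660098009800610060008000800010, 0x5400a8005400a8005000a000000000, 
    0x6a0094009400680090006000800000, 0x6b0094009400680090006000800080, 
    0x5c00a3005800a000a0008000400040, 0x1e0026005800a000a000c000c00000, 
    0x1e0039004600c000c000a000a00040, 0x39003a00c400c400c0003000400080, 
    0x3c003c00c200c200c000c000300000, 0x3d003c00c200c200c000c000300080, 
    0x1f0026005800a000a000c000c00080, 0x1f003c004300c000c000c000a000a0, 
    0x3e003e00c100c100c000c000c00030, 0x3c003c00c300c000c000c000200020, 
    0xe00160019006000a000c000c00020, 0x1e0007001900a000a000c000c00060, 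
    0x70008c008c00830060006000100010, 0x70008c0085008a0050006000100020, 
    0x4e00b000460049009000a000a00010, 0x4f00b00043004c0090009000a000a0, 
    0x700086008a008c0030005000600000, 0x4d00b00046004a009000a000300080, 
    0x38003800c100c200c4000800100020, 0x38003800c400c400c2003000080000, 
    0x660098009800640061009000800008]

theorem k8_175 : ok8 0x1e002c005100a000c000c000800020 = true := by decide +kernel

theorem k8_176 : ok8 0x3c001e008300c000c000c000600020 = true := by decide +kernel

theorem k8_177 : ok8 0x5300a8005400a00044002800800080 = true := by decide +kernel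

theorem k8_178 : ok8 0x3c003900c200c000c0008200240040 = true := by decide +kernel

theorem k8_179 : ok8 0x3c003c00c200c000c000c000210002 = true := by decide +kernel

theorem k8_180 : ok8 0x3e003c00c100c000c000c000810022 = true := by decide +kernel

theorem k8_181 : ok8 0x660098009800600060008000800000 = true := by decide +kernel

theorem k8_182 : ok8 0x670098009800600060008000800080 = true := by decide +kernel

theorem k8_183 : ok8 0x53008c001c00a00060006000800080 = true := by decide +kernel

theorem k8_184 : ok8 0x38003800c200c400c0001000200000 = true := by decide +kernel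

theorem k8_185 : ok8 0x660098009800610060008000800010 = true := by decide +kernel

theorem k8_186 : ok8 0x5400a8005400a8005000a000000000 = true := by decide +kernel

theorem k8_187 : ok8 0x6a0094009400680090006000800000 = true := by decide +kernel

theorem k8_188 : ok8 0x6b0094009400680090006000800080 = true := by decide +kernel

theorem k8_189 : ok8 0x5c00a3005800a000a0008000400040 = true := by decide +kernel

theorem k8_190 : ok8 0x1e0026005800a000a000c000c00000 = true := by decide +kernel

theorem k8_191 : ok8 0x1e0039004600c000c000a000a00040 = true := by decide +kernel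

theorem k8_192 : ok8 0x39003a00c400c400c0003000400080 = true := by decide +kernel

theorem k8_193 : ok8 0x3c003c00c200c200c000c000300000 = true := by decide +kernel

theorem k8_194 : ok8 0x3d003c00c200c200c000c000300080 = true := by decide +kernel

theorem k8_195 : ok8 0x1f0026005800a000a000c000c00080 = true := by decide +kernel

theorem k8_196 : ok8 0x1f003c004300c000c000c000a000a0 = true := by decide +kernel

theorem k8_197 : ok8 0x3e003e00c100c100c000c000c00030 = true := by decide +kernel

theorem k8_198 : ok8 0x3c003c00c300c000c000c000200020 = true := by decide +kernel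

theorem k8_199 : ok8 0xe00160019006000a000c000c00020 = true := by decide +kernel

theorem k8_200 : ok8 0x1e0007001900a000a000c000c00060 = true := by decide +kernel

theorem k8_201 : ok8 0x70008c008c00830060006000100010 = true := by decide +kernel

theorem k8_202 : ok8 0x70008c0085008a0050006000100020 = true := by decide +kernel

theorem k8_203 : ok8 0x4e00b000460049009000a000a00010 = true := by decide +kernel

theorem k8_204 : ok8 0x4f00b00043004c0090009000a000a0 = true := by decide +kernel

theorem k8_205 : ok8 0x700086008a008c0030005000600000 = true := by decide +kernel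

theorem k8_206 : ok8 0x4d00b00046004a009000a000300080 = true := by decide +kernel

theorem k8_207 : ok8 0x38003800c100c200c4000800100020 = true := by decide +kernel

theorem k8_208 : ok8 0x38003800c400c400c2003000080000 = true := by decide +kernel

theorem k8_209 : ok8 0x660098009800640061009000800008 = true := by decide +kernel

theorem ck8_5 : ∀ H ∈ rk8_5, ok8 H = true :=
  List.forall_mem_cons.mpr ⟨k8_175, List.forall_mem_cons.mpr ⟨k8_176, List.forall_mem_cons.mpr ⟨k8_177, List.forall_mem_cons.mpr ⟨k8_178, List.forall_mem_cons.mpr ⟨k8_179, List.forall_mem_cons.mpr ⟨k8_180, List.forall_mem_cons.mpr ⟨k8_181, List.forall_mem_cons.mpr ⟨k8_182, List.forall_mem_cons.mpr ⟨k8_183, List.forall_mem_cons.mpr ⟨k8_184, List.forall_mem_cons.mpr ⟨k8_185, List.forall_mem_cons.mpr ⟨k8_186, List.forall_mem_cons.mpr ⟨k8_187, List.forall_mem_cons.mpr ⟨k8_188, List.forall_mem_cons.mpr ⟨k8_189, List.forall_mem_cons.mpr ⟨k8_190, List.forall_mem_cons.mpr ⟨k8_191, List.forall_mem_cons.mpr ⟨k8_192, List.forall_mem_cons.mpr ⟨k8_193, List.forall_mem_cons.mpr ⟨k8_194, List.forall_mem_cons.mpr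 ⟨k8_195, List.forall_mem_cons.mpr ⟨k8_196, List.forall_mem_cons.mpr ⟨k8_197, List.forall_mem_cons.mpr ⟨k8_198, List.forall_mem_cons.mpr ⟨k8_199, List.forall_mem_cons.mpr ⟨k8_200, List.forall_mem_cons.mpr ⟨k8_201, List.forall_mem_cons.mpr ⟨k8_202, List.forall_mem_cons.mpr ⟨k8_203, List.forall_mem_cons.mpr ⟨k8_204, List.forall_mem_cons.mpr ⟨k8_205, List.forall_mem_cons.mpr ⟨k8_206, List.forall_mem_cons.mpr ⟨k8_207, List.forall_mem_cons.mpr ⟨k8_208, List.forall_mem_cons.mpr ⟨k8_209, List.forall_mem_nil _⟩⟩⟩⟩⟩⟩⟩⟩⟩⟩⟩⟩⟩⟩⟩⟩⟩⟩⟩⟩⟩⟩⟩⟩⟩⟩⟩⟩⟩⟩⟩⟩⟩⟩⟩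

end Pool.Agent.ICyc.Flag
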