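import Pool.Agent.Lib.MP_131fce_co.Flag.T8

/-!
# Check of the graphs on `8` vertices, part 7
-/

set_option autoImplicit false
set_option maxRecDepth 100000

namespace Pool.Agent.ICyc.Flag

def rk8_6 : List ℕ :=
  [0x660098009800620064008800900000, 0x670098009800620064008800900080, 
    0x2d002e00d0002300c000c000500090, 0x630098009800640064001800800080, 
    0x36003500c800c8003200c000880040, 0x36003600c800c8003100c000c00008, 
    0x37003600c800c8003100c000c00088, 0x5400a8005400a8005400a800000000, 
    0x72008c008c008c0070007000800000, 0x73008c008c008c0070007000800080, 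
    0x39003a00c400c400c4003800400080, 0x3a003a00c400c400c4003800c00000, 
    0x3b003a00c400c400c4003800c00080, 0x3b003b00c400c400c4003800c000c0, 
    0x1b001d001e00e000e0006000a000c0, 0x1e001e001d00e000e000e000c00020, 
    0x1f001d001e00e000e000e000a000c0, 0x1e001e001e00e000e000e000e00000, 
    0x1f001e001e00e000e000e000e00080, 0x1f001f001e00e000e000e000e000c0, 
    0x1f001f001f00e000e000e000e000e0, 0x400080001000200004000800010002, 
    0x5000a0004000800004000800010002, 0x700084008800800020004000010002, 
    0x780081008200840080001000200040, 0x5000a0004400880010002000010002, 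
    0x700088008200840041001000200008, 0x5000a0005000a00004000800010002, 
    0x680090009000600084000800010002, 0x6c0090009000600081008200040008, 
    0x410082001400280010002000400080, 0x5400a0004800820021008000100008, 
    0x4800a0005000280090000200040000, 0x640088009000280050008000010002, 
    0x640088009000280050008200040000]

theorem k8_210 : ok8 0x660098009800620064008800900000 = true := by decide +kernel

theorem k8_211 : ok8 0x670098009800620064008800900080 = true := by decide +kernel

theorem k8_212 : ok8 0x2d002e00d0002300c000c000500090 = true := by decide +kernel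

theorem k8_213 : ok8 0x630098009800640064001800800080 = true := by decide +kernel

theorem k8_214 : ok8 0x36003500c800c8003200c000880040 = true := by decide +kernel

theorem k8_215 : ok8 0x36003600c800c8003100c000c00008 = true := by decide +kernel

theorem k8_216 : ok8 0x37003600c800c8003100c000c00088 = true := by decide +kernel

theorem k8_217 : ok8 0x5400a8005400a8005400a800000000 = true := by decide +kernel

theorem k8_218 : ok8 0x72008c008c008c0070007000800000 = true := by decide +kernel

theorem k8_219 : ok8 0x73008c008c008c0070007000800080 = true := by decide +kernel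

theorem k8_220 : ok8 0x39003a00c400c400c4003800400080 = true := by decide +kernel

theorem k8_221 : ok8 0x3a003a00c400c400c4003800c00000 = true := by decide +kernel

theorem k8_222 : ok8 0x3b003a00c400c400c4003800c00080 = true := by decide +kernel

theorem k8_223 : ok8 0x3b003b00c400c400c4003800c000c0 = true := by decide +kernel

theorem k8_224 : ok8 0x1b001d001e00e000e0006000a000c0 = true := by decide +kernel

theorem k8_225 : ok8 0x1e001e001d00e000e000e000c00020 = true := by decide +kernel

theorem k8_226 : ok8 0x1f001d001e00e000e000e000a000c0 = true := by decide +kernel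

theorem k8_227 : ok8 0x1e001e001e00e000e000e000e00000 = true := by decide +kernel

theorem k8_228 : ok8 0x1f001e001e00e000e000e000e00080 = true := by decide +kernel

theorem k8_229 : ok8 0x1f001f001e00e000e000e000e000c0 = true := by decide +kernel

theorem k8_230 : ok8 0x1f001f001f00e000e000e000e000e0 = true := by decide +kernel

theorem k8_231 : ok8 0x400080001000200004000800010002 = true := by decide +kernel

theorem k8_232 : ok8 0x5000a0004000800004000800010002 = true := by decide +kernel

theorem k8_233 : ok8 0x700084008800800020004000010002 = true := by decide +kernel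

theorem k8_234 : ok8 0x780081008200840080001000200040 = true := by decide +kernel

theorem k8_235 : ok8 0x5000a0004400880010002000010002 = true := by decide +kernel

theorem k8_236 : ok8 0x700088008200840041001000200008 = true := by decide +kernel

theorem k8_237 : ok8 0x5000a0005000a00004000800010002 = true := by decide +kernel

theorem k8_238 : ok8 0x680090009000600084000800010002 = true := by decide +kernel

theorem k8_239 : ok8 0x6c0090009000600081008200040008 = true := by decide +kernel

theorem k8_240 : ok8 0x410082001400280010002000400080 = true := by decide +kernel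

theorem k8_241 : ok8 0x5400a0004800820021008000100008 = true := by decide +kernel

theorem k8_242 : ok8 0x4800a0005000280090000200040000 = true := by decide +kernel

theorem k8_243 : ok8 0x640088009000280050008000010002 = true := by decide +kernel

theorem k8_244 : ok8 0x640088009000280050008200040000 = true := by decide +kernel

theorem ck8_6 : ∀ H ∈ rk8_6, ok8 H = true :=
  List.forall_mem_cons.mpr ⟨k8_210, List.forall_mem_cons.mpr ⟨k8_211, List.forall_mem_cons.mpr ⟨k8_212, List.forall_mem_cons.mpr ⟨k8_213, List.forall_mem_cons.mpr ⟨k8_214, List.forall_mem_cons.mpr ⟨k8_215, List.forall_mem_cons.mpr ⟨k8_216, List.forall_mem_cons.mpr ⟨k8_217, List.forall_mem_cons.mpr ⟨k8_218, List.forall_mem_cons.mpr ⟨k8_219, List.forall_mem_cons.mpr ⟨k8_220, List.forall_mem_cons.mpr ⟨k8_221, List.forall_mem_cons.mpr ⟨k8_222, List.forall_mem_cons.mpr ⟨k8_223, List.forall_mem_cons.mpr ⟨k8_224, List.forall_mem_cons.mpr ⟨k8_225, List.forall_mem_cons.mpr ⟨k8_226, List.forall_mem_cons.mpr ⟨k8_227, List.forall_mem_cons.mpr ⟨k8_228, List.forall_mem_cons.mpr ⟨k8_229, List.forall_mem_cons.mpr ⟨k8_230, List.forall_mem_cons.mpr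 ⟨k8_231, List.forall_mem_cons.mpr ⟨k8_232, List.forall_mem_cons.mpr ⟨k8_233, List.forall_mem_cons.mpr ⟨k8_234, List.forall_mem_cons.mpr ⟨k8_235, List.forall_mem_cons.mpr ⟨k8_236, List.forall_mem_cons.mpr ⟨k8_237, List.forall_mem_cons.mpr ⟨k8_238, List.forall_mem_cons.mpr ⟨k8_239, List.forall_mem_cons.mpr ⟨k8_240, List.forall_mem_cons.mpr ⟨k8_241, List.forall_mem_cons.mpr ⟨k8_242, List.forall_mem_cons.mpr ⟨k8_243, List.forall_mem_cons.mpr ⟨k8_244, List.forall_mem_nil _⟩⟩⟩⟩⟩⟩⟩⟩⟩⟩⟩⟩⟩⟩⟩⟩⟩⟩⟩⟩⟩⟩⟩⟩⟩⟩⟩⟩⟩⟩⟩⟩⟩⟩⟩

end Pool.Agent.ICyc.Flag
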