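import Pool.Agent.Lib.MP_131fce_co.Flag.T8

/-!
# Check of the graphs on `8` vertices, part 9
-/

set_option autoImplicit false
set_option maxRecDepth 100000

namespace Pool.Agent.ICyc.Flag

def rk8_8 : List ℕ :=
  [0x640092008800480030008100400004, 0x5400a8005000a00041008200040008, 
    0x5400a8005000a00044008800010002, 0x72008c008400880050006000810002, 
    0x4200a0005000280014000a00840000, 0x610088009000220044000a00140080, 
    0x5100a2004400880014002800400080, 0x5400a8004200820044008800300000, 
    0x71008c008200840042005000280080, 0x6a0094009100600084004800800020, 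
    0x2a003400c000480090004100810006, 0x34001a008900c00060008200440020, 
    0x34003800c100c000420082000c0020, 0x34002c00c20089005000c000200010, 
    0x640092008900480030008200440020, 0x680092009400600084002800410002, 
    0x620094009800600024004800810002, 0x5c00a1005200a00082008100280044, 
    0x5400a8005100a20044008800100020, 0x640098009800620060008100100004, 
    0x5c00a2005800a100a0008200440010, 0x660098009800600060008100800004, 
    0x52008c001c00a00060006000810002, 0x5400a8005400a8005000a000010002, 
    0x6a0094009400680090006000810002, 0x38001c008300c000c0004200240020, 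
    0x1c002c005100a200c000c000100020, 0x32003400c800c80030004200840000, 
    0x650098009800620060008200140080, 0x3a003800c400c400c1003000800008, 
    0x5c00a3005800a000a0008200440040, 0x1e0031004c00c000a000a000810042, 
    0x1e0038004600c100c000a000a00010, 0x39003a00c400c400c0003000410082, 
    0x3c003c00c200c200c100c000300008]

theorem k8_280 : ok8 0x640092008800480030008100400004 = true := by decide +kernel

theorem k8_281 : ok8 0x5400a8005000a00041008200040008 = true := by decide +kernel

theorem k8_282 : ok8 0x5400a8005000a00044008800010002 = true := by decide +kernel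

theorem k8_283 : ok8 0x72008c008400880050006000810002 = true := by decide +kernel

theorem k8_284 : ok8 0x4200a0005000280014000a00840000 = true := by decide +kernel

theorem k8_285 : ok8 0x610088009000220044000a00140080 = true := by decide +kernel

theorem k8_286 : ok8 0x5100a2004400880014002800400080 = true := by decide +kernel

theorem k8_287 : ok8 0x5400a8004200820044008800300000 = true := by decide +kernel

theorem k8_288 : ok8 0x71008c008200840042005000280080 = true := by decide +kernel

theorem k8_289 : ok8 0x6a0094009100600084004800800020 = true := by decide +kernel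

theorem k8_290 : ok8 0x2a003400c000480090004100810006 = true := by decide +kernel

theorem k8_291 : ok8 0x34001a008900c00060008200440020 = true := by decide +kernel

theorem k8_292 : ok8 0x34003800c100c000420082000c0020 = true := by decide +kernel

theorem k8_293 : ok8 0x34002c00c20089005000c000200010 = true := by decide +kernel

theorem k8_294 : ok8 0x640092008900480030008200440020 = true := by decide +kernel

theorem k8_295 : ok8 0x680092009400600084002800410002 = true := by decide +kernel

theorem k8_296 : ok8 0x620094009800600024004800810002 = true := by decide +kernel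

theorem k8_297 : ok8 0x5c00a1005200a00082008100280044 = true := by decide +kernel

theorem k8_298 : ok8 0x5400a8005100a20044008800100020 = true := by decide +kernel

theorem k8_299 : ok8 0x640098009800620060008100100004 = true := by decide +kernel

theorem k8_300 : ok8 0x5c00a2005800a100a0008200440010 = true := by decide +kernel

theorem k8_301 : ok8 0x660098009800600060008100800004 = true := by decide +kernel

theorem k8_302 : ok8 0x52008c001c00a00060006000810002 = true := by decide +kernel

theorem k8_303 : ok8 0x5400a8005400a8005000a000010002 = true := by decide +kernel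

theorem k8_304 : ok8 0x6a0094009400680090006000810002 = true := by decide +kernel

theorem k8_305 : ok8 0x38001c008300c000c0004200240020 = true := by decide +kernel

theorem k8_306 : ok8 0x1c002c005100a200c000c000100020 = true := by decide +kernel

theorem k8_307 : ok8 0x32003400c800c80030004200840000 = true := by decide +kernel

theorem k8_308 : ok8 0x650098009800620060008200140080 = true := by decide +kernel

theorem k8_309 : ok8 0x3a003800c400c400c1003000800008 = true := by decide +kernel

theorem k8_310 : ok8 0x5c00a3005800a000a0008200440040 = true := by decide +kernel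

theorem k8_311 : ok8 0x1e0031004c00c000a000a000810042 = true := by decide +kernel

theorem k8_312 : ok8 0x1e0038004600c100c000a000a00010 = true := by decide +kernel

theorem k8_313 : ok8 0x39003a00c400c400c0003000410082 = true := by decide +kernel

theorem k8_314 : ok8 0x3c003c00c200c200c100c000300008 = true := by decide +kernel

theorem ck8_8 : ∀ H ∈ rk8_8, ok8 H = true :=
  List.forall_mem_cons.mpr ⟨k8_280, List.forall_mem_cons.mpr ⟨k8_281, List.forall_mem_cons.mpr ⟨k8_282, List.forall_mem_cons.mpr ⟨k8_283, List.forall_mem_cons.mpr ⟨k8_284, List.forall_mem_cons.mpr ⟨k8_285, List.forall_mem_cons.mpr ⟨k8_286, List.forall_mem_cons.mpr ⟨k8_287, List.forall_mem_cons.mpr ⟨k8_288, List.forall_mem_cons.mpr ⟨k8_289, List.forall_mem_cons.mpr ⟨k8_290, List.forall_mem_cons.mpr ⟨k8_291, List.forall_mem_cons.mpr ⟨k8_292, List.forall_mem_cons.mpr ⟨k8_293, List.forall_mem_cons.mpr ⟨k8_294, List.forall_mem_cons.mpr ⟨k8_295, List.forall_mem_cons.mpr ⟨k8_296, List.forall_mem_cons.mpr ⟨k8_297, List.forall_mem_cons.mpr ⟨k8_298, List.forall_mem_cons.mpr ⟨k8_299, List.forall_mem_cons.mpr ⟨k8_300, List.forall_mem_cons.mpr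 ⟨k8_301, List.forall_mem_cons.mpr ⟨k8_302, List.forall_mem_cons.mpr ⟨k8_303, List.forall_mem_cons.mpr ⟨k8_304, List.forall_mem_cons.mpr ⟨k8_305, List.forall_mem_cons.mpr ⟨k8_306, List.forall_mem_cons.mpr ⟨k8_307, List.forall_mem_cons.mpr ⟨k8_308, List.forall_mem_cons.mpr ⟨k8_309, List.forall_mem_cons.mpr ⟨k8_310, List.forall_mem_cons.mpr ⟨k8_311, List.forall_mem_cons.mpr ⟨k8_312, List.forall_mem_cons.mpr ⟨k8_313, List.forall_mem_cons.mpr ⟨k8_314, List.forall_mem_nil _⟩⟩⟩⟩⟩⟩⟩⟩⟩⟩⟩⟩⟩⟩⟩⟩⟩⟩⟩⟩⟩⟩⟩⟩⟩⟩⟩⟩⟩⟩⟩⟩⟩⟩⟩

end Pool.Agent.ICyc.Flag
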