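import Pool.Agent.Lib.MP_131fce_co.Flag.T8

/-!
# Check of the graphs on `8` vertices, part 10
-/

set_option autoImplicit false
set_option maxRecDepth 100000

namespace Pool.Agent.ICyc.Flag

def rk8_9 : List ℕ :=
  [0x630094009800600024004800800080, 0x34003800c000c0004100820005000a, 
    0x4a00940019006000a0004200840020, 0x5a0085001c00a000a0006000810042, 
    0x6800940091006000820042000c0020, 0x640098009800600060008200050002, 
    0x5c00a2005800a000a0008100410006, 0x5400a80045008a005000a000100020, 
    0x5c00a2004c008300a000a000500010, 0x700085008a008c0030005000210042, 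
    0x70008a008c00860061003000500008, 0x38003800c200c400c1001200240008, 
    0x38003800c200c400c4001800210002, 0x660098009800610064008800810012, 
    0x5400a8005400a8005100a200040008, 0x660098009800640062009100880004, 
    0x5400a8005400a8005400a800010002, 0x72008c008c008c0070007000810002, 
    0x39003a00c400c400c4003800410082, 0x3a003a00c400c400c4003800c10002, 
    0x5200a4004a008c0030005000a00000, 0x6900920086004c0090003000600080, 
    0x34003800c100c20044008800100020, 0x690092009400680090002200440080, 
    0x4d00a20054002a009000a000500080, 0x3c002e00c1008300c000c000500030, 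
    0x3c003c00c100c200c000c000110022, 0x5500aa005400a8005000a000400080, 
    0x1d002e005100a200c000c0005000a0, 0x3c003c00c300c200c000c000300020, 
    0x6800830085000e0090003000500060, 0x38003400c200c20085004800300008, 
    0x38002c00c2008600c1005000300008, 0x660098009100620045008800900028, 
    0x5400a8005400a8005200a2000c0000]

theorem k8_315 : ok8 0x630094009800600024004800800080 = true := by decide +kernel

theorem k8_316 : ok8 0x34003800c000c0004100820005000a = true := by decide +kernel

theorem k8_317 : ok8 0x4a00940019006000a0004200840020 = true := by decide +kernel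

theorem k8_318 : ok8 0x5a0085001c00a000a0006000810042 = true := by decide +kernel

theorem k8_319 : ok8 0x6800940091006000820042000c0020 = true := by decide +kernel

theorem k8_320 : ok8 0x640098009800600060008200050002 = true := by decide +kernel

theorem k8_321 : ok8 0x5c00a2005800a000a0008100410006 = true := by decide +kernel

theorem k8_322 : ok8 0x5400a80045008a005000a000100020 = true := by decide +kernel

theorem k8_323 : ok8 0x5c00a2004c008300a000a000500010 = true := by decide +kernel

theorem k8_324 : ok8 0x700085008a008c0030005000210042 = true := by decide +kernel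

theorem k8_325 : ok8 0x70008a008c00860061003000500008 = true := by decide +kernel

theorem k8_326 : ok8 0x38003800c200c400c1001200240008 = true := by decide +kernel

theorem k8_327 : ok8 0x38003800c200c400c4001800210002 = true := by decide +kernel

theorem k8_328 : ok8 0x660098009800610064008800810012 = true := by decide +kernel

theorem k8_329 : ok8 0x5400a8005400a8005100a200040008 = true := by decide +kernel

theorem k8_330 : ok8 0x660098009800640062009100880004 = true := by decide +kernel

theorem k8_331 : ok8 0x5400a8005400a8005400a800010002 = true := by decide +kernel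

theorem k8_332 : ok8 0x72008c008c008c0070007000810002 = true := by decide +kernel

theorem k8_333 : ok8 0x39003a00c400c400c4003800410082 = true := by decide +kernel

theorem k8_334 : ok8 0x3a003a00c400c400c4003800c10002 = true := by decide +kernel

theorem k8_335 : ok8 0x5200a4004a008c0030005000a00000 = true := by decide +kernel

theorem k8_336 : ok8 0x6900920086004c0090003000600080 = true := by decide +kernel

theorem k8_337 : ok8 0x34003800c100c20044008800100020 = true := by decide +kernel

theorem k8_338 : ok8 0x690092009400680090002200440080 = true := by decide +kernel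

theorem k8_339 : ok8 0x4d00a20054002a009000a000500080 = true := by decide +kernel

theorem k8_340 : ok8 0x3c002e00c1008300c000c000500030 = true := by decide +kernel

theorem k8_341 : ok8 0x3c003c00c100c200c000c000110022 = true := by decide +kernel

theorem k8_342 : ok8 0x5500aa005400a8005000a000400080 = true := by decide +kernel

theorem k8_343 : ok8 0x1d002e005100a200c000c0005000a0 = true := by decide +kernel

theorem k8_344 : ok8 0x3c003c00c300c200c000c000300020 = true := by decide +kernel

theorem k8_345 : ok8 0x6800830085000e0090003000500060 = true := by decide +kernel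

theorem k8_346 : ok8 0x38003400c200c20085004800300008 = true := by decide +kernel

theorem k8_347 : ok8 0x38002c00c2008600c1005000300008 = true := by decide +kernel

theorem k8_348 : ok8 0x660098009100620045008800900028 = true := by decide +kernel

theorem k8_349 : ok8 0x5400a8005400a8005200a2000c0000 = true := by decide +kernel

theorem ck8_9 : ∀ H ∈ rk8_9, ok8 H = true :=
  List.forall_mem_cons.mpr ⟨k8_315, List.forall_mem_cons.mpr ⟨k8_316, List.forall_mem_cons.mpr ⟨k8_317, List.forall_mem_cons.mpr ⟨k8_318, List.forall_mem_cons.mpr ⟨k8_319, List.forall_mem_cons.mpr ⟨k8_320, List.forall_mem_cons.mpr ⟨k8_321, List.forall_mem_cons.mpr ⟨k8_322, List.forall_mem_cons.mpr ⟨k8_323, List.forall_mem_cons.mpr ⟨k8_324, List.forall_mem_cons.mpr ⟨k8_325, List.forall_mem_cons.mpr ⟨k8_326, List.forall_mem_cons.mpr ⟨k8_327, List.forall_mem_cons.mpr ⟨k8_328, List.forall_mem_cons.mpr ⟨k8_329, List.forall_mem_cons.mpr ⟨k8_330, List.forall_mem_cons.mpr ⟨k8_331, List.forall_mem_cons.mpr ⟨k8_332, List.forall_mem_cons.mpr ⟨k8_333, List.forall_mem_cons.mpr ⟨k8_334, List.forall_mem_cons.mpr ⟨k8_335, List.forall_mem_cons.mpr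 ⟨k8_336, List.forall_mem_cons.mpr ⟨k8_337, List.forall_mem_cons.mpr ⟨k8_338, List.forall_mem_cons.mpr ⟨k8_339, List.forall_mem_cons.mpr ⟨k8_340, List.forall_mem_cons.mpr ⟨k8_341, List.forall_mem_cons.mpr ⟨k8_342, List.forall_mem_cons.mpr ⟨k8_343, List.forall_mem_cons.mpr ⟨k8_344, List.forall_mem_cons.mpr ⟨k8_345, List.forall_mem_cons.mpr ⟨k8_346, List.forall_mem_cons.mpr ⟨k8_347, List.forall_mem_cons.mpr ⟨k8_348, List.forall_mem_cons.mpr ⟨k8_349, List.forall_mem_nil _⟩⟩⟩⟩⟩⟩⟩⟩⟩⟩⟩⟩⟩⟩⟩⟩⟩⟩⟩⟩⟩⟩⟩⟩⟩⟩⟩⟩⟩⟩⟩⟩⟩⟩⟩

end Pool.Agent.ICyc.Flag
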