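import Pool.Agent.Lib.MP_131fce_co.Flag.T8

/-!
# Check of the graphs on `8` vertices, part 11
-/

set_option autoImplicit false
set_option maxRecDepth 100000

namespace Pool.Agent.ICyc.Flag

def rk8_10 : List ℕ :=
  [0x6900940094006800920062000c0080, 0x470098001c0061006200a000880090, 
    0x630098009800640064001a00840080, 0x36003300c800c80034008900c00044, 
    0x3a003a00c400c400c1003100c0000c, 0x710086008a008c0030005000600080, 
    0x660099009800620064008800900040, 0x5500aa005400a8005400a800400080, 
    0x3a003a00c500c400c4003800c00020, 0x1e001e001d00e000e000e000c10022, 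
    0x1e001e001e00e100e000e000e00010, 0x5000a0005000a00005000a0005000a, 
    0x4c00b00041004100820082000c0030, 0x660098009800600060008100810006, 
    0x4100a0005000280014000a00050082, 0x5400a8004100820044008800110022, 
    0x6c0091009200600081008200240048, 0x5400a80041008100420082000c0030, 
    0x32003400c800c80030004100810006, 0x5100a2004c008c0030003000410082, 
    0x5100a2005400a80014002800410082, 0x3a003800c100c400c4001800810022, 
    0x36003800c100c10046008800880030, 0x3c003c00c100c100c200c2000c0030, 
    0x43008c0013002c0050005000a000a0, 0x5300ac0043008c0050005000a000a0, 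
    0x2a003400c100480090004200840020, 0x15002a005000a00044008800410082, 
    0x5400a80045008a005000a000110022, 0x6400920089004c0030009000410022, 
    0x6c0091009200640083009000280048, 0x45008a0013002c00500090006000a0, 
    0x1a002c005200a400c1005000a00008, 0x6600890091002a0054008800900060, 
    0x5500aa005000a00044008800410082]

theorem k8_350 : ok8 0x6900940094006800920062000c0080 = true := by decide +kernel

theorem k8_351 : ok8 0x470098001c0061006200a000880090 = true := by decide +kernel

theorem k8_352 : ok8 0x630098009800640064001a00840080 = true := by decide +kernel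

theorem k8_353 : ok8 0x36003300c800c80034008900c00044 = true := by decide +kernel

theorem k8_354 : ok8 0x3a003a00c400c400c1003100c0000c = true := by decide +kernel

theorem k8_355 : ok8 0x710086008a008c0030005000600080 = true := by decide +kernel

theorem k8_356 : ok8 0x660099009800620064008800900040 = true := by decide +kernel

theorem k8_357 : ok8 0x5500aa005400a8005400a800400080 = true := by decide +kernel

theorem k8_358 : ok8 0x3a003a00c500c400c4003800c00020 = true := by decide +kernel

theorem k8_359 : ok8 0x1e001e001d00e000e000e000c10022 = true := by decide +kernel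

theorem k8_360 : ok8 0x1e001e001e00e100e000e000e00010 = true := by decide +kernel

theorem k8_361 : ok8 0x5000a0005000a00005000a0005000a = true := by decide +kernel

theorem k8_362 : ok8 0x4c00b00041004100820082000c0030 = true := by decide +kernel

theorem k8_363 : ok8 0x660098009800600060008100810006 = true := by decide +kernel

theorem k8_364 : ok8 0x4100a0005000280014000a00050082 = true := by decide +kernel

theorem k8_365 : ok8 0x5400a8004100820044008800110022 = true := by decide +kernel

theorem k8_366 : ok8 0x6c0091009200600081008200240048 = true := by decide +kernel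

theorem k8_367 : ok8 0x5400a80041008100420082000c0030 = true := by decide +kernel

theorem k8_368 : ok8 0x32003400c800c80030004100810006 = true := by decide +kernel

theorem k8_369 : ok8 0x5100a2004c008c0030003000410082 = true := by decide +kernel

theorem k8_370 : ok8 0x5100a2005400a80014002800410082 = true := by decide +kernel

theorem k8_371 : ok8 0x3a003800c100c400c4001800810022 = true := by decide +kernel

theorem k8_372 : ok8 0x36003800c100c10046008800880030 = true := by decide +kernel

theorem k8_373 : ok8 0x3c003c00c100c100c200c2000c0030 = true := by decide +kernel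

theorem k8_374 : ok8 0x43008c0013002c0050005000a000a0 = true := by decide +kernel

theorem k8_375 : ok8 0x5300ac0043008c0050005000a000a0 = true := by decide +kernel

theorem k8_376 : ok8 0x2a003400c100480090004200840020 = true := by decide +kernel

theorem k8_377 : ok8 0x15002a005000a00044008800410082 = true := by decide +kernel

theorem k8_378 : ok8 0x5400a80045008a005000a000110022 = true := by decide +kernel

theorem k8_379 : ok8 0x6400920089004c0030009000410022 = true := by decide +kernel

theorem k8_380 : ok8 0x6c0091009200640083009000280048 = true := by decide +kernel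

theorem k8_381 : ok8 0x45008a0013002c00500090006000a0 = true := by decide +kernel

theorem k8_382 : ok8 0x1a002c005200a400c1005000a00008 = true := by decide +kernel

theorem k8_383 : ok8 0x6600890091002a0054008800900060 = true := by decide +kernel

theorem k8_384 : ok8 0x5500aa005000a00044008800410082 = true := by decide +kernel

theorem ck8_10 : ∀ H ∈ rk8_10, ok8 H = true :=
  List.forall_mem_cons.mpr ⟨k8_350, List.forall_mem_cons.mpr ⟨k8_351, List.forall_mem_cons.mpr ⟨k8_352, List.forall_mem_cons.mpr ⟨k8_353, List.forall_mem_cons.mpr ⟨k8_354, List.forall_mem_cons.mpr ⟨k8_355, List.forall_mem_cons.mpr ⟨k8_356, List.forall_mem_cons.mpr ⟨k8_357, List.forall_mem_cons.mpr ⟨k8_358, List.forall_mem_cons.mpr ⟨k8_359, List.forall_mem_cons.mpr ⟨k8_360, List.forall_mem_cons.mpr ⟨k8_361, List.forall_mem_cons.mpr ⟨k8_362, List.forall_mem_cons.mpr ⟨k8_363, List.forall_mem_cons.mpr ⟨k8_364, List.forall_mem_cons.mpr ⟨k8_365, List.forall_mem_cons.mpr ⟨k8_366, List.forall_mem_cons.mpr ⟨k8_367, List.forall_mem_cons.mpr ⟨k8_368, List.forall_mem_cons.mpr ⟨k8_369, List.forall_mem_cons.mpr ⟨k8_370,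 List.forall_mem_cons.mpr ⟨k8_371, List.forall_mem_cons.mpr ⟨k8_372, List.forall_mem_cons.mpr ⟨k8_373, List.forall_mem_cons.mpr ⟨k8_374, List.forall_mem_cons.mpr ⟨k8_375, List.forall_mem_cons.mpr ⟨k8_376, List.forall_mem_cons.mpr ⟨k8_377, List.forall_mem_cons.mpr ⟨k8_378, List.forall_mem_cons.mpr ⟨k8_379, List.forall_mem_cons.mpr ⟨k8_380, List.forall_mem_cons.mpr ⟨k8_381, List.forall_mem_cons.mpr ⟨k8_382, List.forall_mem_cons.mpr ⟨k8_383, List.forall_mem_cons.mpr ⟨k8_384, List.forall_mem_nil _⟩⟩⟩⟩⟩⟩⟩⟩⟩⟩⟩⟩⟩⟩⟩⟩⟩⟩⟩⟩⟩⟩⟩⟩⟩⟩⟩⟩⟩⟩⟩⟩⟩⟩⟩

end Pool.Agent.ICyc.Flag
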