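import Pool.Agent.Lib.MP_131fce_co.Flag.T8

/-!
# Check of the graphs on `8` vertices, part 12
-/

set_option autoImplicit false
set_option maxRecDepth 100000

namespace Pool.Agent.ICyc.Flag

def rk8_11 : List ℕ :=
  [0x5500aa005400a8005000a000410082, 0x3c003c00c300c100c200c000280030, 
    0x5400a8005100a20045008a00140028, 0x6400980098006100620083000c0014, 
    0x5400a8005400a8005100a20005000a, 0x660098009800620064008900910006, 
    0x1c002c005100a200c100c200140028, 0x16002a005400a8005400a800c10002, 
    0x710086008c008c0032007000490082, 0x5500aa005400a8005100a200440088, 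
    0x5500aa005400a8005400a800410082, 0x3a003a00c500c400c4003800c10022, 
    0x17002b005400a8005400a800c000c0, 0x5300ac005300ac0050005000a000a0, 
    0x5500aa005500aa005400a8005000a0, 0x3c003c00c100c100c200c2000d0032, 
    0x1e001e001e00e100e100e000e00018, 0x5100a2005400a80015002a0045008a, 
    0x5500aa005100a80054008a004500a2, 0x5500aa005500aa005400a8005100a2, 
    0x5500aa005500aa005500aa005400a8, 0x5500aa005500aa005500aa005500aa, 
    0x5100a4005200a80014004800210082, 0x5800a4005100a20085004a00140028, 
    0x5200a1005400a80015002a0085004a]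

theorem k8_385 : ok8 0x5500aa005400a8005000a000410082 = true := by decide +kernel

theorem k8_386 : ok8 0x3c003c00c300c100c200c000280030 = true := by decide +kernel

theorem k8_387 : ok8 0x5400a8005100a20045008a00140028 = true := by decide +kernel

theorem k8_388 : ok8 0x6400980098006100620083000c0014 = true := by decide +kernel

theorem k8_389 : ok8 0x5400a8005400a8005100a20005000a = true := by decide +kernel

theorem k8_390 : ok8 0x660098009800620064008900910006 = true := by decide +kernel

theorem k8_391 : ok8 0x1c002c005100a200c100c200140028 = true := by decide +kernel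

theorem k8_392 : ok8 0x16002a005400a8005400a800c10002 = true := by decide +kernel

theorem k8_393 : ok8 0x710086008c008c0032007000490082 = true := by decide +kernel

theorem k8_394 : ok8 0x5500aa005400a8005100a200440088 = true := by decide +kernel

theorem k8_395 : ok8 0x5500aa005400a8005400a800410082 = true := by decide +kernel

theorem k8_396 : ok8 0x3a003a00c500c400c4003800c10022 = true := by decide +kernel

theorem k8_397 : ok8 0x17002b005400a8005400a800c000c0 = true := by decide +kernel

theorem k8_398 : ok8 0x5300ac005300ac0050005000a000a0 = true := by decide +kernel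

theorem k8_399 : ok8 0x5500aa005500aa005400a8005000a0 = true := by decide +kernel

theorem k8_400 : ok8 0x3c003c00c100c100c200c2000d0032 = true := by decide +kernel

theorem k8_401 : ok8 0x1e001e001e00e100e100e000e00018 = true := by decide +kernel

theorem k8_402 : ok8 0x5100a2005400a80015002a0045008a = true := by decide +kernel

theorem k8_403 : ok8 0x5500aa005100a80054008a004500a2 = true := by decide +kernel

theorem k8_404 : ok8 0x5500aa005500aa005400a8005100a2 = true := by decide +kernel

theorem k8_405 : ok8 0x5500aa005500aa005500aa005400a8 = true := by decide +kernel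

theorem k8_406 : ok8 0x5500aa005500aa005500aa005500aa = true := by decide +kernel

theorem k8_407 : ok8 0x5100a4005200a80014004800210082 = true := by decide +kernel

theorem k8_408 : ok8 0x5800a4005100a20085004a00140028 = true := by decide +kernel

theorem k8_409 : ok8 0x5200a1005400a80015002a0085004a = true := by decide +kernel

theorem ck8_11 : ∀ H ∈ rk8_11, ok8 H = true :=
  List.forall_mem_cons.mpr ⟨k8_385, List.forall_mem_cons.mpr ⟨k8_386, List.forall_mem_cons.mpr ⟨k8_387, List.forall_mem_cons.mpr ⟨k8_388, List.forall_mem_cons.mpr ⟨k8_389, List.forall_mem_cons.mpr ⟨k8_390, List.forall_mem_cons.mpr ⟨k8_391, List.forall_mem_cons.mpr ⟨k8_392, List.forall_mem_cons.mpr ⟨k8_393, List.forall_mem_cons.mpr ⟨k8_394, List.forall_mem_cons.mpr ⟨k8_395, List.forall_mem_cons.mpr ⟨k8_396, List.forall_mem_cons.mpr ⟨k8_397, List.forall_mem_cons.mpr ⟨k8_398, List.forall_mem_cons.mpr ⟨k8_399, List.forall_mem_cons.mpr ⟨k8_400, List.forall_mem_cons.mpr ⟨k8_401, List.forall_mem_cons.mpr ⟨k8_402, List.forall_mem_cons.mpr ⟨k8_403, List.forall_mem_cons.mpr ⟨k8_404, List.forall_mem_cons.mpr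 ⟨k8_405, List.forall_mem_cons.mpr ⟨k8_406, List.forall_mem_cons.mpr ⟨k8_407, List.forall_mem_cons.mpr ⟨k8_408, List.forall_mem_cons.mpr ⟨k8_409, List.forall_mem_nil _⟩⟩⟩⟩⟩⟩⟩⟩⟩⟩⟩⟩⟩⟩⟩⟩⟩⟩⟩⟩⟩⟩⟩⟩⟩

end Pool.Agent.ICyc.Flag
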