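import Pool.Agent.Lib.MP_131fce_co.Flag.Reps7
import Pool.Agent.Lib.MP_131fce_co.Flag.Reps8p0
import Pool.Agent.Lib.MP_131fce_co.Flag.Reps8p1
import Pool.Agent.Lib.MP_131fce_co.Flag.Reps8p2
import Pool.Agent.Lib.MP_131fce_co.Flag.Reps8p3

/-!
# Classification of the triangle-free graphs on 8 vertices
-/

set_option autoImplicit false
set_option maxRecDepth 100000

namespace Pool.Agent.ICyc.Flag

theorem reps7_eq : reps7 = rc7_0 ++ rc7_1 ++ rc7_2 ++ rc7_3 := by decide +kernel

theorem st7 : ∀ H ∈ reps7, ∃ tab, clsB 7 reps8 reps8.length H tab = true := by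
  rw [show reps8.length = 410 by decide +kernel, reps7_eq]
  intro H hH
  simp only [List.mem_append] at hH
  rcases hH with (((hH | hH) | hH) | hH)
  · exact st7_0 H hH
  · exact st7_1 H hH
  · exact st7_2 H hH
  · exact st7_3 H hH

theorem cls8 {V : Type} {A : V → V → ℕ} (h : AdjOK A) : Cls A 8 (fun H => H ∈ reps8) :=
  cls_list h.1 h.2.1 h.2.2.1 h.2.2.2 7 reps7 reps8 (cls7 h) st7

end Pool.Agent.ICyc.Flag
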