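import Pool.Agent.Lib.MP_131fce_co.Flag.Psd8a
import Pool.Agent.Lib.MP_131fce_co.Flag.Psd8b
import Pool.Agent.Lib.MP_131fce_co.Flag.Chk8a
import Pool.Agent.Lib.MP_131fce_co.Flag.Chk8b
import Pool.Agent.Lib.MP_131fce_co.Flag.Chk8c
import Pool.Agent.Lib.MP_131fce_co.Flag.Chk8d
import Pool.Agent.Lib.MP_131fce_co.Flag.Chk8e
import Pool.Agent.Lib.MP_131fce_co.Flag.Chk8f
import Pool.Agent.Lib.MP_131fce_co.Flag.Chk8g
import Pool.Agent.Lib.MP_131fce_co.Flag.Chk8h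
import Pool.Agent.Lib.MP_131fce_co.Flag.Chk8i
import Pool.Agent.Lib.MP_131fce_co.Flag.Chk8j
import Pool.Agent.Lib.MP_131fce_co.Flag.Chk8k
import Pool.Agent.Lib.MP_131fce_co.Flag.Chk8l
import Pool.Agent.Lib.MP_131fce_co.Flag.Reps8

/-!
# The bound for `k = 8`
-/

set_option autoImplicit false
set_option maxRecDepth 100000

namespace Pool.Agent.ICyc.Flag

theorem rk8_eq : reps8 = rk8_0 ++ rk8_1 ++ rk8_2 ++ rk8_3 ++ rk8_4 ++ rk8_5 ++ rk8_6 ++ rk8_7 ++ rk8_8 ++ rk8_9 ++ rk8_10 ++ rk8_11 := by decide +kernel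

/-- triangle-free graphs have at most `(n / 8) ^ 8` induced cycles of length `8` -/
theorem bound8 (V : Type) [Fintype V] (G : SimpleGraph V) (hA : AdjOK (adjG G)) :
    (({S : Finset V | S.card = 8 ∧
          Nonempty (G.induce (S : Set V) ≃g SimpleGraph.cycleGraph 8)}.ncard : ℝ)
        ≤ ((Fintype.card V : ℝ) / ((8 : ℕ) : ℝ)) ^ 8) := by
  refine final_bound 8 (by norm_num) G 145800000000 (by norm_num) (by norm_num) T8 [0, 1, 1, 1, 1, 1, 1, 65] (by decide +kernel)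
    (fun H => H ∈ reps8) (cls8 hA) (by decide +kernel) (by decide +kernel) ?_ ?_
  · exact ⟨⟨⟨g8_1, ⟨g8_0, trivial⟩⟩, trivial⟩, ⟨⟨⟨⟨⟨⟨g8_15, trivial⟩, ⟨⟨g8_14, ⟨g8_13, ⟨g8_12, trivial⟩⟩⟩, ⟨⟨g8_11, ⟨g8_10, trivial⟩⟩, trivial⟩⟩⟩, ⟨⟨⟨g8_9, ⟨g8_8, ⟨g8_7, ⟨g8_6, ⟨g8_5, trivial⟩⟩⟩⟩⟩, ⟨⟨g8_4, trivial⟩, trivial⟩⟩, ⟨⟨⟨g8_3, ⟨g8_2, trivial⟩⟩, trivial⟩, trivial⟩⟩⟩, trivial⟩, trivial⟩, trivial⟩⟩
  · intro H hH
    rw [show List.range 8 = [0, 1, 2, 3, 4, 5, 6, 7] by decide, show 2 * 145800000000 * Nat.factorial 8 = 11757312000000000 by decide +kernel,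
      show 145800000000 * 8 ^ (8 - 1) = 305764761600000000 by norm_num]
    rw [rk8_eq] at hH
    simp only [List.mem_append] at hH
    rcases hH with ((((((((((hH | hH) | hH) | hH) | hH) | hH) | hH) | hH) | hH) | hH) | hH) | hH
    · exact ck8_0 H hH
    · exact ck8_1 H hH
    · exact ck8_2 H hH
    · exact ck8_3 H hH
    · exact ck8_4 H hH
    · exact ck8_5 H hH
    · exact ck8_6 H hH
    · exact ck8_7 H hH
    · exact ck8_8 H hH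
    · exact ck8_9 H hH
    · exact ck8_10 H hH
    · exact ck8_11 H hH

end Pool.Agent.ICyc.Flag
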