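import Pool.Agent.Lib.MP_131fce_co.Flag.T9

/-!
# Check of the graphs on `9` vertices, part 1
-/

set_option autoImplicit false
set_option maxRecDepth 100000

namespace Pool.Agent.ICyc.Flag

def rk9_0 : List ℕ :=
  [0x0, 0x8001000000000000000000000000000000, 0xc001000100000000000000000000000000, 
    0xe001000100010000000000000000000000, 0xf001000100010001000000000000000000, 
    0xf801000100010001000100000000000000, 0xfc01000100010001000100010000000000, 
    0xfe01000100010001000100010001000000, 0xff01000100010001000100010001000100, 
    0x8001000020004000000000000000000000, 0xc001000100001000200000000000000000, 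
    0xe001000100010000080010000000000000, 0xf001000100010001000004000800000000, 
    0xf801000100010001000100000200040000, 0xfc01000100010001000100010000010002, 
    0xa001400080010000000000000000000000, 0xe001100100010000800000000000000000, 
    0xf001080100010001000080000000000000, 0xf801040100010001000100008000000000, 
    0xfc01020100010001000100010000800000, 0xfe01010100010001000100010001000080, 
    0x1800600080008001000100000000000000, 0x70000c0100010001000080008000000000, 
    0x7800060100010001000100008000800000, 0x7c00030100010001000100010000800080, 
    0xc001100120004000800000000000000000, 0xb001400088010001000040000000000000, 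
    0xb801400084010001000100004000000000, 0xbc01400082010001000100010000400000, 
    0xbe01400081010001000100010001000040, 0xa0014000a0014000000000000000000000, 
    0xd00120012000c001000000000000000000, 0xd80120012000c001000100000000000000, 
    0xdc0120012000c001000100010000000000, 0xde0120012000c001000100010001000000, 
    0xdf0120012000c001000100010001000100, 0x9801600080008001000100000000000000, 
    0xf0010c0100010001000080008000000000, 0xf801060100010001000100008000800000, 
    0xfc01030100010001000100010000800080, 0xe00700080008000800100010001000000, 
    0x7800070100010001000100008000800080, 0x4c00700180008000800100010000000000, 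
    0x7800460180010001000100008000800000, 0x7c00430180010001000100010000800080, 
    0x6800700180018000800100000000000000, 0x7800640180018001000100008000000000, 
    0x7c00620180018001000100010000800000, 0x7e00610180018001000100010001000080, 
    0x7000700180018001800000000000000000, 0x7800700180018001800100000000000000, 
    0x7c00700180018001800100010000000000, 0x7e00700180018001800100010001000000, 
    0x7f00700180018001800100010001000100, 0x8e01700080008000800100010001000000, 
    0xf801070100010001000100008000800080, 0x4700780180008000800080010001000100, 
    0x6600780180018000800080010001000000, 0x7c00630180018001000100010000800080, 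
    0x7400780180018001800080010000000000, 0x7c00720180018001800100010000800000, 
    0x7e00710180018001800100010001000080, 0x7800780180018001800180000000000000, 
    0x7c00780180018001800180010000000000]

theorem k9_0 : ok9 0x0 = true := by decide +kernel

theorem k9_1 : ok9 0x8001000000000000000000000000000000 = true := by decide +kernel

theorem k9_2 : ok9 0xc001000100000000000000000000000000 = true := by decide +kernel

theorem k9_3 : ok9 0xe001000100010000000000000000000000 = true := by decide +kernel

theorem k9_4 : ok9 0xf001000100010001000000000000000000 = true := by decide +kernel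

theorem k9_5 : ok9 0xf801000100010001000100000000000000 = true := by decide +kernel

theorem k9_6 : ok9 0xfc01000100010001000100010000000000 = true := by decide +kernel

theorem k9_7 : ok9 0xfe01000100010001000100010001000000 = true := by decide +kernel

theorem k9_8 : ok9 0xff01000100010001000100010001000100 = true := by decide +kernel

theorem k9_9 : ok9 0x8001000020004000000000000000000000 = true := by decide +kernel

theorem k9_10 : ok9 0xc001000100001000200000000000000000 = true := by decide +kernel

theorem k9_11 : ok9 0xe001000100010000080010000000000000 = true := by decide +kernel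

theorem k9_12 : ok9 0xf001000100010001000004000800000000 = true := by decide +kernel

theorem k9_13 : ok9 0xf801000100010001000100000200040000 = true := by decide +kernel

theorem k9_14 : ok9 0xfc01000100010001000100010000010002 = true := by decide +kernel

theorem k9_15 : ok9 0xa001400080010000000000000000000000 = true := by decide +kernel

theorem k9_16 : ok9 0xe001100100010000800000000000000000 = true := by decide +kernel

theorem k9_17 : ok9 0xf001080100010001000080000000000000 = true := by decide +kernel

theorem k9_18 : ok9 0xf801040100010001000100008000000000 = true := by decide +kernel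

theorem k9_19 : ok9 0xfc01020100010001000100010000800000 = true := by decide +kernel

theorem k9_20 : ok9 0xfe01010100010001000100010001000080 = true := by decide +kernel

theorem k9_21 : ok9 0x1800600080008001000100000000000000 = true := by decide +kernel

theorem k9_22 : ok9 0x70000c0100010001000080008000000000 = true := by decide +kernel

theorem k9_23 : ok9 0x7800060100010001000100008000800000 = true := by decide +kernel

theorem k9_24 : ok9 0x7c00030100010001000100010000800080 = true := by decide +kernel

theorem k9_25 : ok9 0xc001100120004000800000000000000000 = true := by decide +kernel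

theorem k9_26 : ok9 0xb001400088010001000040000000000000 = true := by decide +kernel

theorem k9_27 : ok9 0xb801400084010001000100004000000000 = true := by decide +kernel

theorem k9_28 : ok9 0xbc01400082010001000100010000400000 = true := by decide +kernel

theorem k9_29 : ok9 0xbe01400081010001000100010001000040 = true := by decide +kernel

theorem k9_30 : ok9 0xa0014000a0014000000000000000000000 = true := by decide +kernel

theorem k9_31 : ok9 0xd00120012000c001000000000000000000 = true := by decide +kernel

theorem k9_32 : ok9 0xd80120012000c001000100000000000000 = true := by decide +kernel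

theorem k9_33 : ok9 0xdc0120012000c001000100010000000000 = true := by decide +kernel

theorem k9_34 : ok9 0xde0120012000c001000100010001000000 = true := by decide +kernel

theorem k9_35 : ok9 0xdf0120012000c001000100010001000100 = true := by decide +kernel

theorem k9_36 : ok9 0x9801600080008001000100000000000000 = true := by decide +kernel

theorem k9_37 : ok9 0xf0010c0100010001000080008000000000 = true := by decide +kernel

theorem k9_38 : ok9 0xf801060100010001000100008000800000 = true := by decide +kernel

theorem k9_39 : ok9 0xfc01030100010001000100010000800080 = true := by decide +kernel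

theorem k9_40 : ok9 0xe00700080008000800100010001000000 = true := by decide +kernel

theorem k9_41 : ok9 0x7800070100010001000100008000800080 = true := by decide +kernel

theorem k9_42 : ok9 0x4c00700180008000800100010000000000 = true := by decide +kernel

theorem k9_43 : ok9 0x7800460180010001000100008000800000 = true := by decide +kernel

theorem k9_44 : ok9 0x7c00430180010001000100010000800080 = true := by decide +kernel

theorem k9_45 : ok9 0x6800700180018000800100000000000000 = true := by decide +kernel

theorem k9_46 : ok9 0x7800640180018001000100008000000000 = true := by decide +kernel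

theorem k9_47 : ok9 0x7c00620180018001000100010000800000 = true := by decide +kernel

theorem k9_48 : ok9 0x7e00610180018001000100010001000080 = true := by decide +kernel

theorem k9_49 : ok9 0x7000700180018001800000000000000000 = true := by decide +kernel

theorem k9_50 : ok9 0x7800700180018001800100000000000000 = true := by decide +kernel

theorem k9_51 : ok9 0x7c00700180018001800100010000000000 = true := by decide +kernel

theorem k9_52 : ok9 0x7e00700180018001800100010001000000 = true := by decide +kernel

theorem k9_53 : ok9 0x7f00700180018001800100010001000100 = true := by decide +kernel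

theorem k9_54 : ok9 0x8e01700080008000800100010001000000 = true := by decide +kernel

theorem k9_55 : ok9 0xf801070100010001000100008000800080 = true := by decide +kernel

theorem k9_56 : ok9 0x4700780180008000800080010001000100 = true := by decide +kernel

theorem k9_57 : ok9 0x6600780180018000800080010001000000 = true := by decide +kernel

theorem k9_58 : ok9 0x7c00630180018001000100010000800080 = true := by decide +kernel

theorem k9_59 : ok9 0x7400780180018001800080010000000000 = true := by decide +kernel

theorem k9_60 : ok9 0x7c00720180018001800100010000800000 = true := by decide +kernel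

theorem k9_61 : ok9 0x7e00710180018001800100010001000080 = true := by decide +kernel

theorem k9_62 : ok9 0x7800780180018001800180000000000000 = true := by decide +kernel

theorem k9_63 : ok9 0x7c00780180018001800180010000000000 = true := by decide +kernel

theorem ck9_0 : ∀ H ∈ rk9_0, ok9 H = true :=
  List.forall_mem_cons.mpr ⟨k9_0, List.forall_mem_cons.mpr ⟨k9_1, List.forall_mem_cons.mpr ⟨k9_2, List.forall_mem_cons.mpr ⟨k9_3, List.forall_mem_cons.mpr ⟨k9_4, List.forall_mem_cons.mpr ⟨k9_5, List.forall_mem_cons.mpr ⟨k9_6, List.forall_mem_cons.mpr ⟨k9_7, List.forall_mem_cons.mpr ⟨k9_8, List.forall_mem_cons.mpr ⟨k9_9, List.forall_mem_cons.mpr ⟨k9_10, List.forall_mem_cons.mpr ⟨k9_11, List.forall_mem_cons.mpr ⟨k9_12, List.forall_mem_cons.mpr ⟨k9_13, List.forall_mem_cons.mpr ⟨k9_14, List.forall_mem_cons.mpr ⟨k9_15, List.forall_mem_cons.mpr ⟨k9_16, List.forall_mem_cons.mpr ⟨k9_17, List.forall_mem_cons.mpr ⟨k9_18, List.forall_mem_cons.mpr ⟨k9_19, List.forall_mem_cons.mpr ⟨k9_20, List.forall_mem_cons.mpr ⟨k9_21, List.forall_mem_cons.mpr ⟨k9_22, List.forall_mem_cons.mpr ⟨k9_23, List.forall_mem_cons.mpr ⟨k9_24, List.forall_mem_cons.mpr ⟨k9_25,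 List.forall_mem_cons.mpr ⟨k9_26, List.forall_mem_cons.mpr ⟨k9_27, List.forall_mem_cons.mpr ⟨k9_28, List.forall_mem_cons.mpr ⟨k9_29, List.forall_mem_cons.mpr ⟨k9_30, List.forall_mem_cons.mpr ⟨k9_31, List.forall_mem_cons.mpr ⟨k9_32, List.forall_mem_cons.mpr ⟨k9_33, List.forall_mem_cons.mpr ⟨k9_34, List.forall_mem_cons.mpr ⟨k9_35, List.forall_mem_cons.mpr ⟨k9_36, List.forall_mem_cons.mpr ⟨k9_37, List.forall_mem_cons.mpr ⟨k9_38, List.forall_mem_cons.mpr ⟨k9_39, List.forall_mem_cons.mpr ⟨k9_40, List.forall_mem_cons.mpr ⟨k9_41, List.forall_mem_cons.mpr ⟨k9_42, List.forall_mem_cons.mpr ⟨k9_43, List.forall_mem_cons.mpr ⟨k9_44, List.forall_mem_cons.mpr ⟨k9_45, List.forall_mem_cons.mpr ⟨k9_46, List.forall_mem_cons.mpr ⟨k9_47, List.forall_mem_cons.mpr ⟨k9_48, List.forall_mem_cons.mpr ⟨k9_49, List.forall_mem_cons.mpr ⟨k9_50, List.forall_mem_cons.mpr ⟨k9_51, List.forall_mem_cons.mpr ⟨k9_52, List.forall_mem_cons.mpr ⟨k9_53, List.forall_mem_cons.mpr ⟨k9_54, List.forall_mem_cons.mpr ⟨k9_55, List.forall_mem_cons.mpr ⟨k9_56, List.forall_mem_cons.mpr ⟨k9_57, List.forall_mem_cons.mpr ⟨k9_58, List.forall_mem_cons.mpr ⟨k9_59, List.forall_mem_cons.mpr ⟨k9_60,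 List.forall_mem_cons.mpr ⟨k9_61, List.forall_mem_cons.mpr ⟨k9_62, List.forall_mem_cons.mpr ⟨k9_63, List.forall_mem_nil _⟩⟩⟩⟩⟩⟩⟩⟩⟩⟩⟩⟩⟩⟩⟩⟩⟩⟩⟩⟩⟩⟩⟩⟩⟩⟩⟩⟩⟩⟩⟩⟩⟩⟩⟩⟩⟩⟩⟩⟩⟩⟩⟩⟩⟩⟩⟩⟩⟩⟩⟩⟩⟩⟩⟩⟩⟩⟩⟩⟩⟩⟩⟩⟩

end Pool.Agent.ICyc.Flag
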