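import Pool.Agent.Lib.MP_131fce_co.Flag.T9

/-!
# Check of the graphs on `9` vertices, part 2
-/

set_option autoImplicit false
set_option maxRecDepth 100000

namespace Pool.Agent.ICyc.Flag

def rk9_1 : List ℕ :=
  [0x7e00780180018001800180010001000000, 0x7f00780180018001800180010001000100, 
    0x73007c0180018001800080008001000100, 0x7a007c0180018001800180008001000000, 
    0x7e00790180018001800180010001000080, 0x7c007c0180018001800180018000000000, 
    0x7e007c0180018001800180018001000000, 0x7f007c0180018001800180018001000100, 
    0x7d007e0180018001800180018000800100, 0x7e007e0180018001800180018001800000, 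
    0x7f007e0180018001800180018001800100, 0x7f007f0180018001800180018001800180, 
    0x8001000020004000080010000000000000, 0xc001000100001000200004000800000000, 
    0xe001000100010000080010000200040000, 0xf001000100010001000004000800010002, 
    0xa001400080010000080010000000000000, 0xe001100100010000800004000800000000, 
    0xf001080100010001000080000200040000, 0xf801040100010001000100008000010002, 
    0xe001080110010000400080000000000000, 0xf001040108010001000040008000000000, 
    0xf801020104010001000100004000800000, 0xfc01010102010001000100010000400080, 
    0x1800600080008001000100000200040000, 0x70000c0100010001000080008000010002, 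
    0x900120000c008001000040004000000000, 0xb001080006010001000080004000400000, 
    0xb801040003010001000100008000400040, 0xc001100120004000800004000800000000, 
    0xb001400088010001000040000200040000, 0xb801400084010001000100004000010002, 
    0xa001400088011000200040000000000000, 0xd001200108008401000040002000000000, 
    0xd801200104008201000100004000200000, 0xdc01200102008101000100010000400020, 
    0xa0014000a0014000080010000000000000, 0xd00120012000c001000004000800000000, 
    0xd80120012000c001000100000200040000, 0xdc0120012000c001000100010000010002, 
    0xd00120012000c001080010000000000000, 0xd80120012000c001040100001000000000, 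
    0xdc0120012000c001020100010000100000, 0xde0120012000c001010100010001000010, 
    0x9801600080008001000100000200040000, 0xf0010c0100010001000080008000010002, 
    0xe001180104010000800080004000000000, 0xf0010c0102010001000080008000400000, 
    0xf801060101010001000100008000800040, 0x3800420084010001000100004000800000, 
    0x70000e0101010001000080008000800040, 0x4c00700180008000800100010000010002, 
    0x98014000a0004401000100002000000000, 0x70004c0180010201000080008000200000, 
    0x7800460180010101000100008000800020, 0x6800700180018000800100000200040000, 
    0x7800640180018001000100008000010002, 0x7000680180018001040080001000000000, 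
    0x7800640180018001020100008000100000, 0x7c00620180018001010100010000800010, 
    0x7000700180018001800004000800000000, 0x7800700180018001800100000200040000, 
    0x7c00700180018001800100010000010002, 0x7800700180018001800104000800000000]

theorem k9_64 : ok9 0x7e00780180018001800180010001000000 = true := by decide +kernel

theorem k9_65 : ok9 0x7f00780180018001800180010001000100 = true := by decide +kernel

theorem k9_66 : ok9 0x73007c0180018001800080008001000100 = true := by decide +kernel

theorem k9_67 : ok9 0x7a007c0180018001800180008001000000 = true := by decide +kernel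

theorem k9_68 : ok9 0x7e00790180018001800180010001000080 = true := by decide +kernel

theorem k9_69 : ok9 0x7c007c0180018001800180018000000000 = true := by decide +kernel

theorem k9_70 : ok9 0x7e007c0180018001800180018001000000 = true := by decide +kernel

theorem k9_71 : ok9 0x7f007c0180018001800180018001000100 = true := by decide +kernel

theorem k9_72 : ok9 0x7d007e0180018001800180018000800100 = true := by decide +kernel

theorem k9_73 : ok9 0x7e007e0180018001800180018001800000 = true := by decide +kernel

theorem k9_74 : ok9 0x7f007e0180018001800180018001800100 = true := by decide +kernel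

theorem k9_75 : ok9 0x7f007f0180018001800180018001800180 = true := by decide +kernel

theorem k9_76 : ok9 0x8001000020004000080010000000000000 = true := by decide +kernel

theorem k9_77 : ok9 0xc001000100001000200004000800000000 = true := by decide +kernel

theorem k9_78 : ok9 0xe001000100010000080010000200040000 = true := by decide +kernel

theorem k9_79 : ok9 0xf001000100010001000004000800010002 = true := by decide +kernel

theorem k9_80 : ok9 0xa001400080010000080010000000000000 = true := by decide +kernel

theorem k9_81 : ok9 0xe001100100010000800004000800000000 = true := by decide +kernel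

theorem k9_82 : ok9 0xf001080100010001000080000200040000 = true := by decide +kernel

theorem k9_83 : ok9 0xf801040100010001000100008000010002 = true := by decide +kernel

theorem k9_84 : ok9 0xe001080110010000400080000000000000 = true := by decide +kernel

theorem k9_85 : ok9 0xf001040108010001000040008000000000 = true := by decide +kernel

theorem k9_86 : ok9 0xf801020104010001000100004000800000 = true := by decide +kernel

theorem k9_87 : ok9 0xfc01010102010001000100010000400080 = true := by decide +kernel

theorem k9_88 : ok9 0x1800600080008001000100000200040000 = true := by decide +kernel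

theorem k9_89 : ok9 0x70000c0100010001000080008000010002 = true := by decide +kernel

theorem k9_90 : ok9 0x900120000c008001000040004000000000 = true := by decide +kernel

theorem k9_91 : ok9 0xb001080006010001000080004000400000 = true := by decide +kernel

theorem k9_92 : ok9 0xb801040003010001000100008000400040 = true := by decide +kernel

theorem k9_93 : ok9 0xc001100120004000800004000800000000 = true := by decide +kernel

theorem k9_94 : ok9 0xb001400088010001000040000200040000 = true := by decide +kernel

theorem k9_95 : ok9 0xb801400084010001000100004000010002 = true := by decide +kernel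

theorem k9_96 : ok9 0xa001400088011000200040000000000000 = true := by decide +kernel

theorem k9_97 : ok9 0xd001200108008401000040002000000000 = true := by decide +kernel

theorem k9_98 : ok9 0xd801200104008201000100004000200000 = true := by decide +kernel

theorem k9_99 : ok9 0xdc01200102008101000100010000400020 = true := by decide +kernel

theorem k9_100 : ok9 0xa0014000a0014000080010000000000000 = true := by decide +kernel

theorem k9_101 : ok9 0xd00120012000c001000004000800000000 = true := by decide +kernel

theorem k9_102 : ok9 0xd80120012000c001000100000200040000 = true := by decide +kernel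

theorem k9_103 : ok9 0xdc0120012000c001000100010000010002 = true := by decide +kernel

theorem k9_104 : ok9 0xd00120012000c001080010000000000000 = true := by decide +kernel

theorem k9_105 : ok9 0xd80120012000c001040100001000000000 = true := by decide +kernel

theorem k9_106 : ok9 0xdc0120012000c001020100010000100000 = true := by decide +kernel

theorem k9_107 : ok9 0xde0120012000c001010100010001000010 = true := by decide +kernel

theorem k9_108 : ok9 0x9801600080008001000100000200040000 = true := by decide +kernel

theorem k9_109 : ok9 0xf0010c0100010001000080008000010002 = true := by decide +kernel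

theorem k9_110 : ok9 0xe001180104010000800080004000000000 = true := by decide +kernel

theorem k9_111 : ok9 0xf0010c0102010001000080008000400000 = true := by decide +kernel

theorem k9_112 : ok9 0xf801060101010001000100008000800040 = true := by decide +kernel

theorem k9_113 : ok9 0x3800420084010001000100004000800000 = true := by decide +kernel

theorem k9_114 : ok9 0x70000e0101010001000080008000800040 = true := by decide +kernel

theorem k9_115 : ok9 0x4c00700180008000800100010000010002 = true := by decide +kernel

theorem k9_116 : ok9 0x98014000a0004401000100002000000000 = true := by decide +kernel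

theorem k9_117 : ok9 0x70004c0180010201000080008000200000 = true := by decide +kernel

theorem k9_118 : ok9 0x7800460180010101000100008000800020 = true := by decide +kernel

theorem k9_119 : ok9 0x6800700180018000800100000200040000 = true := by decide +kernel

theorem k9_120 : ok9 0x7800640180018001000100008000010002 = true := by decide +kernel

theorem k9_121 : ok9 0x7000680180018001040080001000000000 = true := by decide +kernel

theorem k9_122 : ok9 0x7800640180018001020100008000100000 = true := by decide +kernel

theorem k9_123 : ok9 0x7c00620180018001010100010000800010 = true := by decide +kernel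

theorem k9_124 : ok9 0x7000700180018001800004000800000000 = true := by decide +kernel

theorem k9_125 : ok9 0x7800700180018001800100000200040000 = true := by decide +kernel

theorem k9_126 : ok9 0x7c00700180018001800100010000010002 = true := by decide +kernel

theorem k9_127 : ok9 0x7800700180018001800104000800000000 = true := by decide +kernel

theorem ck9_1 : ∀ H ∈ rk9_1, ok9 H = true :=
  List.forall_mem_cons.mpr ⟨k9_64, List.forall_mem_cons.mpr ⟨k9_65, List.forall_mem_cons.mpr ⟨k9_66, List.forall_mem_cons.mpr ⟨k9_67, List.forall_mem_cons.mpr ⟨k9_68, List.forall_mem_cons.mpr ⟨k9_69, List.forall_mem_cons.mpr ⟨k9_70, List.forall_mem_cons.mpr ⟨k9_71, List.forall_mem_cons.mpr ⟨k9_72, List.forall_mem_cons.mpr ⟨k9_73, List.forall_mem_cons.mpr ⟨k9_74, List.forall_mem_cons.mpr ⟨k9_75, List.forall_mem_cons.mpr ⟨k9_76, List.forall_mem_cons.mpr ⟨k9_77, List.forall_mem_cons.mpr ⟨k9_78, List.forall_mem_cons.mpr ⟨k9_79, List.forall_mem_cons.mpr ⟨k9_80, List.forall_mem_cons.mpr ⟨k9_81, List.forall_mem_cons.mpr ⟨k9_82, List.forall_mem_cons.mpr ⟨k9_83, List.forall_mem_cons.mpr ⟨k9_84, List.forall_mem_cons.mpr ⟨k9_85, List.forall_mem_cons.mpr ⟨k9_86, List.forall_mem_cons.mpr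 ⟨k9_87, List.forall_mem_cons.mpr ⟨k9_88, List.forall_mem_cons.mpr ⟨k9_89, List.forall_mem_cons.mpr ⟨k9_90, List.forall_mem_cons.mpr ⟨k9_91, List.forall_mem_cons.mpr ⟨k9_92, List.forall_mem_cons.mpr ⟨k9_93, List.forall_mem_cons.mpr ⟨k9_94, List.forall_mem_cons.mpr ⟨k9_95, List.forall_mem_cons.mpr ⟨k9_96, List.forall_mem_cons.mpr ⟨k9_97, List.forall_mem_cons.mpr ⟨k9_98, List.forall_mem_cons.mpr ⟨k9_99, List.forall_mem_cons.mpr ⟨k9_100, List.forall_mem_cons.mpr ⟨k9_101, List.forall_mem_cons.mpr ⟨k9_102, List.forall_mem_cons.mpr ⟨k9_103, List.forall_mem_cons.mpr ⟨k9_104, List.forall_mem_cons.mpr ⟨k9_105, List.forall_mem_cons.mpr ⟨k9_106, List.forall_mem_cons.mpr ⟨k9_107, List.forall_mem_cons.mpr ⟨k9_108, List.forall_mem_cons.mpr ⟨k9_109, List.forall_mem_cons.mpr ⟨k9_110, List.forall_mem_cons.mpr ⟨k9_111, List.forall_mem_cons.mpr ⟨k9_112, List.forall_mem_cons.mpr ⟨k9_113, List.forall_mem_cons.mpr ⟨k9_114, List.forall_mem_cons.mpr ⟨k9_115, List.forall_mem_cons.mpr ⟨k9_116, List.forall_mem_cons.mpr ⟨k9_117, List.forall_mem_cons.mpr ⟨k9_118, List.forall_mem_cons.mpr ⟨k9_119, List.forall_mem_cons.mpr ⟨k9_120, List.forall_mem_cons.mpr ⟨k9_121, List.forall_mem_cons.mpr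 ⟨k9_122, List.forall_mem_cons.mpr ⟨k9_123, List.forall_mem_cons.mpr ⟨k9_124, List.forall_mem_cons.mpr ⟨k9_125, List.forall_mem_cons.mpr ⟨k9_126, List.forall_mem_cons.mpr ⟨k9_127, List.forall_mem_nil _⟩⟩⟩⟩⟩⟩⟩⟩⟩⟩⟩⟩⟩⟩⟩⟩⟩⟩⟩⟩⟩⟩⟩⟩⟩⟩⟩⟩⟩⟩⟩⟩⟩⟩⟩⟩⟩⟩⟩⟩⟩⟩⟩⟩⟩⟩⟩⟩⟩⟩⟩⟩⟩⟩⟩⟩⟩⟩⟩⟩⟩⟩⟩⟩

end Pool.Agent.ICyc.Flag
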