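import Pool.Agent.Lib.MP_131fce_co.Flag.T9

/-!
# Check of the graphs on `9` vertices, part 3
-/

set_option autoImplicit false
set_option maxRecDepth 100000

namespace Pool.Agent.ICyc.Flag

def rk9_2 : List ℕ :=
  [0x7c00700180018001800102010000080000, 0x7e00700180018001800101010001000008, 
    0xb801440082010001000100008000400000, 0xf0010e0101010001000080008000800040, 
    0x3c00410082010001000100010000400080, 0x9c014000a0004201000100010000200000, 
    0x5c00620180008101000100010000800020, 0x6c00700180018000820100010000100000, 
    0x7800660180018001010100008000800010, 0x7400780180018001800080010000010002, 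
    0x7800740180018001800102008000080000, 0x7c00720180018001800101010000800008, 
    0x7800780180018001800180000200040000, 0x7c00780180018001800180010000010002, 
    0x7c00780180018001800180010200040000, 0x7e00780180018001800180010101000004, 
    0xbc01420081010001000100010000800040, 0x9e014000a0004101000100010001000020, 
    0x6e00700180018000810100010001000010, 0x7600780180018001800081010001000008, 
    0x7c007a0180018001800180010100800004, 0x7c007c0180018001800180018000010002, 
    0x7e007c0180018001800180018001010002, 0x90014000a0005001200000000000000000, 
    0xc801100120005000a00100000000000000, 0xcc01100120005000a00100010000000000, 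
    0xce01100120005000a00100010001000000, 0xcf01100120005000a00100010001000100, 
    0xa8015000a0014000800100000000000000, 0xd80124012000c001000100008000000000, 
    0xdc0122012000c001000100010000800000, 0xde0121012000c001000100010001000080, 
    0x26005800a0014000800080010001000000, 0x5c0023012000c001000100010000800080, 
    0x5400680180009001200080010000000000, 0x6c00520180011000a00100010000800000, 
    0x6e00510180011000a00100010001000080, 0x6800700180018000880110000000000000, 
    0x7400680180018001080090010000000000, 0x7600680180018001080090010001000000, 
    0x7700680180018001080090010001000100, 0xe001060118010000400040008000800000, 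
    0xb801440083010001000100008000400040, 0xd00124012800c001000040008000000000, 
    0xb8014400a2014001000100008000400000, 0xbc014200a1014001000100010000800040, 
    0x7000700188018001800040000000000000, 0x7800700184018001800100004000000000, 
    0x7c00700182018001800100010000400000, 0x7e00700181018001800100010001000040, 
    0xa6015800a0014000800080010001000000, 0xdc0123012000c001000100010000800080, 
    0x53006c0180009001200080008001000100, 0x6a00740180018000880110008001000000, 
    0x7600690180018001080090010001000080, 0x7400780180018001800084010800000000, 
    0x7a00740180018001800104008801000000, 0x7b00740180018001800104008801000100, 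
    0x6600780181018000800080010001000040, 0x7400780182018001800080010000400000, 
    0x7c00720181018001800100010000800040, 0x7800780184018001800180004000000000, 
    0x7c00780182018001800180010000400000, 0x7e00780181018001800180010001000040]

theorem k9_128 : ok9 0x7c00700180018001800102010000080000 = true := by decide +kernel

theorem k9_129 : ok9 0x7e00700180018001800101010001000008 = true := by decide +kernel

theorem k9_130 : ok9 0xb801440082010001000100008000400000 = true := by decide +kernel

theorem k9_131 : ok9 0xf0010e0101010001000080008000800040 = true := by decide +kernel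

theorem k9_132 : ok9 0x3c00410082010001000100010000400080 = true := by decide +kernel

theorem k9_133 : ok9 0x9c014000a0004201000100010000200000 = true := by decide +kernel

theorem k9_134 : ok9 0x5c00620180008101000100010000800020 = true := by decide +kernel

theorem k9_135 : ok9 0x6c00700180018000820100010000100000 = true := by decide +kernel

theorem k9_136 : ok9 0x7800660180018001010100008000800010 = true := by decide +kernel

theorem k9_137 : ok9 0x7400780180018001800080010000010002 = true := by decide +kernel

theorem k9_138 : ok9 0x7800740180018001800102008000080000 = true := by decide +kernel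

theorem k9_139 : ok9 0x7c00720180018001800101010000800008 = true := by decide +kernel

theorem k9_140 : ok9 0x7800780180018001800180000200040000 = true := by decide +kernel

theorem k9_141 : ok9 0x7c00780180018001800180010000010002 = true := by decide +kernel

theorem k9_142 : ok9 0x7c00780180018001800180010200040000 = true := by decide +kernel

theorem k9_143 : ok9 0x7e00780180018001800180010101000004 = true := by decide +kernel

theorem k9_144 : ok9 0xbc01420081010001000100010000800040 = true := by decide +kernel

theorem k9_145 : ok9 0x9e014000a0004101000100010001000020 = true := by decide +kernel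

theorem k9_146 : ok9 0x6e00700180018000810100010001000010 = true := by decide +kernel

theorem k9_147 : ok9 0x7600780180018001800081010001000008 = true := by decide +kernel

theorem k9_148 : ok9 0x7c007a0180018001800180010100800004 = true := by decide +kernel

theorem k9_149 : ok9 0x7c007c0180018001800180018000010002 = true := by decide +kernel

theorem k9_150 : ok9 0x7e007c0180018001800180018001010002 = true := by decide +kernel

theorem k9_151 : ok9 0x90014000a0005001200000000000000000 = true := by decide +kernel

theorem k9_152 : ok9 0xc801100120005000a00100000000000000 = true := by decide +kernel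

theorem k9_153 : ok9 0xcc01100120005000a00100010000000000 = true := by decide +kernel

theorem k9_154 : ok9 0xce01100120005000a00100010001000000 = true := by decide +kernel

theorem k9_155 : ok9 0xcf01100120005000a00100010001000100 = true := by decide +kernel

theorem k9_156 : ok9 0xa8015000a0014000800100000000000000 = true := by decide +kernel

theorem k9_157 : ok9 0xd80124012000c001000100008000000000 = true := by decide +kernel

theorem k9_158 : ok9 0xdc0122012000c001000100010000800000 = true := by decide +kernel

theorem k9_159 : ok9 0xde0121012000c001000100010001000080 = true := by decide +kernel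

theorem k9_160 : ok9 0x26005800a0014000800080010001000000 = true := by decide +kernel

theorem k9_161 : ok9 0x5c0023012000c001000100010000800080 = true := by decide +kernel

theorem k9_162 : ok9 0x5400680180009001200080010000000000 = true := by decide +kernel

theorem k9_163 : ok9 0x6c00520180011000a00100010000800000 = true := by decide +kernel

theorem k9_164 : ok9 0x6e00510180011000a00100010001000080 = true := by decide +kernel

theorem k9_165 : ok9 0x6800700180018000880110000000000000 = true := by decide +kernel

theorem k9_166 : ok9 0x7400680180018001080090010000000000 = true := by decide +kernel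

theorem k9_167 : ok9 0x7600680180018001080090010001000000 = true := by decide +kernel

theorem k9_168 : ok9 0x7700680180018001080090010001000100 = true := by decide +kernel

theorem k9_169 : ok9 0xe001060118010000400040008000800000 = true := by decide +kernel

theorem k9_170 : ok9 0xb801440083010001000100008000400040 = true := by decide +kernel

theorem k9_171 : ok9 0xd00124012800c001000040008000000000 = true := by decide +kernel

theorem k9_172 : ok9 0xb8014400a2014001000100008000400000 = true := by decide +kernel

theorem k9_173 : ok9 0xbc014200a1014001000100010000800040 = true := by decide +kernel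

theorem k9_174 : ok9 0x7000700188018001800040000000000000 = true := by decide +kernel

theorem k9_175 : ok9 0x7800700184018001800100004000000000 = true := by decide +kernel

theorem k9_176 : ok9 0x7c00700182018001800100010000400000 = true := by decide +kernel

theorem k9_177 : ok9 0x7e00700181018001800100010001000040 = true := by decide +kernel

theorem k9_178 : ok9 0xa6015800a0014000800080010001000000 = true := by decide +kernel

theorem k9_179 : ok9 0xdc0123012000c001000100010000800080 = true := by decide +kernel

theorem k9_180 : ok9 0x53006c0180009001200080008001000100 = true := by decide +kernel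

theorem k9_181 : ok9 0x6a00740180018000880110008001000000 = true := by decide +kernel

theorem k9_182 : ok9 0x7600690180018001080090010001000080 = true := by decide +kernel

theorem k9_183 : ok9 0x7400780180018001800084010800000000 = true := by decide +kernel

theorem k9_184 : ok9 0x7a00740180018001800104008801000000 = true := by decide +kernel

theorem k9_185 : ok9 0x7b00740180018001800104008801000100 = true := by decide +kernel

theorem k9_186 : ok9 0x6600780181018000800080010001000040 = true := by decide +kernel

theorem k9_187 : ok9 0x7400780182018001800080010000400000 = true := by decide +kernel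

theorem k9_188 : ok9 0x7c00720181018001800100010000800040 = true := by decide +kernel

theorem k9_189 : ok9 0x7800780184018001800180004000000000 = true := by decide +kernel

theorem k9_190 : ok9 0x7c00780182018001800180010000400000 = true := by decide +kernel

theorem k9_191 : ok9 0x7e00780181018001800180010001000040 = true := by decide +kernel

theorem ck9_2 : ∀ H ∈ rk9_2, ok9 H = true :=
  List.forall_mem_cons.mpr ⟨k9_128, List.forall_mem_cons.mpr ⟨k9_129, List.forall_mem_cons.mpr ⟨k9_130, List.forall_mem_cons.mpr ⟨k9_131, List.forall_mem_cons.mpr ⟨k9_132, List.forall_mem_cons.mpr ⟨k9_133, List.forall_mem_cons.mpr ⟨k9_134, List.forall_mem_cons.mpr ⟨k9_135, List.forall_mem_cons.mpr ⟨k9_136, List.forall_mem_cons.mpr ⟨k9_137, List.forall_mem_cons.mpr ⟨k9_138, List.forall_mem_cons.mpr ⟨k9_139, List.forall_mem_cons.mpr ⟨k9_140, List.forall_mem_cons.mpr ⟨k9_141, List.forall_mem_cons.mpr ⟨k9_142, List.forall_mem_cons.mpr ⟨k9_143, List.forall_mem_cons.mpr ⟨k9_144, List.forall_mem_cons.mpr ⟨k9_145, List.forall_mem_cons.mpr ⟨k9_146, List.forall_mem_cons.mpr ⟨k9_147, List.forall_mem_cons.mpr ⟨k9_148, List.forall_mem_cons.mpr ⟨k9_149, List.forall_mem_cons.mpr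 ⟨k9_150, List.forall_mem_cons.mpr ⟨k9_151, List.forall_mem_cons.mpr ⟨k9_152, List.forall_mem_cons.mpr ⟨k9_153, List.forall_mem_cons.mpr ⟨k9_154, List.forall_mem_cons.mpr ⟨k9_155, List.forall_mem_cons.mpr ⟨k9_156, List.forall_mem_cons.mpr ⟨k9_157, List.forall_mem_cons.mpr ⟨k9_158, List.forall_mem_cons.mpr ⟨k9_159, List.forall_mem_cons.mpr ⟨k9_160, List.forall_mem_cons.mpr ⟨k9_161, List.forall_mem_cons.mpr ⟨k9_162, List.forall_mem_cons.mpr ⟨k9_163, List.forall_mem_cons.mpr ⟨k9_164, List.forall_mem_cons.mpr ⟨k9_165, List.forall_mem_cons.mpr ⟨k9_166, List.forall_mem_cons.mpr ⟨k9_167, List.forall_mem_cons.mpr ⟨k9_168, List.forall_mem_cons.mpr ⟨k9_169, List.forall_mem_cons.mpr ⟨k9_170, List.forall_mem_cons.mpr ⟨k9_171, List.forall_mem_cons.mpr ⟨k9_172, List.forall_mem_cons.mpr ⟨k9_173, List.forall_mem_cons.mpr ⟨k9_174, List.forall_mem_cons.mpr ⟨k9_175, List.forall_mem_cons.mpr ⟨k9_176, List.forall_mem_cons.mpr ⟨k9_177, List.forall_mem_cons.mpr ⟨k9_178, List.forall_mem_cons.mpr ⟨k9_179, List.forall_mem_cons.mpr ⟨k9_180, List.forall_mem_cons.mpr ⟨k9_181, List.forall_mem_cons.mpr ⟨k9_182, List.forall_mem_cons.mpr ⟨k9_183, List.forall_mem_cons.mpr ⟨k9_184,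 List.forall_mem_cons.mpr ⟨k9_185, List.forall_mem_cons.mpr ⟨k9_186, List.forall_mem_cons.mpr ⟨k9_187, List.forall_mem_cons.mpr ⟨k9_188, List.forall_mem_cons.mpr ⟨k9_189, List.forall_mem_cons.mpr ⟨k9_190, List.forall_mem_cons.mpr ⟨k9_191, List.forall_mem_nil _⟩⟩⟩⟩⟩⟩⟩⟩⟩⟩⟩⟩⟩⟩⟩⟩⟩⟩⟩⟩⟩⟩⟩⟩⟩⟩⟩⟩⟩⟩⟩⟩⟩⟩⟩⟩⟩⟩⟩⟩⟩⟩⟩⟩⟩⟩⟩⟩⟩⟩⟩⟩⟩⟩⟩⟩⟩⟩⟩⟩⟩⟩⟩⟩

end Pool.Agent.ICyc.Flag
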