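import Pool.Agent.Lib.MP_131fce_co.Flag.T9

/-!
# Check of the graphs on `9` vertices, part 5
-/

set_option autoImplicit false
set_option maxRecDepth 100000

namespace Pool.Agent.ICyc.Flag

def rk9_4 : List ℕ :=
  [0x7c00780180018001800180010200050002, 0x7e00780180018001800180010101010006, 
    0x3c00700083018001800100010000400040, 0x78003c0103018001800180008000400040, 
    0x7c003c0103018001800180018000400040, 0x8f01600090009000600100010001000100, 
    0x88014000a0005000280110000000000000, 0xc401100120004800880030010000000000, 
    0xc601100120004800880030010001000000, 0xc701100120004800880030010001000100, 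
    0xa401480090011000600080010000000000, 0xcc01220110009000600100010000800000, 
    0xce01210110009000600100010001000080, 0xd80122012400c001000100004000800000, 
    0xdc0121012200c001000100010000400080, 0xe001040108011000200040008000000000, 
    0xe001180102010400800080002000400000, 0x9c01600081008201000100010000200040, 
    0xd00128012000c001040080001000000000, 0xcc0130012000c000820100010000100000, 
    0xce0130012000c000810100010001000010, 0xa8015000a0014000880110000000000000, 
    0xe401180108011000a000c0010000000000, 0xe601180108011000a000c0010001000000, 
    0xe701180108011000a000c0010001000100, 0x23004c0090011000600080008001000100, 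
    0x5200640180008801080030008001000000, 0x6600510180010800880030010001000080, 
    0x6800700180018000840104001800000000, 0x7200680180018001040084001801000000, 
    0x7300680180018001040084001801000100, 0x940128003200c001400080010000400000, 
    0xac01120031014000c00100010000800040, 0x580038012400c001800180004000000000, 
    0x740038010a0180018000c0010000400000, 0x76003801090180018000c0010001000040, 
    0xe001060118010100400040008000800020, 0xe001180106011000a00080004000400000, 
    0xac01500083011000a00100010000400040, 0xd00124012800c001020040008000100000, 
    0xac015000a2014000810100010000400010, 0xd00128012400c001080090004000000000, 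
    0xb4014800a2014001080090010000400000, 0xb6014800a1014001080090010001000040, 
    0xc80130013000c000c00104000800000000, 0xb4014800b0014001400082010000080000, 
    0xb6014800b0014001400081010001000008, 0xb8014400b0014001400104008800000000, 
    0xba014400b0014001400104008801000000, 0xbb014400b0014001400104008801000100, 
    0xa3014c0090011000600080008001000100, 0xd80126012100c001000100008000800040, 
    0x6900720180018000840104001800800100, 0x74007801800180018000820102000c0000, 
    0x79007401800180018001020082000c0100, 0x3c005100a2014001800100010000400080, 
    0x3c005800a2014001800180010000400000, 0x74003a01090180018000c0010000800040, 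
    0x78003c010601800180018000c000400000, 0x7a003c010501800180018000c001000040, 
    0x8e01600091009000600100010001000040, 0xa6015000a8014000880050010001000000, 
    0x7400630188018001080050010000800080, 0x7200740188018001800041008001000008]

theorem k9_256 : ok9 0x7c00780180018001800180010200050002 = true := by decide +kernel

theorem k9_257 : ok9 0x7e00780180018001800180010101010006 = true := by decide +kernel

theorem k9_258 : ok9 0x3c00700083018001800100010000400040 = true := by decide +kernel

theorem k9_259 : ok9 0x78003c0103018001800180008000400040 = true := by decide +kernel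

theorem k9_260 : ok9 0x7c003c0103018001800180018000400040 = true := by decide +kernel

theorem k9_261 : ok9 0x8f01600090009000600100010001000100 = true := by decide +kernel

theorem k9_262 : ok9 0x88014000a0005000280110000000000000 = true := by decide +kernel

theorem k9_263 : ok9 0xc401100120004800880030010000000000 = true := by decide +kernel

theorem k9_264 : ok9 0xc601100120004800880030010001000000 = true := by decide +kernel

theorem k9_265 : ok9 0xc701100120004800880030010001000100 = true := by decide +kernel

theorem k9_266 : ok9 0xa401480090011000600080010000000000 = true := by decide +kernel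

theorem k9_267 : ok9 0xcc01220110009000600100010000800000 = true := by decide +kernel

theorem k9_268 : ok9 0xce01210110009000600100010001000080 = true := by decide +kernel

theorem k9_269 : ok9 0xd80122012400c001000100004000800000 = true := by decide +kernel

theorem k9_270 : ok9 0xdc0121012200c001000100010000400080 = true := by decide +kernel

theorem k9_271 : ok9 0xe001040108011000200040008000000000 = true := by decide +kernel

theorem k9_272 : ok9 0xe001180102010400800080002000400000 = true := by decide +kernel

theorem k9_273 : ok9 0x9c01600081008201000100010000200040 = true := by decide +kernel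

theorem k9_274 : ok9 0xd00128012000c001040080001000000000 = true := by decide +kernel

theorem k9_275 : ok9 0xcc0130012000c000820100010000100000 = true := by decide +kernel

theorem k9_276 : ok9 0xce0130012000c000810100010001000010 = true := by decide +kernel

theorem k9_277 : ok9 0xa8015000a0014000880110000000000000 = true := by decide +kernel

theorem k9_278 : ok9 0xe401180108011000a000c0010000000000 = true := by decide +kernel

theorem k9_279 : ok9 0xe601180108011000a000c0010001000000 = true := by decide +kernel

theorem k9_280 : ok9 0xe701180108011000a000c0010001000100 = true := by decide +kernel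

theorem k9_281 : ok9 0x23004c0090011000600080008001000100 = true := by decide +kernel

theorem k9_282 : ok9 0x5200640180008801080030008001000000 = true := by decide +kernel

theorem k9_283 : ok9 0x6600510180010800880030010001000080 = true := by decide +kernel

theorem k9_284 : ok9 0x6800700180018000840104001800000000 = true := by decide +kernel

theorem k9_285 : ok9 0x7200680180018001040084001801000000 = true := by decide +kernel

theorem k9_286 : ok9 0x7300680180018001040084001801000100 = true := by decide +kernel

theorem k9_287 : ok9 0x940128003200c001400080010000400000 = true := by decide +kernel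

theorem k9_288 : ok9 0xac01120031014000c00100010000800040 = true := by decide +kernel

theorem k9_289 : ok9 0x580038012400c001800180004000000000 = true := by decide +kernel

theorem k9_290 : ok9 0x740038010a0180018000c0010000400000 = true := by decide +kernel

theorem k9_291 : ok9 0x76003801090180018000c0010001000040 = true := by decide +kernel

theorem k9_292 : ok9 0xe001060118010100400040008000800020 = true := by decide +kernel

theorem k9_293 : ok9 0xe001180106011000a00080004000400000 = true := by decide +kernel

theorem k9_294 : ok9 0xac01500083011000a00100010000400040 = true := by decide +kernel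

theorem k9_295 : ok9 0xd00124012800c001020040008000100000 = true := by decide +kernel

theorem k9_296 : ok9 0xac015000a2014000810100010000400010 = true := by decide +kernel

theorem k9_297 : ok9 0xd00128012400c001080090004000000000 = true := by decide +kernel

theorem k9_298 : ok9 0xb4014800a2014001080090010000400000 = true := by decide +kernel

theorem k9_299 : ok9 0xb6014800a1014001080090010001000040 = true := by decide +kernel

theorem k9_300 : ok9 0xc80130013000c000c00104000800000000 = true := by decide +kernel

theorem k9_301 : ok9 0xb4014800b0014001400082010000080000 = true := by decide +kernel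

theorem k9_302 : ok9 0xb6014800b0014001400081010001000008 = true := by decide +kernel

theorem k9_303 : ok9 0xb8014400b0014001400104008800000000 = true := by decide +kernel

theorem k9_304 : ok9 0xba014400b0014001400104008801000000 = true := by decide +kernel

theorem k9_305 : ok9 0xbb014400b0014001400104008801000100 = true := by decide +kernel

theorem k9_306 : ok9 0xa3014c0090011000600080008001000100 = true := by decide +kernel

theorem k9_307 : ok9 0xd80126012100c001000100008000800040 = true := by decide +kernel

theorem k9_308 : ok9 0x6900720180018000840104001800800100 = true := by decide +kernel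

theorem k9_309 : ok9 0x74007801800180018000820102000c0000 = true := by decide +kernel

theorem k9_310 : ok9 0x79007401800180018001020082000c0100 = true := by decide +kernel

theorem k9_311 : ok9 0x3c005100a2014001800100010000400080 = true := by decide +kernel

theorem k9_312 : ok9 0x3c005800a2014001800180010000400000 = true := by decide +kernel

theorem k9_313 : ok9 0x74003a01090180018000c0010000800040 = true := by decide +kernel

theorem k9_314 : ok9 0x78003c010601800180018000c000400000 = true := by decide +kernel

theorem k9_315 : ok9 0x7a003c010501800180018000c001000040 = true := by decide +kernel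

theorem k9_316 : ok9 0x8e01600091009000600100010001000040 = true := by decide +kernel

theorem k9_317 : ok9 0xa6015000a8014000880050010001000000 = true := by decide +kernel

theorem k9_318 : ok9 0x7400630188018001080050010000800080 = true := by decide +kernel

theorem k9_319 : ok9 0x7200740188018001800041008001000008 = true := by decide +kernel

theorem ck9_4 : ∀ H ∈ rk9_4, ok9 H = true :=
  List.forall_mem_cons.mpr ⟨k9_256, List.forall_mem_cons.mpr ⟨k9_257, List.forall_mem_cons.mpr ⟨k9_258, List.forall_mem_cons.mpr ⟨k9_259, List.forall_mem_cons.mpr ⟨k9_260, List.forall_mem_cons.mpr ⟨k9_261, List.forall_mem_cons.mpr ⟨k9_262, List.forall_mem_cons.mpr ⟨k9_263, List.forall_mem_cons.mpr ⟨k9_264, List.forall_mem_cons.mpr ⟨k9_265, List.forall_mem_cons.mpr ⟨k9_266, List.forall_mem_cons.mpr ⟨k9_267, List.forall_mem_cons.mpr ⟨k9_268, List.forall_mem_cons.mpr ⟨k9_269, List.forall_mem_cons.mpr ⟨k9_270, List.forall_mem_cons.mpr ⟨k9_271, List.forall_mem_cons.mpr ⟨k9_272, List.forall_mem_cons.mpr ⟨k9_273, List.forall_mem_cons.mpr ⟨k9_274, List.forall_mem_cons.mpr ⟨k9_275, List.forall_mem_cons.mpr ⟨k9_276, List.forall_mem_cons.mpr ⟨k9_277, List.forall_mem_cons.mpr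 ⟨k9_278, List.forall_mem_cons.mpr ⟨k9_279, List.forall_mem_cons.mpr ⟨k9_280, List.forall_mem_cons.mpr ⟨k9_281, List.forall_mem_cons.mpr ⟨k9_282, List.forall_mem_cons.mpr ⟨k9_283, List.forall_mem_cons.mpr ⟨k9_284, List.forall_mem_cons.mpr ⟨k9_285, List.forall_mem_cons.mpr ⟨k9_286, List.forall_mem_cons.mpr ⟨k9_287, List.forall_mem_cons.mpr ⟨k9_288, List.forall_mem_cons.mpr ⟨k9_289, List.forall_mem_cons.mpr ⟨k9_290, List.forall_mem_cons.mpr ⟨k9_291, List.forall_mem_cons.mpr ⟨k9_292, List.forall_mem_cons.mpr ⟨k9_293, List.forall_mem_cons.mpr ⟨k9_294, List.forall_mem_cons.mpr ⟨k9_295, List.forall_mem_cons.mpr ⟨k9_296, List.forall_mem_cons.mpr ⟨k9_297, List.forall_mem_cons.mpr ⟨k9_298, List.forall_mem_cons.mpr ⟨k9_299, List.forall_mem_cons.mpr ⟨k9_300, List.forall_mem_cons.mpr ⟨k9_301, List.forall_mem_cons.mpr ⟨k9_302, List.forall_mem_cons.mpr ⟨k9_303, List.forall_mem_cons.mpr ⟨k9_304, List.forall_mem_cons.mpr ⟨k9_305, List.forall_mem_cons.mpr ⟨k9_306, List.forall_mem_cons.mpr ⟨k9_307, List.forall_mem_cons.mpr ⟨k9_308, List.forall_mem_cons.mpr ⟨k9_309, List.forall_mem_cons.mpr ⟨k9_310, List.forall_mem_cons.mpr ⟨k9_311, List.forall_mem_cons.mpr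 ⟨k9_312, List.forall_mem_cons.mpr ⟨k9_313, List.forall_mem_cons.mpr ⟨k9_314, List.forall_mem_cons.mpr ⟨k9_315, List.forall_mem_cons.mpr ⟨k9_316, List.forall_mem_cons.mpr ⟨k9_317, List.forall_mem_cons.mpr ⟨k9_318, List.forall_mem_cons.mpr ⟨k9_319, List.forall_mem_nil _⟩⟩⟩⟩⟩⟩⟩⟩⟩⟩⟩⟩⟩⟩⟩⟩⟩⟩⟩⟩⟩⟩⟩⟩⟩⟩⟩⟩⟩⟩⟩⟩⟩⟩⟩⟩⟩⟩⟩⟩⟩⟩⟩⟩⟩⟩⟩⟩⟩⟩⟩⟩⟩⟩⟩⟩⟩⟩⟩⟩⟩⟩⟩⟩

end Pool.Agent.ICyc.Flag
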