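import Pool.Agent.Lib.MP_131fce_co.Flag.T9

/-!
# Check of the graphs on `9` vertices, part 6
-/

set_option autoImplicit false
set_option maxRecDepth 100000

namespace Pool.Agent.ICyc.Flag

def rk9_5 : List ℕ :=
  [0x7800720184018001800104004800800000, 0x7a00710184018001800104004801000080, 
    0x7800780184018001800180004200040000, 0x7a00780184018001800180004101000004, 
    0x7c00780182018001800180010200440000, 0x7d00780182018001800180010200440100, 
    0x7a007c0180018001800180008101010006, 0x3e005800a1014001800180010001000040, 
    0x3e00780085018001800180014001000040, 0x7c003e0103018001800180018000c00040, 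
    0xa7015000a8014000880050010001000100, 0x7300780184018001800084004801000100, 
    0x7c00790182018001800180010200440080, 0x7c007c0182018001800180018000410002, 
    0x7e007c0181018001800180018001010042, 0xcc0130013000c000c00100010000000000, 
    0xce0130013000c000c00100010001000000, 0xcf0130013000c000c00100010001000100, 
    0x8e0130003100c000c00100010001000040, 0xa601180038014000c000c0010001000000, 
    0xa701180038014000c000c0010001000100, 0x7000700184018801800020004000000000, 
    0xcc0130013000c200c00100010000200000, 0xce0130013000c100c00100010001000020, 
    0xa8015000a8015000a00140000000000000, 0xd40128012800d0012000c0010000000000, 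
    0xd60128012800d0012000c0010001000000, 0xd70128012800d0012000c0010001000100, 
    0xb8014600b0014001400100008000800000, 0xce0131013000c000c00100010001000080, 
    0x3c00630098018001400140010000800080, 0x3c004c00b0014001400180018000000000, 
    0x3c0072008c018001800140014000800000, 0x73003c010c0180018000c000c001000100, 
    0x63006c0190019000600080008001000100, 0x7200740188018801800060008001000000, 
    0x7600710188018801800060010001000080, 0x7800780184018401800180006000000000, 
    0x7a00780184018401800180006001000000, 0x7b00780184018401800180006001000100, 
    0xbc014300b0014001400100010000800080, 0x3e004c00b0014001400180018001000000, 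
    0x3e0071008c018001800140014001000080, 0x3e00780086018001800180014001400000, 
    0x3e00790086018001800180014001400080, 0x79007a0184018401800180006000800100, 
    0x7c007c0182018201800180018000600000, 0x7d007c0182018201800180018000600100, 
    0x3f004c00b0014001400180018001000100, 0x3f00780086018001800180014001400100, 
    0x3f007c0083018001800180018001400140, 0x7e007e0181018101800180018001800060, 
    0x7400780183018001800080010000400040, 0x7800780186018001800180004000400000, 
    0x7c00780183018001800180010000400040, 0x7c007c0183018001800180018000400040, 
    0x3800380007018001800180004000400040, 0x38001c0023014001800180008000400040, 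
    0x3c001c0023014001800180018000400040, 0x3c000d0032014001400180018000400080, 
    0x3e000e0031014001400180018001800040, 0x3f00070038014001400140018001800180, 
    0xb801070038014001400140008000800080, 0x19002a003400c001400180004000800100]

theorem k9_320 : ok9 0x7800720184018001800104004800800000 = true := by decide +kernel

theorem k9_321 : ok9 0x7a00710184018001800104004801000080 = true := by decide +kernel

theorem k9_322 : ok9 0x7800780184018001800180004200040000 = true := by decide +kernel

theorem k9_323 : ok9 0x7a00780184018001800180004101000004 = true := by decide +kernel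

theorem k9_324 : ok9 0x7c00780182018001800180010200440000 = true := by decide +kernel

theorem k9_325 : ok9 0x7d00780182018001800180010200440100 = true := by decide +kernel

theorem k9_326 : ok9 0x7a007c0180018001800180008101010006 = true := by decide +kernel

theorem k9_327 : ok9 0x3e005800a1014001800180010001000040 = true := by decide +kernel

theorem k9_328 : ok9 0x3e00780085018001800180014001000040 = true := by decide +kernel

theorem k9_329 : ok9 0x7c003e0103018001800180018000c00040 = true := by decide +kernel

theorem k9_330 : ok9 0xa7015000a8014000880050010001000100 = true := by decide +kernel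

theorem k9_331 : ok9 0x7300780184018001800084004801000100 = true := by decide +kernel

theorem k9_332 : ok9 0x7c00790182018001800180010200440080 = true := by decide +kernel

theorem k9_333 : ok9 0x7c007c0182018001800180018000410002 = true := by decide +kernel

theorem k9_334 : ok9 0x7e007c0181018001800180018001010042 = true := by decide +kernel

theorem k9_335 : ok9 0xcc0130013000c000c00100010000000000 = true := by decide +kernel

theorem k9_336 : ok9 0xce0130013000c000c00100010001000000 = true := by decide +kernel

theorem k9_337 : ok9 0xcf0130013000c000c00100010001000100 = true := by decide +kernel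

theorem k9_338 : ok9 0x8e0130003100c000c00100010001000040 = true := by decide +kernel

theorem k9_339 : ok9 0xa601180038014000c000c0010001000000 = true := by decide +kernel

theorem k9_340 : ok9 0xa701180038014000c000c0010001000100 = true := by decide +kernel

theorem k9_341 : ok9 0x7000700184018801800020004000000000 = true := by decide +kernel

theorem k9_342 : ok9 0xcc0130013000c200c00100010000200000 = true := by decide +kernel

theorem k9_343 : ok9 0xce0130013000c100c00100010001000020 = true := by decide +kernel

theorem k9_344 : ok9 0xa8015000a8015000a00140000000000000 = true := by decide +kernel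

theorem k9_345 : ok9 0xd40128012800d0012000c0010000000000 = true := by decide +kernel

theorem k9_346 : ok9 0xd60128012800d0012000c0010001000000 = true := by decide +kernel

theorem k9_347 : ok9 0xd70128012800d0012000c0010001000100 = true := by decide +kernel

theorem k9_348 : ok9 0xb8014600b0014001400100008000800000 = true := by decide +kernel

theorem k9_349 : ok9 0xce0131013000c000c00100010001000080 = true := by decide +kernel

theorem k9_350 : ok9 0x3c00630098018001400140010000800080 = true := by decide +kernel

theorem k9_351 : ok9 0x3c004c00b0014001400180018000000000 = true := by decide +kernel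

theorem k9_352 : ok9 0x3c0072008c018001800140014000800000 = true := by decide +kernel

theorem k9_353 : ok9 0x73003c010c0180018000c000c001000100 = true := by decide +kernel

theorem k9_354 : ok9 0x63006c0190019000600080008001000100 = true := by decide +kernel

theorem k9_355 : ok9 0x7200740188018801800060008001000000 = true := by decide +kernel

theorem k9_356 : ok9 0x7600710188018801800060010001000080 = true := by decide +kernel

theorem k9_357 : ok9 0x7800780184018401800180006000000000 = true := by decide +kernel

theorem k9_358 : ok9 0x7a00780184018401800180006001000000 = true := by decide +kernel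

theorem k9_359 : ok9 0x7b00780184018401800180006001000100 = true := by decide +kernel

theorem k9_360 : ok9 0xbc014300b0014001400100010000800080 = true := by decide +kernel

theorem k9_361 : ok9 0x3e004c00b0014001400180018001000000 = true := by decide +kernel

theorem k9_362 : ok9 0x3e0071008c018001800140014001000080 = true := by decide +kernel

theorem k9_363 : ok9 0x3e00780086018001800180014001400000 = true := by decide +kernel

theorem k9_364 : ok9 0x3e00790086018001800180014001400080 = true := by decide +kernel

theorem k9_365 : ok9 0x79007a0184018401800180006000800100 = true := by decide +kernel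

theorem k9_366 : ok9 0x7c007c0182018201800180018000600000 = true := by decide +kernel

theorem k9_367 : ok9 0x7d007c0182018201800180018000600100 = true := by decide +kernel

theorem k9_368 : ok9 0x3f004c00b0014001400180018001000100 = true := by decide +kernel

theorem k9_369 : ok9 0x3f00780086018001800180014001400100 = true := by decide +kernel

theorem k9_370 : ok9 0x3f007c0083018001800180018001400140 = true := by decide +kernel

theorem k9_371 : ok9 0x7e007e0181018101800180018001800060 = true := by decide +kernel

theorem k9_372 : ok9 0x7400780183018001800080010000400040 = true := by decide +kernel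

theorem k9_373 : ok9 0x7800780186018001800180004000400000 = true := by decide +kernel

theorem k9_374 : ok9 0x7c00780183018001800180010000400040 = true := by decide +kernel

theorem k9_375 : ok9 0x7c007c0183018001800180018000400040 = true := by decide +kernel

theorem k9_376 : ok9 0x3800380007018001800180004000400040 = true := by decide +kernel

theorem k9_377 : ok9 0x38001c0023014001800180008000400040 = true := by decide +kernel

theorem k9_378 : ok9 0x3c001c0023014001800180018000400040 = true := by decide +kernel

theorem k9_379 : ok9 0x3c000d0032014001400180018000400080 = true := by decide +kernel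

theorem k9_380 : ok9 0x3e000e0031014001400180018001800040 = true := by decide +kernel

theorem k9_381 : ok9 0x3f00070038014001400140018001800180 = true := by decide +kernel

theorem k9_382 : ok9 0xb801070038014001400140008000800080 = true := by decide +kernel

theorem k9_383 : ok9 0x19002a003400c001400180004000800100 = true := by decide +kernel

theorem ck9_5 : ∀ H ∈ rk9_5, ok9 H = true :=
  List.forall_mem_cons.mpr ⟨k9_320, List.forall_mem_cons.mpr ⟨k9_321, List.forall_mem_cons.mpr ⟨k9_322, List.forall_mem_cons.mpr ⟨k9_323, List.forall_mem_cons.mpr ⟨k9_324, List.forall_mem_cons.mpr ⟨k9_325, List.forall_mem_cons.mpr ⟨k9_326, List.forall_mem_cons.mpr ⟨k9_327, List.forall_mem_cons.mpr ⟨k9_328, List.forall_mem_cons.mpr ⟨k9_329, List.forall_mem_cons.mpr ⟨k9_330, List.forall_mem_cons.mpr ⟨k9_331, List.forall_mem_cons.mpr ⟨k9_332, List.forall_mem_cons.mpr ⟨k9_333, List.forall_mem_cons.mpr ⟨k9_334, List.forall_mem_cons.mpr ⟨k9_335, List.forall_mem_cons.mpr ⟨k9_336, List.forall_mem_cons.mpr ⟨k9_337, List.forall_mem_cons.mpr ⟨k9_338, List.forall_mem_cons.mpr ⟨k9_339, List.forall_mem_cons.mpr ⟨k9_340, List.forall_mem_cons.mpr ⟨k9_341,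 List.forall_mem_cons.mpr ⟨k9_342, List.forall_mem_cons.mpr ⟨k9_343, List.forall_mem_cons.mpr ⟨k9_344, List.forall_mem_cons.mpr ⟨k9_345, List.forall_mem_cons.mpr ⟨k9_346, List.forall_mem_cons.mpr ⟨k9_347, List.forall_mem_cons.mpr ⟨k9_348, List.forall_mem_cons.mpr ⟨k9_349, List.forall_mem_cons.mpr ⟨k9_350, List.forall_mem_cons.mpr ⟨k9_351, List.forall_mem_cons.mpr ⟨k9_352, List.forall_mem_cons.mpr ⟨k9_353, List.forall_mem_cons.mpr ⟨k9_354, List.forall_mem_cons.mpr ⟨k9_355, List.forall_mem_cons.mpr ⟨k9_356, List.forall_mem_cons.mpr ⟨k9_357, List.forall_mem_cons.mpr ⟨k9_358, List.forall_mem_cons.mpr ⟨k9_359, List.forall_mem_cons.mpr ⟨k9_360, List.forall_mem_cons.mpr ⟨k9_361, List.forall_mem_cons.mpr ⟨k9_362, List.forall_mem_cons.mpr ⟨k9_363, List.forall_mem_cons.mpr ⟨k9_364, List.forall_mem_cons.mpr ⟨k9_365, List.forall_mem_cons.mpr ⟨k9_366, List.forall_mem_cons.mpr ⟨k9_367, List.forall_mem_cons.mpr ⟨k9_368, List.forall_mem_cons.mpr ⟨k9_369, List.forall_mem_cons.mpr ⟨k9_370, List.forall_mem_cons.mpr ⟨k9_371, List.forall_mem_cons.mpr ⟨k9_372, List.forall_mem_cons.mpr ⟨k9_373, List.forall_mem_cons.mpr ⟨k9_374, List.forall_mem_cons.mpr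 ⟨k9_375, List.forall_mem_cons.mpr ⟨k9_376, List.forall_mem_cons.mpr ⟨k9_377, List.forall_mem_cons.mpr ⟨k9_378, List.forall_mem_cons.mpr ⟨k9_379, List.forall_mem_cons.mpr ⟨k9_380, List.forall_mem_cons.mpr ⟨k9_381, List.forall_mem_cons.mpr ⟨k9_382, List.forall_mem_cons.mpr ⟨k9_383, List.forall_mem_nil _⟩⟩⟩⟩⟩⟩⟩⟩⟩⟩⟩⟩⟩⟩⟩⟩⟩⟩⟩⟩⟩⟩⟩⟩⟩⟩⟩⟩⟩⟩⟩⟩⟩⟩⟩⟩⟩⟩⟩⟩⟩⟩⟩⟩⟩⟩⟩⟩⟩⟩⟩⟩⟩⟩⟩⟩⟩⟩⟩⟩⟩⟩⟩⟩

end Pool.Agent.ICyc.Flag
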