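import Pool.Agent.Lib.MP_131fce_co.Flag.T9

/-!
# Check of the graphs on `9` vertices, part 7
-/

set_option autoImplicit false
set_option maxRecDepth 100000

namespace Pool.Agent.ICyc.Flag

def rk9_6 : List ℕ :=
  [0x1c002c003200c001400180018000400000, 0x3a001c002501400180018000c001000040, 
    0x3c000e0032014001400180018000c00000, 0x3d000e0032014001400180018000c00100, 
    0xe001140118010300c00040008000200020, 0xe001180118010600c000c0002000200000, 
    0x9c01600098008301400140010000200020, 0xe00118010a011400a000c0002000400000, 
    0x9c01600089009201200140010000200040, 0x9c0160008c009201200140014000200000, 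
    0x9e0160008c009101200140014001000020, 0x9e01600086009801200120014001400000, 
    0x9f01600086009801200120014001400100, 0x9c0123003800c001400140010000800080, 
    0x33001c002c0140018000c000c001000100, 0x360039000e0180018000c0014001400080, 
    0x3a003c000701800180018000c001400040, 0x3e003900070180018001800140014000c0, 
    0x8701600098009800600060010001000100, 0x9601600098008901400060010001000020, 
    0x5c005301a0004c01800120012000800080, 0x5c005a01a0004501800180012000800020, 
    0x5e005901a0004601800180012001200080, 0x5c005c01a0004301800180018000200020, 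
    0x5e005c01a0004301800180018001200020, 0x5f005c01a0004301800180018001200120, 
    0x5c003c012300c001800180018000400040, 0xe0010c01140118006000a000c000000000, 
    0x9a0160008c009401200140006001000000, 0x9b0160008c009401200140006001000100, 
    0x7000700182018401880010002000400000, 0xcc0130013000c100c20100010000100020, 
    0x7000700188018801840060001000000000, 0xcc0130013000c800c20120010000100000, 
    0xce0130013000c800c10120010001000010, 0xcc0130013000c400c80110012000000000, 
    0xce0130013000c400c80110012001000000, 0xcf0130013000c400c80110012001000100, 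
    0x55005a01a0004c018000a0012000800100, 0x5a005c01a000460180018000a001200000, 
    0x5d005a01a0004601800180012000a00100, 0xc60130013000c800c80030010001000000, 
    0x6c00630190019000680110010000800080, 0x6a006c0190019000610180008001000010, 
    0x6c006a0190019000640180011000800000, 0x6e00690190019000640180011001000080, 
    0x6c006c0190019000620180018000100000, 0x6e006c0190019000610180018001000010, 
    0x6e006c0190019000620180018001100000, 0x6f006c0190019000620180018001100100, 
    0x3c004d00b2014001400180018000400080, 0x5d005e01a0004301800180018000a00120, 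
    0xc70130013000c800c80030010001000100, 0x6b006c0190019000640180009001000100, 
    0x6e006d0190019000620180018001100080, 0x6e006e0190019000610180018001800010, 
    0x6f006e0190019000610180018001800110, 0x3e004e00b1014001400180018001800040, 
    0xa8015000a8015000a80150000000000000, 0xe401180118011800e000e0010000000000, 
    0xe601180118011800e000e0010001000000, 0xe701180118011800e000e0010001000100, 
    0xc70138013800c000c000c0010001000100, 0x7200740188018801880070008001000000]

theorem k9_384 : ok9 0x1c002c003200c001400180018000400000 = true := by decide +kernel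

theorem k9_385 : ok9 0x3a001c002501400180018000c001000040 = true := by decide +kernel

theorem k9_386 : ok9 0x3c000e0032014001400180018000c00000 = true := by decide +kernel

theorem k9_387 : ok9 0x3d000e0032014001400180018000c00100 = true := by decide +kernel

theorem k9_388 : ok9 0xe001140118010300c00040008000200020 = true := by decide +kernel

theorem k9_389 : ok9 0xe001180118010600c000c0002000200000 = true := by decide +kernel

theorem k9_390 : ok9 0x9c01600098008301400140010000200020 = true := by decide +kernel

theorem k9_391 : ok9 0xe00118010a011400a000c0002000400000 = true := by decide +kernel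

theorem k9_392 : ok9 0x9c01600089009201200140010000200040 = true := by decide +kernel

theorem k9_393 : ok9 0x9c0160008c009201200140014000200000 = true := by decide +kernel

theorem k9_394 : ok9 0x9e0160008c009101200140014001000020 = true := by decide +kernel

theorem k9_395 : ok9 0x9e01600086009801200120014001400000 = true := by decide +kernel

theorem k9_396 : ok9 0x9f01600086009801200120014001400100 = true := by decide +kernel

theorem k9_397 : ok9 0x9c0123003800c001400140010000800080 = true := by decide +kernel

theorem k9_398 : ok9 0x33001c002c0140018000c000c001000100 = true := by decide +kernel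

theorem k9_399 : ok9 0x360039000e0180018000c0014001400080 = true := by decide +kernel

theorem k9_400 : ok9 0x3a003c000701800180018000c001400040 = true := by decide +kernel

theorem k9_401 : ok9 0x3e003900070180018001800140014000c0 = true := by decide +kernel

theorem k9_402 : ok9 0x8701600098009800600060010001000100 = true := by decide +kernel

theorem k9_403 : ok9 0x9601600098008901400060010001000020 = true := by decide +kernel

theorem k9_404 : ok9 0x5c005301a0004c01800120012000800080 = true := by decide +kernel

theorem k9_405 : ok9 0x5c005a01a0004501800180012000800020 = true := by decide +kernel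

theorem k9_406 : ok9 0x5e005901a0004601800180012001200080 = true := by decide +kernel

theorem k9_407 : ok9 0x5c005c01a0004301800180018000200020 = true := by decide +kernel

theorem k9_408 : ok9 0x5e005c01a0004301800180018001200020 = true := by decide +kernel

theorem k9_409 : ok9 0x5f005c01a0004301800180018001200120 = true := by decide +kernel

theorem k9_410 : ok9 0x5c003c012300c001800180018000400040 = true := by decide +kernel

theorem k9_411 : ok9 0xe0010c01140118006000a000c000000000 = true := by decide +kernel

theorem k9_412 : ok9 0x9a0160008c009401200140006001000000 = true := by decide +kernel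

theorem k9_413 : ok9 0x9b0160008c009401200140006001000100 = true := by decide +kernel

theorem k9_414 : ok9 0x7000700182018401880010002000400000 = true := by decide +kernel

theorem k9_415 : ok9 0xcc0130013000c100c20100010000100020 = true := by decide +kernel

theorem k9_416 : ok9 0x7000700188018801840060001000000000 = true := by decide +kernel

theorem k9_417 : ok9 0xcc0130013000c800c20120010000100000 = true := by decide +kernel

theorem k9_418 : ok9 0xce0130013000c800c10120010001000010 = true := by decide +kernel

theorem k9_419 : ok9 0xcc0130013000c400c80110012000000000 = true := by decide +kernel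

theorem k9_420 : ok9 0xce0130013000c400c80110012001000000 = true := by decide +kernel

theorem k9_421 : ok9 0xcf0130013000c400c80110012001000100 = true := by decide +kernel

theorem k9_422 : ok9 0x55005a01a0004c018000a0012000800100 = true := by decide +kernel

theorem k9_423 : ok9 0x5a005c01a000460180018000a001200000 = true := by decide +kernel

theorem k9_424 : ok9 0x5d005a01a0004601800180012000a00100 = true := by decide +kernel

theorem k9_425 : ok9 0xc60130013000c800c80030010001000000 = true := by decide +kernel

theorem k9_426 : ok9 0x6c00630190019000680110010000800080 = true := by decide +kernel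

theorem k9_427 : ok9 0x6a006c0190019000610180008001000010 = true := by decide +kernel

theorem k9_428 : ok9 0x6c006a0190019000640180011000800000 = true := by decide +kernel

theorem k9_429 : ok9 0x6e00690190019000640180011001000080 = true := by decide +kernel

theorem k9_430 : ok9 0x6c006c0190019000620180018000100000 = true := by decide +kernel

theorem k9_431 : ok9 0x6e006c0190019000610180018001000010 = true := by decide +kernel

theorem k9_432 : ok9 0x6e006c0190019000620180018001100000 = true := by decide +kernel

theorem k9_433 : ok9 0x6f006c0190019000620180018001100100 = true := by decide +kernel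

theorem k9_434 : ok9 0x3c004d00b2014001400180018000400080 = true := by decide +kernel

theorem k9_435 : ok9 0x5d005e01a0004301800180018000a00120 = true := by decide +kernel

theorem k9_436 : ok9 0xc70130013000c800c80030010001000100 = true := by decide +kernel

theorem k9_437 : ok9 0x6b006c0190019000640180009001000100 = true := by decide +kernel

theorem k9_438 : ok9 0x6e006d0190019000620180018001100080 = true := by decide +kernel

theorem k9_439 : ok9 0x6e006e0190019000610180018001800010 = true := by decide +kernel

theorem k9_440 : ok9 0x6f006e0190019000610180018001800110 = true := by decide +kernel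

theorem k9_441 : ok9 0x3e004e00b1014001400180018001800040 = true := by decide +kernel

theorem k9_442 : ok9 0xa8015000a8015000a80150000000000000 = true := by decide +kernel

theorem k9_443 : ok9 0xe401180118011800e000e0010000000000 = true := by decide +kernel

theorem k9_444 : ok9 0xe601180118011800e000e0010001000000 = true := by decide +kernel

theorem k9_445 : ok9 0xe701180118011800e000e0010001000100 = true := by decide +kernel

theorem k9_446 : ok9 0xc70138013800c000c000c0010001000100 = true := by decide +kernel

theorem k9_447 : ok9 0x7200740188018801880070008001000000 = true := by decide +kernel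

theorem ck9_6 : ∀ H ∈ rk9_6, ok9 H = true :=
  List.forall_mem_cons.mpr ⟨k9_384, List.forall_mem_cons.mpr ⟨k9_385, List.forall_mem_cons.mpr ⟨k9_386, List.forall_mem_cons.mpr ⟨k9_387, List.forall_mem_cons.mpr ⟨k9_388, List.forall_mem_cons.mpr ⟨k9_389, List.forall_mem_cons.mpr ⟨k9_390, List.forall_mem_cons.mpr ⟨k9_391, List.forall_mem_cons.mpr ⟨k9_392, List.forall_mem_cons.mpr ⟨k9_393, List.forall_mem_cons.mpr ⟨k9_394, List.forall_mem_cons.mpr ⟨k9_395, List.forall_mem_cons.mpr ⟨k9_396, List.forall_mem_cons.mpr ⟨k9_397, List.forall_mem_cons.mpr ⟨k9_398, List.forall_mem_cons.mpr ⟨k9_399, List.forall_mem_cons.mpr ⟨k9_400, List.forall_mem_cons.mpr ⟨k9_401, List.forall_mem_cons.mpr ⟨k9_402, List.forall_mem_cons.mpr ⟨k9_403, List.forall_mem_cons.mpr ⟨k9_404, List.forall_mem_cons.mpr ⟨k9_405, List.forall_mem_cons.mpr ⟨k9_406, List.forall_mem_cons.mpr ⟨k9_407, List.forall_mem_cons.mpr ⟨k9_408, List.forall_mem_cons.mpr ⟨k9_409, List.forall_mem_cons.mpr ⟨k9_410, List.forall_mem_cons.mpr ⟨k9_411, List.forall_mem_cons.mpr ⟨k9_412, List.forall_mem_cons.mpr ⟨k9_413, List.forall_mem_cons.mpr ⟨k9_414, List.forall_mem_cons.mpr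 ⟨k9_415, List.forall_mem_cons.mpr ⟨k9_416, List.forall_mem_cons.mpr ⟨k9_417, List.forall_mem_cons.mpr ⟨k9_418, List.forall_mem_cons.mpr ⟨k9_419, List.forall_mem_cons.mpr ⟨k9_420, List.forall_mem_cons.mpr ⟨k9_421, List.forall_mem_cons.mpr ⟨k9_422, List.forall_mem_cons.mpr ⟨k9_423, List.forall_mem_cons.mpr ⟨k9_424, List.forall_mem_cons.mpr ⟨k9_425, List.forall_mem_cons.mpr ⟨k9_426, List.forall_mem_cons.mpr ⟨k9_427, List.forall_mem_cons.mpr ⟨k9_428, List.forall_mem_cons.mpr ⟨k9_429, List.forall_mem_cons.mpr ⟨k9_430, List.forall_mem_cons.mpr ⟨k9_431, List.forall_mem_cons.mpr ⟨k9_432, List.forall_mem_cons.mpr ⟨k9_433, List.forall_mem_cons.mpr ⟨k9_434, List.forall_mem_cons.mpr ⟨k9_435, List.forall_mem_cons.mpr ⟨k9_436, List.forall_mem_cons.mpr ⟨k9_437, List.forall_mem_cons.mpr ⟨k9_438, List.forall_mem_cons.mpr ⟨k9_439, List.forall_mem_cons.mpr ⟨k9_440, List.forall_mem_cons.mpr ⟨k9_441, List.forall_mem_cons.mpr ⟨k9_442, List.forall_mem_cons.mpr ⟨k9_443, List.forall_mem_cons.mpr ⟨k9_444, List.forall_mem_cons.mpr ⟨k9_445, List.forall_mem_cons.mpr ⟨k9_446, List.forall_mem_cons.mpr ⟨k9_447, List.forall_mem_nil _⟩⟩⟩⟩⟩⟩⟩⟩⟩⟩⟩⟩⟩⟩⟩⟩⟩⟩⟩⟩⟩⟩⟩⟩⟩⟩⟩⟩⟩⟩⟩⟩⟩⟩⟩⟩⟩⟩⟩⟩⟩⟩⟩⟩⟩⟩⟩⟩⟩⟩⟩⟩⟩⟩⟩⟩⟩⟩⟩⟩⟩⟩⟩⟩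

end Pool.Agent.ICyc.Flag
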