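import Pool.Agent.Lib.MP_131fce_co.Flag.T9

/-!
# Check of the graphs on `9` vertices, part 8
-/

set_option autoImplicit false
set_option maxRecDepth 100000

namespace Pool.Agent.ICyc.Flag

def rk9_7 : List ℕ :=
  [0x7600710188018801880070010001000080, 0x7400740188018801880070018000000000, 
    0x7600740188018801880070018001000000, 0x7700740188018801880070018001000100, 
    0x7500760188018801880070018000800100, 0x7600760188018801880070018001800000, 
    0x7700760188018801880070018001800100, 0x7700770188018801880070018001800180, 
    0x3f004700b8014001400140018001800180, 0xf0033003c00c000c00140014001800180, 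
    0x2e0036003901c000c00140018001800040, 0x3e0027003901c0014001400180018000c0, 
    0x3c003c003301c001c00180018000400040, 0x3c0035003a01c001c00140018000400080, 
    0x3e0036003901c001c00140018001800040, 0x3f0033003c01c001c00140014001800180, 
    0x36003a003c01c001c000c0014001800000, 0x3d0036003a01c001c00140018000c00100, 
    0x39003a003c01c001c001c0004000800100, 0x3c003c003a01c001c001c0018000400000, 
    0x3e003c003901c001c001c0018001000040, 0x3e003a003c01c001c001c0014001800000, 
    0x3f003a003c01c001c001c0014001800100, 0x3d003e003301c001c00180018000c00140, 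
    0x3b003c003c01c001c001c000c001000100, 0x3e003d003a01c001c001c0018001400080, 
    0x3e003e003901c001c001c0018001800040, 0x3f003e003901c001c001c0018001800140, 
    0x3c003c003c01c001c001c001c000000000, 0x3e003c003c01c001c001c001c001000000, 
    0x3f003c003c01c001c001c001c001000100, 0x3d003e003c01c001c001c001c000800100, 
    0x3e003e003c01c001c001c001c001800000, 0x3f003e003c01c001c001c001c001800100, 
    0x3f003f003c01c001c001c001c001800180, 0x3b003d003e01c001c001c000c001400180, 
    0x3e003e003d01c001c001c001c001800040, 0x3f003d003e01c001c001c001c001400180, 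
    0x3e003e003e01c001c001c001c001c00000, 0x3f003e003e01c001c001c001c001c00100, 
    0x3f003f003e01c001c001c001c001c00180, 0x3f003f003f01c001c001c001c001c001c0, 
    0x8001000020004000080010000200040000, 0xc001000100001000200004000800010002, 
    0xa001400080010000080010000200040000, 0xe001100100010000800004000800010002, 
    0xe001080110010000400080000200040000, 0xf001040108010001000040008000010002, 
    0xf001020104010801000020004000800000, 0xf801010102010401000100002000400080, 
    0x900120000c008001000040004000010002, 0xd001040108000301000040008000200020, 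
    0xc001100120004000800004000800010002, 0xa001400088011000200040000200040000, 
    0xd001200108008401000040002000010002, 0xe001100104010800820020004000100000, 
    0xe801100102010400810100002000400010, 0xa0014000a0014000080010000200040000, 
    0xd00120012000c001000004000800010002, 0xd00120012000c001080010000200040000, 
    0xd80120012000c001040100001000010002, 0xd80120012000c001020104000800100000, 
    0xdc0120012000c001010102010000080010, 0xe001180104010000800080004000010002]

theorem k9_448 : ok9 0x7600710188018801880070010001000080 = true := by decide +kernel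

theorem k9_449 : ok9 0x7400740188018801880070018000000000 = true := by decide +kernel

theorem k9_450 : ok9 0x7600740188018801880070018001000000 = true := by decide +kernel

theorem k9_451 : ok9 0x7700740188018801880070018001000100 = true := by decide +kernel

theorem k9_452 : ok9 0x7500760188018801880070018000800100 = true := by decide +kernel

theorem k9_453 : ok9 0x7600760188018801880070018001800000 = true := by decide +kernel

theorem k9_454 : ok9 0x7700760188018801880070018001800100 = true := by decide +kernel

theorem k9_455 : ok9 0x7700770188018801880070018001800180 = true := by decide +kernel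

theorem k9_456 : ok9 0x3f004700b8014001400140018001800180 = true := by decide +kernel

theorem k9_457 : ok9 0xf0033003c00c000c00140014001800180 = true := by decide +kernel

theorem k9_458 : ok9 0x2e0036003901c000c00140018001800040 = true := by decide +kernel

theorem k9_459 : ok9 0x3e0027003901c0014001400180018000c0 = true := by decide +kernel

theorem k9_460 : ok9 0x3c003c003301c001c00180018000400040 = true := by decide +kernel

theorem k9_461 : ok9 0x3c0035003a01c001c00140018000400080 = true := by decide +kernel

theorem k9_462 : ok9 0x3e0036003901c001c00140018001800040 = true := by decide +kernel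

theorem k9_463 : ok9 0x3f0033003c01c001c00140014001800180 = true := by decide +kernel

theorem k9_464 : ok9 0x36003a003c01c001c000c0014001800000 = true := by decide +kernel

theorem k9_465 : ok9 0x3d0036003a01c001c00140018000c00100 = true := by decide +kernel

theorem k9_466 : ok9 0x39003a003c01c001c001c0004000800100 = true := by decide +kernel

theorem k9_467 : ok9 0x3c003c003a01c001c001c0018000400000 = true := by decide +kernel

theorem k9_468 : ok9 0x3e003c003901c001c001c0018001000040 = true := by decide +kernel

theorem k9_469 : ok9 0x3e003a003c01c001c001c0014001800000 = true := by decide +kernel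

theorem k9_470 : ok9 0x3f003a003c01c001c001c0014001800100 = true := by decide +kernel

theorem k9_471 : ok9 0x3d003e003301c001c00180018000c00140 = true := by decide +kernel

theorem k9_472 : ok9 0x3b003c003c01c001c001c000c001000100 = true := by decide +kernel

theorem k9_473 : ok9 0x3e003d003a01c001c001c0018001400080 = true := by decide +kernel

theorem k9_474 : ok9 0x3e003e003901c001c001c0018001800040 = true := by decide +kernel

theorem k9_475 : ok9 0x3f003e003901c001c001c0018001800140 = true := by decide +kernel

theorem k9_476 : ok9 0x3c003c003c01c001c001c001c000000000 = true := by decide +kernel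

theorem k9_477 : ok9 0x3e003c003c01c001c001c001c001000000 = true := by decide +kernel

theorem k9_478 : ok9 0x3f003c003c01c001c001c001c001000100 = true := by decide +kernel

theorem k9_479 : ok9 0x3d003e003c01c001c001c001c000800100 = true := by decide +kernel

theorem k9_480 : ok9 0x3e003e003c01c001c001c001c001800000 = true := by decide +kernel

theorem k9_481 : ok9 0x3f003e003c01c001c001c001c001800100 = true := by decide +kernel

theorem k9_482 : ok9 0x3f003f003c01c001c001c001c001800180 = true := by decide +kernel

theorem k9_483 : ok9 0x3b003d003e01c001c001c000c001400180 = true := by decide +kernel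

theorem k9_484 : ok9 0x3e003e003d01c001c001c001c001800040 = true := by decide +kernel

theorem k9_485 : ok9 0x3f003d003e01c001c001c001c001400180 = true := by decide +kernel

theorem k9_486 : ok9 0x3e003e003e01c001c001c001c001c00000 = true := by decide +kernel

theorem k9_487 : ok9 0x3f003e003e01c001c001c001c001c00100 = true := by decide +kernel

theorem k9_488 : ok9 0x3f003f003e01c001c001c001c001c00180 = true := by decide +kernel

theorem k9_489 : ok9 0x3f003f003f01c001c001c001c001c001c0 = true := by decide +kernel

theorem k9_490 : ok9 0x8001000020004000080010000200040000 = true := by decide +kernel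

theorem k9_491 : ok9 0xc001000100001000200004000800010002 = true := by decide +kernel

theorem k9_492 : ok9 0xa001400080010000080010000200040000 = true := by decide +kernel

theorem k9_493 : ok9 0xe001100100010000800004000800010002 = true := by decide +kernel

theorem k9_494 : ok9 0xe001080110010000400080000200040000 = true := by decide +kernel

theorem k9_495 : ok9 0xf001040108010001000040008000010002 = true := by decide +kernel

theorem k9_496 : ok9 0xf001020104010801000020004000800000 = true := by decide +kernel

theorem k9_497 : ok9 0xf801010102010401000100002000400080 = true := by decide +kernel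

theorem k9_498 : ok9 0x900120000c008001000040004000010002 = true := by decide +kernel

theorem k9_499 : ok9 0xd001040108000301000040008000200020 = true := by decide +kernel

theorem k9_500 : ok9 0xc001100120004000800004000800010002 = true := by decide +kernel

theorem k9_501 : ok9 0xa001400088011000200040000200040000 = true := by decide +kernel

theorem k9_502 : ok9 0xd001200108008401000040002000010002 = true := by decide +kernel

theorem k9_503 : ok9 0xe001100104010800820020004000100000 = true := by decide +kernel

theorem k9_504 : ok9 0xe801100102010400810100002000400010 = true := by decide +kernel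

theorem k9_505 : ok9 0xa0014000a0014000080010000200040000 = true := by decide +kernel

theorem k9_506 : ok9 0xd00120012000c001000004000800010002 = true := by decide +kernel

theorem k9_507 : ok9 0xd00120012000c001080010000200040000 = true := by decide +kernel

theorem k9_508 : ok9 0xd80120012000c001040100001000010002 = true := by decide +kernel

theorem k9_509 : ok9 0xd80120012000c001020104000800100000 = true := by decide +kernel

theorem k9_510 : ok9 0xdc0120012000c001010102010000080010 = true := by decide +kernel

theorem k9_511 : ok9 0xe001180104010000800080004000010002 = true := by decide +kernel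

theorem ck9_7 : ∀ H ∈ rk9_7, ok9 H = true :=
  List.forall_mem_cons.mpr ⟨k9_448, List.forall_mem_cons.mpr ⟨k9_449, List.forall_mem_cons.mpr ⟨k9_450, List.forall_mem_cons.mpr ⟨k9_451, List.forall_mem_cons.mpr ⟨k9_452, List.forall_mem_cons.mpr ⟨k9_453, List.forall_mem_cons.mpr ⟨k9_454, List.forall_mem_cons.mpr ⟨k9_455, List.forall_mem_cons.mpr ⟨k9_456, List.forall_mem_cons.mpr ⟨k9_457, List.forall_mem_cons.mpr ⟨k9_458, List.forall_mem_cons.mpr ⟨k9_459, List.forall_mem_cons.mpr ⟨k9_460, List.forall_mem_cons.mpr ⟨k9_461, List.forall_mem_cons.mpr ⟨k9_462, List.forall_mem_cons.mpr ⟨k9_463, List.forall_mem_cons.mpr ⟨k9_464, List.forall_mem_cons.mpr ⟨k9_465, List.forall_mem_cons.mpr ⟨k9_466, List.forall_mem_cons.mpr ⟨k9_467, List.forall_mem_cons.mpr ⟨k9_468, List.forall_mem_cons.mpr ⟨k9_469, List.forall_mem_cons.mpr ⟨k9_470, List.forall_mem_cons.mpr ⟨k9_471, List.forall_mem_cons.mpr ⟨k9_472, List.forall_mem_cons.mpr ⟨k9_473, List.forall_mem_cons.mpr ⟨k9_474, List.forall_mem_cons.mpr ⟨k9_475, List.forall_mem_cons.mpr ⟨k9_476, List.forall_mem_cons.mpr ⟨k9_477, List.forall_mem_cons.mpr ⟨k9_478, List.forall_mem_cons.mpr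 ⟨k9_479, List.forall_mem_cons.mpr ⟨k9_480, List.forall_mem_cons.mpr ⟨k9_481, List.forall_mem_cons.mpr ⟨k9_482, List.forall_mem_cons.mpr ⟨k9_483, List.forall_mem_cons.mpr ⟨k9_484, List.forall_mem_cons.mpr ⟨k9_485, List.forall_mem_cons.mpr ⟨k9_486, List.forall_mem_cons.mpr ⟨k9_487, List.forall_mem_cons.mpr ⟨k9_488, List.forall_mem_cons.mpr ⟨k9_489, List.forall_mem_cons.mpr ⟨k9_490, List.forall_mem_cons.mpr ⟨k9_491, List.forall_mem_cons.mpr ⟨k9_492, List.forall_mem_cons.mpr ⟨k9_493, List.forall_mem_cons.mpr ⟨k9_494, List.forall_mem_cons.mpr ⟨k9_495, List.forall_mem_cons.mpr ⟨k9_496, List.forall_mem_cons.mpr ⟨k9_497, List.forall_mem_cons.mpr ⟨k9_498, List.forall_mem_cons.mpr ⟨k9_499, List.forall_mem_cons.mpr ⟨k9_500, List.forall_mem_cons.mpr ⟨k9_501, List.forall_mem_cons.mpr ⟨k9_502, List.forall_mem_cons.mpr ⟨k9_503, List.forall_mem_cons.mpr ⟨k9_504, List.forall_mem_cons.mpr ⟨k9_505, List.forall_mem_cons.mpr ⟨k9_506, List.forall_mem_cons.mpr ⟨k9_507, List.forall_mem_cons.mpr ⟨k9_508, List.forall_mem_cons.mpr ⟨k9_509, List.forall_mem_cons.mpr ⟨k9_510, List.forall_mem_cons.mpr ⟨k9_511, List.forall_mem_nil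 _⟩⟩⟩⟩⟩⟩⟩⟩⟩⟩⟩⟩⟩⟩⟩⟩⟩⟩⟩⟩⟩⟩⟩⟩⟩⟩⟩⟩⟩⟩⟩⟩⟩⟩⟩⟩⟩⟩⟩⟩⟩⟩⟩⟩⟩⟩⟩⟩⟩⟩⟩⟩⟩⟩⟩⟩⟩⟩⟩⟩⟩⟩⟩⟩

end Pool.Agent.ICyc.Flag
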