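import Pool.Agent.Lib.MP_131fce_co.Flag.T9

/-!
# Check of the graphs on `9` vertices, part 9
-/

set_option autoImplicit false
set_option maxRecDepth 100000

namespace Pool.Agent.ICyc.Flag

def rk9_8 : List ℕ :=
  [0xf0010c0101010201000080008000200040, 0x98014000a0004401000100002000010002, 
    0x70004c0180010101020080008000100020, 0x7000680180018001040080001000010002, 
    0x7800640180018001010102008000080010, 0x7000700180018001800004000800010002, 
    0x7800700180018001800104000800010002, 0x7c00700180018001800101010200040008, 
    0x8201040028005000200040008001000000, 0x9801040021004201000100008000200040, 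
    0xa801400090010400420100002000100000, 0xac01400090010200410100010000200010, 
    0x90014000a0005001200004000800000000, 0xc801100120005000a00100000200040000, 
    0xcc01100120005000a00100010000010002, 0xc801100120005000a00104000800000000, 
    0xcc01100120005000a00102010000080000, 0xce01100120005000a00101010001000008, 
    0xa801500082010400800100002000400000, 0xd801240102008101000100008000400020, 
    0xa8015000a0014000800100000200040000, 0xd80124012000c001000100008000010002, 
    0xd80124012000c001020100008000100000, 0xdc0122012000c001010100010000800010, 
    0x580026012000c001010100008000800010, 0x5400680180008101020080010000100020, 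
    0x5400680180009001200080010000010002, 0x6800540180011000a00102008000080000, 
    0x6c00520180011000a00101010000800008, 0x6800700180018000820104000800100000, 
    0x7400680180018001020081010000100008, 0x6800700180018000880110000200040000, 
    0x7400680180018001080090010000010002, 0x7400680180018001080090010200040000, 
    0x7600680180018001080090010101000004, 0xd001280106008101000080004000400020, 
    0xd00124012800c001000040008000010002, 0xb0014800a4014001020080004000100000, 
    0xb8014400a2014001010100008000400010, 0x7000700188018001800040000200040000, 
    0x7800700184018001800100004000010002, 0x7800700184018001800102004000080000, 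
    0x7c00700182018001800101010000400008, 0xd80126012000c001010100008000800010, 
    0x6600580180011000a00081010001000008, 0x74006a0180018001080090010100800004, 
    0x7400780180018001800081010200040008, 0x7400780180018001800084010800010002, 
    0x7a00740180018001800104008801010002, 0x6c00700182018000810100010000400010, 
    0x7800740182018001800101008000400008, 0x7800780184018001800180004000010002, 
    0x7c00780182018001800180010100400004, 0x2a005400a0014000880110008001000000, 
    0x6600190108011000a000c0010001000080, 0x5400680180009001200084010800000000, 
    0x72004c018001040108009000a001000000, 0x73004c018001040108009000a001000100, 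
    0xc801120124005000a00100004000800000, 0xac01420091011000600100010000800040, 
    0x6800700184018000880110004000000000, 0x7400680182018001080090010000400000, 
    0x7600680181018001080090010001000040, 0xa2014400a8015000200040008001000000]

theorem k9_512 : ok9 0xf0010c0101010201000080008000200040 = true := by decide +kernel

theorem k9_513 : ok9 0x98014000a0004401000100002000010002 = true := by decide +kernel

theorem k9_514 : ok9 0x70004c0180010101020080008000100020 = true := by decide +kernel

theorem k9_515 : ok9 0x7000680180018001040080001000010002 = true := by decide +kernel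

theorem k9_516 : ok9 0x7800640180018001010102008000080010 = true := by decide +kernel

theorem k9_517 : ok9 0x7000700180018001800004000800010002 = true := by decide +kernel

theorem k9_518 : ok9 0x7800700180018001800104000800010002 = true := by decide +kernel

theorem k9_519 : ok9 0x7c00700180018001800101010200040008 = true := by decide +kernel

theorem k9_520 : ok9 0x8201040028005000200040008001000000 = true := by decide +kernel

theorem k9_521 : ok9 0x9801040021004201000100008000200040 = true := by decide +kernel

theorem k9_522 : ok9 0xa801400090010400420100002000100000 = true := by decide +kernel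

theorem k9_523 : ok9 0xac01400090010200410100010000200010 = true := by decide +kernel

theorem k9_524 : ok9 0x90014000a0005001200004000800000000 = true := by decide +kernel

theorem k9_525 : ok9 0xc801100120005000a00100000200040000 = true := by decide +kernel

theorem k9_526 : ok9 0xcc01100120005000a00100010000010002 = true := by decide +kernel

theorem k9_527 : ok9 0xc801100120005000a00104000800000000 = true := by decide +kernel

theorem k9_528 : ok9 0xcc01100120005000a00102010000080000 = true := by decide +kernel

theorem k9_529 : ok9 0xce01100120005000a00101010001000008 = true := by decide +kernel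

theorem k9_530 : ok9 0xa801500082010400800100002000400000 = true := by decide +kernel

theorem k9_531 : ok9 0xd801240102008101000100008000400020 = true := by decide +kernel

theorem k9_532 : ok9 0xa8015000a0014000800100000200040000 = true := by decide +kernel

theorem k9_533 : ok9 0xd80124012000c001000100008000010002 = true := by decide +kernel

theorem k9_534 : ok9 0xd80124012000c001020100008000100000 = true := by decide +kernel

theorem k9_535 : ok9 0xdc0122012000c001010100010000800010 = true := by decide +kernel

theorem k9_536 : ok9 0x580026012000c001010100008000800010 = true := by decide +kernel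

theorem k9_537 : ok9 0x5400680180008101020080010000100020 = true := by decide +kernel

theorem k9_538 : ok9 0x5400680180009001200080010000010002 = true := by decide +kernel

theorem k9_539 : ok9 0x6800540180011000a00102008000080000 = true := by decide +kernel

theorem k9_540 : ok9 0x6c00520180011000a00101010000800008 = true := by decide +kernel

theorem k9_541 : ok9 0x6800700180018000820104000800100000 = true := by decide +kernel

theorem k9_542 : ok9 0x7400680180018001020081010000100008 = true := by decide +kernel

theorem k9_543 : ok9 0x6800700180018000880110000200040000 = true := by decide +kernel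

theorem k9_544 : ok9 0x7400680180018001080090010000010002 = true := by decide +kernel

theorem k9_545 : ok9 0x7400680180018001080090010200040000 = true := by decide +kernel

theorem k9_546 : ok9 0x7600680180018001080090010101000004 = true := by decide +kernel

theorem k9_547 : ok9 0xd001280106008101000080004000400020 = true := by decide +kernel

theorem k9_548 : ok9 0xd00124012800c001000040008000010002 = true := by decide +kernel

theorem k9_549 : ok9 0xb0014800a4014001020080004000100000 = true := by decide +kernel

theorem k9_550 : ok9 0xb8014400a2014001010100008000400010 = true := by decide +kernel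

theorem k9_551 : ok9 0x7000700188018001800040000200040000 = true := by decide +kernel

theorem k9_552 : ok9 0x7800700184018001800100004000010002 = true := by decide +kernel

theorem k9_553 : ok9 0x7800700184018001800102004000080000 = true := by decide +kernel

theorem k9_554 : ok9 0x7c00700182018001800101010000400008 = true := by decide +kernel

theorem k9_555 : ok9 0xd80126012000c001010100008000800010 = true := by decide +kernel

theorem k9_556 : ok9 0x6600580180011000a00081010001000008 = true := by decide +kernel

theorem k9_557 : ok9 0x74006a0180018001080090010100800004 = true := by decide +kernel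

theorem k9_558 : ok9 0x7400780180018001800081010200040008 = true := by decide +kernel

theorem k9_559 : ok9 0x7400780180018001800084010800010002 = true := by decide +kernel

theorem k9_560 : ok9 0x7a00740180018001800104008801010002 = true := by decide +kernel

theorem k9_561 : ok9 0x6c00700182018000810100010000400010 = true := by decide +kernel

theorem k9_562 : ok9 0x7800740182018001800101008000400008 = true := by decide +kernel

theorem k9_563 : ok9 0x7800780184018001800180004000010002 = true := by decide +kernel

theorem k9_564 : ok9 0x7c00780182018001800180010100400004 = true := by decide +kernel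

theorem k9_565 : ok9 0x2a005400a0014000880110008001000000 = true := by decide +kernel

theorem k9_566 : ok9 0x6600190108011000a000c0010001000080 = true := by decide +kernel

theorem k9_567 : ok9 0x5400680180009001200084010800000000 = true := by decide +kernel

theorem k9_568 : ok9 0x72004c018001040108009000a001000000 = true := by decide +kernel

theorem k9_569 : ok9 0x73004c018001040108009000a001000100 = true := by decide +kernel

theorem k9_570 : ok9 0xc801120124005000a00100004000800000 = true := by decide +kernel

theorem k9_571 : ok9 0xac01420091011000600100010000800040 = true := by decide +kernel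

theorem k9_572 : ok9 0x6800700184018000880110004000000000 = true := by decide +kernel

theorem k9_573 : ok9 0x7400680182018001080090010000400000 = true := by decide +kernel

theorem k9_574 : ok9 0x7600680181018001080090010001000040 = true := by decide +kernel

theorem k9_575 : ok9 0xa2014400a8015000200040008001000000 = true := by decide +kernel

theorem ck9_8 : ∀ H ∈ rk9_8, ok9 H = true :=
  List.forall_mem_cons.mpr ⟨k9_512, List.forall_mem_cons.mpr ⟨k9_513, List.forall_mem_cons.mpr ⟨k9_514, List.forall_mem_cons.mpr ⟨k9_515, List.forall_mem_cons.mpr ⟨k9_516, List.forall_mem_cons.mpr ⟨k9_517, List.forall_mem_cons.mpr ⟨k9_518, List.forall_mem_cons.mpr ⟨k9_519, List.forall_mem_cons.mpr ⟨k9_520, List.forall_mem_cons.mpr ⟨k9_521, List.forall_mem_cons.mpr ⟨k9_522, List.forall_mem_cons.mpr ⟨k9_523, List.forall_mem_cons.mpr ⟨k9_524, List.forall_mem_cons.mpr ⟨k9_525, List.forall_mem_cons.mpr ⟨k9_526, List.forall_mem_cons.mpr ⟨k9_527, List.forall_mem_cons.mpr ⟨k9_528, List.forall_mem_cons.mpr ⟨k9_529, List.forall_mem_cons.mpr ⟨k9_530, List.forall_mem_cons.mpr ⟨k9_531, List.forall_mem_cons.mpr ⟨k9_532, List.forall_mem_cons.mpr ⟨k9_533, List.forall_mem_cons.mpr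 ⟨k9_534, List.forall_mem_cons.mpr ⟨k9_535, List.forall_mem_cons.mpr ⟨k9_536, List.forall_mem_cons.mpr ⟨k9_537, List.forall_mem_cons.mpr ⟨k9_538, List.forall_mem_cons.mpr ⟨k9_539, List.forall_mem_cons.mpr ⟨k9_540, List.forall_mem_cons.mpr ⟨k9_541, List.forall_mem_cons.mpr ⟨k9_542, List.forall_mem_cons.mpr ⟨k9_543, List.forall_mem_cons.mpr ⟨k9_544, List.forall_mem_cons.mpr ⟨k9_545, List.forall_mem_cons.mpr ⟨k9_546, List.forall_mem_cons.mpr ⟨k9_547, List.forall_mem_cons.mpr ⟨k9_548, List.forall_mem_cons.mpr ⟨k9_549, List.forall_mem_cons.mpr ⟨k9_550, List.forall_mem_cons.mpr ⟨k9_551, List.forall_mem_cons.mpr ⟨k9_552, List.forall_mem_cons.mpr ⟨k9_553, List.forall_mem_cons.mpr ⟨k9_554, List.forall_mem_cons.mpr ⟨k9_555, List.forall_mem_cons.mpr ⟨k9_556, List.forall_mem_cons.mpr ⟨k9_557, List.forall_mem_cons.mpr ⟨k9_558, List.forall_mem_cons.mpr ⟨k9_559, List.forall_mem_cons.mpr ⟨k9_560, List.forall_mem_cons.mpr ⟨k9_561, List.forall_mem_cons.mpr ⟨k9_562, List.forall_mem_cons.mpr ⟨k9_563, List.forall_mem_cons.mpr ⟨k9_564, List.forall_mem_cons.mpr ⟨k9_565, List.forall_mem_cons.mpr ⟨k9_566, List.forall_mem_cons.mpr ⟨k9_567, List.forall_mem_cons.mpr ⟨k9_568,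 List.forall_mem_cons.mpr ⟨k9_569, List.forall_mem_cons.mpr ⟨k9_570, List.forall_mem_cons.mpr ⟨k9_571, List.forall_mem_cons.mpr ⟨k9_572, List.forall_mem_cons.mpr ⟨k9_573, List.forall_mem_cons.mpr ⟨k9_574, List.forall_mem_cons.mpr ⟨k9_575, List.forall_mem_nil _⟩⟩⟩⟩⟩⟩⟩⟩⟩⟩⟩⟩⟩⟩⟩⟩⟩⟩⟩⟩⟩⟩⟩⟩⟩⟩⟩⟩⟩⟩⟩⟩⟩⟩⟩⟩⟩⟩⟩⟩⟩⟩⟩⟩⟩⟩⟩⟩⟩⟩⟩⟩⟩⟩⟩⟩⟩⟩⟩⟩⟩⟩⟩⟩

end Pool.Agent.ICyc.Flag
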