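import Pool.Agent.Lib.MP_131fce_co.Flag.T9

/-!
# Check of the graphs on `9` vertices, part 10
-/

set_option autoImplicit false
set_option maxRecDepth 100000

namespace Pool.Agent.ICyc.Flag

def rk9_9 : List ℕ :=
  [0xd80122012400c101000100004000800020, 0x7800700182018401800100002000400000, 
    0x7c00700181018201800100010000200040, 0xaa015400a0014000880110008001000000, 
    0xe601190108011000a000c0010001000080, 0x55006a0180009001200084010800800100, 
    0x6a00740180018000880110008201040000, 0x7900660180018001020104008800900100, 
    0x6a00740181018000880110008001000040, 0x7400780182018001800084010800400000, 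
    0x7a00740181018001800104008801000040, 0x7400780181018201800080010000200040, 
    0x7800780182018401800180002000400000, 0x7c00780181018201800180010000200040, 
    0x75007a0180018001800084010800810102, 0x7a007c0181018001800180008201040040, 
    0x7c007c0181018201800180018000200040, 0xa001400084010800030020004000100010, 
    0xa0014000a00140000c0010001000010002, 0xd00120012000c001040003001000080008, 
    0xc001100120004400880010002000010002, 0xe001080110010400410082002000080010, 
    0xe001080110011000600084000800010002, 0xe801040110011000600102008100080004, 
    0xf00104010401080108003000c000010002, 0xf20104010401080108003000c001010002, 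
    0xe0010c0110010200410080008000200010, 0xe0010c0110011000600080008000010002, 
    0xe801060110011000600101008000800008, 0xc001040108001100220040008000100020, 
    0xa0014000a00140000a0014000800100000, 0xc40120012000c000090012010000080010, 
    0xa001400088011000220044000800100000, 0xc401200110008800420021010000100008, 
    0xe001100108010800840060001200040000, 0xe201100108010800840060001101000004, 
    0x90014000a0005001200006000800080000, 0xc401100120005000a00003010000080008, 
    0xe001080110010400480090002200040000, 0xe201080110010400480090002101000004, 
    0xf001040108010201020044008800300000, 0xf101040108010201020044008800300100, 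
    0xc801060120005000210100008000800010, 0xe001060108011000280050008000800000, 
    0xe401030108011000280050010000800080, 0xc801240110008200410100008000200010, 
    0xe0010c0110011000600082008000080000, 0xe4010a0110011000600081010000800008, 
    0xa4014800a0014000030080010000100010, 0xe001140108011000a00042008000080000, 
    0xe401120108011000a00041010000800008, 0xf0010a01080104010400c0003000800000, 
    0xf2010901080104010400c0003001000080, 0xe801140103011000a00100008000400040, 
    0xe005000a0005000a00101010001000008, 0x86014000a0005000280011010001000008, 
    0x580023012000c001040104001800800080, 0x94014000a0004801020021010000100008, 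
    0x7000460180010801080030008100800004, 0x6800520180011000a00104000900800004, 
    0x780045018001040102010200a000180080, 0x7000680180018001040082001100080004, 
    0x7800620180018001040104001800810002, 0x6800700180018000880110000300040004]

theorem k9_576 : ok9 0xd80122012400c101000100004000800020 = true := by decide +kernel

theorem k9_577 : ok9 0x7800700182018401800100002000400000 = true := by decide +kernel

theorem k9_578 : ok9 0x7c00700181018201800100010000200040 = true := by decide +kernel

theorem k9_579 : ok9 0xaa015400a0014000880110008001000000 = true := by decide +kernel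

theorem k9_580 : ok9 0xe601190108011000a000c0010001000080 = true := by decide +kernel

theorem k9_581 : ok9 0x55006a0180009001200084010800800100 = true := by decide +kernel

theorem k9_582 : ok9 0x6a00740180018000880110008201040000 = true := by decide +kernel

theorem k9_583 : ok9 0x7900660180018001020104008800900100 = true := by decide +kernel

theorem k9_584 : ok9 0x6a00740181018000880110008001000040 = true := by decide +kernel

theorem k9_585 : ok9 0x7400780182018001800084010800400000 = true := by decide +kernel

theorem k9_586 : ok9 0x7a00740181018001800104008801000040 = true := by decide +kernel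

theorem k9_587 : ok9 0x7400780181018201800080010000200040 = true := by decide +kernel

theorem k9_588 : ok9 0x7800780182018401800180002000400000 = true := by decide +kernel

theorem k9_589 : ok9 0x7c00780181018201800180010000200040 = true := by decide +kernel

theorem k9_590 : ok9 0x75007a0180018001800084010800810102 = true := by decide +kernel

theorem k9_591 : ok9 0x7a007c0181018001800180008201040040 = true := by decide +kernel

theorem k9_592 : ok9 0x7c007c0181018201800180018000200040 = true := by decide +kernel

theorem k9_593 : ok9 0xa001400084010800030020004000100010 = true := by decide +kernel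

theorem k9_594 : ok9 0xa0014000a00140000c0010001000010002 = true := by decide +kernel

theorem k9_595 : ok9 0xd00120012000c001040003001000080008 = true := by decide +kernel

theorem k9_596 : ok9 0xc001100120004400880010002000010002 = true := by decide +kernel

theorem k9_597 : ok9 0xe001080110010400410082002000080010 = true := by decide +kernel

theorem k9_598 : ok9 0xe001080110011000600084000800010002 = true := by decide +kernel

theorem k9_599 : ok9 0xe801040110011000600102008100080004 = true := by decide +kernel

theorem k9_600 : ok9 0xf00104010401080108003000c000010002 = true := by decide +kernel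

theorem k9_601 : ok9 0xf20104010401080108003000c001010002 = true := by decide +kernel

theorem k9_602 : ok9 0xe0010c0110010200410080008000200010 = true := by decide +kernel

theorem k9_603 : ok9 0xe0010c0110011000600080008000010002 = true := by decide +kernel

theorem k9_604 : ok9 0xe801060110011000600101008000800008 = true := by decide +kernel

theorem k9_605 : ok9 0xc001040108001100220040008000100020 = true := by decide +kernel

theorem k9_606 : ok9 0xa0014000a00140000a0014000800100000 = true := by decide +kernel

theorem k9_607 : ok9 0xc40120012000c000090012010000080010 = true := by decide +kernel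

theorem k9_608 : ok9 0xa001400088011000220044000800100000 = true := by decide +kernel

theorem k9_609 : ok9 0xc401200110008800420021010000100008 = true := by decide +kernel

theorem k9_610 : ok9 0xe001100108010800840060001200040000 = true := by decide +kernel

theorem k9_611 : ok9 0xe201100108010800840060001101000004 = true := by decide +kernel

theorem k9_612 : ok9 0x90014000a0005001200006000800080000 = true := by decide +kernel

theorem k9_613 : ok9 0xc401100120005000a00003010000080008 = true := by decide +kernel

theorem k9_614 : ok9 0xe001080110010400480090002200040000 = true := by decide +kernel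

theorem k9_615 : ok9 0xe201080110010400480090002101000004 = true := by decide +kernel

theorem k9_616 : ok9 0xf001040108010201020044008800300000 = true := by decide +kernel

theorem k9_617 : ok9 0xf101040108010201020044008800300100 = true := by decide +kernel

theorem k9_618 : ok9 0xc801060120005000210100008000800010 = true := by decide +kernel

theorem k9_619 : ok9 0xe001060108011000280050008000800000 = true := by decide +kernel

theorem k9_620 : ok9 0xe401030108011000280050010000800080 = true := by decide +kernel

theorem k9_621 : ok9 0xc801240110008200410100008000200010 = true := by decide +kernel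

theorem k9_622 : ok9 0xe0010c0110011000600082008000080000 = true := by decide +kernel

theorem k9_623 : ok9 0xe4010a0110011000600081010000800008 = true := by decide +kernel

theorem k9_624 : ok9 0xa4014800a0014000030080010000100010 = true := by decide +kernel

theorem k9_625 : ok9 0xe001140108011000a00042008000080000 = true := by decide +kernel

theorem k9_626 : ok9 0xe401120108011000a00041010000800008 = true := by decide +kernel

theorem k9_627 : ok9 0xf0010a01080104010400c0003000800000 = true := by decide +kernel

theorem k9_628 : ok9 0xf2010901080104010400c0003001000080 = true := by decide +kernel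

theorem k9_629 : ok9 0xe801140103011000a00100008000400040 = true := by decide +kernel

theorem k9_630 : ok9 0xe005000a0005000a00101010001000008 = true := by decide +kernel

theorem k9_631 : ok9 0x86014000a0005000280011010001000008 = true := by decide +kernel

theorem k9_632 : ok9 0x580023012000c001040104001800800080 = true := by decide +kernel

theorem k9_633 : ok9 0x94014000a0004801020021010000100008 = true := by decide +kernel

theorem k9_634 : ok9 0x7000460180010801080030008100800004 = true := by decide +kernel

theorem k9_635 : ok9 0x6800520180011000a00104000900800004 = true := by decide +kernel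

theorem k9_636 : ok9 0x780045018001040102010200a000180080 = true := by decide +kernel

theorem k9_637 : ok9 0x7000680180018001040082001100080004 = true := by decide +kernel

theorem k9_638 : ok9 0x7800620180018001040104001800810002 = true := by decide +kernel

theorem k9_639 : ok9 0x6800700180018000880110000300040004 = true := by decide +kernel

theorem ck9_9 : ∀ H ∈ rk9_9, ok9 H = true :=
  List.forall_mem_cons.mpr ⟨k9_576, List.forall_mem_cons.mpr ⟨k9_577, List.forall_mem_cons.mpr ⟨k9_578, List.forall_mem_cons.mpr ⟨k9_579, List.forall_mem_cons.mpr ⟨k9_580, List.forall_mem_cons.mpr ⟨k9_581, List.forall_mem_cons.mpr ⟨k9_582, List.forall_mem_cons.mpr ⟨k9_583, List.forall_mem_cons.mpr ⟨k9_584, List.forall_mem_cons.mpr ⟨k9_585, List.forall_mem_cons.mpr ⟨k9_586, List.forall_mem_cons.mpr ⟨k9_587, List.forall_mem_cons.mpr ⟨k9_588, List.forall_mem_cons.mpr ⟨k9_589, List.forall_mem_cons.mpr ⟨k9_590, List.forall_mem_cons.mpr ⟨k9_591, List.forall_mem_cons.mpr ⟨k9_592, List.forall_mem_cons.mpr ⟨k9_593, List.forall_mem_cons.mpr ⟨k9_594, List.forall_mem_cons.mpr ⟨k9_595, List.forall_mem_cons.mpr ⟨k9_596, List.forall_mem_cons.mpr ⟨k9_597, List.forall_mem_cons.mpr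 ⟨k9_598, List.forall_mem_cons.mpr ⟨k9_599, List.forall_mem_cons.mpr ⟨k9_600, List.forall_mem_cons.mpr ⟨k9_601, List.forall_mem_cons.mpr ⟨k9_602, List.forall_mem_cons.mpr ⟨k9_603, List.forall_mem_cons.mpr ⟨k9_604, List.forall_mem_cons.mpr ⟨k9_605, List.forall_mem_cons.mpr ⟨k9_606, List.forall_mem_cons.mpr ⟨k9_607, List.forall_mem_cons.mpr ⟨k9_608, List.forall_mem_cons.mpr ⟨k9_609, List.forall_mem_cons.mpr ⟨k9_610, List.forall_mem_cons.mpr ⟨k9_611, List.forall_mem_cons.mpr ⟨k9_612, List.forall_mem_cons.mpr ⟨k9_613, List.forall_mem_cons.mpr ⟨k9_614, List.forall_mem_cons.mpr ⟨k9_615, List.forall_mem_cons.mpr ⟨k9_616, List.forall_mem_cons.mpr ⟨k9_617, List.forall_mem_cons.mpr ⟨k9_618, List.forall_mem_cons.mpr ⟨k9_619, List.forall_mem_cons.mpr ⟨k9_620, List.forall_mem_cons.mpr ⟨k9_621, List.forall_mem_cons.mpr ⟨k9_622, List.forall_mem_cons.mpr ⟨k9_623, List.forall_mem_cons.mpr ⟨k9_624, List.forall_mem_cons.mpr ⟨k9_625, List.forall_mem_cons.mpr ⟨k9_626, List.forall_mem_cons.mpr ⟨k9_627, List.forall_mem_cons.mpr ⟨k9_628, List.forall_mem_cons.mpr ⟨k9_629, List.forall_mem_cons.mpr ⟨k9_630, List.forall_mem_cons.mpr ⟨k9_631, List.forall_mem_cons.mpr ⟨k9_632,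 List.forall_mem_cons.mpr ⟨k9_633, List.forall_mem_cons.mpr ⟨k9_634, List.forall_mem_cons.mpr ⟨k9_635, List.forall_mem_cons.mpr ⟨k9_636, List.forall_mem_cons.mpr ⟨k9_637, List.forall_mem_cons.mpr ⟨k9_638, List.forall_mem_cons.mpr ⟨k9_639, List.forall_mem_nil _⟩⟩⟩⟩⟩⟩⟩⟩⟩⟩⟩⟩⟩⟩⟩⟩⟩⟩⟩⟩⟩⟩⟩⟩⟩⟩⟩⟩⟩⟩⟩⟩⟩⟩⟩⟩⟩⟩⟩⟩⟩⟩⟩⟩⟩⟩⟩⟩⟩⟩⟩⟩⟩⟩⟩⟩⟩⟩⟩⟩⟩⟩⟩⟩

end Pool.Agent.ICyc.Flag
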