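import Pool.Agent.Lib.MP_131fce_co.Flag.T9

/-!
# Check of the graphs on `9` vertices, part 11
-/

set_option autoImplicit false
set_option maxRecDepth 100000

namespace Pool.Agent.ICyc.Flag

def rk9_10 : List ℕ :=
  [0x7800640180018001040102009000090002, 0x7c0062018001800102010101010090000c, 
    0x70002c0103018001080090008000400040, 0x7000380106018001800081004000400008, 
    0x7800340103018001800104008800400040, 0xb001440083010801080030008000400040, 
    0xb0014400a2014001080011008000400008, 0xb8014200a1014001040104001800800040, 
    0x7000700184018001800003004000080008, 0x7800700182018001800104000900400004, 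
    0x7c007001810180018001020102000c0040, 0xb001480094010301400080004000200020, 
    0x7800580184010301800180004000200020, 0x8e01600090009000600101010001000008, 
    0xc601300110008800c00021010001000008, 0xd80123012000c001040104001800800080, 
    0x88014000a0005000280110000200040000, 0xc401100120004800880030010000010002, 
    0xc401100120004800880030010200040000, 0xc601100120004800880030010101000004, 
    0xa401480090011000600080010000010002, 0xc801240110009000600102008000080000, 
    0xcc01220110009000600101010000800008, 0xd80122012400c001010100004000800010, 
    0xe001040108011000200040008000010002, 0xe001180102010400810080002000400010, 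
    0xd00128012000c001040080001000010002, 0xa8015000a0014000820104000800100000, 
    0xd40128012000c001020081010000100008, 0xa8015000a0014000880110000200040000, 
    0xe401180108011000a000c0010000010002, 0xe401180108011000a000c0010200040000, 
    0xe601180108011000a000c0010101000004, 0x6400520180010800880030010100800004, 
    0x6800700180018000840104001800010002, 0x7200680180018001040084001801010002, 
    0xa801140032014000c00101008000400008, 0x580038012400c001800180004000010002, 
    0x740038010a0180018000c0010100400004, 0xe001180106011000a00081004000400008, 
    0xd00128012400c001020081004000100008, 0xd00128012400c001080090004000010002, 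
    0xb4014800a2014001080090010100400004, 0xc80130013000c000c00104000800010002, 
    0xb8014400b0014001400102008100080004, 0xb8014400b0014001400104008800010002, 
    0xba014400b0014001400104008801010002, 0xc601280110009000600081010001000008, 
    0x84014000a0005000280014010800000000, 0xc201100120004400880014002801000000, 
    0xc301100120004400880014002801000100, 0xa201440088011000280050008001000000, 
    0xc601210110008800480030010001000080, 0xcc01110122005000a00100010000400080, 
    0xa801500084010400880110006000000000, 0xe2011801040108008400a0005001000000, 
    0xe3011801040108008400a0005001000100, 0xcc0130012200c000810100010000400010, 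
    0xd40128012200c001080090010000400000, 0xd60128012100c001080090010001000040, 
    0x29005200a0014000840104001800800100, 0x54006801800090012000820102000c0000, 
    0x71004c01800108010200a0008200140100, 0xa401120029014000880050010000800040]

theorem k9_640 : ok9 0x7800640180018001040102009000090002 = true := by decide +kernel

theorem k9_641 : ok9 0x7c0062018001800102010101010090000c = true := by decide +kernel

theorem k9_642 : ok9 0x70002c0103018001080090008000400040 = true := by decide +kernel

theorem k9_643 : ok9 0x7000380106018001800081004000400008 = true := by decide +kernel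

theorem k9_644 : ok9 0x7800340103018001800104008800400040 = true := by decide +kernel

theorem k9_645 : ok9 0xb001440083010801080030008000400040 = true := by decide +kernel

theorem k9_646 : ok9 0xb0014400a2014001080011008000400008 = true := by decide +kernel

theorem k9_647 : ok9 0xb8014200a1014001040104001800800040 = true := by decide +kernel

theorem k9_648 : ok9 0x7000700184018001800003004000080008 = true := by decide +kernel

theorem k9_649 : ok9 0x7800700182018001800104000900400004 = true := by decide +kernel

theorem k9_650 : ok9 0x7c007001810180018001020102000c0040 = true := by decide +kernel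

theorem k9_651 : ok9 0xb001480094010301400080004000200020 = true := by decide +kernel

theorem k9_652 : ok9 0x7800580184010301800180004000200020 = true := by decide +kernel

theorem k9_653 : ok9 0x8e01600090009000600101010001000008 = true := by decide +kernel

theorem k9_654 : ok9 0xc601300110008800c00021010001000008 = true := by decide +kernel

theorem k9_655 : ok9 0xd80123012000c001040104001800800080 = true := by decide +kernel

theorem k9_656 : ok9 0x88014000a0005000280110000200040000 = true := by decide +kernel

theorem k9_657 : ok9 0xc401100120004800880030010000010002 = true := by decide +kernel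

theorem k9_658 : ok9 0xc401100120004800880030010200040000 = true := by decide +kernel

theorem k9_659 : ok9 0xc601100120004800880030010101000004 = true := by decide +kernel

theorem k9_660 : ok9 0xa401480090011000600080010000010002 = true := by decide +kernel

theorem k9_661 : ok9 0xc801240110009000600102008000080000 = true := by decide +kernel

theorem k9_662 : ok9 0xcc01220110009000600101010000800008 = true := by decide +kernel

theorem k9_663 : ok9 0xd80122012400c001010100004000800010 = true := by decide +kernel

theorem k9_664 : ok9 0xe001040108011000200040008000010002 = true := by decide +kernel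

theorem k9_665 : ok9 0xe001180102010400810080002000400010 = true := by decide +kernel

theorem k9_666 : ok9 0xd00128012000c001040080001000010002 = true := by decide +kernel

theorem k9_667 : ok9 0xa8015000a0014000820104000800100000 = true := by decide +kernel

theorem k9_668 : ok9 0xd40128012000c001020081010000100008 = true := by decide +kernel

theorem k9_669 : ok9 0xa8015000a0014000880110000200040000 = true := by decide +kernel

theorem k9_670 : ok9 0xe401180108011000a000c0010000010002 = true := by decide +kernel

theorem k9_671 : ok9 0xe401180108011000a000c0010200040000 = true := by decide +kernel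

theorem k9_672 : ok9 0xe601180108011000a000c0010101000004 = true := by decide +kernel

theorem k9_673 : ok9 0x6400520180010800880030010100800004 = true := by decide +kernel

theorem k9_674 : ok9 0x6800700180018000840104001800010002 = true := by decide +kernel

theorem k9_675 : ok9 0x7200680180018001040084001801010002 = true := by decide +kernel

theorem k9_676 : ok9 0xa801140032014000c00101008000400008 = true := by decide +kernel

theorem k9_677 : ok9 0x580038012400c001800180004000010002 = true := by decide +kernel

theorem k9_678 : ok9 0x740038010a0180018000c0010100400004 = true := by decide +kernel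

theorem k9_679 : ok9 0xe001180106011000a00081004000400008 = true := by decide +kernel

theorem k9_680 : ok9 0xd00128012400c001020081004000100008 = true := by decide +kernel

theorem k9_681 : ok9 0xd00128012400c001080090004000010002 = true := by decide +kernel

theorem k9_682 : ok9 0xb4014800a2014001080090010100400004 = true := by decide +kernel

theorem k9_683 : ok9 0xc80130013000c000c00104000800010002 = true := by decide +kernel

theorem k9_684 : ok9 0xb8014400b0014001400102008100080004 = true := by decide +kernel

theorem k9_685 : ok9 0xb8014400b0014001400104008800010002 = true := by decide +kernel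

theorem k9_686 : ok9 0xba014400b0014001400104008801010002 = true := by decide +kernel

theorem k9_687 : ok9 0xc601280110009000600081010001000008 = true := by decide +kernel

theorem k9_688 : ok9 0x84014000a0005000280014010800000000 = true := by decide +kernel

theorem k9_689 : ok9 0xc201100120004400880014002801000000 = true := by decide +kernel

theorem k9_690 : ok9 0xc301100120004400880014002801000100 = true := by decide +kernel

theorem k9_691 : ok9 0xa201440088011000280050008001000000 = true := by decide +kernel

theorem k9_692 : ok9 0xc601210110008800480030010001000080 = true := by decide +kernel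

theorem k9_693 : ok9 0xcc01110122005000a00100010000400080 = true := by decide +kernel

theorem k9_694 : ok9 0xa801500084010400880110006000000000 = true := by decide +kernel

theorem k9_695 : ok9 0xe2011801040108008400a0005001000000 = true := by decide +kernel

theorem k9_696 : ok9 0xe3011801040108008400a0005001000100 = true := by decide +kernel

theorem k9_697 : ok9 0xcc0130012200c000810100010000400010 = true := by decide +kernel

theorem k9_698 : ok9 0xd40128012200c001080090010000400000 = true := by decide +kernel

theorem k9_699 : ok9 0xd60128012100c001080090010001000040 = true := by decide +kernel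

theorem k9_700 : ok9 0x29005200a0014000840104001800800100 = true := by decide +kernel

theorem k9_701 : ok9 0x54006801800090012000820102000c0000 = true := by decide +kernel

theorem k9_702 : ok9 0x71004c01800108010200a0008200140100 = true := by decide +kernel

theorem k9_703 : ok9 0xa401120029014000880050010000800040 = true := by decide +kernel

theorem ck9_10 : ∀ H ∈ rk9_10, ok9 H = true :=
  List.forall_mem_cons.mpr ⟨k9_640, List.forall_mem_cons.mpr ⟨k9_641, List.forall_mem_cons.mpr ⟨k9_642, List.forall_mem_cons.mpr ⟨k9_643, List.forall_mem_cons.mpr ⟨k9_644, List.forall_mem_cons.mpr ⟨k9_645, List.forall_mem_cons.mpr ⟨k9_646, List.forall_mem_cons.mpr ⟨k9_647, List.forall_mem_cons.mpr ⟨k9_648, List.forall_mem_cons.mpr ⟨k9_649, List.forall_mem_cons.mpr ⟨k9_650, List.forall_mem_cons.mpr ⟨k9_651, List.forall_mem_cons.mpr ⟨k9_652, List.forall_mem_cons.mpr ⟨k9_653, List.forall_mem_cons.mpr ⟨k9_654, List.forall_mem_cons.mpr ⟨k9_655, List.forall_mem_cons.mpr ⟨k9_656, List.forall_mem_cons.mpr ⟨k9_657, List.forall_mem_cons.mpr ⟨k9_658, List.forall_mem_cons.mpr ⟨k9_659, List.forall_mem_cons.mpr ⟨k9_660, List.forall_mem_cons.mpr ⟨k9_661, List.forall_mem_cons.mpr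 ⟨k9_662, List.forall_mem_cons.mpr ⟨k9_663, List.forall_mem_cons.mpr ⟨k9_664, List.forall_mem_cons.mpr ⟨k9_665, List.forall_mem_cons.mpr ⟨k9_666, List.forall_mem_cons.mpr ⟨k9_667, List.forall_mem_cons.mpr ⟨k9_668, List.forall_mem_cons.mpr ⟨k9_669, List.forall_mem_cons.mpr ⟨k9_670, List.forall_mem_cons.mpr ⟨k9_671, List.forall_mem_cons.mpr ⟨k9_672, List.forall_mem_cons.mpr ⟨k9_673, List.forall_mem_cons.mpr ⟨k9_674, List.forall_mem_cons.mpr ⟨k9_675, List.forall_mem_cons.mpr ⟨k9_676, List.forall_mem_cons.mpr ⟨k9_677, List.forall_mem_cons.mpr ⟨k9_678, List.forall_mem_cons.mpr ⟨k9_679, List.forall_mem_cons.mpr ⟨k9_680, List.forall_mem_cons.mpr ⟨k9_681, List.forall_mem_cons.mpr ⟨k9_682, List.forall_mem_cons.mpr ⟨k9_683, List.forall_mem_cons.mpr ⟨k9_684, List.forall_mem_cons.mpr ⟨k9_685, List.forall_mem_cons.mpr ⟨k9_686, List.forall_mem_cons.mpr ⟨k9_687, List.forall_mem_cons.mpr ⟨k9_688, List.forall_mem_cons.mpr ⟨k9_689, List.forall_mem_cons.mpr ⟨k9_690, List.forall_mem_cons.mpr ⟨k9_691, List.forall_mem_cons.mpr ⟨k9_692, List.forall_mem_cons.mpr ⟨k9_693, List.forall_mem_cons.mpr ⟨k9_694, List.forall_mem_cons.mpr ⟨k9_695, List.forall_mem_cons.mpr ⟨k9_696,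 List.forall_mem_cons.mpr ⟨k9_697, List.forall_mem_cons.mpr ⟨k9_698, List.forall_mem_cons.mpr ⟨k9_699, List.forall_mem_cons.mpr ⟨k9_700, List.forall_mem_cons.mpr ⟨k9_701, List.forall_mem_cons.mpr ⟨k9_702, List.forall_mem_cons.mpr ⟨k9_703, List.forall_mem_nil _⟩⟩⟩⟩⟩⟩⟩⟩⟩⟩⟩⟩⟩⟩⟩⟩⟩⟩⟩⟩⟩⟩⟩⟩⟩⟩⟩⟩⟩⟩⟩⟩⟩⟩⟩⟩⟩⟩⟩⟩⟩⟩⟩⟩⟩⟩⟩⟩⟩⟩⟩⟩⟩⟩⟩⟩⟩⟩⟩⟩⟩⟩⟩⟩

end Pool.Agent.ICyc.Flag
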