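import Pool.Agent.Lib.MP_131fce_co.Flag.T9

/-!
# Check of the graphs on `9` vertices, part 12
-/

set_option autoImplicit false
set_option maxRecDepth 100000

namespace Pool.Agent.ICyc.Flag

def rk9_11 : List ℕ :=
  [0x38005200a4014001800101004000800008, 0x6800340112018000c00104008800400000, 
    0x6a00340111018000c00104008801000040, 0xc401110122004800880030010000400080, 
    0x6800700182018000840104001800400000, 0x7200680181018001040084001801000040, 
    0xa401480091011200600080010000200040, 0x6800580184011200a00180004000200000, 
    0x74005801820109018000a0010000400020, 0xe0010c0112011000600081008000400008, 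
    0xc801120124005000a00101004000800008, 0xc801240112009000600104008800400000, 
    0xb201440089010801040060009001000040, 0xd00124012800c001080050008200040000, 
    0xb2014800a4014001080090004101000004, 0xc40128013000c000480090010200040000, 
    0xb2014400a8014001080050008101000004, 0xb8014200a4014001040102005000880000, 
    0xb9014200a4014001040102005000880100, 0xd00124012800c201010040008000200010, 
    0xa8015000a2014400880110002000400000, 0xd40128012200c101080090010000400020, 
    0xc80130013000c400c00102002000080000, 0xb4014800b0014201400081010000200008, 
    0xb8014400b0014201400104008800200000, 0xba014400b0014101400104008801000020, 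
    0xa901520084010400880110006000800100, 0xd4012a012100c001080090010000800040, 
    0x6a00740180018000880110008101010006, 0x3a00640091018001400104008801000040, 
    0x3c005800a2014001800180010100400004, 0x74003a01090180018000c0010200840040, 
    0x74007801810180018000820102000c0040, 0x5c00680182009101200180010000400020, 
    0x78005c018201050180018000a000400020, 0xa301480094011000600084004801000100, 
    0xa6015000a8014000880050010101000004, 0x7400690182018001080090010200440080, 
    0x7200780184018001800084004801010002, 0x7400780182018001800084010800410002, 
    0x7c00720181018001800102010100880044, 0xa6015000a8014100880050010001000020, 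
    0x7800720184018101800104004800800020, 0x7800780184018201800180004100200004, 
    0x7c00780182018101800180010200440020, 0xcc0130013000c000c00100010000010002, 
    0xcc0130013000c000c00102010000080000, 0xce0130013000c000c00101010001000008, 
    0xb0010c0032014001400081008000400008, 0xa401180038014000c000c0010200040000, 
    0xa601180038014000c000c0010101000004, 0x7000700184018801800020004000010002, 
    0xcc0130013000c200c00101010000200008, 0xa8015000a8015000a00140000200040000, 
    0xd40128012800d0012000c0010000010002, 0xd40128012800d0012000c0010200040000, 
    0xd60128012800d0012000c0010101000004, 0xcc0132013000c000c00101010000800008, 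
    0x3a00640098018001400140008101000004, 0x3c004c00b0014001400180018000010002, 
    0x72003c010c0180018000c000c001010002, 0xc60130013000c800c00021010001000008, 
    0x7400720188018801800060010100800004, 0x7800780184018401800180006000010002]

theorem k9_704 : ok9 0x38005200a4014001800101004000800008 = true := by decide +kernel

theorem k9_705 : ok9 0x6800340112018000c00104008800400000 = true := by decide +kernel

theorem k9_706 : ok9 0x6a00340111018000c00104008801000040 = true := by decide +kernel

theorem k9_707 : ok9 0xc401110122004800880030010000400080 = true := by decide +kernel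

theorem k9_708 : ok9 0x6800700182018000840104001800400000 = true := by decide +kernel

theorem k9_709 : ok9 0x7200680181018001040084001801000040 = true := by decide +kernel

theorem k9_710 : ok9 0xa401480091011200600080010000200040 = true := by decide +kernel

theorem k9_711 : ok9 0x6800580184011200a00180004000200000 = true := by decide +kernel

theorem k9_712 : ok9 0x74005801820109018000a0010000400020 = true := by decide +kernel

theorem k9_713 : ok9 0xe0010c0112011000600081008000400008 = true := by decide +kernel

theorem k9_714 : ok9 0xc801120124005000a00101004000800008 = true := by decide +kernel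

theorem k9_715 : ok9 0xc801240112009000600104008800400000 = true := by decide +kernel

theorem k9_716 : ok9 0xb201440089010801040060009001000040 = true := by decide +kernel

theorem k9_717 : ok9 0xd00124012800c001080050008200040000 = true := by decide +kernel

theorem k9_718 : ok9 0xb2014800a4014001080090004101000004 = true := by decide +kernel

theorem k9_719 : ok9 0xc40128013000c000480090010200040000 = true := by decide +kernel

theorem k9_720 : ok9 0xb2014400a8014001080050008101000004 = true := by decide +kernel

theorem k9_721 : ok9 0xb8014200a4014001040102005000880000 = true := by decide +kernel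

theorem k9_722 : ok9 0xb9014200a4014001040102005000880100 = true := by decide +kernel

theorem k9_723 : ok9 0xd00124012800c201010040008000200010 = true := by decide +kernel

theorem k9_724 : ok9 0xa8015000a2014400880110002000400000 = true := by decide +kernel

theorem k9_725 : ok9 0xd40128012200c101080090010000400020 = true := by decide +kernel

theorem k9_726 : ok9 0xc80130013000c400c00102002000080000 = true := by decide +kernel

theorem k9_727 : ok9 0xb4014800b0014201400081010000200008 = true := by decide +kernel

theorem k9_728 : ok9 0xb8014400b0014201400104008800200000 = true := by decide +kernel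

theorem k9_729 : ok9 0xba014400b0014101400104008801000020 = true := by decide +kernel

theorem k9_730 : ok9 0xa901520084010400880110006000800100 = true := by decide +kernel

theorem k9_731 : ok9 0xd4012a012100c001080090010000800040 = true := by decide +kernel

theorem k9_732 : ok9 0x6a00740180018000880110008101010006 = true := by decide +kernel

theorem k9_733 : ok9 0x3a00640091018001400104008801000040 = true := by decide +kernel

theorem k9_734 : ok9 0x3c005800a2014001800180010100400004 = true := by decide +kernel

theorem k9_735 : ok9 0x74003a01090180018000c0010200840040 = true := by decide +kernel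

theorem k9_736 : ok9 0x74007801810180018000820102000c0040 = true := by decide +kernel

theorem k9_737 : ok9 0x5c00680182009101200180010000400020 = true := by decide +kernel

theorem k9_738 : ok9 0x78005c018201050180018000a000400020 = true := by decide +kernel

theorem k9_739 : ok9 0xa301480094011000600084004801000100 = true := by decide +kernel

theorem k9_740 : ok9 0xa6015000a8014000880050010101000004 = true := by decide +kernel

theorem k9_741 : ok9 0x7400690182018001080090010200440080 = true := by decide +kernel

theorem k9_742 : ok9 0x7200780184018001800084004801010002 = true := by decide +kernel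

theorem k9_743 : ok9 0x7400780182018001800084010800410002 = true := by decide +kernel

theorem k9_744 : ok9 0x7c00720181018001800102010100880044 = true := by decide +kernel

theorem k9_745 : ok9 0xa6015000a8014100880050010001000020 = true := by decide +kernel

theorem k9_746 : ok9 0x7800720184018101800104004800800020 = true := by decide +kernel

theorem k9_747 : ok9 0x7800780184018201800180004100200004 = true := by decide +kernel

theorem k9_748 : ok9 0x7c00780182018101800180010200440020 = true := by decide +kernel

theorem k9_749 : ok9 0xcc0130013000c000c00100010000010002 = true := by decide +kernel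

theorem k9_750 : ok9 0xcc0130013000c000c00102010000080000 = true := by decide +kernel

theorem k9_751 : ok9 0xce0130013000c000c00101010001000008 = true := by decide +kernel

theorem k9_752 : ok9 0xb0010c0032014001400081008000400008 = true := by decide +kernel

theorem k9_753 : ok9 0xa401180038014000c000c0010200040000 = true := by decide +kernel

theorem k9_754 : ok9 0xa601180038014000c000c0010101000004 = true := by decide +kernel

theorem k9_755 : ok9 0x7000700184018801800020004000010002 = true := by decide +kernel

theorem k9_756 : ok9 0xcc0130013000c200c00101010000200008 = true := by decide +kernel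

theorem k9_757 : ok9 0xa8015000a8015000a00140000200040000 = true := by decide +kernel

theorem k9_758 : ok9 0xd40128012800d0012000c0010000010002 = true := by decide +kernel

theorem k9_759 : ok9 0xd40128012800d0012000c0010200040000 = true := by decide +kernel

theorem k9_760 : ok9 0xd60128012800d0012000c0010101000004 = true := by decide +kernel

theorem k9_761 : ok9 0xcc0132013000c000c00101010000800008 = true := by decide +kernel

theorem k9_762 : ok9 0x3a00640098018001400140008101000004 = true := by decide +kernel

theorem k9_763 : ok9 0x3c004c00b0014001400180018000010002 = true := by decide +kernel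

theorem k9_764 : ok9 0x72003c010c0180018000c000c001010002 = true := by decide +kernel

theorem k9_765 : ok9 0xc60130013000c800c00021010001000008 = true := by decide +kernel

theorem k9_766 : ok9 0x7400720188018801800060010100800004 = true := by decide +kernel

theorem k9_767 : ok9 0x7800780184018401800180006000010002 = true := by decide +kernel

theorem ck9_11 : ∀ H ∈ rk9_11, ok9 H = true :=
  List.forall_mem_cons.mpr ⟨k9_704, List.forall_mem_cons.mpr ⟨k9_705, List.forall_mem_cons.mpr ⟨k9_706, List.forall_mem_cons.mpr ⟨k9_707, List.forall_mem_cons.mpr ⟨k9_708, List.forall_mem_cons.mpr ⟨k9_709, List.forall_mem_cons.mpr ⟨k9_710, List.forall_mem_cons.mpr ⟨k9_711, List.forall_mem_cons.mpr ⟨k9_712, List.forall_mem_cons.mpr ⟨k9_713, List.forall_mem_cons.mpr ⟨k9_714, List.forall_mem_cons.mpr ⟨k9_715, List.forall_mem_cons.mpr ⟨k9_716, List.forall_mem_cons.mpr ⟨k9_717, List.forall_mem_cons.mpr ⟨k9_718, List.forall_mem_cons.mpr ⟨k9_719, List.forall_mem_cons.mpr ⟨k9_720, List.forall_mem_cons.mpr ⟨k9_721, List.forall_mem_cons.mpr ⟨k9_722, List.forall_mem_cons.mpr ⟨k9_723, List.forall_mem_cons.mpr ⟨k9_724, List.forall_mem_cons.mpr ⟨k9_725, List.forall_mem_cons.mpr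 ⟨k9_726, List.forall_mem_cons.mpr ⟨k9_727, List.forall_mem_cons.mpr ⟨k9_728, List.forall_mem_cons.mpr ⟨k9_729, List.forall_mem_cons.mpr ⟨k9_730, List.forall_mem_cons.mpr ⟨k9_731, List.forall_mem_cons.mpr ⟨k9_732, List.forall_mem_cons.mpr ⟨k9_733, List.forall_mem_cons.mpr ⟨k9_734, List.forall_mem_cons.mpr ⟨k9_735, List.forall_mem_cons.mpr ⟨k9_736, List.forall_mem_cons.mpr ⟨k9_737, List.forall_mem_cons.mpr ⟨k9_738, List.forall_mem_cons.mpr ⟨k9_739, List.forall_mem_cons.mpr ⟨k9_740, List.forall_mem_cons.mpr ⟨k9_741, List.forall_mem_cons.mpr ⟨k9_742, List.forall_mem_cons.mpr ⟨k9_743, List.forall_mem_cons.mpr ⟨k9_744, List.forall_mem_cons.mpr ⟨k9_745, List.forall_mem_cons.mpr ⟨k9_746, List.forall_mem_cons.mpr ⟨k9_747, List.forall_mem_cons.mpr ⟨k9_748, List.forall_mem_cons.mpr ⟨k9_749, List.forall_mem_cons.mpr ⟨k9_750, List.forall_mem_cons.mpr ⟨k9_751, List.forall_mem_cons.mpr ⟨k9_752, List.forall_mem_cons.mpr ⟨k9_753, List.forall_mem_cons.mpr ⟨k9_754, List.forall_mem_cons.mpr ⟨k9_755, List.forall_mem_cons.mpr ⟨k9_756, List.forall_mem_cons.mpr ⟨k9_757, List.forall_mem_cons.mpr ⟨k9_758, List.forall_mem_cons.mpr ⟨k9_759, List.forall_mem_cons.mpr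 ⟨k9_760, List.forall_mem_cons.mpr ⟨k9_761, List.forall_mem_cons.mpr ⟨k9_762, List.forall_mem_cons.mpr ⟨k9_763, List.forall_mem_cons.mpr ⟨k9_764, List.forall_mem_cons.mpr ⟨k9_765, List.forall_mem_cons.mpr ⟨k9_766, List.forall_mem_cons.mpr ⟨k9_767, List.forall_mem_nil _⟩⟩⟩⟩⟩⟩⟩⟩⟩⟩⟩⟩⟩⟩⟩⟩⟩⟩⟩⟩⟩⟩⟩⟩⟩⟩⟩⟩⟩⟩⟩⟩⟩⟩⟩⟩⟩⟩⟩⟩⟩⟩⟩⟩⟩⟩⟩⟩⟩⟩⟩⟩⟩⟩⟩⟩⟩⟩⟩⟩⟩⟩⟩⟩

end Pool.Agent.ICyc.Flag
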