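import Pool.Agent.Lib.MP_131fce_co.Flag.T9

/-!
# Check of the graphs on `9` vertices, part 14
-/

set_option autoImplicit false
set_option maxRecDepth 100000

namespace Pool.Agent.ICyc.Flag

def rk9_13 : List ℕ :=
  [0xb2014800b0014001400084000901000004, 0xb8014400b00140014001020082000c0000, 
    0xb9014400b00140014001020082000c0100, 0xa80150008a011400a00140002000400000, 
    0xd40128010a0091012000c0010000400020, 0xb80144009801060140014000a000200000, 
    0xba0144009801050140014000a001000020, 0xd40123012800c001080050010000800080, 
    0x38001c0023014001800180008200440040, 0x2a00340019018000c00140008201040040, 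
    0x32001c002c0140018000c000c001010002, 0x3a0025001c01800140014000c001010082, 
    0x4c001c0122005100a00180018000400020, 0x4c00540182001900a00120018000400020, 
    0x3c0032000e018101800140014000c00020, 0xe001180106011100a00084004800400020, 
    0xe001180118010600c000c0002100200004, 0x9c01600098008301400140010200240020, 
    0xe001140118010300c00044008800200020, 0xe001140118010a00c00060008100200004, 
    0x9c01600092008901400120010200440020, 0x9c01600092008c01400120012000410002, 
    0x9e01600091008c01400120012001010042, 0xd00128012400c201090090004000200010, 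
    0xac0150008c011200a10140014000200010, 0xd00128012800c4010300c0002000100010, 
    0xac015000a4014200890110014000200010, 0x9e01600098008601410140012001200010, 
    0xa301180034014000c00084004801000100, 0x960128003800c1014000c0010001000020, 
    0x9c0123003800c001400140010200840080, 0xe0010c01140118006000a000c000010002, 
    0x9a0160008c009401200140006001010002, 0x7000700188018201840041001000200008, 
    0x7000700188018801840060001000010002, 0xcc0130013000c800c20120010100100004, 
    0xcc0130013000c400c80110012000010002, 0xce0130013000c400c80110012001010002, 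
    0xe0010a01140118006000a0004200840000, 0x950160008a009801200060010200440100, 
    0xe001140118010c00c2006000a000100000, 0x9a01600094008c01410120006001000010, 
    0x7000700184018801820024004800100000, 0xca0130013000c400c10104002801000010, 
    0x7000700184018801880030004200040000, 0xca0130013000c400c80110002101000004, 
    0xcc0130013000c200c80110010200240000, 0xcd0130013000c200c80110010200240100, 
    0xa8015000a8015000a20144000800100000, 0xd40128012800d0012200c1010000100008, 
    0xcc0130013000c800c40122011000080000, 0xce0130013000c800c40121011001000008, 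
    0xb8014600b1014001400104008800800040, 0x55005a01a0004c018000a0012000810102, 
    0x5a005c01a000460181018000a001200010, 0xc60130013000c800c80030010101000004, 
    0x6c00630190019000680110010200840080, 0x6a006c0190019000610180008201040010, 
    0x6a006c0190019000640180009001010002, 0x6e00690190019000640180011001010082, 
    0x6c006a0190019000640181011000800008, 0x7400740188018801820061018000100008, 
    0x6e006c0190019000620181018001100008, 0x3c0071008a018001800140010200440080]

theorem k9_832 : ok9 0xb2014800b0014001400084000901000004 = true := by decide +kernel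

theorem k9_833 : ok9 0xb8014400b00140014001020082000c0000 = true := by decide +kernel

theorem k9_834 : ok9 0xb9014400b00140014001020082000c0100 = true := by decide +kernel

theorem k9_835 : ok9 0xa80150008a011400a00140002000400000 = true := by decide +kernel

theorem k9_836 : ok9 0xd40128010a0091012000c0010000400020 = true := by decide +kernel

theorem k9_837 : ok9 0xb80144009801060140014000a000200000 = true := by decide +kernel

theorem k9_838 : ok9 0xba0144009801050140014000a001000020 = true := by decide +kernel

theorem k9_839 : ok9 0xd40123012800c001080050010000800080 = true := by decide +kernel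

theorem k9_840 : ok9 0x38001c0023014001800180008200440040 = true := by decide +kernel

theorem k9_841 : ok9 0x2a00340019018000c00140008201040040 = true := by decide +kernel

theorem k9_842 : ok9 0x32001c002c0140018000c000c001010002 = true := by decide +kernel

theorem k9_843 : ok9 0x3a0025001c01800140014000c001010082 = true := by decide +kernel

theorem k9_844 : ok9 0x4c001c0122005100a00180018000400020 = true := by decide +kernel

theorem k9_845 : ok9 0x4c00540182001900a00120018000400020 = true := by decide +kernel

theorem k9_846 : ok9 0x3c0032000e018101800140014000c00020 = true := by decide +kernel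

theorem k9_847 : ok9 0xe001180106011100a00084004800400020 = true := by decide +kernel

theorem k9_848 : ok9 0xe001180118010600c000c0002100200004 = true := by decide +kernel

theorem k9_849 : ok9 0x9c01600098008301400140010200240020 = true := by decide +kernel

theorem k9_850 : ok9 0xe001140118010300c00044008800200020 = true := by decide +kernel

theorem k9_851 : ok9 0xe001140118010a00c00060008100200004 = true := by decide +kernel

theorem k9_852 : ok9 0x9c01600092008901400120010200440020 = true := by decide +kernel

theorem k9_853 : ok9 0x9c01600092008c01400120012000410002 = true := by decide +kernel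

theorem k9_854 : ok9 0x9e01600091008c01400120012001010042 = true := by decide +kernel

theorem k9_855 : ok9 0xd00128012400c201090090004000200010 = true := by decide +kernel

theorem k9_856 : ok9 0xac0150008c011200a10140014000200010 = true := by decide +kernel

theorem k9_857 : ok9 0xd00128012800c4010300c0002000100010 = true := by decide +kernel

theorem k9_858 : ok9 0xac015000a4014200890110014000200010 = true := by decide +kernel

theorem k9_859 : ok9 0x9e01600098008601410140012001200010 = true := by decide +kernel

theorem k9_860 : ok9 0xa301180034014000c00084004801000100 = true := by decide +kernel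

theorem k9_861 : ok9 0x960128003800c1014000c0010001000020 = true := by decide +kernel

theorem k9_862 : ok9 0x9c0123003800c001400140010200840080 = true := by decide +kernel

theorem k9_863 : ok9 0xe0010c01140118006000a000c000010002 = true := by decide +kernel

theorem k9_864 : ok9 0x9a0160008c009401200140006001010002 = true := by decide +kernel

theorem k9_865 : ok9 0x7000700188018201840041001000200008 = true := by decide +kernel

theorem k9_866 : ok9 0x7000700188018801840060001000010002 = true := by decide +kernel

theorem k9_867 : ok9 0xcc0130013000c800c20120010100100004 = true := by decide +kernel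

theorem k9_868 : ok9 0xcc0130013000c400c80110012000010002 = true := by decide +kernel

theorem k9_869 : ok9 0xce0130013000c400c80110012001010002 = true := by decide +kernel

theorem k9_870 : ok9 0xe0010a01140118006000a0004200840000 = true := by decide +kernel

theorem k9_871 : ok9 0x950160008a009801200060010200440100 = true := by decide +kernel

theorem k9_872 : ok9 0xe001140118010c00c2006000a000100000 = true := by decide +kernel

theorem k9_873 : ok9 0x9a01600094008c01410120006001000010 = true := by decide +kernel

theorem k9_874 : ok9 0x7000700184018801820024004800100000 = true := by decide +kernel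

theorem k9_875 : ok9 0xca0130013000c400c10104002801000010 = true := by decide +kernel

theorem k9_876 : ok9 0x7000700184018801880030004200040000 = true := by decide +kernel

theorem k9_877 : ok9 0xca0130013000c400c80110002101000004 = true := by decide +kernel

theorem k9_878 : ok9 0xcc0130013000c200c80110010200240000 = true := by decide +kernel

theorem k9_879 : ok9 0xcd0130013000c200c80110010200240100 = true := by decide +kernel

theorem k9_880 : ok9 0xa8015000a8015000a20144000800100000 = true := by decide +kernel

theorem k9_881 : ok9 0xd40128012800d0012200c1010000100008 = true := by decide +kernel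

theorem k9_882 : ok9 0xcc0130013000c800c40122011000080000 = true := by decide +kernel

theorem k9_883 : ok9 0xce0130013000c800c40121011001000008 = true := by decide +kernel

theorem k9_884 : ok9 0xb8014600b1014001400104008800800040 = true := by decide +kernel

theorem k9_885 : ok9 0x55005a01a0004c018000a0012000810102 = true := by decide +kernel

theorem k9_886 : ok9 0x5a005c01a000460181018000a001200010 = true := by decide +kernel

theorem k9_887 : ok9 0xc60130013000c800c80030010101000004 = true := by decide +kernel

theorem k9_888 : ok9 0x6c00630190019000680110010200840080 = true := by decide +kernel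

theorem k9_889 : ok9 0x6a006c0190019000610180008201040010 = true := by decide +kernel

theorem k9_890 : ok9 0x6a006c0190019000640180009001010002 = true := by decide +kernel

theorem k9_891 : ok9 0x6e00690190019000640180011001010082 = true := by decide +kernel

theorem k9_892 : ok9 0x6c006a0190019000640181011000800008 = true := by decide +kernel

theorem k9_893 : ok9 0x7400740188018801820061018000100008 = true := by decide +kernel

theorem k9_894 : ok9 0x6e006c0190019000620181018001100008 = true := by decide +kernel

theorem k9_895 : ok9 0x3c0071008a018001800140010200440080 = true := by decide +kernel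

theorem ck9_13 : ∀ H ∈ rk9_13, ok9 H = true :=
  List.forall_mem_cons.mpr ⟨k9_832, List.forall_mem_cons.mpr ⟨k9_833, List.forall_mem_cons.mpr ⟨k9_834, List.forall_mem_cons.mpr ⟨k9_835, List.forall_mem_cons.mpr ⟨k9_836, List.forall_mem_cons.mpr ⟨k9_837, List.forall_mem_cons.mpr ⟨k9_838, List.forall_mem_cons.mpr ⟨k9_839, List.forall_mem_cons.mpr ⟨k9_840, List.forall_mem_cons.mpr ⟨k9_841, List.forall_mem_cons.mpr ⟨k9_842, List.forall_mem_cons.mpr ⟨k9_843, List.forall_mem_cons.mpr ⟨k9_844, List.forall_mem_cons.mpr ⟨k9_845, List.forall_mem_cons.mpr ⟨k9_846, List.forall_mem_cons.mpr ⟨k9_847, List.forall_mem_cons.mpr ⟨k9_848, List.forall_mem_cons.mpr ⟨k9_849, List.forall_mem_cons.mpr ⟨k9_850, List.forall_mem_cons.mpr ⟨k9_851, List.forall_mem_cons.mpr ⟨k9_852, List.forall_mem_cons.mpr ⟨k9_853, List.forall_mem_cons.mpr ⟨k9_854, List.forall_mem_cons.mpr ⟨k9_855, List.forall_mem_cons.mpr ⟨k9_856, List.forall_mem_cons.mpr ⟨k9_857, List.forall_mem_cons.mpr ⟨k9_858, List.forall_mem_cons.mpr ⟨k9_859, List.forall_mem_cons.mpr ⟨k9_860, List.forall_mem_cons.mpr ⟨k9_861, List.forall_mem_cons.mpr ⟨k9_862, List.forall_mem_cons.mpr ⟨k9_863,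 List.forall_mem_cons.mpr ⟨k9_864, List.forall_mem_cons.mpr ⟨k9_865, List.forall_mem_cons.mpr ⟨k9_866, List.forall_mem_cons.mpr ⟨k9_867, List.forall_mem_cons.mpr ⟨k9_868, List.forall_mem_cons.mpr ⟨k9_869, List.forall_mem_cons.mpr ⟨k9_870, List.forall_mem_cons.mpr ⟨k9_871, List.forall_mem_cons.mpr ⟨k9_872, List.forall_mem_cons.mpr ⟨k9_873, List.forall_mem_cons.mpr ⟨k9_874, List.forall_mem_cons.mpr ⟨k9_875, List.forall_mem_cons.mpr ⟨k9_876, List.forall_mem_cons.mpr ⟨k9_877, List.forall_mem_cons.mpr ⟨k9_878, List.forall_mem_cons.mpr ⟨k9_879, List.forall_mem_cons.mpr ⟨k9_880, List.forall_mem_cons.mpr ⟨k9_881, List.forall_mem_cons.mpr ⟨k9_882, List.forall_mem_cons.mpr ⟨k9_883, List.forall_mem_cons.mpr ⟨k9_884, List.forall_mem_cons.mpr ⟨k9_885, List.forall_mem_cons.mpr ⟨k9_886, List.forall_mem_cons.mpr ⟨k9_887, List.forall_mem_cons.mpr ⟨k9_888, List.forall_mem_cons.mpr ⟨k9_889, List.forall_mem_cons.mpr ⟨k9_890, List.forall_mem_cons.mpr ⟨k9_891, List.forall_mem_cons.mpr ⟨k9_892, List.forall_mem_cons.mpr ⟨k9_893, List.forall_mem_cons.mpr ⟨k9_894, List.forall_mem_cons.mpr ⟨k9_895, List.forall_mem_nil _⟩⟩⟩⟩⟩⟩⟩⟩⟩⟩⟩⟩⟩⟩⟩⟩⟩⟩⟩⟩⟩⟩⟩⟩⟩⟩⟩⟩⟩⟩⟩⟩⟩⟩⟩⟩⟩⟩⟩⟩⟩⟩⟩⟩⟩⟩⟩⟩⟩⟩⟩⟩⟩⟩⟩⟩⟩⟩⟩⟩⟩⟩⟩⟩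

end Pool.Agent.ICyc.Flag
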