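import Pool.Agent.Lib.MP_131fce_co.Flag.T9

/-!
# Check of the graphs on `9` vertices, part 15
-/

set_option autoImplicit false
set_option maxRecDepth 100000

namespace Pool.Agent.ICyc.Flag

def rk9_14 : List ℕ :=
  [0x3c005a00a4014101800180014000800020, 0xa8015000a8015000a80150000200040000, 
    0xe401180118011800e000e0010000010002, 0xe401180118011800e000e0010200040000, 
    0xe601180118011800e000e0010101000004, 0x7800780186018001800180004100400004, 
    0x7400720188018801880070010100800004, 0x7400740188018801880070018000010002, 
    0x7600740188018801880070018001010002, 0x78003c010601800180018000c000410002, 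
    0x7200740188018801880070008201040000, 0x7500720188018801880070010200840100, 
    0x7400740188018801880070018200040000, 0x7600740188018801880070018101000004, 
    0x78003c0103018001800180008200440040, 0x3c005c00a1014201800180018000200040, 
    0x7c00780183018001800180010200440040, 0x7500760188018801880070018000810102, 
    0x7600760188018801880070018101800004, 0x3e00780085018001800180014001010042, 
    0x3e005c00a2014101800180018001400020, 0xc70128013000c000480090010001000100, 
    0x740078018001800180008101020005000a, 0x33005400a8014001800044008801000100, 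
    0x740039010a0180018000c0010200440080, 0x7a003c010501800180018000c001010042, 
    0xa3015000a8014000840044001801000100, 0x78007101840180018001020042000c0080, 
    0x7800780184018001800180004200050002, 0x7c00780182018001800180010100410006, 
    0x96014800b00049014000a0010001000020, 0x78005a0184010501800180006000800020, 
    0x7c005c0182010301800180018000600020, 0x3c000d0032014001400180018000410082, 
    0x1e0026003800c101400140018001800020, 0x990160008a009401200140002200440100, 
    0x5a005c01a000450180018000a001010022, 0x8e01600094009800610120014001000010, 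
    0x5c004e01a0005201210180018000a00010, 0xc30130013000c400c80014002801000100, 
    0x6c00690190019000620180010200140080, 0x6c006c0190019000620180018000110002, 
    0x6e006c0190019000610180018001010012, 0xc60130013000c800c80031010001000008, 
    0x6c00660190019000680111018000800008, 0x6e00660190019000680111018001800008, 
    0x8d0132003c00c000c00140014000810102, 0x35003a003c01c001c000c0014000810102, 
    0x3a003c003601c001c0018100c001400008, 0x3a003c003901c001c001c0008201040040, 
    0x3a003c003c01c001c001c000c001010002, 0x3e0039003c01c001c001c0014001010082, 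
    0x3c003c003a01c001c001c0018100400004, 0x3e003c003a01c001c001c0018101400004, 
    0x3c003c003c01c001c001c001c000010002, 0x3e003c003c01c001c001c001c001010002, 
    0x3d003e003c01c001c001c001c000810102, 0x3e003e003c01c001c001c001c001810002, 
    0xc6012801180091006000c0010001000020, 0xa4014800940118006000a0014000000000, 
    0xd20124010c00980120006000c001000000, 0xd30124010c00980120006000c001000100, 
    0x6800700182018400880110002000400000, 0xc60128013000c100480090010001000020]

theorem k9_896 : ok9 0x3c005a00a4014101800180014000800020 = true := by decide +kernel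

theorem k9_897 : ok9 0xa8015000a8015000a80150000200040000 = true := by decide +kernel

theorem k9_898 : ok9 0xe401180118011800e000e0010000010002 = true := by decide +kernel

theorem k9_899 : ok9 0xe401180118011800e000e0010200040000 = true := by decide +kernel

theorem k9_900 : ok9 0xe601180118011800e000e0010101000004 = true := by decide +kernel

theorem k9_901 : ok9 0x7800780186018001800180004100400004 = true := by decide +kernel

theorem k9_902 : ok9 0x7400720188018801880070010100800004 = true := by decide +kernel

theorem k9_903 : ok9 0x7400740188018801880070018000010002 = true := by decide +kernel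

theorem k9_904 : ok9 0x7600740188018801880070018001010002 = true := by decide +kernel

theorem k9_905 : ok9 0x78003c010601800180018000c000410002 = true := by decide +kernel

theorem k9_906 : ok9 0x7200740188018801880070008201040000 = true := by decide +kernel

theorem k9_907 : ok9 0x7500720188018801880070010200840100 = true := by decide +kernel

theorem k9_908 : ok9 0x7400740188018801880070018200040000 = true := by decide +kernel

theorem k9_909 : ok9 0x7600740188018801880070018101000004 = true := by decide +kernel

theorem k9_910 : ok9 0x78003c0103018001800180008200440040 = true := by decide +kernel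

theorem k9_911 : ok9 0x3c005c00a1014201800180018000200040 = true := by decide +kernel

theorem k9_912 : ok9 0x7c00780183018001800180010200440040 = true := by decide +kernel

theorem k9_913 : ok9 0x7500760188018801880070018000810102 = true := by decide +kernel

theorem k9_914 : ok9 0x7600760188018801880070018101800004 = true := by decide +kernel

theorem k9_915 : ok9 0x3e00780085018001800180014001010042 = true := by decide +kernel

theorem k9_916 : ok9 0x3e005c00a2014101800180018001400020 = true := by decide +kernel

theorem k9_917 : ok9 0xc70128013000c000480090010001000100 = true := by decide +kernel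

theorem k9_918 : ok9 0x740078018001800180008101020005000a = true := by decide +kernel

theorem k9_919 : ok9 0x33005400a8014001800044008801000100 = true := by decide +kernel

theorem k9_920 : ok9 0x740039010a0180018000c0010200440080 = true := by decide +kernel

theorem k9_921 : ok9 0x7a003c010501800180018000c001010042 = true := by decide +kernel

theorem k9_922 : ok9 0xa3015000a8014000840044001801000100 = true := by decide +kernel

theorem k9_923 : ok9 0x78007101840180018001020042000c0080 = true := by decide +kernel

theorem k9_924 : ok9 0x7800780184018001800180004200050002 = true := by decide +kernel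

theorem k9_925 : ok9 0x7c00780182018001800180010100410006 = true := by decide +kernel

theorem k9_926 : ok9 0x96014800b00049014000a0010001000020 = true := by decide +kernel

theorem k9_927 : ok9 0x78005a0184010501800180006000800020 = true := by decide +kernel

theorem k9_928 : ok9 0x7c005c0182010301800180018000600020 = true := by decide +kernel

theorem k9_929 : ok9 0x3c000d0032014001400180018000410082 = true := by decide +kernel

theorem k9_930 : ok9 0x1e0026003800c101400140018001800020 = true := by decide +kernel

theorem k9_931 : ok9 0x990160008a009401200140002200440100 = true := by decide +kernel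

theorem k9_932 : ok9 0x5a005c01a000450180018000a001010022 = true := by decide +kernel

theorem k9_933 : ok9 0x8e01600094009800610120014001000010 = true := by decide +kernel

theorem k9_934 : ok9 0x5c004e01a0005201210180018000a00010 = true := by decide +kernel

theorem k9_935 : ok9 0xc30130013000c400c80014002801000100 = true := by decide +kernel

theorem k9_936 : ok9 0x6c00690190019000620180010200140080 = true := by decide +kernel

theorem k9_937 : ok9 0x6c006c0190019000620180018000110002 = true := by decide +kernel

theorem k9_938 : ok9 0x6e006c0190019000610180018001010012 = true := by decide +kernel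

theorem k9_939 : ok9 0xc60130013000c800c80031010001000008 = true := by decide +kernel

theorem k9_940 : ok9 0x6c00660190019000680111018000800008 = true := by decide +kernel

theorem k9_941 : ok9 0x6e00660190019000680111018001800008 = true := by decide +kernel

theorem k9_942 : ok9 0x8d0132003c00c000c00140014000810102 = true := by decide +kernel

theorem k9_943 : ok9 0x35003a003c01c001c000c0014000810102 = true := by decide +kernel

theorem k9_944 : ok9 0x3a003c003601c001c0018100c001400008 = true := by decide +kernel

theorem k9_945 : ok9 0x3a003c003901c001c001c0008201040040 = true := by decide +kernel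

theorem k9_946 : ok9 0x3a003c003c01c001c001c000c001010002 = true := by decide +kernel

theorem k9_947 : ok9 0x3e0039003c01c001c001c0014001010082 = true := by decide +kernel

theorem k9_948 : ok9 0x3c003c003a01c001c001c0018100400004 = true := by decide +kernel

theorem k9_949 : ok9 0x3e003c003a01c001c001c0018101400004 = true := by decide +kernel

theorem k9_950 : ok9 0x3c003c003c01c001c001c001c000010002 = true := by decide +kernel

theorem k9_951 : ok9 0x3e003c003c01c001c001c001c001010002 = true := by decide +kernel

theorem k9_952 : ok9 0x3d003e003c01c001c001c001c000810102 = true := by decide +kernel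

theorem k9_953 : ok9 0x3e003e003c01c001c001c001c001810002 = true := by decide +kernel

theorem k9_954 : ok9 0xc6012801180091006000c0010001000020 = true := by decide +kernel

theorem k9_955 : ok9 0xa4014800940118006000a0014000000000 = true := by decide +kernel

theorem k9_956 : ok9 0xd20124010c00980120006000c001000000 = true := by decide +kernel

theorem k9_957 : ok9 0xd30124010c00980120006000c001000100 = true := by decide +kernel

theorem k9_958 : ok9 0x6800700182018400880110002000400000 = true := by decide +kernel

theorem k9_959 : ok9 0xc60128013000c100480090010001000020 = true := by decide +kernel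

theorem ck9_14 : ∀ H ∈ rk9_14, ok9 H = true :=
  List.forall_mem_cons.mpr ⟨k9_896, List.forall_mem_cons.mpr ⟨k9_897, List.forall_mem_cons.mpr ⟨k9_898, List.forall_mem_cons.mpr ⟨k9_899, List.forall_mem_cons.mpr ⟨k9_900, List.forall_mem_cons.mpr ⟨k9_901, List.forall_mem_cons.mpr ⟨k9_902, List.forall_mem_cons.mpr ⟨k9_903, List.forall_mem_cons.mpr ⟨k9_904, List.forall_mem_cons.mpr ⟨k9_905, List.forall_mem_cons.mpr ⟨k9_906, List.forall_mem_cons.mpr ⟨k9_907, List.forall_mem_cons.mpr ⟨k9_908, List.forall_mem_cons.mpr ⟨k9_909, List.forall_mem_cons.mpr ⟨k9_910, List.forall_mem_cons.mpr ⟨k9_911, List.forall_mem_cons.mpr ⟨k9_912, List.forall_mem_cons.mpr ⟨k9_913, List.forall_mem_cons.mpr ⟨k9_914, List.forall_mem_cons.mpr ⟨k9_915, List.forall_mem_cons.mpr ⟨k9_916, List.forall_mem_cons.mpr ⟨k9_917, List.forall_mem_cons.mpr ⟨k9_918, List.forall_mem_cons.mpr ⟨k9_919, List.forall_mem_cons.mpr ⟨k9_920, List.forall_mem_cons.mpr ⟨k9_921, List.forall_mem_cons.mpr ⟨k9_922, List.forall_mem_cons.mpr ⟨k9_923, List.forall_mem_cons.mpr ⟨k9_924, List.forall_mem_cons.mpr ⟨k9_925, List.forall_mem_cons.mpr ⟨k9_926, List.forall_mem_cons.mpr ⟨k9_927,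 List.forall_mem_cons.mpr ⟨k9_928, List.forall_mem_cons.mpr ⟨k9_929, List.forall_mem_cons.mpr ⟨k9_930, List.forall_mem_cons.mpr ⟨k9_931, List.forall_mem_cons.mpr ⟨k9_932, List.forall_mem_cons.mpr ⟨k9_933, List.forall_mem_cons.mpr ⟨k9_934, List.forall_mem_cons.mpr ⟨k9_935, List.forall_mem_cons.mpr ⟨k9_936, List.forall_mem_cons.mpr ⟨k9_937, List.forall_mem_cons.mpr ⟨k9_938, List.forall_mem_cons.mpr ⟨k9_939, List.forall_mem_cons.mpr ⟨k9_940, List.forall_mem_cons.mpr ⟨k9_941, List.forall_mem_cons.mpr ⟨k9_942, List.forall_mem_cons.mpr ⟨k9_943, List.forall_mem_cons.mpr ⟨k9_944, List.forall_mem_cons.mpr ⟨k9_945, List.forall_mem_cons.mpr ⟨k9_946, List.forall_mem_cons.mpr ⟨k9_947, List.forall_mem_cons.mpr ⟨k9_948, List.forall_mem_cons.mpr ⟨k9_949, List.forall_mem_cons.mpr ⟨k9_950, List.forall_mem_cons.mpr ⟨k9_951, List.forall_mem_cons.mpr ⟨k9_952, List.forall_mem_cons.mpr ⟨k9_953, List.forall_mem_cons.mpr ⟨k9_954, List.forall_mem_cons.mpr ⟨k9_955, List.forall_mem_cons.mpr ⟨k9_956, List.forall_mem_cons.mpr ⟨k9_957, List.forall_mem_cons.mpr ⟨k9_958, List.forall_mem_cons.mpr ⟨k9_959, List.forall_mem_nil _⟩⟩⟩⟩⟩⟩⟩⟩⟩⟩⟩⟩⟩⟩⟩⟩⟩⟩⟩⟩⟩⟩⟩⟩⟩⟩⟩⟩⟩⟩⟩⟩⟩⟩⟩⟩⟩⟩⟩⟩⟩⟩⟩⟩⟩⟩⟩⟩⟩⟩⟩⟩⟩⟩⟩⟩⟩⟩⟩⟩⟩⟩⟩⟩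

end Pool.Agent.ICyc.Flag
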