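import Pool.Agent.Lib.MP_131fce_co.Flag.T9

/-!
# Check of the graphs on `9` vertices, part 16
-/

set_option autoImplicit false
set_option maxRecDepth 100000

namespace Pool.Agent.ICyc.Flag

def rk9_15 : List ℕ :=
  [0xd20124012800d001200044008801000000, 0xd30124012800d001200044008801000100, 
    0x9a014400a800540120014000a001000000, 0x7200590184010c018000a0006001000080, 
    0x78005c018201060180018000a000600000, 0x79005c018201060180018000a000600100, 
    0x7100720184018801800024004800800100, 0x7800780182018401800180002200440000, 
    0x7900780182018401800180002200440100, 0x9b014400a800540120014000a001000100, 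
    0x5d00780182008601800180012000600100, 0x7c005e0181010301800180018000a00060, 
    0x7c007c0181018201800180018000210042, 0xaa015400a8015000a00140008001000000, 
    0xd60129012800d0012000c0010001000080, 0x35005a00a40148018000a0014000800100, 
    0x3a005c00a201440180018000a001400000, 0x5d003a012200c401800180012000c00100, 
    0xcc0131013200c800c00120010000400080, 0x7800780186018401800180006000400000, 
    0x7a00780185018401800180006001000040, 0x3d005e00a1014201800180018000a00140, 
    0x7c007c0183018201800180018000600040, 0xd0010c010c0013012000c000c000200020, 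
    0xd0010c01060019012000a000c000400020, 0x9c0142008c001301200140014000a00020, 
    0xb0010c001c0103014000c000c000200020, 0x9c0122001a008501400140012000c00020, 
    0x9e014100860019012001200140014000a0, 0xcc01130130004c00c00120012000800080, 
    0x70001c0105010a018000a000c000200040, 0xd00106010a001c0120006000a000c00000, 
    0x990144008a00160120014000a000600100, 0x7000680182018401090090002000400010, 
    0x70006801840184010a0090006000100000, 0xca0130012400c800850120005001000010, 
    0x7000580184010c018200a0006000100000, 0xca01300114008c00c10120006001000010, 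
    0xcc0130012200c4008a0110012000500000, 0xcd0130012200c4008a0110012000500100, 
    0xc601190128005400a000c0012001000080, 0x1d00700086008a01800120014000600100, 
    0x1e00700086008901800120014001400020, 0x59001e012400430180018000c000a00120, 
    0x5a005c018100070180018000a001200060, 0x8b0130003800c400c40140003001000100, 
    0x8e0130003800c400c10140012001000010, 0x6a004d019001140062018000a001100080, 
    0x6c004e0190011200610180018000a00010, 0x6e004d01900111006201800180011000a0, 
    0xc30130012800c4008c0050003001000100, 0x6c00690190018200460180011000300080, 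
    0x6c006c0190018200430180018000300010, 0x6e006c0190018100430180018001100030, 
    0x6c003c0113018200c00180018000600040, 0xa8015000a8015000a40144001800000000, 
    0xd20128012800d0012400c4001801000000, 0xd30128012800d0012400c4001801000100, 
    0x9c014300b0004c01400120012000800080, 0x8e0130003800c200c40140011001200000, 
    0x4e00690190009400620180012001100080, 0xc60130013000c800c80034010801000000, 
    0x6a00650190019000680114008801000080, 0x6c00660190019000680112018000880000]

theorem k9_960 : ok9 0xd20124012800d001200044008801000000 = true := by decide +kernel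

theorem k9_961 : ok9 0xd30124012800d001200044008801000100 = true := by decide +kernel

theorem k9_962 : ok9 0x9a014400a800540120014000a001000000 = true := by decide +kernel

theorem k9_963 : ok9 0x7200590184010c018000a0006001000080 = true := by decide +kernel

theorem k9_964 : ok9 0x78005c018201060180018000a000600000 = true := by decide +kernel

theorem k9_965 : ok9 0x79005c018201060180018000a000600100 = true := by decide +kernel

theorem k9_966 : ok9 0x7100720184018801800024004800800100 = true := by decide +kernel

theorem k9_967 : ok9 0x7800780182018401800180002200440000 = true := by decide +kernel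

theorem k9_968 : ok9 0x7900780182018401800180002200440100 = true := by decide +kernel

theorem k9_969 : ok9 0x9b014400a800540120014000a001000100 = true := by decide +kernel

theorem k9_970 : ok9 0x5d00780182008601800180012000600100 = true := by decide +kernel

theorem k9_971 : ok9 0x7c005e0181010301800180018000a00060 = true := by decide +kernel

theorem k9_972 : ok9 0x7c007c0181018201800180018000210042 = true := by decide +kernel

theorem k9_973 : ok9 0xaa015400a8015000a00140008001000000 = true := by decide +kernel

theorem k9_974 : ok9 0xd60129012800d0012000c0010001000080 = true := by decide +kernel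

theorem k9_975 : ok9 0x35005a00a40148018000a0014000800100 = true := by decide +kernel

theorem k9_976 : ok9 0x3a005c00a201440180018000a001400000 = true := by decide +kernel

theorem k9_977 : ok9 0x5d003a012200c401800180012000c00100 = true := by decide +kernel

theorem k9_978 : ok9 0xcc0131013200c800c00120010000400080 = true := by decide +kernel

theorem k9_979 : ok9 0x7800780186018401800180006000400000 = true := by decide +kernel

theorem k9_980 : ok9 0x7a00780185018401800180006001000040 = true := by decide +kernel

theorem k9_981 : ok9 0x3d005e00a1014201800180018000a00140 = true := by decide +kernel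

theorem k9_982 : ok9 0x7c007c0183018201800180018000600040 = true := by decide +kernel

theorem k9_983 : ok9 0xd0010c010c0013012000c000c000200020 = true := by decide +kernel

theorem k9_984 : ok9 0xd0010c01060019012000a000c000400020 = true := by decide +kernel

theorem k9_985 : ok9 0x9c0142008c001301200140014000a00020 = true := by decide +kernel

theorem k9_986 : ok9 0xb0010c001c0103014000c000c000200020 = true := by decide +kernel

theorem k9_987 : ok9 0x9c0122001a008501400140012000c00020 = true := by decide +kernel

theorem k9_988 : ok9 0x9e014100860019012001200140014000a0 = true := by decide +kernel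

theorem k9_989 : ok9 0xcc01130130004c00c00120012000800080 = true := by decide +kernel

theorem k9_990 : ok9 0x70001c0105010a018000a000c000200040 = true := by decide +kernel

theorem k9_991 : ok9 0xd00106010a001c0120006000a000c00000 = true := by decide +kernel

theorem k9_992 : ok9 0x990144008a00160120014000a000600100 = true := by decide +kernel

theorem k9_993 : ok9 0x7000680182018401090090002000400010 = true := by decide +kernel

theorem k9_994 : ok9 0x70006801840184010a0090006000100000 = true := by decide +kernel

theorem k9_995 : ok9 0xca0130012400c800850120005001000010 = true := by decide +kernel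

theorem k9_996 : ok9 0x7000580184010c018200a0006000100000 = true := by decide +kernel

theorem k9_997 : ok9 0xca01300114008c00c10120006001000010 = true := by decide +kernel

theorem k9_998 : ok9 0xcc0130012200c4008a0110012000500000 = true := by decide +kernel

theorem k9_999 : ok9 0xcd0130012200c4008a0110012000500100 = true := by decide +kernel

theorem k9_1000 : ok9 0xc601190128005400a000c0012001000080 = true := by decide +kernel

theorem k9_1001 : ok9 0x1d00700086008a01800120014000600100 = true := by decide +kernel

theorem k9_1002 : ok9 0x1e00700086008901800120014001400020 = true := by decide +kernel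

theorem k9_1003 : ok9 0x59001e012400430180018000c000a00120 = true := by decide +kernel

theorem k9_1004 : ok9 0x5a005c018100070180018000a001200060 = true := by decide +kernel

theorem k9_1005 : ok9 0x8b0130003800c400c40140003001000100 = true := by decide +kernel

theorem k9_1006 : ok9 0x8e0130003800c400c10140012001000010 = true := by decide +kernel

theorem k9_1007 : ok9 0x6a004d019001140062018000a001100080 = true := by decide +kernel

theorem k9_1008 : ok9 0x6c004e0190011200610180018000a00010 = true := by decide +kernel

theorem k9_1009 : ok9 0x6e004d01900111006201800180011000a0 = true := by decide +kernel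

theorem k9_1010 : ok9 0xc30130012800c4008c0050003001000100 = true := by decide +kernel

theorem k9_1011 : ok9 0x6c00690190018200460180011000300080 = true := by decide +kernel

theorem k9_1012 : ok9 0x6c006c0190018200430180018000300010 = true := by decide +kernel

theorem k9_1013 : ok9 0x6e006c0190018100430180018001100030 = true := by decide +kernel

theorem k9_1014 : ok9 0x6c003c0113018200c00180018000600040 = true := by decide +kernel

theorem k9_1015 : ok9 0xa8015000a8015000a40144001800000000 = true := by decide +kernel

theorem k9_1016 : ok9 0xd20128012800d0012400c4001801000000 = true := by decide +kernel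

theorem k9_1017 : ok9 0xd30128012800d0012400c4001801000100 = true := by decide +kernel

theorem k9_1018 : ok9 0x9c014300b0004c01400120012000800080 = true := by decide +kernel

theorem k9_1019 : ok9 0x8e0130003800c200c40140011001200000 = true := by decide +kernel

theorem k9_1020 : ok9 0x4e00690190009400620180012001100080 = true := by decide +kernel

theorem k9_1021 : ok9 0xc60130013000c800c80034010801000000 = true := by decide +kernel

theorem k9_1022 : ok9 0x6a00650190019000680114008801000080 = true := by decide +kernel

theorem k9_1023 : ok9 0x6c00660190019000680112018000880000 = true := by decide +kernel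

theorem ck9_15 : ∀ H ∈ rk9_15, ok9 H = true :=
  List.forall_mem_cons.mpr ⟨k9_960, List.forall_mem_cons.mpr ⟨k9_961, List.forall_mem_cons.mpr ⟨k9_962, List.forall_mem_cons.mpr ⟨k9_963, List.forall_mem_cons.mpr ⟨k9_964, List.forall_mem_cons.mpr ⟨k9_965, List.forall_mem_cons.mpr ⟨k9_966, List.forall_mem_cons.mpr ⟨k9_967, List.forall_mem_cons.mpr ⟨k9_968, List.forall_mem_cons.mpr ⟨k9_969, List.forall_mem_cons.mpr ⟨k9_970, List.forall_mem_cons.mpr ⟨k9_971, List.forall_mem_cons.mpr ⟨k9_972, List.forall_mem_cons.mpr ⟨k9_973, List.forall_mem_cons.mpr ⟨k9_974, List.forall_mem_cons.mpr ⟨k9_975, List.forall_mem_cons.mpr ⟨k9_976, List.forall_mem_cons.mpr ⟨k9_977, List.forall_mem_cons.mpr ⟨k9_978, List.forall_mem_cons.mpr ⟨k9_979, List.forall_mem_cons.mpr ⟨k9_980, List.forall_mem_cons.mpr ⟨k9_981, List.forall_mem_cons.mpr ⟨k9_982, List.forall_mem_cons.mpr ⟨k9_983, List.forall_mem_cons.mpr ⟨k9_984, List.forall_mem_cons.mpr ⟨k9_985, List.forall_mem_cons.mpr ⟨k9_986, List.forall_mem_cons.mpr ⟨k9_987, List.forall_mem_cons.mpr ⟨k9_988, List.forall_mem_cons.mpr ⟨k9_989, List.forall_mem_cons.mpr ⟨k9_990, List.forall_mem_cons.mpr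 ⟨k9_991, List.forall_mem_cons.mpr ⟨k9_992, List.forall_mem_cons.mpr ⟨k9_993, List.forall_mem_cons.mpr ⟨k9_994, List.forall_mem_cons.mpr ⟨k9_995, List.forall_mem_cons.mpr ⟨k9_996, List.forall_mem_cons.mpr ⟨k9_997, List.forall_mem_cons.mpr ⟨k9_998, List.forall_mem_cons.mpr ⟨k9_999, List.forall_mem_cons.mpr ⟨k9_1000, List.forall_mem_cons.mpr ⟨k9_1001, List.forall_mem_cons.mpr ⟨k9_1002, List.forall_mem_cons.mpr ⟨k9_1003, List.forall_mem_cons.mpr ⟨k9_1004, List.forall_mem_cons.mpr ⟨k9_1005, List.forall_mem_cons.mpr ⟨k9_1006, List.forall_mem_cons.mpr ⟨k9_1007, List.forall_mem_cons.mpr ⟨k9_1008, List.forall_mem_cons.mpr ⟨k9_1009, List.forall_mem_cons.mpr ⟨k9_1010, List.forall_mem_cons.mpr ⟨k9_1011, List.forall_mem_cons.mpr ⟨k9_1012, List.forall_mem_cons.mpr ⟨k9_1013, List.forall_mem_cons.mpr ⟨k9_1014, List.forall_mem_cons.mpr ⟨k9_1015, List.forall_mem_cons.mpr ⟨k9_1016, List.forall_mem_cons.mpr ⟨k9_1017, List.forall_mem_cons.mpr ⟨k9_1018, List.forall_mem_cons.mpr ⟨k9_1019, List.forall_mem_cons.mpr ⟨k9_1020, List.forall_mem_cons.mpr ⟨k9_1021, List.forall_mem_cons.mpr ⟨k9_1022, List.forall_mem_cons.mpr ⟨k9_1023, List.forall_mem_nil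 _⟩⟩⟩⟩⟩⟩⟩⟩⟩⟩⟩⟩⟩⟩⟩⟩⟩⟩⟩⟩⟩⟩⟩⟩⟩⟩⟩⟩⟩⟩⟩⟩⟩⟩⟩⟩⟩⟩⟩⟩⟩⟩⟩⟩⟩⟩⟩⟩⟩⟩⟩⟩⟩⟩⟩⟩⟩⟩⟩⟩⟩⟩⟩⟩

end Pool.Agent.ICyc.Flag
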