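import Pool.Agent.Lib.MP_131fce_co.Flag.T9

/-!
# Check of the graphs on `9` vertices, part 17
-/

set_option autoImplicit false
set_option maxRecDepth 100000

namespace Pool.Agent.ICyc.Flag

def rk9_16 : List ℕ :=
  [0x6d00660190019000680112018000880100, 0x7100720188018801840064001800800100, 
    0x7400740188018801820062018000180000, 0x7500740188018801820062018000180100, 
    0x5a003c012500c20180018000c001200040, 0x1f00700083008c01800120012001400140, 
    0x8f0130003800c200c40140011001200100, 0x4f006c0190009200610180018001200110, 
    0xc70130013000c800c80034010801000100, 0x67006c0190019000680092018001080100, 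
    0x6e00670190019000680111018001800088, 0x7600760188018801810061018001800018, 
    0x3e00660099018101400140018001800060, 0xe401180118010300c000c0010000200020, 
    0xe401180109011200a000c0010000200040, 0x9c0162008c009101200140014000800020, 
    0x9e01610086009801200120014001400080, 0xe2010c01140118006000a000c001000000, 
    0xe20119010c011400a000c0006001000080, 0x7800700181018201840100001000200040, 
    0xb4014a00b00148014100a0010000800010, 0xcc0132013000c400c80110012000800000, 
    0xce0131013000c400c80110012001000080, 0x5a005c01a100460180018000a001200040, 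
    0xb4014300b0014801480030010000800080, 0xac015200a9015000a40140011000800040, 
    0x6c006c0192019000610180018000400010, 0x6e006c0191019000620180018001100040, 
    0xaa015400a8015000a80150008001000000, 0xe601190118011800e000e0010001000080, 
    0xc70138013800c400c000c0012001000100, 0xcc0131013200c800c80130010000400080, 
    0x740074018a018801880070018000400000, 0x7600740189018801880070018001000040, 
    0x7600760189018801880070018001800040, 0x36003a002d01c0018100c0014001800050, 
    0x3c003c003301c001c00182018000480040, 0x3c0036003901c001c00142018000880040, 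
    0x3e003a003501c001c00181014001800048, 0x3c003c003a01c001c001c0018200440000, 
    0x3d003c003a01c001c001c0018200440100, 0x37003a003c01c001c000c1014001800108, 
    0x3b003c003c01c001c001c000c201040100, 0x3e003b003c01c001c001c0014101800084, 
    0x3e003e003901c001c001c0018101800044, 0x36003a003c01c101c000c0014001800020, 
    0x5c005c01a2005901a001a0018000400020, 0x3e003a003c01c101c001c0014001800020, 
    0x3c003c003c01c201c001c001c000200000, 0x3e003c003c01c101c001c001c001000020, 
    0x3e003e003c01c101c001c001c001800020, 0x3e003e003d01c001c001c001c001810042, 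
    0x3e003e003e01c101c001c001c001c00020, 0xc005000a0005000a00101010200040008, 
    0xc001100120004400880011002200040008, 0xe001100104010400880012006000090002, 
    0x88014000a0005000280110000300040004, 0xe001080110010200440084001800210002, 
    0xf0010401080101010100420082000c0030, 0xe001030108011000240044001800800080, 
    0xb001420084010801080030004100800004, 0xd001220108008801040060001100800004, 
    0xf001090104010201020084004800300080, 0xd80121012200c001040104001800400080]

theorem k9_1024 : ok9 0x6d00660190019000680112018000880100 = true := by decide +kernel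

theorem k9_1025 : ok9 0x7100720188018801840064001800800100 = true := by decide +kernel

theorem k9_1026 : ok9 0x7400740188018801820062018000180000 = true := by decide +kernel

theorem k9_1027 : ok9 0x7500740188018801820062018000180100 = true := by decide +kernel

theorem k9_1028 : ok9 0x5a003c012500c20180018000c001200040 = true := by decide +kernel

theorem k9_1029 : ok9 0x1f00700083008c01800120012001400140 = true := by decide +kernel

theorem k9_1030 : ok9 0x8f0130003800c200c40140011001200100 = true := by decide +kernel

theorem k9_1031 : ok9 0x4f006c0190009200610180018001200110 = true := by decide +kernel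

theorem k9_1032 : ok9 0xc70130013000c800c80034010801000100 = true := by decide +kernel

theorem k9_1033 : ok9 0x67006c0190019000680092018001080100 = true := by decide +kernel

theorem k9_1034 : ok9 0x6e00670190019000680111018001800088 = true := by decide +kernel

theorem k9_1035 : ok9 0x7600760188018801810061018001800018 = true := by decide +kernel

theorem k9_1036 : ok9 0x3e00660099018101400140018001800060 = true := by decide +kernel

theorem k9_1037 : ok9 0xe401180118010300c000c0010000200020 = true := by decide +kernel

theorem k9_1038 : ok9 0xe401180109011200a000c0010000200040 = true := by decide +kernel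

theorem k9_1039 : ok9 0x9c0162008c009101200140014000800020 = true := by decide +kernel

theorem k9_1040 : ok9 0x9e01610086009801200120014001400080 = true := by decide +kernel

theorem k9_1041 : ok9 0xe2010c01140118006000a000c001000000 = true := by decide +kernel

theorem k9_1042 : ok9 0xe20119010c011400a000c0006001000080 = true := by decide +kernel

theorem k9_1043 : ok9 0x7800700181018201840100001000200040 = true := by decide +kernel

theorem k9_1044 : ok9 0xb4014a00b00148014100a0010000800010 = true := by decide +kernel

theorem k9_1045 : ok9 0xcc0132013000c400c80110012000800000 = true := by decide +kernel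

theorem k9_1046 : ok9 0xce0131013000c400c80110012001000080 = true := by decide +kernel

theorem k9_1047 : ok9 0x5a005c01a100460180018000a001200040 = true := by decide +kernel

theorem k9_1048 : ok9 0xb4014300b0014801480030010000800080 = true := by decide +kernel

theorem k9_1049 : ok9 0xac015200a9015000a40140011000800040 = true := by decide +kernel

theorem k9_1050 : ok9 0x6c006c0192019000610180018000400010 = true := by decide +kernel

theorem k9_1051 : ok9 0x6e006c0191019000620180018001100040 = true := by decide +kernel

theorem k9_1052 : ok9 0xaa015400a8015000a80150008001000000 = true := by decide +kernel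

theorem k9_1053 : ok9 0xe601190118011800e000e0010001000080 = true := by decide +kernel

theorem k9_1054 : ok9 0xc70138013800c400c000c0012001000100 = true := by decide +kernel

theorem k9_1055 : ok9 0xcc0131013200c800c80130010000400080 = true := by decide +kernel

theorem k9_1056 : ok9 0x740074018a018801880070018000400000 = true := by decide +kernel

theorem k9_1057 : ok9 0x7600740189018801880070018001000040 = true := by decide +kernel

theorem k9_1058 : ok9 0x7600760189018801880070018001800040 = true := by decide +kernel

theorem k9_1059 : ok9 0x36003a002d01c0018100c0014001800050 = true := by decide +kernel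

theorem k9_1060 : ok9 0x3c003c003301c001c00182018000480040 = true := by decide +kernel

theorem k9_1061 : ok9 0x3c0036003901c001c00142018000880040 = true := by decide +kernel

theorem k9_1062 : ok9 0x3e003a003501c001c00181014001800048 = true := by decide +kernel

theorem k9_1063 : ok9 0x3c003c003a01c001c001c0018200440000 = true := by decide +kernel

theorem k9_1064 : ok9 0x3d003c003a01c001c001c0018200440100 = true := by decide +kernel

theorem k9_1065 : ok9 0x37003a003c01c001c000c1014001800108 = true := by decide +kernel

theorem k9_1066 : ok9 0x3b003c003c01c001c001c000c201040100 = true := by decide +kernel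

theorem k9_1067 : ok9 0x3e003b003c01c001c001c0014101800084 = true := by decide +kernel

theorem k9_1068 : ok9 0x3e003e003901c001c001c0018101800044 = true := by decide +kernel

theorem k9_1069 : ok9 0x36003a003c01c101c000c0014001800020 = true := by decide +kernel

theorem k9_1070 : ok9 0x5c005c01a2005901a001a0018000400020 = true := by decide +kernel

theorem k9_1071 : ok9 0x3e003a003c01c101c001c0014001800020 = true := by decide +kernel

theorem k9_1072 : ok9 0x3c003c003c01c201c001c001c000200000 = true := by decide +kernel

theorem k9_1073 : ok9 0x3e003c003c01c101c001c001c001000020 = true := by decide +kernel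

theorem k9_1074 : ok9 0x3e003e003c01c101c001c001c001800020 = true := by decide +kernel

theorem k9_1075 : ok9 0x3e003e003d01c001c001c001c001810042 = true := by decide +kernel

theorem k9_1076 : ok9 0x3e003e003e01c101c001c001c001c00020 = true := by decide +kernel

theorem k9_1077 : ok9 0xc005000a0005000a00101010200040008 = true := by decide +kernel

theorem k9_1078 : ok9 0xc001100120004400880011002200040008 = true := by decide +kernel

theorem k9_1079 : ok9 0xe001100104010400880012006000090002 = true := by decide +kernel

theorem k9_1080 : ok9 0x88014000a0005000280110000300040004 = true := by decide +kernel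

theorem k9_1081 : ok9 0xe001080110010200440084001800210002 = true := by decide +kernel

theorem k9_1082 : ok9 0xf0010401080101010100420082000c0030 = true := by decide +kernel

theorem k9_1083 : ok9 0xe001030108011000240044001800800080 = true := by decide +kernel

theorem k9_1084 : ok9 0xb001420084010801080030004100800004 = true := by decide +kernel

theorem k9_1085 : ok9 0xd001220108008801040060001100800004 = true := by decide +kernel

theorem k9_1086 : ok9 0xf001090104010201020084004800300080 = true := by decide +kernel

theorem k9_1087 : ok9 0xd80121012200c001040104001800400080 = true := by decide +kernel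

theorem ck9_16 : ∀ H ∈ rk9_16, ok9 H = true :=
  List.forall_mem_cons.mpr ⟨k9_1024, List.forall_mem_cons.mpr ⟨k9_1025, List.forall_mem_cons.mpr ⟨k9_1026, List.forall_mem_cons.mpr ⟨k9_1027, List.forall_mem_cons.mpr ⟨k9_1028, List.forall_mem_cons.mpr ⟨k9_1029, List.forall_mem_cons.mpr ⟨k9_1030, List.forall_mem_cons.mpr ⟨k9_1031, List.forall_mem_cons.mpr ⟨k9_1032, List.forall_mem_cons.mpr ⟨k9_1033, List.forall_mem_cons.mpr ⟨k9_1034, List.forall_mem_cons.mpr ⟨k9_1035, List.forall_mem_cons.mpr ⟨k9_1036, List.forall_mem_cons.mpr ⟨k9_1037, List.forall_mem_cons.mpr ⟨k9_1038, List.forall_mem_cons.mpr ⟨k9_1039, List.forall_mem_cons.mpr ⟨k9_1040, List.forall_mem_cons.mpr ⟨k9_1041, List.forall_mem_cons.mpr ⟨k9_1042, List.forall_mem_cons.mpr ⟨k9_1043, List.forall_mem_cons.mpr ⟨k9_1044, List.forall_mem_cons.mpr ⟨k9_1045, List.forall_mem_cons.mpr ⟨k9_1046, List.forall_mem_cons.mpr ⟨k9_1047, List.forall_mem_cons.mpr ⟨k9_1048, List.forall_mem_cons.mpr ⟨k9_1049, List.forall_mem_cons.mpr ⟨k9_1050, List.forall_mem_cons.mpr ⟨k9_1051, List.forall_mem_cons.mpr ⟨k9_1052, List.forall_mem_cons.mpr ⟨k9_1053, List.forall_mem_cons.mpr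 ⟨k9_1054, List.forall_mem_cons.mpr ⟨k9_1055, List.forall_mem_cons.mpr ⟨k9_1056, List.forall_mem_cons.mpr ⟨k9_1057, List.forall_mem_cons.mpr ⟨k9_1058, List.forall_mem_cons.mpr ⟨k9_1059, List.forall_mem_cons.mpr ⟨k9_1060, List.forall_mem_cons.mpr ⟨k9_1061, List.forall_mem_cons.mpr ⟨k9_1062, List.forall_mem_cons.mpr ⟨k9_1063, List.forall_mem_cons.mpr ⟨k9_1064, List.forall_mem_cons.mpr ⟨k9_1065, List.forall_mem_cons.mpr ⟨k9_1066, List.forall_mem_cons.mpr ⟨k9_1067, List.forall_mem_cons.mpr ⟨k9_1068, List.forall_mem_cons.mpr ⟨k9_1069, List.forall_mem_cons.mpr ⟨k9_1070, List.forall_mem_cons.mpr ⟨k9_1071, List.forall_mem_cons.mpr ⟨k9_1072, List.forall_mem_cons.mpr ⟨k9_1073, List.forall_mem_cons.mpr ⟨k9_1074, List.forall_mem_cons.mpr ⟨k9_1075, List.forall_mem_cons.mpr ⟨k9_1076, List.forall_mem_cons.mpr ⟨k9_1077, List.forall_mem_cons.mpr ⟨k9_1078, List.forall_mem_cons.mpr ⟨k9_1079, List.forall_mem_cons.mpr ⟨k9_1080, List.forall_mem_cons.mpr ⟨k9_1081, List.forall_mem_cons.mpr ⟨k9_1082, List.forall_mem_cons.mpr ⟨k9_1083, List.forall_mem_cons.mpr ⟨k9_1084, List.forall_mem_cons.mpr ⟨k9_1085, List.forall_mem_cons.mpr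 ⟨k9_1086, List.forall_mem_cons.mpr ⟨k9_1087, List.forall_mem_nil _⟩⟩⟩⟩⟩⟩⟩⟩⟩⟩⟩⟩⟩⟩⟩⟩⟩⟩⟩⟩⟩⟩⟩⟩⟩⟩⟩⟩⟩⟩⟩⟩⟩⟩⟩⟩⟩⟩⟩⟩⟩⟩⟩⟩⟩⟩⟩⟩⟩⟩⟩⟩⟩⟩⟩⟩⟩⟩⟩⟩⟩⟩⟩⟩

end Pool.Agent.ICyc.Flag
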