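import Pool.Agent.Lib.MP_131fce_co.Flag.T9

/-!
# Check of the graphs on `9` vertices, part 18
-/

set_option autoImplicit false
set_option maxRecDepth 100000

namespace Pool.Agent.ICyc.Flag

def rk9_17 : List ℕ :=
  [0xb001400088010201040041001000200008, 0x8c01600090009000600101010200040008, 
    0xe001180104011000a00082004100080004, 0xf0010a01080104010400c0003000810002, 
    0xa8015000a0014000880110000300040004, 0xf0010c010201040108009000a000410002, 
    0xf80106010201040101010100a000c00018, 0xf0010c010301040108009000a000400040, 
    0xa0014000a00140000a0014000a00140000, 0xc10120012000c0000a0014000a00140100, 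
    0x9801600082008201040104001800600000, 0xe101180104010400820082006000180100, 
    0xca0130013000c000c00104000901000004, 0xcc0130013000c000c001020102000c0000, 
    0xcd0130013000c000c001020102000c0100, 0x4c007001800081008101020102000c0030, 
    0xb0010c00310140014000820082000c0040, 0xa401180038014000c000c0010200050002, 
    0xa601180038014000c000c0010101010006, 0xe001120108011000a00044000900800004, 
    0xe0010c01110110006000820082000c0040, 0xc80130012400c000820104004800110002, 
    0xb8014400a2014001010101008200440018, 0xb001480094010301400084004800200020, 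
    0xc80130013000c200c00104000900200004, 0xcc0130013000c100c001020102000c0020, 
    0xa8015000a8015000a00140000300040004, 0xd40128012800d0012000c0010200050002, 
    0xd60128012800d0012000c0010101010006, 0xd80124012400c80103012000c000100010, 
    0xcc0131013000c000c001020102000c0080, 0x82014000a0005000280014000a01040000, 
    0xc1011001200044008800120022000c0100, 0xa101420088011000240044001800800100, 
    0xc401220110008800480030010100800004, 0xa801500082010400880110002200440000, 
    0xe1011801040108008200a0004200140100, 0xa801440092011000600101008000400008, 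
    0xe20114010901040088005000a001000040, 0x6800700184018000810102004000080010, 
    0xd20124012800c001080050008101000004, 0xd80122012400c001020104004800900000, 
    0xd90122012400c001020104004800900100, 0xa801500082010200840104001800600000, 
    0xe101180102010400820084002800500100, 0xd20128012100c001040084001801000040, 
    0x54006801800081010100820102000c0030, 0x6800340111018000c001020082000c0040, 
    0xc801240111008200420104008800300040, 0xc20128013000c000440084001801010002, 
    0xb8014200a4014001010102004100880014, 0xa401480091011200600084010800200040, 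
    0xa801440098011200600140008100200004, 0xb401420098010901400060010200840020, 
    0xa4015000a8014200880050010100200004, 0xd80122012400c101020104004800900020, 
    0x6400680190019000600081010200040008, 0xd80122012400d001200104004800810002, 
    0xdc0121012200d001200101010200440088, 0x70003801050180018000820042000c0040, 
    0xc801140122005100a00104008800400020, 0x64006801900190006000820102000c0000, 
    0xc90130013000c400c001020022000c0100, 0xd20124012400c80109003000c001000010]

theorem k9_1088 : ok9 0xb001400088010201040041001000200008 = true := by decide +kernel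

theorem k9_1089 : ok9 0x8c01600090009000600101010200040008 = true := by decide +kernel

theorem k9_1090 : ok9 0xe001180104011000a00082004100080004 = true := by decide +kernel

theorem k9_1091 : ok9 0xf0010a01080104010400c0003000810002 = true := by decide +kernel

theorem k9_1092 : ok9 0xa8015000a0014000880110000300040004 = true := by decide +kernel

theorem k9_1093 : ok9 0xf0010c010201040108009000a000410002 = true := by decide +kernel

theorem k9_1094 : ok9 0xf80106010201040101010100a000c00018 = true := by decide +kernel

theorem k9_1095 : ok9 0xf0010c010301040108009000a000400040 = true := by decide +kernel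

theorem k9_1096 : ok9 0xa0014000a00140000a0014000a00140000 = true := by decide +kernel

theorem k9_1097 : ok9 0xc10120012000c0000a0014000a00140100 = true := by decide +kernel

theorem k9_1098 : ok9 0x9801600082008201040104001800600000 = true := by decide +kernel

theorem k9_1099 : ok9 0xe101180104010400820082006000180100 = true := by decide +kernel

theorem k9_1100 : ok9 0xca0130013000c000c00104000901000004 = true := by decide +kernel

theorem k9_1101 : ok9 0xcc0130013000c000c001020102000c0000 = true := by decide +kernel

theorem k9_1102 : ok9 0xcd0130013000c000c001020102000c0100 = true := by decide +kernel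

theorem k9_1103 : ok9 0x4c007001800081008101020102000c0030 = true := by decide +kernel

theorem k9_1104 : ok9 0xb0010c00310140014000820082000c0040 = true := by decide +kernel

theorem k9_1105 : ok9 0xa401180038014000c000c0010200050002 = true := by decide +kernel

theorem k9_1106 : ok9 0xa601180038014000c000c0010101010006 = true := by decide +kernel

theorem k9_1107 : ok9 0xe001120108011000a00044000900800004 = true := by decide +kernel

theorem k9_1108 : ok9 0xe0010c01110110006000820082000c0040 = true := by decide +kernel

theorem k9_1109 : ok9 0xc80130012400c000820104004800110002 = true := by decide +kernel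

theorem k9_1110 : ok9 0xb8014400a2014001010101008200440018 = true := by decide +kernel

theorem k9_1111 : ok9 0xb001480094010301400084004800200020 = true := by decide +kernel

theorem k9_1112 : ok9 0xc80130013000c200c00104000900200004 = true := by decide +kernel

theorem k9_1113 : ok9 0xcc0130013000c100c001020102000c0020 = true := by decide +kernel

theorem k9_1114 : ok9 0xa8015000a8015000a00140000300040004 = true := by decide +kernel

theorem k9_1115 : ok9 0xd40128012800d0012000c0010200050002 = true := by decide +kernel

theorem k9_1116 : ok9 0xd60128012800d0012000c0010101010006 = true := by decide +kernel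

theorem k9_1117 : ok9 0xd80124012400c80103012000c000100010 = true := by decide +kernel

theorem k9_1118 : ok9 0xcc0131013000c000c001020102000c0080 = true := by decide +kernel

theorem k9_1119 : ok9 0x82014000a0005000280014000a01040000 = true := by decide +kernel

theorem k9_1120 : ok9 0xc1011001200044008800120022000c0100 = true := by decide +kernel

theorem k9_1121 : ok9 0xa101420088011000240044001800800100 = true := by decide +kernel

theorem k9_1122 : ok9 0xc401220110008800480030010100800004 = true := by decide +kernel

theorem k9_1123 : ok9 0xa801500082010400880110002200440000 = true := by decide +kernel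

theorem k9_1124 : ok9 0xe1011801040108008200a0004200140100 = true := by decide +kernel

theorem k9_1125 : ok9 0xa801440092011000600101008000400008 = true := by decide +kernel

theorem k9_1126 : ok9 0xe20114010901040088005000a001000040 = true := by decide +kernel

theorem k9_1127 : ok9 0x6800700184018000810102004000080010 = true := by decide +kernel

theorem k9_1128 : ok9 0xd20124012800c001080050008101000004 = true := by decide +kernel

theorem k9_1129 : ok9 0xd80122012400c001020104004800900000 = true := by decide +kernel

theorem k9_1130 : ok9 0xd90122012400c001020104004800900100 = true := by decide +kernel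

theorem k9_1131 : ok9 0xa801500082010200840104001800600000 = true := by decide +kernel

theorem k9_1132 : ok9 0xe101180102010400820084002800500100 = true := by decide +kernel

theorem k9_1133 : ok9 0xd20128012100c001040084001801000040 = true := by decide +kernel

theorem k9_1134 : ok9 0x54006801800081010100820102000c0030 = true := by decide +kernel

theorem k9_1135 : ok9 0x6800340111018000c001020082000c0040 = true := by decide +kernel

theorem k9_1136 : ok9 0xc801240111008200420104008800300040 = true := by decide +kernel

theorem k9_1137 : ok9 0xc20128013000c000440084001801010002 = true := by decide +kernel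

theorem k9_1138 : ok9 0xb8014200a4014001010102004100880014 = true := by decide +kernel

theorem k9_1139 : ok9 0xa401480091011200600084010800200040 = true := by decide +kernel

theorem k9_1140 : ok9 0xa801440098011200600140008100200004 = true := by decide +kernel

theorem k9_1141 : ok9 0xb401420098010901400060010200840020 = true := by decide +kernel

theorem k9_1142 : ok9 0xa4015000a8014200880050010100200004 = true := by decide +kernel

theorem k9_1143 : ok9 0xd80122012400c101020104004800900020 = true := by decide +kernel

theorem k9_1144 : ok9 0x6400680190019000600081010200040008 = true := by decide +kernel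

theorem k9_1145 : ok9 0xd80122012400d001200104004800810002 = true := by decide +kernel

theorem k9_1146 : ok9 0xdc0121012200d001200101010200440088 = true := by decide +kernel

theorem k9_1147 : ok9 0x70003801050180018000820042000c0040 = true := by decide +kernel

theorem k9_1148 : ok9 0xc801140122005100a00104008800400020 = true := by decide +kernel

theorem k9_1149 : ok9 0x64006801900190006000820102000c0000 = true := by decide +kernel

theorem k9_1150 : ok9 0xc90130013000c400c001020022000c0100 = true := by decide +kernel

theorem k9_1151 : ok9 0xd20124012400c80109003000c001000010 = true := by decide +kernel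

theorem ck9_17 : ∀ H ∈ rk9_17, ok9 H = true :=
  List.forall_mem_cons.mpr ⟨k9_1088, List.forall_mem_cons.mpr ⟨k9_1089, List.forall_mem_cons.mpr ⟨k9_1090, List.forall_mem_cons.mpr ⟨k9_1091, List.forall_mem_cons.mpr ⟨k9_1092, List.forall_mem_cons.mpr ⟨k9_1093, List.forall_mem_cons.mpr ⟨k9_1094, List.forall_mem_cons.mpr ⟨k9_1095, List.forall_mem_cons.mpr ⟨k9_1096, List.forall_mem_cons.mpr ⟨k9_1097, List.forall_mem_cons.mpr ⟨k9_1098, List.forall_mem_cons.mpr ⟨k9_1099, List.forall_mem_cons.mpr ⟨k9_1100, List.forall_mem_cons.mpr ⟨k9_1101, List.forall_mem_cons.mpr ⟨k9_1102, List.forall_mem_cons.mpr ⟨k9_1103, List.forall_mem_cons.mpr ⟨k9_1104, List.forall_mem_cons.mpr ⟨k9_1105, List.forall_mem_cons.mpr ⟨k9_1106, List.forall_mem_cons.mpr ⟨k9_1107, List.forall_mem_cons.mpr ⟨k9_1108, List.forall_mem_cons.mpr ⟨k9_1109, List.forall_mem_cons.mpr ⟨k9_1110, List.forall_mem_cons.mpr ⟨k9_1111, List.forall_mem_cons.mpr ⟨k9_1112, List.forall_mem_cons.mpr ⟨k9_1113, List.forall_mem_cons.mpr ⟨k9_1114, List.forall_mem_cons.mpr ⟨k9_1115, List.forall_mem_cons.mpr ⟨k9_1116, List.forall_mem_cons.mpr ⟨k9_1117, List.forall_mem_cons.mpr ⟨k9_1118,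 List.forall_mem_cons.mpr ⟨k9_1119, List.forall_mem_cons.mpr ⟨k9_1120, List.forall_mem_cons.mpr ⟨k9_1121, List.forall_mem_cons.mpr ⟨k9_1122, List.forall_mem_cons.mpr ⟨k9_1123, List.forall_mem_cons.mpr ⟨k9_1124, List.forall_mem_cons.mpr ⟨k9_1125, List.forall_mem_cons.mpr ⟨k9_1126, List.forall_mem_cons.mpr ⟨k9_1127, List.forall_mem_cons.mpr ⟨k9_1128, List.forall_mem_cons.mpr ⟨k9_1129, List.forall_mem_cons.mpr ⟨k9_1130, List.forall_mem_cons.mpr ⟨k9_1131, List.forall_mem_cons.mpr ⟨k9_1132, List.forall_mem_cons.mpr ⟨k9_1133, List.forall_mem_cons.mpr ⟨k9_1134, List.forall_mem_cons.mpr ⟨k9_1135, List.forall_mem_cons.mpr ⟨k9_1136, List.forall_mem_cons.mpr ⟨k9_1137, List.forall_mem_cons.mpr ⟨k9_1138, List.forall_mem_cons.mpr ⟨k9_1139, List.forall_mem_cons.mpr ⟨k9_1140, List.forall_mem_cons.mpr ⟨k9_1141, List.forall_mem_cons.mpr ⟨k9_1142, List.forall_mem_cons.mpr ⟨k9_1143, List.forall_mem_cons.mpr ⟨k9_1144, List.forall_mem_cons.mpr ⟨k9_1145, List.forall_mem_cons.mpr ⟨k9_1146, List.forall_mem_cons.mpr ⟨k9_1147, List.forall_mem_cons.mpr ⟨k9_1148, List.forall_mem_cons.mpr ⟨k9_1149, List.forall_mem_cons.mpr ⟨k9_1150, List.forall_mem_cons.mpr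 ⟨k9_1151, List.forall_mem_nil _⟩⟩⟩⟩⟩⟩⟩⟩⟩⟩⟩⟩⟩⟩⟩⟩⟩⟩⟩⟩⟩⟩⟩⟩⟩⟩⟩⟩⟩⟩⟩⟩⟩⟩⟩⟩⟩⟩⟩⟩⟩⟩⟩⟩⟩⟩⟩⟩⟩⟩⟩⟩⟩⟩⟩⟩⟩⟩⟩⟩⟩⟩⟩⟩

end Pool.Agent.ICyc.Flag
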