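import Pool.Agent.Lib.MP_131fce_co.Flag.T9

/-!
# Check of the graphs on `9` vertices, part 19
-/

set_option autoImplicit false
set_option maxRecDepth 100000

namespace Pool.Agent.ICyc.Flag

def rk9_18 : List ℕ :=
  [0xa401180038014200c000c0010100200004, 0xa201440098011800600060008201040000, 
    0xc501220118009800600060010200840100, 0xa2014400a8015000280050008201040000, 
    0xd10128012400c201080090004200240100, 0x7200700184018801880030004101000004, 
    0x7400700182018801880030010200440000, 0x7500700182018801880030010200440100, 
    0xb8014500b00140014001020082000c0080, 0x3c00620098018001400140010100810006, 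
    0x9c014200a8005101200140010200840020, 0x7200740188018801800060008101010006, 
    0x6a00700184018400890110006001000010, 0x78006c0182018201050180009000600010, 
    0x99014400a2005801200120008200440100, 0x9c014200b0004c01400120012000810002, 
    0x72005c0181010c018000a000a001010042, 0x7400780181018201800081010200240048, 
    0x7400710182018801880030010200440080, 0x7800780182018401840180003000410002, 
    0x7a00780181018401840180003001010042, 0x9c0122003800c101400140010200840020, 
    0x6c007001820182008c0110011000600000, 0x6c007101820182008c0110011000600080, 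
    0x7800780182018201840184001800600000, 0x7900780182018201840184001800600100, 
    0x9e014100b0004c01400120012001010082, 0x6d007001820182008c0110011000600100, 
    0x6e00780181018100860180011001100060, 0x7c007c0181018101820182018000180060, 
    0x2c004c0091011200600180018000200040, 0x3400580085010a018000a0014000200040, 
    0x3c0052008c010301800140014000a00020, 0xc30128013000c000440084001801000100, 
    0xb8014300b0014401400104002800800080, 0xac0152008c011100a00140014000800020, 
    0x8601180026005800a000a0014001400000, 0x990106003800460140014000a000a00100, 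
    0xa601580086011800a000a0014001400000, 0xd90126010600980120012000c000c00100, 
    0x33005c0083010c018000a000a001400140, 0x7800780183018401840180003000400040, 
    0x7000700180018001800005000a0005000a, 0xb801060038014001400140008100810006, 
    0xd80106010600190120012000c000c00020, 0xdc01030103001c01200120012000c000c0, 
    0x6800700180018000820104000900110006, 0x64001a0108011000a000c0010100800004, 
    0xa401120029014000880050010200840040, 0x8a0130003400c000c00104004801010002, 
    0xb801050032014001400101008200440088, 0x940128003100c0014000820102000c0040, 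
    0xb4010a00380140014000c0010100810006, 0xb80106001c01030140014000c000a00020, 
    0xd00128012100c0010400820012000c0040, 0xc80130013000c000c00104000a00050002, 
    0xb8014400b0014001400102008100090006, 0xd001280106009101200084004800400020, 
    0xb801440098010301400140008200240020, 0xc801300114008a00c00120004100200004, 
    0xd40128010a0091012000c0010200440020, 0xd80124010600980120012000c000410002, 
    0xda0124010500980120012000c001010042, 0x83010c0013001c006000a000a001400140]

theorem k9_1152 : ok9 0xa401180038014200c000c0010100200004 = true := by decide +kernel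

theorem k9_1153 : ok9 0xa201440098011800600060008201040000 = true := by decide +kernel

theorem k9_1154 : ok9 0xc501220118009800600060010200840100 = true := by decide +kernel

theorem k9_1155 : ok9 0xa2014400a8015000280050008201040000 = true := by decide +kernel

theorem k9_1156 : ok9 0xd10128012400c201080090004200240100 = true := by decide +kernel

theorem k9_1157 : ok9 0x7200700184018801880030004101000004 = true := by decide +kernel

theorem k9_1158 : ok9 0x7400700182018801880030010200440000 = true := by decide +kernel

theorem k9_1159 : ok9 0x7500700182018801880030010200440100 = true := by decide +kernel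

theorem k9_1160 : ok9 0xb8014500b00140014001020082000c0080 = true := by decide +kernel

theorem k9_1161 : ok9 0x3c00620098018001400140010100810006 = true := by decide +kernel

theorem k9_1162 : ok9 0x9c014200a8005101200140010200840020 = true := by decide +kernel

theorem k9_1163 : ok9 0x7200740188018801800060008101010006 = true := by decide +kernel

theorem k9_1164 : ok9 0x6a00700184018400890110006001000010 = true := by decide +kernel

theorem k9_1165 : ok9 0x78006c0182018201050180009000600010 = true := by decide +kernel

theorem k9_1166 : ok9 0x99014400a2005801200120008200440100 = true := by decide +kernel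

theorem k9_1167 : ok9 0x9c014200b0004c01400120012000810002 = true := by decide +kernel

theorem k9_1168 : ok9 0x72005c0181010c018000a000a001010042 = true := by decide +kernel

theorem k9_1169 : ok9 0x7400780181018201800081010200240048 = true := by decide +kernel

theorem k9_1170 : ok9 0x7400710182018801880030010200440080 = true := by decide +kernel

theorem k9_1171 : ok9 0x7800780182018401840180003000410002 = true := by decide +kernel

theorem k9_1172 : ok9 0x7a00780181018401840180003001010042 = true := by decide +kernel

theorem k9_1173 : ok9 0x9c0122003800c101400140010200840020 = true := by decide +kernel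

theorem k9_1174 : ok9 0x6c007001820182008c0110011000600000 = true := by decide +kernel

theorem k9_1175 : ok9 0x6c007101820182008c0110011000600080 = true := by decide +kernel

theorem k9_1176 : ok9 0x7800780182018201840184001800600000 = true := by decide +kernel

theorem k9_1177 : ok9 0x7900780182018201840184001800600100 = true := by decide +kernel

theorem k9_1178 : ok9 0x9e014100b0004c01400120012001010082 = true := by decide +kernel

theorem k9_1179 : ok9 0x6d007001820182008c0110011000600100 = true := by decide +kernel

theorem k9_1180 : ok9 0x6e00780181018100860180011001100060 = true := by decide +kernel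

theorem k9_1181 : ok9 0x7c007c0181018101820182018000180060 = true := by decide +kernel

theorem k9_1182 : ok9 0x2c004c0091011200600180018000200040 = true := by decide +kernel

theorem k9_1183 : ok9 0x3400580085010a018000a0014000200040 = true := by decide +kernel

theorem k9_1184 : ok9 0x3c0052008c010301800140014000a00020 = true := by decide +kernel

theorem k9_1185 : ok9 0xc30128013000c000440084001801000100 = true := by decide +kernel

theorem k9_1186 : ok9 0xb8014300b0014401400104002800800080 = true := by decide +kernel

theorem k9_1187 : ok9 0xac0152008c011100a00140014000800020 = true := by decide +kernel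

theorem k9_1188 : ok9 0x8601180026005800a000a0014001400000 = true := by decide +kernel

theorem k9_1189 : ok9 0x990106003800460140014000a000a00100 = true := by decide +kernel

theorem k9_1190 : ok9 0xa601580086011800a000a0014001400000 = true := by decide +kernel

theorem k9_1191 : ok9 0xd90126010600980120012000c000c00100 = true := by decide +kernel

theorem k9_1192 : ok9 0x33005c0083010c018000a000a001400140 = true := by decide +kernel

theorem k9_1193 : ok9 0x7800780183018401840180003000400040 = true := by decide +kernel

theorem k9_1194 : ok9 0x7000700180018001800005000a0005000a = true := by decide +kernel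

theorem k9_1195 : ok9 0xb801060038014001400140008100810006 = true := by decide +kernel

theorem k9_1196 : ok9 0xd80106010600190120012000c000c00020 = true := by decide +kernel

theorem k9_1197 : ok9 0xdc01030103001c01200120012000c000c0 = true := by decide +kernel

theorem k9_1198 : ok9 0x6800700180018000820104000900110006 = true := by decide +kernel

theorem k9_1199 : ok9 0x64001a0108011000a000c0010100800004 = true := by decide +kernel

theorem k9_1200 : ok9 0xa401120029014000880050010200840040 = true := by decide +kernel

theorem k9_1201 : ok9 0x8a0130003400c000c00104004801010002 = true := by decide +kernel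

theorem k9_1202 : ok9 0xb801050032014001400101008200440088 = true := by decide +kernel

theorem k9_1203 : ok9 0x940128003100c0014000820102000c0040 = true := by decide +kernel

theorem k9_1204 : ok9 0xb4010a00380140014000c0010100810006 = true := by decide +kernel

theorem k9_1205 : ok9 0xb80106001c01030140014000c000a00020 = true := by decide +kernel

theorem k9_1206 : ok9 0xd00128012100c0010400820012000c0040 = true := by decide +kernel

theorem k9_1207 : ok9 0xc80130013000c000c00104000a00050002 = true := by decide +kernel

theorem k9_1208 : ok9 0xb8014400b0014001400102008100090006 = true := by decide +kernel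

theorem k9_1209 : ok9 0xd001280106009101200084004800400020 = true := by decide +kernel

theorem k9_1210 : ok9 0xb801440098010301400140008200240020 = true := by decide +kernel

theorem k9_1211 : ok9 0xc801300114008a00c00120004100200004 = true := by decide +kernel

theorem k9_1212 : ok9 0xd40128010a0091012000c0010200440020 = true := by decide +kernel

theorem k9_1213 : ok9 0xd80124010600980120012000c000410002 = true := by decide +kernel

theorem k9_1214 : ok9 0xda0124010500980120012000c001010042 = true := by decide +kernel

theorem k9_1215 : ok9 0x83010c0013001c006000a000a001400140 = true := by decide +kernel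

theorem ck9_18 : ∀ H ∈ rk9_18, ok9 H = true :=
  List.forall_mem_cons.mpr ⟨k9_1152, List.forall_mem_cons.mpr ⟨k9_1153, List.forall_mem_cons.mpr ⟨k9_1154, List.forall_mem_cons.mpr ⟨k9_1155, List.forall_mem_cons.mpr ⟨k9_1156, List.forall_mem_cons.mpr ⟨k9_1157, List.forall_mem_cons.mpr ⟨k9_1158, List.forall_mem_cons.mpr ⟨k9_1159, List.forall_mem_cons.mpr ⟨k9_1160, List.forall_mem_cons.mpr ⟨k9_1161, List.forall_mem_cons.mpr ⟨k9_1162, List.forall_mem_cons.mpr ⟨k9_1163, List.forall_mem_cons.mpr ⟨k9_1164, List.forall_mem_cons.mpr ⟨k9_1165, List.forall_mem_cons.mpr ⟨k9_1166, List.forall_mem_cons.mpr ⟨k9_1167, List.forall_mem_cons.mpr ⟨k9_1168, List.forall_mem_cons.mpr ⟨k9_1169, List.forall_mem_cons.mpr ⟨k9_1170, List.forall_mem_cons.mpr ⟨k9_1171, List.forall_mem_cons.mpr ⟨k9_1172, List.forall_mem_cons.mpr ⟨k9_1173, List.forall_mem_cons.mpr ⟨k9_1174, List.forall_mem_cons.mpr ⟨k9_1175, List.forall_mem_cons.mpr ⟨k9_1176, List.forall_mem_cons.mpr ⟨k9_1177, List.forall_mem_cons.mpr ⟨k9_1178, List.forall_mem_cons.mpr ⟨k9_1179, List.forall_mem_cons.mpr ⟨k9_1180, List.forall_mem_cons.mpr ⟨k9_1181, List.forall_mem_cons.mpr ⟨k9_1182,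 List.forall_mem_cons.mpr ⟨k9_1183, List.forall_mem_cons.mpr ⟨k9_1184, List.forall_mem_cons.mpr ⟨k9_1185, List.forall_mem_cons.mpr ⟨k9_1186, List.forall_mem_cons.mpr ⟨k9_1187, List.forall_mem_cons.mpr ⟨k9_1188, List.forall_mem_cons.mpr ⟨k9_1189, List.forall_mem_cons.mpr ⟨k9_1190, List.forall_mem_cons.mpr ⟨k9_1191, List.forall_mem_cons.mpr ⟨k9_1192, List.forall_mem_cons.mpr ⟨k9_1193, List.forall_mem_cons.mpr ⟨k9_1194, List.forall_mem_cons.mpr ⟨k9_1195, List.forall_mem_cons.mpr ⟨k9_1196, List.forall_mem_cons.mpr ⟨k9_1197, List.forall_mem_cons.mpr ⟨k9_1198, List.forall_mem_cons.mpr ⟨k9_1199, List.forall_mem_cons.mpr ⟨k9_1200, List.forall_mem_cons.mpr ⟨k9_1201, List.forall_mem_cons.mpr ⟨k9_1202, List.forall_mem_cons.mpr ⟨k9_1203, List.forall_mem_cons.mpr ⟨k9_1204, List.forall_mem_cons.mpr ⟨k9_1205, List.forall_mem_cons.mpr ⟨k9_1206, List.forall_mem_cons.mpr ⟨k9_1207, List.forall_mem_cons.mpr ⟨k9_1208, List.forall_mem_cons.mpr ⟨k9_1209, List.forall_mem_cons.mpr ⟨k9_1210, List.forall_mem_cons.mpr ⟨k9_1211, List.forall_mem_cons.mpr ⟨k9_1212, List.forall_mem_cons.mpr ⟨k9_1213, List.forall_mem_cons.mpr ⟨k9_1214, List.forall_mem_cons.mpr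 ⟨k9_1215, List.forall_mem_nil _⟩⟩⟩⟩⟩⟩⟩⟩⟩⟩⟩⟩⟩⟩⟩⟩⟩⟩⟩⟩⟩⟩⟩⟩⟩⟩⟩⟩⟩⟩⟩⟩⟩⟩⟩⟩⟩⟩⟩⟩⟩⟩⟩⟩⟩⟩⟩⟩⟩⟩⟩⟩⟩⟩⟩⟩⟩⟩⟩⟩⟩⟩⟩⟩

end Pool.Agent.ICyc.Flag
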