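import Pool.Agent.Lib.MP_131fce_co.Flag.T9

/-!
# Check of the graphs on `9` vertices, part 20
-/

set_option autoImplicit false
set_option maxRecDepth 100000

namespace Pool.Agent.ICyc.Flag

def rk9_19 : List ℕ :=
  [0xc2010c0111001c006000a000a001010042, 0x64006801820182000d0090011000600010, 
    0xcc0121012100c2000e01100110003000c0, 0xe001060118011800600060008100810006, 
    0xd00122010c008c01030060006000900010, 0xcc013001030083008c0110011000600060, 
    0xd00128012400c201090090004200240010, 0xcc0130012200c1008c0110011000410022, 
    0xc80130013000c400c40103003000080008, 0xb4014800b0014201420085010800300008, 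
    0xb6014800b0014101410086010801080030, 0xcc01130103001c00a00120012000c000c0, 
    0xe0010a01140118006000a0004100810006, 0xe00114010a01060089005000a000600010, 
    0x70006201840188010c0030005000810002, 0xca0130012100c4008c0110003001010042, 
    0x70007001840188018100220042000c0010, 0x7000700184018801880030004200050002, 
    0xcc0130013000c200c80110010100210006, 0xc80130013000c400c20105002800100008, 
    0xcc0130013000c200c40103011000280008, 0x7000700188018801840062001100080004, 
    0xd40128012800d0012200c1010200140008, 0xd40128012800d0012200c4010800110002, 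
    0xd60128012800d0012100c4010801010012, 0x8e015000a1004c00830120012001100050, 
    0x7200740188018101810046008801080030, 0xc60130013000c800c80030010101010006, 
    0xc60128012800d0002600c1011001100008, 0x6900660190019000610106008800880110, 
    0x7200740188018801810064008801010012, 0x7800780184018401820182006100180004, 
    0x7a00780184018401810181006201040018, 0x3c004d00b0014201420180018000300080, 
    0xa8015000a8015000a80150000300040004, 0xe401180118011800e000e0010200050002, 
    0xe601180118011800e000e0010101010006, 0xe401180118011800e000e0010300040004, 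
    0xc60138013800c000c000c0010101010006, 0xc60130013000c800c20025010801100008, 
    0x7200740188018801880070008101010006, 0x7400720188018801880070010300840004, 
    0x7400740188018801880070018200050002, 0x7600740188018801880070018101010006, 
    0x3c005c00a1014201800180018000210042, 0xc70130013000c800c10026010801080110, 
    0x7300740188018801880070008301040104, 0x7600760188018801880070018101810006, 
    0x3e004e00b0014101410180018001800030, 0x63007001840188008c0030005001000100, 
    0xb4014300b0014801480034010800800080, 0xc601380119008600c000c0012001200040, 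
    0x7800780183018401840184003800400040, 0x3c005c0083010301800180018000600060, 
    0xbc0143009c010301400140014000a000a0, 0x5400680182009001200084010800400000, 
    0xc301140128005000a00044008801000100, 0xe3010c01140118006000a000c001000100, 
    0x2a005400a0014000880110008201040000, 0x580026012100c001020104008800900040, 
    0xd10106010a001c0120006000a000c00100, 0x7000580182010501800084002800400020, 
    0xa80150008a011400a00140002200440000, 0xd10128010c0092012000c0004200240100]

theorem k9_1216 : ok9 0xc2010c0111001c006000a000a001010042 = true := by decide +kernel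

theorem k9_1217 : ok9 0x64006801820182000d0090011000600010 = true := by decide +kernel

theorem k9_1218 : ok9 0xcc0121012100c2000e01100110003000c0 = true := by decide +kernel

theorem k9_1219 : ok9 0xe001060118011800600060008100810006 = true := by decide +kernel

theorem k9_1220 : ok9 0xd00122010c008c01030060006000900010 = true := by decide +kernel

theorem k9_1221 : ok9 0xcc013001030083008c0110011000600060 = true := by decide +kernel

theorem k9_1222 : ok9 0xd00128012400c201090090004200240010 = true := by decide +kernel

theorem k9_1223 : ok9 0xcc0130012200c1008c0110011000410022 = true := by decide +kernel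

theorem k9_1224 : ok9 0xc80130013000c400c40103003000080008 = true := by decide +kernel

theorem k9_1225 : ok9 0xb4014800b0014201420085010800300008 = true := by decide +kernel

theorem k9_1226 : ok9 0xb6014800b0014101410086010801080030 = true := by decide +kernel

theorem k9_1227 : ok9 0xcc01130103001c00a00120012000c000c0 = true := by decide +kernel

theorem k9_1228 : ok9 0xe0010a01140118006000a0004100810006 = true := by decide +kernel

theorem k9_1229 : ok9 0xe00114010a01060089005000a000600010 = true := by decide +kernel

theorem k9_1230 : ok9 0x70006201840188010c0030005000810002 = true := by decide +kernel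

theorem k9_1231 : ok9 0xca0130012100c4008c0110003001010042 = true := by decide +kernel

theorem k9_1232 : ok9 0x70007001840188018100220042000c0010 = true := by decide +kernel

theorem k9_1233 : ok9 0x7000700184018801880030004200050002 = true := by decide +kernel

theorem k9_1234 : ok9 0xcc0130013000c200c80110010100210006 = true := by decide +kernel

theorem k9_1235 : ok9 0xc80130013000c400c20105002800100008 = true := by decide +kernel

theorem k9_1236 : ok9 0xcc0130013000c200c40103011000280008 = true := by decide +kernel

theorem k9_1237 : ok9 0x7000700188018801840062001100080004 = true := by decide +kernel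

theorem k9_1238 : ok9 0xd40128012800d0012200c1010200140008 = true := by decide +kernel

theorem k9_1239 : ok9 0xd40128012800d0012200c4010800110002 = true := by decide +kernel

theorem k9_1240 : ok9 0xd60128012800d0012100c4010801010012 = true := by decide +kernel

theorem k9_1241 : ok9 0x8e015000a1004c00830120012001100050 = true := by decide +kernel

theorem k9_1242 : ok9 0x7200740188018101810046008801080030 = true := by decide +kernel

theorem k9_1243 : ok9 0xc60130013000c800c80030010101010006 = true := by decide +kernel

theorem k9_1244 : ok9 0xc60128012800d0002600c1011001100008 = true := by decide +kernel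

theorem k9_1245 : ok9 0x6900660190019000610106008800880110 = true := by decide +kernel

theorem k9_1246 : ok9 0x7200740188018801810064008801010012 = true := by decide +kernel

theorem k9_1247 : ok9 0x7800780184018401820182006100180004 = true := by decide +kernel

theorem k9_1248 : ok9 0x7a00780184018401810181006201040018 = true := by decide +kernel

theorem k9_1249 : ok9 0x3c004d00b0014201420180018000300080 = true := by decide +kernel

theorem k9_1250 : ok9 0xa8015000a8015000a80150000300040004 = true := by decide +kernel

theorem k9_1251 : ok9 0xe401180118011800e000e0010200050002 = true := by decide +kernel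

theorem k9_1252 : ok9 0xe601180118011800e000e0010101010006 = true := by decide +kernel

theorem k9_1253 : ok9 0xe401180118011800e000e0010300040004 = true := by decide +kernel

theorem k9_1254 : ok9 0xc60138013800c000c000c0010101010006 = true := by decide +kernel

theorem k9_1255 : ok9 0xc60130013000c800c20025010801100008 = true := by decide +kernel

theorem k9_1256 : ok9 0x7200740188018801880070008101010006 = true := by decide +kernel

theorem k9_1257 : ok9 0x7400720188018801880070010300840004 = true := by decide +kernel

theorem k9_1258 : ok9 0x7400740188018801880070018200050002 = true := by decide +kernel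

theorem k9_1259 : ok9 0x7600740188018801880070018101010006 = true := by decide +kernel

theorem k9_1260 : ok9 0x3c005c00a1014201800180018000210042 = true := by decide +kernel

theorem k9_1261 : ok9 0xc70130013000c800c10026010801080110 = true := by decide +kernel

theorem k9_1262 : ok9 0x7300740188018801880070008301040104 = true := by decide +kernel

theorem k9_1263 : ok9 0x7600760188018801880070018101810006 = true := by decide +kernel

theorem k9_1264 : ok9 0x3e004e00b0014101410180018001800030 = true := by decide +kernel

theorem k9_1265 : ok9 0x63007001840188008c0030005001000100 = true := by decide +kernel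

theorem k9_1266 : ok9 0xb4014300b0014801480034010800800080 = true := by decide +kernel

theorem k9_1267 : ok9 0xc601380119008600c000c0012001200040 = true := by decide +kernel

theorem k9_1268 : ok9 0x7800780183018401840184003800400040 = true := by decide +kernel

theorem k9_1269 : ok9 0x3c005c0083010301800180018000600060 = true := by decide +kernel

theorem k9_1270 : ok9 0xbc0143009c010301400140014000a000a0 = true := by decide +kernel

theorem k9_1271 : ok9 0x5400680182009001200084010800400000 = true := by decide +kernel

theorem k9_1272 : ok9 0xc301140128005000a00044008801000100 = true := by decide +kernel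

theorem k9_1273 : ok9 0xe3010c01140118006000a000c001000100 = true := by decide +kernel

theorem k9_1274 : ok9 0x2a005400a0014000880110008201040000 = true := by decide +kernel

theorem k9_1275 : ok9 0x580026012100c001020104008800900040 = true := by decide +kernel

theorem k9_1276 : ok9 0xd10106010a001c0120006000a000c00100 = true := by decide +kernel

theorem k9_1277 : ok9 0x7000580182010501800084002800400020 = true := by decide +kernel

theorem k9_1278 : ok9 0xa80150008a011400a00140002200440000 = true := by decide +kernel

theorem k9_1279 : ok9 0xd10128010c0092012000c0004200240100 = true := by decide +kernel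

theorem ck9_19 : ∀ H ∈ rk9_19, ok9 H = true :=
  List.forall_mem_cons.mpr ⟨k9_1216, List.forall_mem_cons.mpr ⟨k9_1217, List.forall_mem_cons.mpr ⟨k9_1218, List.forall_mem_cons.mpr ⟨k9_1219, List.forall_mem_cons.mpr ⟨k9_1220, List.forall_mem_cons.mpr ⟨k9_1221, List.forall_mem_cons.mpr ⟨k9_1222, List.forall_mem_cons.mpr ⟨k9_1223, List.forall_mem_cons.mpr ⟨k9_1224, List.forall_mem_cons.mpr ⟨k9_1225, List.forall_mem_cons.mpr ⟨k9_1226, List.forall_mem_cons.mpr ⟨k9_1227, List.forall_mem_cons.mpr ⟨k9_1228, List.forall_mem_cons.mpr ⟨k9_1229, List.forall_mem_cons.mpr ⟨k9_1230, List.forall_mem_cons.mpr ⟨k9_1231, List.forall_mem_cons.mpr ⟨k9_1232, List.forall_mem_cons.mpr ⟨k9_1233, List.forall_mem_cons.mpr ⟨k9_1234, List.forall_mem_cons.mpr ⟨k9_1235, List.forall_mem_cons.mpr ⟨k9_1236, List.forall_mem_cons.mpr ⟨k9_1237, List.forall_mem_cons.mpr ⟨k9_1238, List.forall_mem_cons.mpr ⟨k9_1239, List.forall_mem_cons.mpr ⟨k9_1240, List.forall_mem_cons.mpr ⟨k9_1241, List.forall_mem_cons.mpr ⟨k9_1242, List.forall_mem_cons.mpr ⟨k9_1243, List.forall_mem_cons.mpr ⟨k9_1244, List.forall_mem_cons.mpr ⟨k9_1245, List.forall_mem_cons.mpr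 ⟨k9_1246, List.forall_mem_cons.mpr ⟨k9_1247, List.forall_mem_cons.mpr ⟨k9_1248, List.forall_mem_cons.mpr ⟨k9_1249, List.forall_mem_cons.mpr ⟨k9_1250, List.forall_mem_cons.mpr ⟨k9_1251, List.forall_mem_cons.mpr ⟨k9_1252, List.forall_mem_cons.mpr ⟨k9_1253, List.forall_mem_cons.mpr ⟨k9_1254, List.forall_mem_cons.mpr ⟨k9_1255, List.forall_mem_cons.mpr ⟨k9_1256, List.forall_mem_cons.mpr ⟨k9_1257, List.forall_mem_cons.mpr ⟨k9_1258, List.forall_mem_cons.mpr ⟨k9_1259, List.forall_mem_cons.mpr ⟨k9_1260, List.forall_mem_cons.mpr ⟨k9_1261, List.forall_mem_cons.mpr ⟨k9_1262, List.forall_mem_cons.mpr ⟨k9_1263, List.forall_mem_cons.mpr ⟨k9_1264, List.forall_mem_cons.mpr ⟨k9_1265, List.forall_mem_cons.mpr ⟨k9_1266, List.forall_mem_cons.mpr ⟨k9_1267, List.forall_mem_cons.mpr ⟨k9_1268, List.forall_mem_cons.mpr ⟨k9_1269, List.forall_mem_cons.mpr ⟨k9_1270, List.forall_mem_cons.mpr ⟨k9_1271, List.forall_mem_cons.mpr ⟨k9_1272, List.forall_mem_cons.mpr ⟨k9_1273, List.forall_mem_cons.mpr ⟨k9_1274, List.forall_mem_cons.mpr ⟨k9_1275, List.forall_mem_cons.mpr ⟨k9_1276, List.forall_mem_cons.mpr ⟨k9_1277, List.forall_mem_cons.mpr ⟨k9_1278,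 List.forall_mem_cons.mpr ⟨k9_1279, List.forall_mem_nil _⟩⟩⟩⟩⟩⟩⟩⟩⟩⟩⟩⟩⟩⟩⟩⟩⟩⟩⟩⟩⟩⟩⟩⟩⟩⟩⟩⟩⟩⟩⟩⟩⟩⟩⟩⟩⟩⟩⟩⟩⟩⟩⟩⟩⟩⟩⟩⟩⟩⟩⟩⟩⟩⟩⟩⟩⟩⟩⟩⟩⟩⟩⟩⟩

end Pool.Agent.ICyc.Flag
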