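import Pool.Agent.Lib.MP_131fce_co.Flag.T9

/-!
# Check of the graphs on `9` vertices, part 21
-/

set_option autoImplicit false
set_option maxRecDepth 100000

namespace Pool.Agent.ICyc.Flag

def rk9_20 : List ℕ :=
  [0x6800540182011100a00104008800400020, 0xc801240112009800600120008200440000, 
    0xd10124010a009801200060008200440100, 0x6800700181018200840104001800200040, 
    0xd10124012800d0012000420082000c0100, 0xe201140118010c00c1006000a001000010, 
    0xd80122012400c801060120005000900000, 0xd90122012400c801060120005000900100, 
    0x72004c018101040108009000a001000040, 0x71000e010201040108009000a000c00100, 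
    0x3c004300b0014001400101010200840088, 0x78001e010301050180018000a000c00060, 
    0x95014800b0004a014000a0010200240100, 0x78005a0184010501800180006000810022, 
    0x99014400a8005201200140008200240100, 0x78005c018201050180018000a000410022, 
    0x7800780182018401800180002100410006, 0x7800690182018401060180003000500080, 
    0x7c006c0181018201030180018000300050, 0x8a01140026005800a0012000c001400000, 
    0x990106002a00540120014000a000c00100, 0x38005800a2014401810180002000400010, 
    0x34005800a40148018200a0014000100000, 0xca01140124005800a1012000c001000010, 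
    0xcc01120122005400a80110012000c00000, 0xcd01120122005400a80110012000c00100, 
    0xa90152008c011400a00140006000800100, 0x7400680181018201080090010000200040, 
    0xaa015100a4015000a00104004801000080, 0x3a005c008301050180018000a001400060, 
    0x95014800a20058012000a0010200440100, 0x3c00620098018101400140010200840020, 
    0x5a003c012400c10180018000c001010022, 0xc301140128005400a8005000a001000100, 
    0x9a0124003400c80141012000c001000010, 0x5c00690182009401220180012000500080, 
    0x5c006c0182009201210180018000600010, 0x6e005c0181011100a20180018001100060, 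
    0x78005c018301060180018000a000600040, 0x7800780185018201800180004200240040, 
    0x5a00700184008c01810120006001000010, 0x4e0039013000c200c40180011001200080, 
    0x3c0070008c018101820140014000100020, 0x3c004e00b0014201410180018000a00010, 
    0x4f003c013000c100c20180018001100120, 0x6c006c0191019200600180018000200040, 
    0xb3014c00b001440148009000a001000100, 0xf001010102010401080010002000400080, 
    0xd80124012000c001010102008000080010, 0xe4011a0108011000a000c0010100800004, 
    0xaa015400a0014000880110008201040000, 0xf1010e010201040108009000a000c00100, 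
    0xd40128012200c001080090010100400004, 0xd80126012100c001020104008800900040, 
    0xcc0130013000c000c00101010200040008, 0xca0134013000c000c00104008801010002, 
    0xbc014300b0014001400101010200840088, 0xf00105010a01040108005000a000400080, 
    0xd40129012200c001080090010200440080, 0x7800700182018401800101002000400008, 
    0xb8014600b0014101400104008800800020, 0xd4012a012800d0012000c0010100800004, 
    0xaa015400a8015000a00140008201040000, 0xd5012a012800d0012000c0010200840100]

theorem k9_1280 : ok9 0x6800540182011100a00104008800400020 = true := by decide +kernel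

theorem k9_1281 : ok9 0xc801240112009800600120008200440000 = true := by decide +kernel

theorem k9_1282 : ok9 0xd10124010a009801200060008200440100 = true := by decide +kernel

theorem k9_1283 : ok9 0x6800700181018200840104001800200040 = true := by decide +kernel

theorem k9_1284 : ok9 0xd10124012800d0012000420082000c0100 = true := by decide +kernel

theorem k9_1285 : ok9 0xe201140118010c00c1006000a001000010 = true := by decide +kernel

theorem k9_1286 : ok9 0xd80122012400c801060120005000900000 = true := by decide +kernel

theorem k9_1287 : ok9 0xd90122012400c801060120005000900100 = true := by decide +kernel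

theorem k9_1288 : ok9 0x72004c018101040108009000a001000040 = true := by decide +kernel

theorem k9_1289 : ok9 0x71000e010201040108009000a000c00100 = true := by decide +kernel

theorem k9_1290 : ok9 0x3c004300b0014001400101010200840088 = true := by decide +kernel

theorem k9_1291 : ok9 0x78001e010301050180018000a000c00060 = true := by decide +kernel

theorem k9_1292 : ok9 0x95014800b0004a014000a0010200240100 = true := by decide +kernel

theorem k9_1293 : ok9 0x78005a0184010501800180006000810022 = true := by decide +kernel

theorem k9_1294 : ok9 0x99014400a8005201200140008200240100 = true := by decide +kernel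

theorem k9_1295 : ok9 0x78005c018201050180018000a000410022 = true := by decide +kernel

theorem k9_1296 : ok9 0x7800780182018401800180002100410006 = true := by decide +kernel

theorem k9_1297 : ok9 0x7800690182018401060180003000500080 = true := by decide +kernel

theorem k9_1298 : ok9 0x7c006c0181018201030180018000300050 = true := by decide +kernel

theorem k9_1299 : ok9 0x8a01140026005800a0012000c001400000 = true := by decide +kernel

theorem k9_1300 : ok9 0x990106002a00540120014000a000c00100 = true := by decide +kernel

theorem k9_1301 : ok9 0x38005800a2014401810180002000400010 = true := by decide +kernel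

theorem k9_1302 : ok9 0x34005800a40148018200a0014000100000 = true := by decide +kernel

theorem k9_1303 : ok9 0xca01140124005800a1012000c001000010 = true := by decide +kernel

theorem k9_1304 : ok9 0xcc01120122005400a80110012000c00000 = true := by decide +kernel

theorem k9_1305 : ok9 0xcd01120122005400a80110012000c00100 = true := by decide +kernel

theorem k9_1306 : ok9 0xa90152008c011400a00140006000800100 = true := by decide +kernel

theorem k9_1307 : ok9 0x7400680181018201080090010000200040 = true := by decide +kernel

theorem k9_1308 : ok9 0xaa015100a4015000a00104004801000080 = true := by decide +kernel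

theorem k9_1309 : ok9 0x3a005c008301050180018000a001400060 = true := by decide +kernel

theorem k9_1310 : ok9 0x95014800a20058012000a0010200440100 = true := by decide +kernel

theorem k9_1311 : ok9 0x3c00620098018101400140010200840020 = true := by decide +kernel

theorem k9_1312 : ok9 0x5a003c012400c10180018000c001010022 = true := by decide +kernel

theorem k9_1313 : ok9 0xc301140128005400a8005000a001000100 = true := by decide +kernel

theorem k9_1314 : ok9 0x9a0124003400c80141012000c001000010 = true := by decide +kernel

theorem k9_1315 : ok9 0x5c00690182009401220180012000500080 = true := by decide +kernel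

theorem k9_1316 : ok9 0x5c006c0182009201210180018000600010 = true := by decide +kernel

theorem k9_1317 : ok9 0x6e005c0181011100a20180018001100060 = true := by decide +kernel

theorem k9_1318 : ok9 0x78005c018301060180018000a000600040 = true := by decide +kernel

theorem k9_1319 : ok9 0x7800780185018201800180004200240040 = true := by decide +kernel

theorem k9_1320 : ok9 0x5a00700184008c01810120006001000010 = true := by decide +kernel

theorem k9_1321 : ok9 0x4e0039013000c200c40180011001200080 = true := by decide +kernel

theorem k9_1322 : ok9 0x3c0070008c018101820140014000100020 = true := by decide +kernel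

theorem k9_1323 : ok9 0x3c004e00b0014201410180018000a00010 = true := by decide +kernel

theorem k9_1324 : ok9 0x4f003c013000c100c20180018001100120 = true := by decide +kernel

theorem k9_1325 : ok9 0x6c006c0191019200600180018000200040 = true := by decide +kernel

theorem k9_1326 : ok9 0xb3014c00b001440148009000a001000100 = true := by decide +kernel

theorem k9_1327 : ok9 0xf001010102010401080010002000400080 = true := by decide +kernel

theorem k9_1328 : ok9 0xd80124012000c001010102008000080010 = true := by decide +kernel

theorem k9_1329 : ok9 0xe4011a0108011000a000c0010100800004 = true := by decide +kernel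

theorem k9_1330 : ok9 0xaa015400a0014000880110008201040000 = true := by decide +kernel

theorem k9_1331 : ok9 0xf1010e010201040108009000a000c00100 = true := by decide +kernel

theorem k9_1332 : ok9 0xd40128012200c001080090010100400004 = true := by decide +kernel

theorem k9_1333 : ok9 0xd80126012100c001020104008800900040 = true := by decide +kernel

theorem k9_1334 : ok9 0xcc0130013000c000c00101010200040008 = true := by decide +kernel

theorem k9_1335 : ok9 0xca0134013000c000c00104008801010002 = true := by decide +kernel

theorem k9_1336 : ok9 0xbc014300b0014001400101010200840088 = true := by decide +kernel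

theorem k9_1337 : ok9 0xf00105010a01040108005000a000400080 = true := by decide +kernel

theorem k9_1338 : ok9 0xd40129012200c001080090010200440080 = true := by decide +kernel

theorem k9_1339 : ok9 0x7800700182018401800101002000400008 = true := by decide +kernel

theorem k9_1340 : ok9 0xb8014600b0014101400104008800800020 = true := by decide +kernel

theorem k9_1341 : ok9 0xd4012a012800d0012000c0010100800004 = true := by decide +kernel

theorem k9_1342 : ok9 0xaa015400a8015000a00140008201040000 = true := by decide +kernel

theorem k9_1343 : ok9 0xd5012a012800d0012000c0010200840100 = true := by decide +kernel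

theorem ck9_20 : ∀ H ∈ rk9_20, ok9 H = true :=
  List.forall_mem_cons.mpr ⟨k9_1280, List.forall_mem_cons.mpr ⟨k9_1281, List.forall_mem_cons.mpr ⟨k9_1282, List.forall_mem_cons.mpr ⟨k9_1283, List.forall_mem_cons.mpr ⟨k9_1284, List.forall_mem_cons.mpr ⟨k9_1285, List.forall_mem_cons.mpr ⟨k9_1286, List.forall_mem_cons.mpr ⟨k9_1287, List.forall_mem_cons.mpr ⟨k9_1288, List.forall_mem_cons.mpr ⟨k9_1289, List.forall_mem_cons.mpr ⟨k9_1290, List.forall_mem_cons.mpr ⟨k9_1291, List.forall_mem_cons.mpr ⟨k9_1292, List.forall_mem_cons.mpr ⟨k9_1293, List.forall_mem_cons.mpr ⟨k9_1294, List.forall_mem_cons.mpr ⟨k9_1295, List.forall_mem_cons.mpr ⟨k9_1296, List.forall_mem_cons.mpr ⟨k9_1297, List.forall_mem_cons.mpr ⟨k9_1298, List.forall_mem_cons.mpr ⟨k9_1299, List.forall_mem_cons.mpr ⟨k9_1300, List.forall_mem_cons.mpr ⟨k9_1301, List.forall_mem_cons.mpr ⟨k9_1302, List.forall_mem_cons.mpr ⟨k9_1303, List.forall_mem_cons.mpr ⟨k9_1304, List.forall_mem_cons.mpr ⟨k9_1305, List.forall_mem_cons.mpr ⟨k9_1306, List.forall_mem_cons.mpr ⟨k9_1307, List.forall_mem_cons.mpr ⟨k9_1308, List.forall_mem_cons.mpr ⟨k9_1309, List.forall_mem_cons.mpr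 ⟨k9_1310, List.forall_mem_cons.mpr ⟨k9_1311, List.forall_mem_cons.mpr ⟨k9_1312, List.forall_mem_cons.mpr ⟨k9_1313, List.forall_mem_cons.mpr ⟨k9_1314, List.forall_mem_cons.mpr ⟨k9_1315, List.forall_mem_cons.mpr ⟨k9_1316, List.forall_mem_cons.mpr ⟨k9_1317, List.forall_mem_cons.mpr ⟨k9_1318, List.forall_mem_cons.mpr ⟨k9_1319, List.forall_mem_cons.mpr ⟨k9_1320, List.forall_mem_cons.mpr ⟨k9_1321, List.forall_mem_cons.mpr ⟨k9_1322, List.forall_mem_cons.mpr ⟨k9_1323, List.forall_mem_cons.mpr ⟨k9_1324, List.forall_mem_cons.mpr ⟨k9_1325, List.forall_mem_cons.mpr ⟨k9_1326, List.forall_mem_cons.mpr ⟨k9_1327, List.forall_mem_cons.mpr ⟨k9_1328, List.forall_mem_cons.mpr ⟨k9_1329, List.forall_mem_cons.mpr ⟨k9_1330, List.forall_mem_cons.mpr ⟨k9_1331, List.forall_mem_cons.mpr ⟨k9_1332, List.forall_mem_cons.mpr ⟨k9_1333, List.forall_mem_cons.mpr ⟨k9_1334, List.forall_mem_cons.mpr ⟨k9_1335, List.forall_mem_cons.mpr ⟨k9_1336, List.forall_mem_cons.mpr ⟨k9_1337, List.forall_mem_cons.mpr ⟨k9_1338, List.forall_mem_cons.mpr ⟨k9_1339, List.forall_mem_cons.mpr ⟨k9_1340, List.forall_mem_cons.mpr ⟨k9_1341, List.forall_mem_cons.mpr ⟨k9_1342,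 List.forall_mem_cons.mpr ⟨k9_1343, List.forall_mem_nil _⟩⟩⟩⟩⟩⟩⟩⟩⟩⟩⟩⟩⟩⟩⟩⟩⟩⟩⟩⟩⟩⟩⟩⟩⟩⟩⟩⟩⟩⟩⟩⟩⟩⟩⟩⟩⟩⟩⟩⟩⟩⟩⟩⟩⟩⟩⟩⟩⟩⟩⟩⟩⟩⟩⟩⟩⟩⟩⟩⟩⟩⟩⟩⟩

end Pool.Agent.ICyc.Flag
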