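import Pool.Agent.Lib.MP_131fce_co.Flag.T9

/-!
# Check of the graphs on `9` vertices, part 23
-/

set_option autoImplicit false
set_option maxRecDepth 100000

namespace Pool.Agent.ICyc.Flag

def rk9_22 : List ℕ :=
  [0x7400740183018801880032018000480040, 0xe401180118010300c000c0010200240020, 
    0xe401180112010900c000a0010200440020, 0xe2011c0111010c00c000a000a001010042, 
    0xb8014400a8014201050140009000200010, 0xb80146009801060141014000a000a00010, 
    0xd4012a012200c401090090012000c00010, 0xce0131012100c8008601200110011000c0, 
    0xe2010c01140118006000a000c001010002, 0xe20119010c011400a000c0006001010082, 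
    0x7800700184018101820104004800100020, 0x7400700188018801820060010100100004, 
    0xb4014a00b00148014100a0010200840010, 0xb2014c00b001440148009000a001010002, 
    0xce0131013000c400c80110012001010082, 0xb4014900a40142010a0090014000300080, 
    0xb4014900b0014201480090010200240080, 0xac015200a8015000a40141011000800008, 
    0xaa015400a8015000a20144008801100000, 0xd5012a012800d0012200c4010800900100, 
    0xd1012a012c00c1010600c0005000900120, 0xb4014300b0014801480030010200840080, 
    0xd20129012c00d0012400c0005001010082, 0xcc0132013100c800c40122011000880040, 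
    0xca0134013400c800c2012100c001100008, 0xb6014900b40148014100a2014001080090, 
    0xe4011a0118011800e000e0010100800004, 0xaa015400a8015000a80150008201040000, 
    0xe5011a0118011800e000e0010200840100, 0xcc0132013100c800c80130010200840040, 
    0xca0134013400c800c8013000c001010002, 0xb6014900b40148014800b0014001010082, 
    0x740074018a018801880070018200440000, 0x750074018a018801880070018200440100, 
    0x7600760189018801880070018101800044, 0x4e005601a0005800a10121018001800018, 
    0x6500660190019000680013018000880108, 0x3c0036003a01c001c00141018100c0000c, 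
    0x3c0039003a01c001c001c0010300440084, 0x3c003c003a01c001c001c0018100410006, 
    0x3e003a003c01c001c001c0014101810006, 0x6500660188019000290052018000880110, 
    0x7200710184018801880034004a01040080, 0x7200720184018801880034004901800004, 
    0x7300720184018801880034004901800104, 0x2d005600a8015000a80150018000800100, 
    0x720036010d01880188007000c001800040, 0x9c0123002e00d001210140014000c00090, 
    0x5600660188009801210061018001800018, 0x360039003a01c001c000c4010901400084, 
    0x3a003c003c01c001c001c000c201050002, 0x3d003a003c01c001c001c0014200850102, 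
    0x3c003c001e018301c001c001c000600020, 0xe2010d01140118006200a000c001100080, 
    0xd1012c010e0091012200c000c000500120, 0xd2012c012c00d0012100c000c001010012, 
    0xd2012c012500d00128009200c001080040, 0xae015100a6015000a80111014001400088, 
    0xe1011a011c011600e000c1006000a00108, 0xe20119011c011c00e000e0006001010082, 
    0x5c005c01a2005901a001a0018200440020, 0x5e005c01a1005a01a001a0018101200044, 
    0x3c003c003c01c201c001c001c000210002, 0x3e003c003c01c101c001c001c001010022]

theorem k9_1408 : ok9 0x7400740183018801880032018000480040 = true := by decide +kernel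

theorem k9_1409 : ok9 0xe401180118010300c000c0010200240020 = true := by decide +kernel

theorem k9_1410 : ok9 0xe401180112010900c000a0010200440020 = true := by decide +kernel

theorem k9_1411 : ok9 0xe2011c0111010c00c000a000a001010042 = true := by decide +kernel

theorem k9_1412 : ok9 0xb8014400a8014201050140009000200010 = true := by decide +kernel

theorem k9_1413 : ok9 0xb80146009801060141014000a000a00010 = true := by decide +kernel

theorem k9_1414 : ok9 0xd4012a012200c401090090012000c00010 = true := by decide +kernel

theorem k9_1415 : ok9 0xce0131012100c8008601200110011000c0 = true := by decide +kernel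

theorem k9_1416 : ok9 0xe2010c01140118006000a000c001010002 = true := by decide +kernel

theorem k9_1417 : ok9 0xe20119010c011400a000c0006001010082 = true := by decide +kernel

theorem k9_1418 : ok9 0x7800700184018101820104004800100020 = true := by decide +kernel

theorem k9_1419 : ok9 0x7400700188018801820060010100100004 = true := by decide +kernel

theorem k9_1420 : ok9 0xb4014a00b00148014100a0010200840010 = true := by decide +kernel

theorem k9_1421 : ok9 0xb2014c00b001440148009000a001010002 = true := by decide +kernel

theorem k9_1422 : ok9 0xce0131013000c400c80110012001010082 = true := by decide +kernel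

theorem k9_1423 : ok9 0xb4014900a40142010a0090014000300080 = true := by decide +kernel

theorem k9_1424 : ok9 0xb4014900b0014201480090010200240080 = true := by decide +kernel

theorem k9_1425 : ok9 0xac015200a8015000a40141011000800008 = true := by decide +kernel

theorem k9_1426 : ok9 0xaa015400a8015000a20144008801100000 = true := by decide +kernel

theorem k9_1427 : ok9 0xd5012a012800d0012200c4010800900100 = true := by decide +kernel

theorem k9_1428 : ok9 0xd1012a012c00c1010600c0005000900120 = true := by decide +kernel

theorem k9_1429 : ok9 0xb4014300b0014801480030010200840080 = true := by decide +kernel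

theorem k9_1430 : ok9 0xd20129012c00d0012400c0005001010082 = true := by decide +kernel

theorem k9_1431 : ok9 0xcc0132013100c800c40122011000880040 = true := by decide +kernel

theorem k9_1432 : ok9 0xca0134013400c800c2012100c001100008 = true := by decide +kernel

theorem k9_1433 : ok9 0xb6014900b40148014100a2014001080090 = true := by decide +kernel

theorem k9_1434 : ok9 0xe4011a0118011800e000e0010100800004 = true := by decide +kernel

theorem k9_1435 : ok9 0xaa015400a8015000a80150008201040000 = true := by decide +kernel

theorem k9_1436 : ok9 0xe5011a0118011800e000e0010200840100 = true := by decide +kernel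

theorem k9_1437 : ok9 0xcc0132013100c800c80130010200840040 = true := by decide +kernel

theorem k9_1438 : ok9 0xca0134013400c800c8013000c001010002 = true := by decide +kernel

theorem k9_1439 : ok9 0xb6014900b40148014800b0014001010082 = true := by decide +kernel

theorem k9_1440 : ok9 0x740074018a018801880070018200440000 = true := by decide +kernel

theorem k9_1441 : ok9 0x750074018a018801880070018200440100 = true := by decide +kernel

theorem k9_1442 : ok9 0x7600760189018801880070018101800044 = true := by decide +kernel

theorem k9_1443 : ok9 0x4e005601a0005800a10121018001800018 = true := by decide +kernel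

theorem k9_1444 : ok9 0x6500660190019000680013018000880108 = true := by decide +kernel

theorem k9_1445 : ok9 0x3c0036003a01c001c00141018100c0000c = true := by decide +kernel

theorem k9_1446 : ok9 0x3c0039003a01c001c001c0010300440084 = true := by decide +kernel

theorem k9_1447 : ok9 0x3c003c003a01c001c001c0018100410006 = true := by decide +kernel

theorem k9_1448 : ok9 0x3e003a003c01c001c001c0014101810006 = true := by decide +kernel

theorem k9_1449 : ok9 0x6500660188019000290052018000880110 = true := by decide +kernel

theorem k9_1450 : ok9 0x7200710184018801880034004a01040080 = true := by decide +kernel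

theorem k9_1451 : ok9 0x7200720184018801880034004901800004 = true := by decide +kernel

theorem k9_1452 : ok9 0x7300720184018801880034004901800104 = true := by decide +kernel

theorem k9_1453 : ok9 0x2d005600a8015000a80150018000800100 = true := by decide +kernel

theorem k9_1454 : ok9 0x720036010d01880188007000c001800040 = true := by decide +kernel

theorem k9_1455 : ok9 0x9c0123002e00d001210140014000c00090 = true := by decide +kernel

theorem k9_1456 : ok9 0x5600660188009801210061018001800018 = true := by decide +kernel

theorem k9_1457 : ok9 0x360039003a01c001c000c4010901400084 = true := by decide +kernel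

theorem k9_1458 : ok9 0x3a003c003c01c001c001c000c201050002 = true := by decide +kernel

theorem k9_1459 : ok9 0x3d003a003c01c001c001c0014200850102 = true := by decide +kernel

theorem k9_1460 : ok9 0x3c003c001e018301c001c001c000600020 = true := by decide +kernel

theorem k9_1461 : ok9 0xe2010d01140118006200a000c001100080 = true := by decide +kernel

theorem k9_1462 : ok9 0xd1012c010e0091012200c000c000500120 = true := by decide +kernel

theorem k9_1463 : ok9 0xd2012c012c00d0012100c000c001010012 = true := by decide +kernel

theorem k9_1464 : ok9 0xd2012c012500d00128009200c001080040 = true := by decide +kernel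

theorem k9_1465 : ok9 0xae015100a6015000a80111014001400088 = true := by decide +kernel

theorem k9_1466 : ok9 0xe1011a011c011600e000c1006000a00108 = true := by decide +kernel

theorem k9_1467 : ok9 0xe20119011c011c00e000e0006001010082 = true := by decide +kernel

theorem k9_1468 : ok9 0x5c005c01a2005901a001a0018200440020 = true := by decide +kernel

theorem k9_1469 : ok9 0x5e005c01a1005a01a001a0018101200044 = true := by decide +kernel

theorem k9_1470 : ok9 0x3c003c003c01c201c001c001c000210002 = true := by decide +kernel

theorem k9_1471 : ok9 0x3e003c003c01c101c001c001c001010022 = true := by decide +kernel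

theorem ck9_22 : ∀ H ∈ rk9_22, ok9 H = true :=
  List.forall_mem_cons.mpr ⟨k9_1408, List.forall_mem_cons.mpr ⟨k9_1409, List.forall_mem_cons.mpr ⟨k9_1410, List.forall_mem_cons.mpr ⟨k9_1411, List.forall_mem_cons.mpr ⟨k9_1412, List.forall_mem_cons.mpr ⟨k9_1413, List.forall_mem_cons.mpr ⟨k9_1414, List.forall_mem_cons.mpr ⟨k9_1415, List.forall_mem_cons.mpr ⟨k9_1416, List.forall_mem_cons.mpr ⟨k9_1417, List.forall_mem_cons.mpr ⟨k9_1418, List.forall_mem_cons.mpr ⟨k9_1419, List.forall_mem_cons.mpr ⟨k9_1420, List.forall_mem_cons.mpr ⟨k9_1421, List.forall_mem_cons.mpr ⟨k9_1422, List.forall_mem_cons.mpr ⟨k9_1423, List.forall_mem_cons.mpr ⟨k9_1424, List.forall_mem_cons.mpr ⟨k9_1425, List.forall_mem_cons.mpr ⟨k9_1426, List.forall_mem_cons.mpr ⟨k9_1427, List.forall_mem_cons.mpr ⟨k9_1428, List.forall_mem_cons.mpr ⟨k9_1429, List.forall_mem_cons.mpr ⟨k9_1430, List.forall_mem_cons.mpr ⟨k9_1431, List.forall_mem_cons.mpr ⟨k9_1432, List.forall_mem_cons.mpr ⟨k9_1433, List.forall_mem_cons.mpr ⟨k9_1434, List.forall_mem_cons.mpr ⟨k9_1435, List.forall_mem_cons.mpr ⟨k9_1436, List.forall_mem_cons.mpr ⟨k9_1437,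 List.forall_mem_cons.mpr ⟨k9_1438, List.forall_mem_cons.mpr ⟨k9_1439, List.forall_mem_cons.mpr ⟨k9_1440, List.forall_mem_cons.mpr ⟨k9_1441, List.forall_mem_cons.mpr ⟨k9_1442, List.forall_mem_cons.mpr ⟨k9_1443, List.forall_mem_cons.mpr ⟨k9_1444, List.forall_mem_cons.mpr ⟨k9_1445, List.forall_mem_cons.mpr ⟨k9_1446, List.forall_mem_cons.mpr ⟨k9_1447, List.forall_mem_cons.mpr ⟨k9_1448, List.forall_mem_cons.mpr ⟨k9_1449, List.forall_mem_cons.mpr ⟨k9_1450, List.forall_mem_cons.mpr ⟨k9_1451, List.forall_mem_cons.mpr ⟨k9_1452, List.forall_mem_cons.mpr ⟨k9_1453, List.forall_mem_cons.mpr ⟨k9_1454, List.forall_mem_cons.mpr ⟨k9_1455, List.forall_mem_cons.mpr ⟨k9_1456, List.forall_mem_cons.mpr ⟨k9_1457, List.forall_mem_cons.mpr ⟨k9_1458, List.forall_mem_cons.mpr ⟨k9_1459, List.forall_mem_cons.mpr ⟨k9_1460, List.forall_mem_cons.mpr ⟨k9_1461, List.forall_mem_cons.mpr ⟨k9_1462, List.forall_mem_cons.mpr ⟨k9_1463, List.forall_mem_cons.mpr ⟨k9_1464, List.forall_mem_cons.mpr ⟨k9_1465, List.forall_mem_cons.mpr ⟨k9_1466, List.forall_mem_cons.mpr ⟨k9_1467, List.forall_mem_cons.mpr ⟨k9_1468, List.forall_mem_cons.mpr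 ⟨k9_1469, List.forall_mem_cons.mpr ⟨k9_1470, List.forall_mem_cons.mpr ⟨k9_1471, List.forall_mem_nil _⟩⟩⟩⟩⟩⟩⟩⟩⟩⟩⟩⟩⟩⟩⟩⟩⟩⟩⟩⟩⟩⟩⟩⟩⟩⟩⟩⟩⟩⟩⟩⟩⟩⟩⟩⟩⟩⟩⟩⟩⟩⟩⟩⟩⟩⟩⟩⟩⟩⟩⟩⟩⟩⟩⟩⟩⟩⟩⟩⟩⟩⟩⟩⟩

end Pool.Agent.ICyc.Flag
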