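import Pool.Agent.Lib.MP_131fce_co.Flag.T9

/-!
# Check of the graphs on `9` vertices, part 24
-/

set_option autoImplicit false
set_option maxRecDepth 100000

namespace Pool.Agent.ICyc.Flag

def rk9_23 : List ℕ :=
  [0x3e003e003c01c101c001c001c001810022, 0x2e005600a8015000a80150018001800000, 
    0x67001e0118011800e000e0018001800100, 0xa6015800a6015800a000a0014001400000, 
    0xd90126012600d80120012000c000c00100, 0x2f005700a8015000a80150018001800180, 
    0x7c007c0183018301800180018000600060, 0x8701600098009800620064010801100100, 
    0x36004700b0014801480031018001800088, 0xc301140128005400a8005400a801000100, 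
    0x5a00630184009801240124005801800080, 0x73004b0184010c010c00b0007001800180, 
    0xc3012c012c00d0002300c000c001100110, 0xa3014c0093011c006000a000a001400140, 
    0x7800780181018201840180001000200040, 0x7800780186018401810180006000400010, 
    0xc70138013800c200c400c0011001200100, 0x4e0036013100c800c80130018001800040, 
    0x740074018a018901820060018000500020, 0x7800780186018601810180006000600010, 
    0xcd0132013200cc00c10120012000c00110, 0xcb0134013400c800c8013000c001000100, 
    0x6c006c0191019200680190018000200040, 0xaa015400aa015400a8015000a001400000, 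
    0xd5012a012a00d4012800d0012000c00100, 0x370071008e018801880070014001400180, 
    0x7600760189018901880070018001800060, 0x7800780182018201840184001a00640000, 
    0x7900780182018201840184001a00640100, 0x39003a002701c001840184005800c00140, 
    0x3c003c003301c001c001820182004c0040, 0x3d003c003301c001c001820182004c0140, 
    0x5900590186001e01a001a0006000600180, 0x7100710186018a018c0030005000600180, 
    0x740074018a018a01890070018000600010, 0xce0131013100ca00cc01300110012000c0, 
    0x3c003c003c01c201c201c001c000300000, 0x3d003c003c01c201c201c001c000300100, 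
    0x3e003e003c01c101c101c001c001800030, 0x7900790182018201840184001a00640180, 
    0x3e003e003901c001c001c0018101810046, 0x1f003c003c00c301c001c001c001200120, 
    0x3e003e003e01c101c101c001c001c00030, 0xe3011c011c011c00e000e000e001000100, 
    0x7000700181018201840007001800280048, 0x6800700181018200850106001800280050, 
    0xc40130013000c800c800320103000c0004, 0xe201140118011800e0006100830104000c, 
    0x6800700181018100860106001800180060, 0x4c005401a0005800a20122018100180004, 
    0xe20118010c011400a100c1006201040018, 0xf00106010a010c010c007000b000c10002, 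
    0xf10106010a010c010c007000b000c10102, 0xc301180118001c00e000e0002301040104, 
    0xc301140118001c00e0006100a201040108, 0x7800710182018401840106003800490082, 
    0x7800780182018201840184001900610006, 0x7c007801810181018201820103001c0064, 
    0xf001030103010c010c0030003000c000c0, 0x7800700184018201820105004800300008, 
    0xb8014600b0014101410106008800880030, 0xe4011a0118011800e000e0010300840004, 
    0xe3011c0118011800e000e0008301040104, 0xf001030105010a010c0030005000a000c0]

theorem k9_1472 : ok9 0x3e003e003c01c101c001c001c001810022 = true := by decide +kernel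

theorem k9_1473 : ok9 0x2e005600a8015000a80150018001800000 = true := by decide +kernel

theorem k9_1474 : ok9 0x67001e0118011800e000e0018001800100 = true := by decide +kernel

theorem k9_1475 : ok9 0xa6015800a6015800a000a0014001400000 = true := by decide +kernel

theorem k9_1476 : ok9 0xd90126012600d80120012000c000c00100 = true := by decide +kernel

theorem k9_1477 : ok9 0x2f005700a8015000a80150018001800180 = true := by decide +kernel

theorem k9_1478 : ok9 0x7c007c0183018301800180018000600060 = true := by decide +kernel

theorem k9_1479 : ok9 0x8701600098009800620064010801100100 = true := by decide +kernel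

theorem k9_1480 : ok9 0x36004700b0014801480031018001800088 = true := by decide +kernel

theorem k9_1481 : ok9 0xc301140128005400a8005400a801000100 = true := by decide +kernel

theorem k9_1482 : ok9 0x5a00630184009801240124005801800080 = true := by decide +kernel

theorem k9_1483 : ok9 0x73004b0184010c010c00b0007001800180 = true := by decide +kernel

theorem k9_1484 : ok9 0xc3012c012c00d0002300c000c001100110 = true := by decide +kernel

theorem k9_1485 : ok9 0xa3014c0093011c006000a000a001400140 = true := by decide +kernel

theorem k9_1486 : ok9 0x7800780181018201840180001000200040 = true := by decide +kernel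

theorem k9_1487 : ok9 0x7800780186018401810180006000400010 = true := by decide +kernel

theorem k9_1488 : ok9 0xc70138013800c200c400c0011001200100 = true := by decide +kernel

theorem k9_1489 : ok9 0x4e0036013100c800c80130018001800040 = true := by decide +kernel

theorem k9_1490 : ok9 0x740074018a018901820060018000500020 = true := by decide +kernel

theorem k9_1491 : ok9 0x7800780186018601810180006000600010 = true := by decide +kernel

theorem k9_1492 : ok9 0xcd0132013200cc00c10120012000c00110 = true := by decide +kernel

theorem k9_1493 : ok9 0xcb0134013400c800c8013000c001000100 = true := by decide +kernel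

theorem k9_1494 : ok9 0x6c006c0191019200680190018000200040 = true := by decide +kernel

theorem k9_1495 : ok9 0xaa015400aa015400a8015000a001400000 = true := by decide +kernel

theorem k9_1496 : ok9 0xd5012a012a00d4012800d0012000c00100 = true := by decide +kernel

theorem k9_1497 : ok9 0x370071008e018801880070014001400180 = true := by decide +kernel

theorem k9_1498 : ok9 0x7600760189018901880070018001800060 = true := by decide +kernel

theorem k9_1499 : ok9 0x7800780182018201840184001a00640000 = true := by decide +kernel

theorem k9_1500 : ok9 0x7900780182018201840184001a00640100 = true := by decide +kernel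

theorem k9_1501 : ok9 0x39003a002701c001840184005800c00140 = true := by decide +kernel

theorem k9_1502 : ok9 0x3c003c003301c001c001820182004c0040 = true := by decide +kernel

theorem k9_1503 : ok9 0x3d003c003301c001c001820182004c0140 = true := by decide +kernel

theorem k9_1504 : ok9 0x5900590186001e01a001a0006000600180 = true := by decide +kernel

theorem k9_1505 : ok9 0x7100710186018a018c0030005000600180 = true := by decide +kernel

theorem k9_1506 : ok9 0x740074018a018a01890070018000600010 = true := by decide +kernel

theorem k9_1507 : ok9 0xce0131013100ca00cc01300110012000c0 = true := by decide +kernel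

theorem k9_1508 : ok9 0x3c003c003c01c201c201c001c000300000 = true := by decide +kernel

theorem k9_1509 : ok9 0x3d003c003c01c201c201c001c000300100 = true := by decide +kernel

theorem k9_1510 : ok9 0x3e003e003c01c101c101c001c001800030 = true := by decide +kernel

theorem k9_1511 : ok9 0x7900790182018201840184001a00640180 = true := by decide +kernel

theorem k9_1512 : ok9 0x3e003e003901c001c001c0018101810046 = true := by decide +kernel

theorem k9_1513 : ok9 0x1f003c003c00c301c001c001c001200120 = true := by decide +kernel

theorem k9_1514 : ok9 0x3e003e003e01c101c101c001c001c00030 = true := by decide +kernel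

theorem k9_1515 : ok9 0xe3011c011c011c00e000e000e001000100 = true := by decide +kernel

theorem k9_1516 : ok9 0x7000700181018201840007001800280048 = true := by decide +kernel

theorem k9_1517 : ok9 0x6800700181018200850106001800280050 = true := by decide +kernel

theorem k9_1518 : ok9 0xc40130013000c800c800320103000c0004 = true := by decide +kernel

theorem k9_1519 : ok9 0xe201140118011800e0006100830104000c = true := by decide +kernel

theorem k9_1520 : ok9 0x6800700181018100860106001800180060 = true := by decide +kernel

theorem k9_1521 : ok9 0x4c005401a0005800a20122018100180004 = true := by decide +kernel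

theorem k9_1522 : ok9 0xe20118010c011400a100c1006201040018 = true := by decide +kernel

theorem k9_1523 : ok9 0xf00106010a010c010c007000b000c10002 = true := by decide +kernel

theorem k9_1524 : ok9 0xf10106010a010c010c007000b000c10102 = true := by decide +kernel

theorem k9_1525 : ok9 0xc301180118001c00e000e0002301040104 = true := by decide +kernel

theorem k9_1526 : ok9 0xc301140118001c00e0006100a201040108 = true := by decide +kernel

theorem k9_1527 : ok9 0x7800710182018401840106003800490082 = true := by decide +kernel

theorem k9_1528 : ok9 0x7800780182018201840184001900610006 = true := by decide +kernel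

theorem k9_1529 : ok9 0x7c007801810181018201820103001c0064 = true := by decide +kernel

theorem k9_1530 : ok9 0xf001030103010c010c0030003000c000c0 = true := by decide +kernel

theorem k9_1531 : ok9 0x7800700184018201820105004800300008 = true := by decide +kernel

theorem k9_1532 : ok9 0xb8014600b0014101410106008800880030 = true := by decide +kernel

theorem k9_1533 : ok9 0xe4011a0118011800e000e0010300840004 = true := by decide +kernel

theorem k9_1534 : ok9 0xe3011c0118011800e000e0008301040104 = true := by decide +kernel

theorem k9_1535 : ok9 0xf001030105010a010c0030005000a000c0 = true := by decide +kernel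

theorem ck9_23 : ∀ H ∈ rk9_23, ok9 H = true :=
  List.forall_mem_cons.mpr ⟨k9_1472, List.forall_mem_cons.mpr ⟨k9_1473, List.forall_mem_cons.mpr ⟨k9_1474, List.forall_mem_cons.mpr ⟨k9_1475, List.forall_mem_cons.mpr ⟨k9_1476, List.forall_mem_cons.mpr ⟨k9_1477, List.forall_mem_cons.mpr ⟨k9_1478, List.forall_mem_cons.mpr ⟨k9_1479, List.forall_mem_cons.mpr ⟨k9_1480, List.forall_mem_cons.mpr ⟨k9_1481, List.forall_mem_cons.mpr ⟨k9_1482, List.forall_mem_cons.mpr ⟨k9_1483, List.forall_mem_cons.mpr ⟨k9_1484, List.forall_mem_cons.mpr ⟨k9_1485, List.forall_mem_cons.mpr ⟨k9_1486, List.forall_mem_cons.mpr ⟨k9_1487, List.forall_mem_cons.mpr ⟨k9_1488, List.forall_mem_cons.mpr ⟨k9_1489, List.forall_mem_cons.mpr ⟨k9_1490, List.forall_mem_cons.mpr ⟨k9_1491, List.forall_mem_cons.mpr ⟨k9_1492, List.forall_mem_cons.mpr ⟨k9_1493, List.forall_mem_cons.mpr ⟨k9_1494, List.forall_mem_cons.mpr ⟨k9_1495, List.forall_mem_cons.mpr ⟨k9_1496, List.forall_mem_cons.mpr ⟨k9_1497, List.forall_mem_cons.mpr ⟨k9_1498, List.forall_mem_cons.mpr ⟨k9_1499, List.forall_mem_cons.mpr ⟨k9_1500, List.forall_mem_cons.mpr ⟨k9_1501, List.forall_mem_cons.mpr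 ⟨k9_1502, List.forall_mem_cons.mpr ⟨k9_1503, List.forall_mem_cons.mpr ⟨k9_1504, List.forall_mem_cons.mpr ⟨k9_1505, List.forall_mem_cons.mpr ⟨k9_1506, List.forall_mem_cons.mpr ⟨k9_1507, List.forall_mem_cons.mpr ⟨k9_1508, List.forall_mem_cons.mpr ⟨k9_1509, List.forall_mem_cons.mpr ⟨k9_1510, List.forall_mem_cons.mpr ⟨k9_1511, List.forall_mem_cons.mpr ⟨k9_1512, List.forall_mem_cons.mpr ⟨k9_1513, List.forall_mem_cons.mpr ⟨k9_1514, List.forall_mem_cons.mpr ⟨k9_1515, List.forall_mem_cons.mpr ⟨k9_1516, List.forall_mem_cons.mpr ⟨k9_1517, List.forall_mem_cons.mpr ⟨k9_1518, List.forall_mem_cons.mpr ⟨k9_1519, List.forall_mem_cons.mpr ⟨k9_1520, List.forall_mem_cons.mpr ⟨k9_1521, List.forall_mem_cons.mpr ⟨k9_1522, List.forall_mem_cons.mpr ⟨k9_1523, List.forall_mem_cons.mpr ⟨k9_1524, List.forall_mem_cons.mpr ⟨k9_1525, List.forall_mem_cons.mpr ⟨k9_1526, List.forall_mem_cons.mpr ⟨k9_1527, List.forall_mem_cons.mpr ⟨k9_1528, List.forall_mem_cons.mpr ⟨k9_1529, List.forall_mem_cons.mpr ⟨k9_1530, List.forall_mem_cons.mpr ⟨k9_1531, List.forall_mem_cons.mpr ⟨k9_1532, List.forall_mem_cons.mpr ⟨k9_1533, List.forall_mem_cons.mpr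 ⟨k9_1534, List.forall_mem_cons.mpr ⟨k9_1535, List.forall_mem_nil _⟩⟩⟩⟩⟩⟩⟩⟩⟩⟩⟩⟩⟩⟩⟩⟩⟩⟩⟩⟩⟩⟩⟩⟩⟩⟩⟩⟩⟩⟩⟩⟩⟩⟩⟩⟩⟩⟩⟩⟩⟩⟩⟩⟩⟩⟩⟩⟩⟩⟩⟩⟩⟩⟩⟩⟩⟩⟩⟩⟩⟩⟩⟩⟩

end Pool.Agent.ICyc.Flag
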