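import Pool.Agent.Lib.MP_131fce_co.Flag.T9

/-!
# Check of the graphs on `9` vertices, part 25
-/

set_option autoImplicit false
set_option maxRecDepth 100000

namespace Pool.Agent.ICyc.Flag

def rk9_24 : List ℕ :=
  [0x7800680182018401060181003000500008, 0xb8014600b0014101420105008800900028, 
    0xcc0130013000c400c80111012200040008, 0xac015200a4015000a80112014100880004, 
    0xe3011c0114011800e000a100c201040108, 0xcc0131013200c800c80130010300440084, 
    0xcc0131013200c400c80111012200440088, 0xc60138013800c200c400c4011801210002, 
    0xb9014600b8014201440144009800a10102, 0x7c007c01830181018101820182004c0070, 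
    0xa2014400a80150002a0054008a01140000, 0xe1010c01140118006200a200c2001c0100, 
    0x9c016100940098016001220142000c0080, 0xaa015400a2015000a80114008a01440000, 
    0xf1010e0106010a010c00b000d000e00100, 0x6900710182018400860106003800580180, 
    0xb8010700380141014201440088009000a0, 0xb4014300b0014801480034010a00840080, 
    0xcc0132012300c8008c0130011100c00044, 0xcc0132013200c400c80111012100c0000c, 
    0xcc0132013100c400c801120122008c0040, 0xb9014600b1014201440106009800a80140, 
    0x7800780184018401810182006000080010, 0x7800780186018201840181005000600008, 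
    0xc70138013800c100c200c4010801100120, 0x7800780185018401820182006000180040, 
    0x740074018a018801880070018100400004, 0xcb0134013400c800c8013000c201040100, 
    0x7800780185018601810182006000280050, 0x6c006c0192019100680190018200440020, 
    0x740074018a018a01880070018100600004, 0xd3012c012c00d2012800d000c101200104, 
    0xaa015400aa015400a8015000a201440000, 0xd90126012600d80122012400c800d00100, 
    0x7900790186018601820184006800700180, 0x36003a003c01c001c000c101410181000e, 
    0xcc01130123004c008c0130013000c000c0, 0xe2011c0115011900e000a200c2010c0060, 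
    0xe2011c011c011900e000e000c201050022, 0x9e0161009a009c01600160012101410086, 
    0x7800780186018601810181006000600018, 0x7800780186018301840184005800600020, 
    0xc70138013800c300c400c4011801200120, 0x7400740189018a01830064018800300050, 
    0x7400740189018a018a0070018100300044, 0x740074018a018a01890070018200640010, 
    0xcd0132013200cc00c90130012200c40110, 0x720072018c018c018c0070007001810002, 
    0xcd0132013200cc00cc0130013000c10102, 0x6e006e01910191006c0190019001810062, 
    0x3c003c003c01c101c201c001c000100020, 0xe3011c011c011c00e200e000e001100100, 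
    0x730073018c018c018c0070007001800180, 0x3c003c003c01c201c201c101c000300008, 
    0xe3011c011c011c00e100e200e001080110, 0xaa015400aa015400aa015400a801500000, 
    0xe5011a011a011a00e400e4011800e00100, 0x750075018a018a018a0074018800700180, 
    0x3e003e003e01c101c101c101c001c00038, 0xf00107010b010d010e007000b000d000e0, 
    0x7800780186018601830185006800700018, 0xc70138013800c300c500c6011801280130, 
    0x3c003c003c01c101c101c201c2000c0030, 0x3c003c003c01c201c201c201c100380004]

theorem k9_1536 : ok9 0x7800680182018401060181003000500008 = true := by decide +kernel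

theorem k9_1537 : ok9 0xb8014600b0014101420105008800900028 = true := by decide +kernel

theorem k9_1538 : ok9 0xcc0130013000c400c80111012200040008 = true := by decide +kernel

theorem k9_1539 : ok9 0xac015200a4015000a80112014100880004 = true := by decide +kernel

theorem k9_1540 : ok9 0xe3011c0114011800e000a100c201040108 = true := by decide +kernel

theorem k9_1541 : ok9 0xcc0131013200c800c80130010300440084 = true := by decide +kernel

theorem k9_1542 : ok9 0xcc0131013200c400c80111012200440088 = true := by decide +kernel

theorem k9_1543 : ok9 0xc60138013800c200c400c4011801210002 = true := by decide +kernel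

theorem k9_1544 : ok9 0xb9014600b8014201440144009800a10102 = true := by decide +kernel

theorem k9_1545 : ok9 0x7c007c01830181018101820182004c0070 = true := by decide +kernel

theorem k9_1546 : ok9 0xa2014400a80150002a0054008a01140000 = true := by decide +kernel

theorem k9_1547 : ok9 0xe1010c01140118006200a200c2001c0100 = true := by decide +kernel

theorem k9_1548 : ok9 0x9c016100940098016001220142000c0080 = true := by decide +kernel

theorem k9_1549 : ok9 0xaa015400a2015000a80114008a01440000 = true := by decide +kernel

theorem k9_1550 : ok9 0xf1010e0106010a010c00b000d000e00100 = true := by decide +kernel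

theorem k9_1551 : ok9 0x6900710182018400860106003800580180 = true := by decide +kernel

theorem k9_1552 : ok9 0xb8010700380141014201440088009000a0 = true := by decide +kernel

theorem k9_1553 : ok9 0xb4014300b0014801480034010a00840080 = true := by decide +kernel

theorem k9_1554 : ok9 0xcc0132012300c8008c0130011100c00044 = true := by decide +kernel

theorem k9_1555 : ok9 0xcc0132013200c400c80111012100c0000c = true := by decide +kernel

theorem k9_1556 : ok9 0xcc0132013100c400c801120122008c0040 = true := by decide +kernel

theorem k9_1557 : ok9 0xb9014600b1014201440106009800a80140 = true := by decide +kernel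

theorem k9_1558 : ok9 0x7800780184018401810182006000080010 = true := by decide +kernel

theorem k9_1559 : ok9 0x7800780186018201840181005000600008 = true := by decide +kernel

theorem k9_1560 : ok9 0xc70138013800c100c200c4010801100120 = true := by decide +kernel

theorem k9_1561 : ok9 0x7800780185018401820182006000180040 = true := by decide +kernel

theorem k9_1562 : ok9 0x740074018a018801880070018100400004 = true := by decide +kernel

theorem k9_1563 : ok9 0xcb0134013400c800c8013000c201040100 = true := by decide +kernel

theorem k9_1564 : ok9 0x7800780185018601810182006000280050 = true := by decide +kernel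

theorem k9_1565 : ok9 0x6c006c0192019100680190018200440020 = true := by decide +kernel

theorem k9_1566 : ok9 0x740074018a018a01880070018100600004 = true := by decide +kernel

theorem k9_1567 : ok9 0xd3012c012c00d2012800d000c101200104 = true := by decide +kernel

theorem k9_1568 : ok9 0xaa015400aa015400a8015000a201440000 = true := by decide +kernel

theorem k9_1569 : ok9 0xd90126012600d80122012400c800d00100 = true := by decide +kernel

theorem k9_1570 : ok9 0x7900790186018601820184006800700180 = true := by decide +kernel

theorem k9_1571 : ok9 0x36003a003c01c001c000c101410181000e = true := by decide +kernel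

theorem k9_1572 : ok9 0xcc01130123004c008c0130013000c000c0 = true := by decide +kernel

theorem k9_1573 : ok9 0xe2011c0115011900e000a200c2010c0060 = true := by decide +kernel

theorem k9_1574 : ok9 0xe2011c011c011900e000e000c201050022 = true := by decide +kernel

theorem k9_1575 : ok9 0x9e0161009a009c01600160012101410086 = true := by decide +kernel

theorem k9_1576 : ok9 0x7800780186018601810181006000600018 = true := by decide +kernel

theorem k9_1577 : ok9 0x7800780186018301840184005800600020 = true := by decide +kernel

theorem k9_1578 : ok9 0xc70138013800c300c400c4011801200120 = true := by decide +kernel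

theorem k9_1579 : ok9 0x7400740189018a01830064018800300050 = true := by decide +kernel

theorem k9_1580 : ok9 0x7400740189018a018a0070018100300044 = true := by decide +kernel

theorem k9_1581 : ok9 0x740074018a018a01890070018200640010 = true := by decide +kernel

theorem k9_1582 : ok9 0xcd0132013200cc00c90130012200c40110 = true := by decide +kernel

theorem k9_1583 : ok9 0x720072018c018c018c0070007001810002 = true := by decide +kernel

theorem k9_1584 : ok9 0xcd0132013200cc00cc0130013000c10102 = true := by decide +kernel

theorem k9_1585 : ok9 0x6e006e01910191006c0190019001810062 = true := by decide +kernel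

theorem k9_1586 : ok9 0x3c003c003c01c101c201c001c000100020 = true := by decide +kernel

theorem k9_1587 : ok9 0xe3011c011c011c00e200e000e001100100 = true := by decide +kernel

theorem k9_1588 : ok9 0x730073018c018c018c0070007001800180 = true := by decide +kernel

theorem k9_1589 : ok9 0x3c003c003c01c201c201c101c000300008 = true := by decide +kernel

theorem k9_1590 : ok9 0xe3011c011c011c00e100e200e001080110 = true := by decide +kernel

theorem k9_1591 : ok9 0xaa015400aa015400aa015400a801500000 = true := by decide +kernel

theorem k9_1592 : ok9 0xe5011a011a011a00e400e4011800e00100 = true := by decide +kernel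

theorem k9_1593 : ok9 0x750075018a018a018a0074018800700180 = true := by decide +kernel

theorem k9_1594 : ok9 0x3e003e003e01c101c101c101c001c00038 = true := by decide +kernel

theorem k9_1595 : ok9 0xf00107010b010d010e007000b000d000e0 = true := by decide +kernel

theorem k9_1596 : ok9 0x7800780186018601830185006800700018 = true := by decide +kernel

theorem k9_1597 : ok9 0xc70138013800c300c500c6011801280130 = true := by decide +kernel

theorem k9_1598 : ok9 0x3c003c003c01c101c101c201c2000c0030 = true := by decide +kernel

theorem k9_1599 : ok9 0x3c003c003c01c201c201c201c100380004 = true := by decide +kernel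

theorem ck9_24 : ∀ H ∈ rk9_24, ok9 H = true :=
  List.forall_mem_cons.mpr ⟨k9_1536, List.forall_mem_cons.mpr ⟨k9_1537, List.forall_mem_cons.mpr ⟨k9_1538, List.forall_mem_cons.mpr ⟨k9_1539, List.forall_mem_cons.mpr ⟨k9_1540, List.forall_mem_cons.mpr ⟨k9_1541, List.forall_mem_cons.mpr ⟨k9_1542, List.forall_mem_cons.mpr ⟨k9_1543, List.forall_mem_cons.mpr ⟨k9_1544, List.forall_mem_cons.mpr ⟨k9_1545, List.forall_mem_cons.mpr ⟨k9_1546, List.forall_mem_cons.mpr ⟨k9_1547, List.forall_mem_cons.mpr ⟨k9_1548, List.forall_mem_cons.mpr ⟨k9_1549, List.forall_mem_cons.mpr ⟨k9_1550, List.forall_mem_cons.mpr ⟨k9_1551, List.forall_mem_cons.mpr ⟨k9_1552, List.forall_mem_cons.mpr ⟨k9_1553, List.forall_mem_cons.mpr ⟨k9_1554, List.forall_mem_cons.mpr ⟨k9_1555, List.forall_mem_cons.mpr ⟨k9_1556, List.forall_mem_cons.mpr ⟨k9_1557, List.forall_mem_cons.mpr ⟨k9_1558, List.forall_mem_cons.mpr ⟨k9_1559, List.forall_mem_cons.mpr ⟨k9_1560, List.forall_mem_cons.mpr ⟨k9_1561, List.forall_mem_cons.mpr ⟨k9_1562, List.forall_mem_cons.mpr ⟨k9_1563, List.forall_mem_cons.mpr ⟨k9_1564, List.forall_mem_cons.mpr ⟨k9_1565,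 List.forall_mem_cons.mpr ⟨k9_1566, List.forall_mem_cons.mpr ⟨k9_1567, List.forall_mem_cons.mpr ⟨k9_1568, List.forall_mem_cons.mpr ⟨k9_1569, List.forall_mem_cons.mpr ⟨k9_1570, List.forall_mem_cons.mpr ⟨k9_1571, List.forall_mem_cons.mpr ⟨k9_1572, List.forall_mem_cons.mpr ⟨k9_1573, List.forall_mem_cons.mpr ⟨k9_1574, List.forall_mem_cons.mpr ⟨k9_1575, List.forall_mem_cons.mpr ⟨k9_1576, List.forall_mem_cons.mpr ⟨k9_1577, List.forall_mem_cons.mpr ⟨k9_1578, List.forall_mem_cons.mpr ⟨k9_1579, List.forall_mem_cons.mpr ⟨k9_1580, List.forall_mem_cons.mpr ⟨k9_1581, List.forall_mem_cons.mpr ⟨k9_1582, List.forall_mem_cons.mpr ⟨k9_1583, List.forall_mem_cons.mpr ⟨k9_1584, List.forall_mem_cons.mpr ⟨k9_1585, List.forall_mem_cons.mpr ⟨k9_1586, List.forall_mem_cons.mpr ⟨k9_1587, List.forall_mem_cons.mpr ⟨k9_1588, List.forall_mem_cons.mpr ⟨k9_1589, List.forall_mem_cons.mpr ⟨k9_1590, List.forall_mem_cons.mpr ⟨k9_1591, List.forall_mem_cons.mpr ⟨k9_1592, List.forall_mem_cons.mpr ⟨k9_1593, List.forall_mem_cons.mpr ⟨k9_1594, List.forall_mem_cons.mpr ⟨k9_1595, List.forall_mem_cons.mpr ⟨k9_1596, List.forall_mem_cons.mpr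 ⟨k9_1597, List.forall_mem_cons.mpr ⟨k9_1598, List.forall_mem_cons.mpr ⟨k9_1599, List.forall_mem_nil _⟩⟩⟩⟩⟩⟩⟩⟩⟩⟩⟩⟩⟩⟩⟩⟩⟩⟩⟩⟩⟩⟩⟩⟩⟩⟩⟩⟩⟩⟩⟩⟩⟩⟩⟩⟩⟩⟩⟩⟩⟩⟩⟩⟩⟩⟩⟩⟩⟩⟩⟩⟩⟩⟩⟩⟩⟩⟩⟩⟩⟩⟩⟩⟩

end Pool.Agent.ICyc.Flag
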