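import Pool.Agent.Lib.MP_131fce_co.Flag.T9

/-!
# Check of the graphs on `9` vertices, part 26
-/

set_option autoImplicit false
set_option maxRecDepth 100000

namespace Pool.Agent.ICyc.Flag

def rk9_25 : List ℕ :=
  [0xe3011c011c011c00e200e200e101180104, 0x730073018c018c018c0071007201840188, 
    0xaa015400aa015400aa015400aa01540000, 0xf1010e010e010e010e00f000f000f00100, 
    0x7900790186018601860186007800780180, 0x3d003d003d01c201c201c201c2003c01c0, 
    0x1f001f001f001f01e001e001e001e001e0, 0x90014000a0005001200004000800010002, 
    0xc801100120005000a00104000800010002, 0xcc01100120005000a00101010200040008, 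
    0x5400680180009001200081010200040008, 0x5400680180009001200084010800010002, 
    0x72004c018001040108009000a001010002, 0x6800700184018000880110004000010002, 
    0x7400680182018001080090010100400004, 0x55006a0180009001200084010800810102, 
    0x6a00740181018000880110008201040040, 0x7400780181018201800084010800200040, 
    0x84014000a0005000280014010800010002, 0xc201100120004400880014002801010002, 
    0xa401480090011000600081010200040008, 0xa801500084010400880110006000010002, 
    0xe2011801040108008400a0005001010002, 0x2a005400a0014000880110008101010006, 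
    0x54006801810090012000820102000c0040, 0xc801220114009000600104004800810002, 
    0xc201140128005000a00044008801010002, 0xb801410086010201040101005000600088, 
    0x6800700184018200880110004100200004, 0xb8014200a4014101040102005000880020, 
    0xaa01540081010100880110008201040060, 0x6400680190019000600084010800010002, 
    0xca0130013000c400c00104002801010002, 0x65006a0190019000600084010800810102, 
    0x7200740188018801810060008201040010, 0x90014000a0005001200005000a00040008, 
    0xe001080110010400480090002200050002, 0xf001010102010401080014002800410082, 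
    0xe001060108011000280050008100800004, 0xf001090102010401080090002200440080, 
    0x540068018000900120008101020005000a, 0x70002c0103018001080090008200440040, 
    0x6800700181018000820104000a00140040, 0x940128003200c001400084010800410002, 
    0xa801120034014000c00104004800810002, 0xac01110032014000c00102010100480084, 
    0xa801140038014200c00140008100200004, 0xb4010a00380141014000c0010200840020, 
    0xc8012401110090006001020082000c0040, 0xd00128012200c001040084001800410002, 
    0xc40128013000c000480090010200050002, 0xb8014200a401400104010100500081000a, 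
    0xb4014800920109014000a0010200440020, 0xa8015000a1014200840104001800200040, 
    0xb8014400b00141014001020082000c0020, 0xc60128013000c000480090010101000004, 
    0xa4014800940118006000a0014000010002, 0xd20124010c00980120006000c001010002, 
    0xd20124012800d001200044008801010002, 0x34005800a1014201800084010800200040, 
    0xc5012801180092006000c0010200240100, 0xb201440098010c0141006000a001000010, 
    0xa2014800a4015000280090004201040000, 0xd10122012400c801080030004200840100]

theorem k9_1600 : ok9 0xe3011c011c011c00e200e200e101180104 = true := by decide +kernel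

theorem k9_1601 : ok9 0x730073018c018c018c0071007201840188 = true := by decide +kernel

theorem k9_1602 : ok9 0xaa015400aa015400aa015400aa01540000 = true := by decide +kernel

theorem k9_1603 : ok9 0xf1010e010e010e010e00f000f000f00100 = true := by decide +kernel

theorem k9_1604 : ok9 0x7900790186018601860186007800780180 = true := by decide +kernel

theorem k9_1605 : ok9 0x3d003d003d01c201c201c201c2003c01c0 = true := by decide +kernel

theorem k9_1606 : ok9 0x1f001f001f001f01e001e001e001e001e0 = true := by decide +kernel

theorem k9_1607 : ok9 0x90014000a0005001200004000800010002 = true := by decide +kernel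

theorem k9_1608 : ok9 0xc801100120005000a00104000800010002 = true := by decide +kernel

theorem k9_1609 : ok9 0xcc01100120005000a00101010200040008 = true := by decide +kernel

theorem k9_1610 : ok9 0x5400680180009001200081010200040008 = true := by decide +kernel

theorem k9_1611 : ok9 0x5400680180009001200084010800010002 = true := by decide +kernel

theorem k9_1612 : ok9 0x72004c018001040108009000a001010002 = true := by decide +kernel

theorem k9_1613 : ok9 0x6800700184018000880110004000010002 = true := by decide +kernel

theorem k9_1614 : ok9 0x7400680182018001080090010100400004 = true := by decide +kernel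

theorem k9_1615 : ok9 0x55006a0180009001200084010800810102 = true := by decide +kernel

theorem k9_1616 : ok9 0x6a00740181018000880110008201040040 = true := by decide +kernel

theorem k9_1617 : ok9 0x7400780181018201800084010800200040 = true := by decide +kernel

theorem k9_1618 : ok9 0x84014000a0005000280014010800010002 = true := by decide +kernel

theorem k9_1619 : ok9 0xc201100120004400880014002801010002 = true := by decide +kernel

theorem k9_1620 : ok9 0xa401480090011000600081010200040008 = true := by decide +kernel

theorem k9_1621 : ok9 0xa801500084010400880110006000010002 = true := by decide +kernel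

theorem k9_1622 : ok9 0xe2011801040108008400a0005001010002 = true := by decide +kernel

theorem k9_1623 : ok9 0x2a005400a0014000880110008101010006 = true := by decide +kernel

theorem k9_1624 : ok9 0x54006801810090012000820102000c0040 = true := by decide +kernel

theorem k9_1625 : ok9 0xc801220114009000600104004800810002 = true := by decide +kernel

theorem k9_1626 : ok9 0xc201140128005000a00044008801010002 = true := by decide +kernel

theorem k9_1627 : ok9 0xb801410086010201040101005000600088 = true := by decide +kernel

theorem k9_1628 : ok9 0x6800700184018200880110004100200004 = true := by decide +kernel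

theorem k9_1629 : ok9 0xb8014200a4014101040102005000880020 = true := by decide +kernel

theorem k9_1630 : ok9 0xaa01540081010100880110008201040060 = true := by decide +kernel

theorem k9_1631 : ok9 0x6400680190019000600084010800010002 = true := by decide +kernel

theorem k9_1632 : ok9 0xca0130013000c400c00104002801010002 = true := by decide +kernel

theorem k9_1633 : ok9 0x65006a0190019000600084010800810102 = true := by decide +kernel

theorem k9_1634 : ok9 0x7200740188018801810060008201040010 = true := by decide +kernel

theorem k9_1635 : ok9 0x90014000a0005001200005000a00040008 = true := by decide +kernel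

theorem k9_1636 : ok9 0xe001080110010400480090002200050002 = true := by decide +kernel

theorem k9_1637 : ok9 0xf001010102010401080014002800410082 = true := by decide +kernel

theorem k9_1638 : ok9 0xe001060108011000280050008100800004 = true := by decide +kernel

theorem k9_1639 : ok9 0xf001090102010401080090002200440080 = true := by decide +kernel

theorem k9_1640 : ok9 0x540068018000900120008101020005000a = true := by decide +kernel

theorem k9_1641 : ok9 0x70002c0103018001080090008200440040 = true := by decide +kernel

theorem k9_1642 : ok9 0x6800700181018000820104000a00140040 = true := by decide +kernel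

theorem k9_1643 : ok9 0x940128003200c001400084010800410002 = true := by decide +kernel

theorem k9_1644 : ok9 0xa801120034014000c00104004800810002 = true := by decide +kernel

theorem k9_1645 : ok9 0xac01110032014000c00102010100480084 = true := by decide +kernel

theorem k9_1646 : ok9 0xa801140038014200c00140008100200004 = true := by decide +kernel

theorem k9_1647 : ok9 0xb4010a00380141014000c0010200840020 = true := by decide +kernel

theorem k9_1648 : ok9 0xc8012401110090006001020082000c0040 = true := by decide +kernel

theorem k9_1649 : ok9 0xd00128012200c001040084001800410002 = true := by decide +kernel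

theorem k9_1650 : ok9 0xc40128013000c000480090010200050002 = true := by decide +kernel

theorem k9_1651 : ok9 0xb8014200a401400104010100500081000a = true := by decide +kernel

theorem k9_1652 : ok9 0xb4014800920109014000a0010200440020 = true := by decide +kernel

theorem k9_1653 : ok9 0xa8015000a1014200840104001800200040 = true := by decide +kernel

theorem k9_1654 : ok9 0xb8014400b00141014001020082000c0020 = true := by decide +kernel

theorem k9_1655 : ok9 0xc60128013000c000480090010101000004 = true := by decide +kernel

theorem k9_1656 : ok9 0xa4014800940118006000a0014000010002 = true := by decide +kernel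

theorem k9_1657 : ok9 0xd20124010c00980120006000c001010002 = true := by decide +kernel

theorem k9_1658 : ok9 0xd20124012800d001200044008801010002 = true := by decide +kernel

theorem k9_1659 : ok9 0x34005800a1014201800084010800200040 = true := by decide +kernel

theorem k9_1660 : ok9 0xc5012801180092006000c0010200240100 = true := by decide +kernel

theorem k9_1661 : ok9 0xb201440098010c0141006000a001000010 = true := by decide +kernel

theorem k9_1662 : ok9 0xa2014800a4015000280090004201040000 = true := by decide +kernel

theorem k9_1663 : ok9 0xd10122012400c801080030004200840100 = true := by decide +kernel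

theorem ck9_25 : ∀ H ∈ rk9_25, ok9 H = true :=
  List.forall_mem_cons.mpr ⟨k9_1600, List.forall_mem_cons.mpr ⟨k9_1601, List.forall_mem_cons.mpr ⟨k9_1602, List.forall_mem_cons.mpr ⟨k9_1603, List.forall_mem_cons.mpr ⟨k9_1604, List.forall_mem_cons.mpr ⟨k9_1605, List.forall_mem_cons.mpr ⟨k9_1606, List.forall_mem_cons.mpr ⟨k9_1607, List.forall_mem_cons.mpr ⟨k9_1608, List.forall_mem_cons.mpr ⟨k9_1609, List.forall_mem_cons.mpr ⟨k9_1610, List.forall_mem_cons.mpr ⟨k9_1611, List.forall_mem_cons.mpr ⟨k9_1612, List.forall_mem_cons.mpr ⟨k9_1613, List.forall_mem_cons.mpr ⟨k9_1614, List.forall_mem_cons.mpr ⟨k9_1615, List.forall_mem_cons.mpr ⟨k9_1616, List.forall_mem_cons.mpr ⟨k9_1617, List.forall_mem_cons.mpr ⟨k9_1618, List.forall_mem_cons.mpr ⟨k9_1619, List.forall_mem_cons.mpr ⟨k9_1620, List.forall_mem_cons.mpr ⟨k9_1621, List.forall_mem_cons.mpr ⟨k9_1622, List.forall_mem_cons.mpr ⟨k9_1623, List.forall_mem_cons.mpr ⟨k9_1624, List.forall_mem_cons.mpr ⟨k9_1625, List.forall_mem_cons.mpr ⟨k9_1626, List.forall_mem_cons.mpr ⟨k9_1627, List.forall_mem_cons.mpr ⟨k9_1628, List.forall_mem_cons.mpr ⟨k9_1629, List.forall_mem_cons.mpr ⟨k9_1630,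 List.forall_mem_cons.mpr ⟨k9_1631, List.forall_mem_cons.mpr ⟨k9_1632, List.forall_mem_cons.mpr ⟨k9_1633, List.forall_mem_cons.mpr ⟨k9_1634, List.forall_mem_cons.mpr ⟨k9_1635, List.forall_mem_cons.mpr ⟨k9_1636, List.forall_mem_cons.mpr ⟨k9_1637, List.forall_mem_cons.mpr ⟨k9_1638, List.forall_mem_cons.mpr ⟨k9_1639, List.forall_mem_cons.mpr ⟨k9_1640, List.forall_mem_cons.mpr ⟨k9_1641, List.forall_mem_cons.mpr ⟨k9_1642, List.forall_mem_cons.mpr ⟨k9_1643, List.forall_mem_cons.mpr ⟨k9_1644, List.forall_mem_cons.mpr ⟨k9_1645, List.forall_mem_cons.mpr ⟨k9_1646, List.forall_mem_cons.mpr ⟨k9_1647, List.forall_mem_cons.mpr ⟨k9_1648, List.forall_mem_cons.mpr ⟨k9_1649, List.forall_mem_cons.mpr ⟨k9_1650, List.forall_mem_cons.mpr ⟨k9_1651, List.forall_mem_cons.mpr ⟨k9_1652, List.forall_mem_cons.mpr ⟨k9_1653, List.forall_mem_cons.mpr ⟨k9_1654, List.forall_mem_cons.mpr ⟨k9_1655, List.forall_mem_cons.mpr ⟨k9_1656, List.forall_mem_cons.mpr ⟨k9_1657, List.forall_mem_cons.mpr ⟨k9_1658, List.forall_mem_cons.mpr ⟨k9_1659, List.forall_mem_cons.mpr ⟨k9_1660, List.forall_mem_cons.mpr ⟨k9_1661, List.forall_mem_cons.mpr ⟨k9_1662, List.forall_mem_cons.mpr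 ⟨k9_1663, List.forall_mem_nil _⟩⟩⟩⟩⟩⟩⟩⟩⟩⟩⟩⟩⟩⟩⟩⟩⟩⟩⟩⟩⟩⟩⟩⟩⟩⟩⟩⟩⟩⟩⟩⟩⟩⟩⟩⟩⟩⟩⟩⟩⟩⟩⟩⟩⟩⟩⟩⟩⟩⟩⟩⟩⟩⟩⟩⟩⟩⟩⟩⟩⟩⟩⟩⟩

end Pool.Agent.ICyc.Flag
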