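import Pool.Agent.Lib.MP_131fce_co.Flag.T9

/-!
# Check of the graphs on `9` vertices, part 27
-/

set_option autoImplicit false
set_option maxRecDepth 100000

namespace Pool.Agent.ICyc.Flag

def rk9_26 : List ℕ :=
  [0x7200700184018801810024004801000010, 0xb8014500a2014001020104008800500080, 
    0x3c005100a2014001800101010200440088, 0x3c00680092018101400180010200440020, 
    0x9a014400a800540120014000a001010002, 0x7200590184010c018000a0006001010082, 
    0x78005c018201060181018000a000600010, 0x7400780181018201800084010800210042, 
    0x7800780182018401810180002200440010, 0x3c005400a8014101820140018000100020, 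
    0x35005a00a40148018000a0014000810102, 0x3a005c00a201440181018000a001400010, 
    0x7200740189018801800060008201040040, 0xd0010c01060019012000a000c000410022, 
    0xa80112001c010600c10140006000a00010, 0xd00105010a001c0120006000a000410082, 
    0xc801120114000e00c10120006000a00010, 0xe0010c0111011200600081008200240048, 
    0xe001140118010a00c10060008200240010, 0x7000580184010a018100a0004200240010, 
    0x70006801840184010a0090006000110002, 0xca0130012400c800850120005001010012, 
    0xa80150008c011400a10142006000080010, 0xcc01300112008a00c40121011000600008, 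
    0x7000680182018401090090002200440010, 0x70006801820184010c0090003000410002, 
    0xca0130012400c1008c0110005001010022, 0xac015000a8014200860141011000300008, 
    0xc601190128005400a000c0012001010082, 0x7000700184018801820024004800110002, 
    0xcc0130013000c100c20101010200140028, 0xcc0130013000c800c20121010200140008, 
    0xa8015000a8015000a40144001800010002, 0xd20128012800d0012400c4001801010002, 
    0x8e0130003800c100c40140011001010022, 0x8e015000a8005400a20141012001100008, 
    0xc60130013000c800c80034010801010002, 0x6a00650190019000680114008801010082, 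
    0x6c00660190019000680112018100880004, 0x7100720188018801840064001800810102, 
    0x7400740188018801820062018100180004, 0xe1010a01140118006000a0004200840100, 
    0xcc0131013000c200c80110010200240080, 0x7200740189018801880070008201040040, 
    0xcc0121012200c4000b0110012000500090, 0x5800640182008a01050120009000600010, 
    0xcc011101220045008a01100120005000a0, 0x3400580086010a018100a0014000600010, 
    0xb1014800b0014201440086001800280100, 0xb0014800a20144010a0094002800500000, 
    0xe10118010a011400a200c4002800500100, 0x8e01610092009400680110012001400080, 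
    0xf005100a2005400a80110012001400180, 0x8e0121003800c200450140011001200090, 
    0x5c004701a0005801210122018000880090, 0xa5014800b00142004c0092011000280100, 
    0x74006601880181010a0051018000900028, 0x7400740188018101820043018000180028, 
    0x74003c010b0181018200c0018000500060, 0xaa0145009801140062014000a001100080, 
    0xcc0131012200c4008a0110012000500080, 0xa9015200a8015000a40144001800800100, 
    0x4d005601a0005800a10122018000880110, 0x6c00660191019000680112018000880040]

theorem k9_1664 : ok9 0x7200700184018801810024004801000010 = true := by decide +kernel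

theorem k9_1665 : ok9 0xb8014500a2014001020104008800500080 = true := by decide +kernel

theorem k9_1666 : ok9 0x3c005100a2014001800101010200440088 = true := by decide +kernel

theorem k9_1667 : ok9 0x3c00680092018101400180010200440020 = true := by decide +kernel

theorem k9_1668 : ok9 0x9a014400a800540120014000a001010002 = true := by decide +kernel

theorem k9_1669 : ok9 0x7200590184010c018000a0006001010082 = true := by decide +kernel

theorem k9_1670 : ok9 0x78005c018201060181018000a000600010 = true := by decide +kernel

theorem k9_1671 : ok9 0x7400780181018201800084010800210042 = true := by decide +kernel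

theorem k9_1672 : ok9 0x7800780182018401810180002200440010 = true := by decide +kernel

theorem k9_1673 : ok9 0x3c005400a8014101820140018000100020 = true := by decide +kernel

theorem k9_1674 : ok9 0x35005a00a40148018000a0014000810102 = true := by decide +kernel

theorem k9_1675 : ok9 0x3a005c00a201440181018000a001400010 = true := by decide +kernel

theorem k9_1676 : ok9 0x7200740189018801800060008201040040 = true := by decide +kernel

theorem k9_1677 : ok9 0xd0010c01060019012000a000c000410022 = true := by decide +kernel

theorem k9_1678 : ok9 0xa80112001c010600c10140006000a00010 = true := by decide +kernel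

theorem k9_1679 : ok9 0xd00105010a001c0120006000a000410082 = true := by decide +kernel

theorem k9_1680 : ok9 0xc801120114000e00c10120006000a00010 = true := by decide +kernel

theorem k9_1681 : ok9 0xe0010c0111011200600081008200240048 = true := by decide +kernel

theorem k9_1682 : ok9 0xe001140118010a00c10060008200240010 = true := by decide +kernel

theorem k9_1683 : ok9 0x7000580184010a018100a0004200240010 = true := by decide +kernel

theorem k9_1684 : ok9 0x70006801840184010a0090006000110002 = true := by decide +kernel

theorem k9_1685 : ok9 0xca0130012400c800850120005001010012 = true := by decide +kernel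

theorem k9_1686 : ok9 0xa80150008c011400a10142006000080010 = true := by decide +kernel

theorem k9_1687 : ok9 0xcc01300112008a00c40121011000600008 = true := by decide +kernel

theorem k9_1688 : ok9 0x7000680182018401090090002200440010 = true := by decide +kernel

theorem k9_1689 : ok9 0x70006801820184010c0090003000410002 = true := by decide +kernel

theorem k9_1690 : ok9 0xca0130012400c1008c0110005001010022 = true := by decide +kernel

theorem k9_1691 : ok9 0xac015000a8014200860141011000300008 = true := by decide +kernel

theorem k9_1692 : ok9 0xc601190128005400a000c0012001010082 = true := by decide +kernel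

theorem k9_1693 : ok9 0x7000700184018801820024004800110002 = true := by decide +kernel

theorem k9_1694 : ok9 0xcc0130013000c100c20101010200140028 = true := by decide +kernel

theorem k9_1695 : ok9 0xcc0130013000c800c20121010200140008 = true := by decide +kernel

theorem k9_1696 : ok9 0xa8015000a8015000a40144001800010002 = true := by decide +kernel

theorem k9_1697 : ok9 0xd20128012800d0012400c4001801010002 = true := by decide +kernel

theorem k9_1698 : ok9 0x8e0130003800c100c40140011001010022 = true := by decide +kernel

theorem k9_1699 : ok9 0x8e015000a8005400a20141012001100008 = true := by decide +kernel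

theorem k9_1700 : ok9 0xc60130013000c800c80034010801010002 = true := by decide +kernel

theorem k9_1701 : ok9 0x6a00650190019000680114008801010082 = true := by decide +kernel

theorem k9_1702 : ok9 0x6c00660190019000680112018100880004 = true := by decide +kernel

theorem k9_1703 : ok9 0x7100720188018801840064001800810102 = true := by decide +kernel

theorem k9_1704 : ok9 0x7400740188018801820062018100180004 = true := by decide +kernel

theorem k9_1705 : ok9 0xe1010a01140118006000a0004200840100 = true := by decide +kernel

theorem k9_1706 : ok9 0xcc0131013000c200c80110010200240080 = true := by decide +kernel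

theorem k9_1707 : ok9 0x7200740189018801880070008201040040 = true := by decide +kernel

theorem k9_1708 : ok9 0xcc0121012200c4000b0110012000500090 = true := by decide +kernel

theorem k9_1709 : ok9 0x5800640182008a01050120009000600010 = true := by decide +kernel

theorem k9_1710 : ok9 0xcc011101220045008a01100120005000a0 = true := by decide +kernel

theorem k9_1711 : ok9 0x3400580086010a018100a0014000600010 = true := by decide +kernel

theorem k9_1712 : ok9 0xb1014800b0014201440086001800280100 = true := by decide +kernel

theorem k9_1713 : ok9 0xb0014800a20144010a0094002800500000 = true := by decide +kernel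

theorem k9_1714 : ok9 0xe10118010a011400a200c4002800500100 = true := by decide +kernel

theorem k9_1715 : ok9 0x8e01610092009400680110012001400080 = true := by decide +kernel

theorem k9_1716 : ok9 0xf005100a2005400a80110012001400180 = true := by decide +kernel

theorem k9_1717 : ok9 0x8e0121003800c200450140011001200090 = true := by decide +kernel

theorem k9_1718 : ok9 0x5c004701a0005801210122018000880090 = true := by decide +kernel

theorem k9_1719 : ok9 0xa5014800b00142004c0092011000280100 = true := by decide +kernel

theorem k9_1720 : ok9 0x74006601880181010a0051018000900028 = true := by decide +kernel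

theorem k9_1721 : ok9 0x7400740188018101820043018000180028 = true := by decide +kernel

theorem k9_1722 : ok9 0x74003c010b0181018200c0018000500060 = true := by decide +kernel

theorem k9_1723 : ok9 0xaa0145009801140062014000a001100080 = true := by decide +kernel

theorem k9_1724 : ok9 0xcc0131012200c4008a0110012000500080 = true := by decide +kernel

theorem k9_1725 : ok9 0xa9015200a8015000a40144001800800100 = true := by decide +kernel

theorem k9_1726 : ok9 0x4d005601a0005800a10122018000880110 = true := by decide +kernel

theorem k9_1727 : ok9 0x6c00660191019000680112018000880040 = true := by decide +kernel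

theorem ck9_26 : ∀ H ∈ rk9_26, ok9 H = true :=
  List.forall_mem_cons.mpr ⟨k9_1664, List.forall_mem_cons.mpr ⟨k9_1665, List.forall_mem_cons.mpr ⟨k9_1666, List.forall_mem_cons.mpr ⟨k9_1667, List.forall_mem_cons.mpr ⟨k9_1668, List.forall_mem_cons.mpr ⟨k9_1669, List.forall_mem_cons.mpr ⟨k9_1670, List.forall_mem_cons.mpr ⟨k9_1671, List.forall_mem_cons.mpr ⟨k9_1672, List.forall_mem_cons.mpr ⟨k9_1673, List.forall_mem_cons.mpr ⟨k9_1674, List.forall_mem_cons.mpr ⟨k9_1675, List.forall_mem_cons.mpr ⟨k9_1676, List.forall_mem_cons.mpr ⟨k9_1677, List.forall_mem_cons.mpr ⟨k9_1678, List.forall_mem_cons.mpr ⟨k9_1679, List.forall_mem_cons.mpr ⟨k9_1680, List.forall_mem_cons.mpr ⟨k9_1681, List.forall_mem_cons.mpr ⟨k9_1682, List.forall_mem_cons.mpr ⟨k9_1683, List.forall_mem_cons.mpr ⟨k9_1684, List.forall_mem_cons.mpr ⟨k9_1685, List.forall_mem_cons.mpr ⟨k9_1686, List.forall_mem_cons.mpr ⟨k9_1687, List.forall_mem_cons.mpr ⟨k9_1688, List.forall_mem_cons.mpr ⟨k9_1689, List.forall_mem_cons.mpr ⟨k9_1690, List.forall_mem_cons.mpr ⟨k9_1691, List.forall_mem_cons.mpr ⟨k9_1692, List.forall_mem_cons.mpr ⟨k9_1693, List.forall_mem_cons.mpr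 ⟨k9_1694, List.forall_mem_cons.mpr ⟨k9_1695, List.forall_mem_cons.mpr ⟨k9_1696, List.forall_mem_cons.mpr ⟨k9_1697, List.forall_mem_cons.mpr ⟨k9_1698, List.forall_mem_cons.mpr ⟨k9_1699, List.forall_mem_cons.mpr ⟨k9_1700, List.forall_mem_cons.mpr ⟨k9_1701, List.forall_mem_cons.mpr ⟨k9_1702, List.forall_mem_cons.mpr ⟨k9_1703, List.forall_mem_cons.mpr ⟨k9_1704, List.forall_mem_cons.mpr ⟨k9_1705, List.forall_mem_cons.mpr ⟨k9_1706, List.forall_mem_cons.mpr ⟨k9_1707, List.forall_mem_cons.mpr ⟨k9_1708, List.forall_mem_cons.mpr ⟨k9_1709, List.forall_mem_cons.mpr ⟨k9_1710, List.forall_mem_cons.mpr ⟨k9_1711, List.forall_mem_cons.mpr ⟨k9_1712, List.forall_mem_cons.mpr ⟨k9_1713, List.forall_mem_cons.mpr ⟨k9_1714, List.forall_mem_cons.mpr ⟨k9_1715, List.forall_mem_cons.mpr ⟨k9_1716, List.forall_mem_cons.mpr ⟨k9_1717, List.forall_mem_cons.mpr ⟨k9_1718, List.forall_mem_cons.mpr ⟨k9_1719, List.forall_mem_cons.mpr ⟨k9_1720, List.forall_mem_cons.mpr ⟨k9_1721, List.forall_mem_cons.mpr ⟨k9_1722, List.forall_mem_cons.mpr ⟨k9_1723, List.forall_mem_cons.mpr ⟨k9_1724, List.forall_mem_cons.mpr ⟨k9_1725, List.forall_mem_cons.mpr ⟨k9_1726,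 List.forall_mem_cons.mpr ⟨k9_1727, List.forall_mem_nil _⟩⟩⟩⟩⟩⟩⟩⟩⟩⟩⟩⟩⟩⟩⟩⟩⟩⟩⟩⟩⟩⟩⟩⟩⟩⟩⟩⟩⟩⟩⟩⟩⟩⟩⟩⟩⟩⟩⟩⟩⟩⟩⟩⟩⟩⟩⟩⟩⟩⟩⟩⟩⟩⟩⟩⟩⟩⟩⟩⟩⟩⟩⟩⟩

end Pool.Agent.ICyc.Flag
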