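import Pool.Agent.Lib.MP_131fce_co.Flag.T9

/-!
# Check of the graphs on `9` vertices, part 28
-/

set_option autoImplicit false
set_option maxRecDepth 100000

namespace Pool.Agent.ICyc.Flag

def rk9_27 : List ℕ :=
  [0x7400740189018801820062018000180040, 0x95012a003c00c1014200c0014000900120, 
    0x3c003c003301c001c00181018200440048, 0x3c0035003a01c001c00141018200440088, 
    0x3c003c003a01c101c001c0018200440020, 0x90014000a0005001200005000a0005000a, 
    0xe001180102010400810081002200440018, 0xcc0130013000c000c0010101020005000a, 
    0x81014000a0005000280014000a00050102, 0xa801500082010400880110002100410006, 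
    0xf00105010a0101010200440088005000a0, 0xa801500084010400810102006000090012, 
    0xd80124012200c001010102008100480014, 0xa401480091011200600081010200240048, 
    0x640068019001900060008101020005000a, 0xd20124012400c80109003000c001010012, 
    0xa201440098011800600060008101010006, 0xa8015000a2014400810101002200440018, 
    0x7400700182018801880030010100410006, 0xd80122012400c001010101004200840018, 
    0xa101420094011800600024004800810102, 0xc801240112009800600120008100410006, 
    0xd20124012100c8010c0030009001010042, 0x6800700182018400880110002100410006, 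
    0x7800700182018401810101002200440018, 0x6a00700184018400890110006001010012, 
    0x6a007001840181008c0110005001010022, 0x7800740182018101810106008800480030, 
    0x6c007001810182008c0110011000210042, 0x7800780181018201840184001800210042, 
    0x310052008c010c01800060006000810102, 0xac014100920103004c01100110006000a0, 
    0xb2014c0091010c014000a000a001010042, 0x38005800a2014401810180002200440010, 
    0x6c007001820182008c0111011000600008, 0xa80150008a011400a00140002100410006, 
    0xc201140128005400a8005000a001010002, 0xca01210114009400680110006001010082, 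
    0xaa015400a8015000a00140008101010006, 0x6a007401810181008a0114008801100060, 
    0xd001280106009101200084004800410022, 0xa801440091011200600101008200240048, 
    0xd20124012800c1010c0050009001010022, 0x3400580085010a018000a0014000210042, 
    0x940128003800c2014100c0010200240010, 0xca0124011400910068011000c001010022, 
    0x6c00580182011200a40181011000600008, 0xa90152008c011400a00140006000810102, 
    0xac015200a1015000a00101010200840048, 0x710072018c018401880050006000810102, 
    0xe8011201050103008c0110005000a00060, 0xd80122012400c801050120005000810012, 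
    0xac014100940103004a01100140003000a0, 0xcc01110122005400a80110012000410082, 
    0x710038010c0184018200c2006000180100, 0x3c00660098018101420141018000900028, 
    0x6c00740181018200890112018000280050, 0xb8014300ac0141010601400050009000a0, 
    0x7800780186018101840180005000410022, 0x2d005600a8015000a10142018000880110, 
    0xb001440092010901410026008800480030, 0xe001180109011200a400c4001800210042, 
    0xb0014800a2014401030085002800500018, 0xc80130013000c400c2010500280011000a]

theorem k9_1728 : ok9 0x7400740189018801820062018000180040 = true := by decide +kernel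

theorem k9_1729 : ok9 0x95012a003c00c1014200c0014000900120 = true := by decide +kernel

theorem k9_1730 : ok9 0x3c003c003301c001c00181018200440048 = true := by decide +kernel

theorem k9_1731 : ok9 0x3c0035003a01c001c00141018200440088 = true := by decide +kernel

theorem k9_1732 : ok9 0x3c003c003a01c101c001c0018200440020 = true := by decide +kernel

theorem k9_1733 : ok9 0x90014000a0005001200005000a0005000a = true := by decide +kernel

theorem k9_1734 : ok9 0xe001180102010400810081002200440018 = true := by decide +kernel

theorem k9_1735 : ok9 0xcc0130013000c000c0010101020005000a = true := by decide +kernel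

theorem k9_1736 : ok9 0x81014000a0005000280014000a00050102 = true := by decide +kernel

theorem k9_1737 : ok9 0xa801500082010400880110002100410006 = true := by decide +kernel

theorem k9_1738 : ok9 0xf00105010a0101010200440088005000a0 = true := by decide +kernel

theorem k9_1739 : ok9 0xa801500084010400810102006000090012 = true := by decide +kernel

theorem k9_1740 : ok9 0xd80124012200c001010102008100480014 = true := by decide +kernel

theorem k9_1741 : ok9 0xa401480091011200600081010200240048 = true := by decide +kernel

theorem k9_1742 : ok9 0x640068019001900060008101020005000a = true := by decide +kernel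

theorem k9_1743 : ok9 0xd20124012400c80109003000c001010012 = true := by decide +kernel

theorem k9_1744 : ok9 0xa201440098011800600060008101010006 = true := by decide +kernel

theorem k9_1745 : ok9 0xa8015000a2014400810101002200440018 = true := by decide +kernel

theorem k9_1746 : ok9 0x7400700182018801880030010100410006 = true := by decide +kernel

theorem k9_1747 : ok9 0xd80122012400c001010101004200840018 = true := by decide +kernel

theorem k9_1748 : ok9 0xa101420094011800600024004800810102 = true := by decide +kernel

theorem k9_1749 : ok9 0xc801240112009800600120008100410006 = true := by decide +kernel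

theorem k9_1750 : ok9 0xd20124012100c8010c0030009001010042 = true := by decide +kernel

theorem k9_1751 : ok9 0x6800700182018400880110002100410006 = true := by decide +kernel

theorem k9_1752 : ok9 0x7800700182018401810101002200440018 = true := by decide +kernel

theorem k9_1753 : ok9 0x6a00700184018400890110006001010012 = true := by decide +kernel

theorem k9_1754 : ok9 0x6a007001840181008c0110005001010022 = true := by decide +kernel

theorem k9_1755 : ok9 0x7800740182018101810106008800480030 = true := by decide +kernel

theorem k9_1756 : ok9 0x6c007001810182008c0110011000210042 = true := by decide +kernel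

theorem k9_1757 : ok9 0x7800780181018201840184001800210042 = true := by decide +kernel

theorem k9_1758 : ok9 0x310052008c010c01800060006000810102 = true := by decide +kernel

theorem k9_1759 : ok9 0xac014100920103004c01100110006000a0 = true := by decide +kernel

theorem k9_1760 : ok9 0xb2014c0091010c014000a000a001010042 = true := by decide +kernel

theorem k9_1761 : ok9 0x38005800a2014401810180002200440010 = true := by decide +kernel

theorem k9_1762 : ok9 0x6c007001820182008c0111011000600008 = true := by decide +kernel

theorem k9_1763 : ok9 0xa80150008a011400a00140002100410006 = true := by decide +kernel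

theorem k9_1764 : ok9 0xc201140128005400a8005000a001010002 = true := by decide +kernel

theorem k9_1765 : ok9 0xca01210114009400680110006001010082 = true := by decide +kernel

theorem k9_1766 : ok9 0xaa015400a8015000a00140008101010006 = true := by decide +kernel

theorem k9_1767 : ok9 0x6a007401810181008a0114008801100060 = true := by decide +kernel

theorem k9_1768 : ok9 0xd001280106009101200084004800410022 = true := by decide +kernel

theorem k9_1769 : ok9 0xa801440091011200600101008200240048 = true := by decide +kernel

theorem k9_1770 : ok9 0xd20124012800c1010c0050009001010022 = true := by decide +kernel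

theorem k9_1771 : ok9 0x3400580085010a018000a0014000210042 = true := by decide +kernel

theorem k9_1772 : ok9 0x940128003800c2014100c0010200240010 = true := by decide +kernel

theorem k9_1773 : ok9 0xca0124011400910068011000c001010022 = true := by decide +kernel

theorem k9_1774 : ok9 0x6c00580182011200a40181011000600008 = true := by decide +kernel

theorem k9_1775 : ok9 0xa90152008c011400a00140006000810102 = true := by decide +kernel

theorem k9_1776 : ok9 0xac015200a1015000a00101010200840048 = true := by decide +kernel

theorem k9_1777 : ok9 0x710072018c018401880050006000810102 = true := by decide +kernel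

theorem k9_1778 : ok9 0xe8011201050103008c0110005000a00060 = true := by decide +kernel

theorem k9_1779 : ok9 0xd80122012400c801050120005000810012 = true := by decide +kernel

theorem k9_1780 : ok9 0xac014100940103004a01100140003000a0 = true := by decide +kernel

theorem k9_1781 : ok9 0xcc01110122005400a80110012000410082 = true := by decide +kernel

theorem k9_1782 : ok9 0x710038010c0184018200c2006000180100 = true := by decide +kernel

theorem k9_1783 : ok9 0x3c00660098018101420141018000900028 = true := by decide +kernel

theorem k9_1784 : ok9 0x6c00740181018200890112018000280050 = true := by decide +kernel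

theorem k9_1785 : ok9 0xb8014300ac0141010601400050009000a0 = true := by decide +kernel

theorem k9_1786 : ok9 0x7800780186018101840180005000410022 = true := by decide +kernel

theorem k9_1787 : ok9 0x2d005600a8015000a10142018000880110 = true := by decide +kernel

theorem k9_1788 : ok9 0xb001440092010901410026008800480030 = true := by decide +kernel

theorem k9_1789 : ok9 0xe001180109011200a400c4001800210042 = true := by decide +kernel

theorem k9_1790 : ok9 0xb0014800a2014401030085002800500018 = true := by decide +kernel

theorem k9_1791 : ok9 0xc80130013000c400c2010500280011000a = true := by decide +kernel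

theorem ck9_27 : ∀ H ∈ rk9_27, ok9 H = true :=
  List.forall_mem_cons.mpr ⟨k9_1728, List.forall_mem_cons.mpr ⟨k9_1729, List.forall_mem_cons.mpr ⟨k9_1730, List.forall_mem_cons.mpr ⟨k9_1731, List.forall_mem_cons.mpr ⟨k9_1732, List.forall_mem_cons.mpr ⟨k9_1733, List.forall_mem_cons.mpr ⟨k9_1734, List.forall_mem_cons.mpr ⟨k9_1735, List.forall_mem_cons.mpr ⟨k9_1736, List.forall_mem_cons.mpr ⟨k9_1737, List.forall_mem_cons.mpr ⟨k9_1738, List.forall_mem_cons.mpr ⟨k9_1739, List.forall_mem_cons.mpr ⟨k9_1740, List.forall_mem_cons.mpr ⟨k9_1741, List.forall_mem_cons.mpr ⟨k9_1742, List.forall_mem_cons.mpr ⟨k9_1743, List.forall_mem_cons.mpr ⟨k9_1744, List.forall_mem_cons.mpr ⟨k9_1745, List.forall_mem_cons.mpr ⟨k9_1746, List.forall_mem_cons.mpr ⟨k9_1747, List.forall_mem_cons.mpr ⟨k9_1748, List.forall_mem_cons.mpr ⟨k9_1749, List.forall_mem_cons.mpr ⟨k9_1750, List.forall_mem_cons.mpr ⟨k9_1751, List.forall_mem_cons.mpr ⟨k9_1752, List.forall_mem_cons.mpr ⟨k9_1753, List.forall_mem_cons.mpr ⟨k9_1754, List.forall_mem_cons.mpr ⟨k9_1755, List.forall_mem_cons.mpr ⟨k9_1756, List.forall_mem_cons.mpr ⟨k9_1757, List.forall_mem_cons.mpr ⟨k9_1758,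 List.forall_mem_cons.mpr ⟨k9_1759, List.forall_mem_cons.mpr ⟨k9_1760, List.forall_mem_cons.mpr ⟨k9_1761, List.forall_mem_cons.mpr ⟨k9_1762, List.forall_mem_cons.mpr ⟨k9_1763, List.forall_mem_cons.mpr ⟨k9_1764, List.forall_mem_cons.mpr ⟨k9_1765, List.forall_mem_cons.mpr ⟨k9_1766, List.forall_mem_cons.mpr ⟨k9_1767, List.forall_mem_cons.mpr ⟨k9_1768, List.forall_mem_cons.mpr ⟨k9_1769, List.forall_mem_cons.mpr ⟨k9_1770, List.forall_mem_cons.mpr ⟨k9_1771, List.forall_mem_cons.mpr ⟨k9_1772, List.forall_mem_cons.mpr ⟨k9_1773, List.forall_mem_cons.mpr ⟨k9_1774, List.forall_mem_cons.mpr ⟨k9_1775, List.forall_mem_cons.mpr ⟨k9_1776, List.forall_mem_cons.mpr ⟨k9_1777, List.forall_mem_cons.mpr ⟨k9_1778, List.forall_mem_cons.mpr ⟨k9_1779, List.forall_mem_cons.mpr ⟨k9_1780, List.forall_mem_cons.mpr ⟨k9_1781, List.forall_mem_cons.mpr ⟨k9_1782, List.forall_mem_cons.mpr ⟨k9_1783, List.forall_mem_cons.mpr ⟨k9_1784, List.forall_mem_cons.mpr ⟨k9_1785, List.forall_mem_cons.mpr ⟨k9_1786, List.forall_mem_cons.mpr ⟨k9_1787, List.forall_mem_cons.mpr ⟨k9_1788, List.forall_mem_cons.mpr ⟨k9_1789, List.forall_mem_cons.mpr ⟨k9_1790, List.forall_mem_cons.mpr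 ⟨k9_1791, List.forall_mem_nil _⟩⟩⟩⟩⟩⟩⟩⟩⟩⟩⟩⟩⟩⟩⟩⟩⟩⟩⟩⟩⟩⟩⟩⟩⟩⟩⟩⟩⟩⟩⟩⟩⟩⟩⟩⟩⟩⟩⟩⟩⟩⟩⟩⟩⟩⟩⟩⟩⟩⟩⟩⟩⟩⟩⟩⟩⟩⟩⟩⟩⟩⟩⟩⟩

end Pool.Agent.ICyc.Flag
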