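import Pool.Agent.Lib.MP_131fce_co.Flag.T9

/-!
# Check of the graphs on `9` vertices, part 29
-/

set_option autoImplicit false
set_option maxRecDepth 100000

namespace Pool.Agent.ICyc.Flag

def rk9_28 : List ℕ :=
  [0xa80150008c011400a10142006000090012, 0xb8014400a8014201050141009200240018, 
    0x38005200a4014101810106004800880030, 0xe0010c0111011200640083009000280048, 
    0x580038012200c401810184002800410012, 0x7000640188018801060062009100180004, 
    0xd20128012400d001210085004a01040018, 0x2c005400a8015000a20142018100180004, 
    0xd20124010c00980121006200c101080014, 0xe101160118010a00c10064008800a00110, 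
    0x2c005400a1014200890112018000280050, 0x9a0160008c009401210141006201040018, 
    0x6800540182011100a20105008800500028, 0x940128003800c4014200c2012100180004, 
    0xc301300114008c00c80032006101080104, 0xb201490094010c014800b0006201040080, 
    0xb201450098010c0141006200a001080090, 0xaa01540089011100a20144008801100060, 
    0xb4014a00b0014101420085010800900028, 0xca0134013000c800c10124008801010012, 
    0xa9015200a8015000a40144001800810102, 0xb2014500b0014801480034008801010082, 
    0xac015100aa015000a40141011200440088, 0x7800780186018401810182006100480014, 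
    0x2d005600a8015000a80150018000810102, 0x2e005600a8015000a80150018101800004, 
    0x710072018c018c01800060006000810102, 0x2c005400a8015000a80150018200050002, 
    0xe2010c01180118006400e0009101010006, 0xe20114010c010c008a007000e001110002, 
    0x710072018c018c01880070006000810102, 0xd20124012400c80109003200c101080014, 
    0xca0130013000c400c8011100230104000c, 0xc30130013000c400c80015002a01040108, 
    0xb2014500b0014801480034008a01040080, 0xc3011c012c005100a200c000c001100120, 
    0x8e0131003600c800c80130014101400084, 0xcc0132013200c500c80111012000c00028, 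
    0xaa015400aa015400a1014100a001400018, 0x740036010b018801880070018100c00044, 
    0x7200710188018401840046003801090082, 0x7400740182018801880032018100490006, 
    0x2e005600a8015000a10141018001800018, 0x78007801850184018201820062001c0040, 
    0x6c006c0192019200690190018100600014, 0xa8015000a1014200850106001800280050, 
    0xa8015000a8015000a20144000900110006, 0xd40128012800d0012100c20103000c0014, 
    0xcc0130013000c400c8011101220005000a, 0x38005800a1014201840184001800210042, 
    0xd2010c01240058012100a100c201040018, 0xd20125012800d001210046008801080090, 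
    0xc301140128005400a8005100a201040108, 0x9a0124003400c80141012100c201040018, 
    0xc601180118001c00e000e0012101010006, 0x6a007101840184008a0114006801110082, 
    0x66007401880188008a0070018101110006, 0x7800780183018401840181003200440048, 
    0xaa015400a8015000a80150008101010006, 0xb4014900b20148014800b0010300440084, 
    0x740074018a018801880070018100410006, 0x8a0114002a005400a8015000a101410006, 
    0xaa0154008a011400a8015000a101410006, 0xe40119010a011200a400c4011800610082]

theorem k9_1792 : ok9 0xa80150008c011400a10142006000090012 = true := by decide +kernel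

theorem k9_1793 : ok9 0xb8014400a8014201050141009200240018 = true := by decide +kernel

theorem k9_1794 : ok9 0x38005200a4014101810106004800880030 = true := by decide +kernel

theorem k9_1795 : ok9 0xe0010c0111011200640083009000280048 = true := by decide +kernel

theorem k9_1796 : ok9 0x580038012200c401810184002800410012 = true := by decide +kernel

theorem k9_1797 : ok9 0x7000640188018801060062009100180004 = true := by decide +kernel

theorem k9_1798 : ok9 0xd20128012400d001210085004a01040018 = true := by decide +kernel

theorem k9_1799 : ok9 0x2c005400a8015000a20142018100180004 = true := by decide +kernel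

theorem k9_1800 : ok9 0xd20124010c00980121006200c101080014 = true := by decide +kernel

theorem k9_1801 : ok9 0xe101160118010a00c10064008800a00110 = true := by decide +kernel

theorem k9_1802 : ok9 0x2c005400a1014200890112018000280050 = true := by decide +kernel

theorem k9_1803 : ok9 0x9a0160008c009401210141006201040018 = true := by decide +kernel

theorem k9_1804 : ok9 0x6800540182011100a20105008800500028 = true := by decide +kernel

theorem k9_1805 : ok9 0x940128003800c4014200c2012100180004 = true := by decide +kernel

theorem k9_1806 : ok9 0xc301300114008c00c80032006101080104 = true := by decide +kernel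

theorem k9_1807 : ok9 0xb201490094010c014800b0006201040080 = true := by decide +kernel

theorem k9_1808 : ok9 0xb201450098010c0141006200a001080090 = true := by decide +kernel

theorem k9_1809 : ok9 0xaa01540089011100a20144008801100060 = true := by decide +kernel

theorem k9_1810 : ok9 0xb4014a00b0014101420085010800900028 = true := by decide +kernel

theorem k9_1811 : ok9 0xca0134013000c800c10124008801010012 = true := by decide +kernel

theorem k9_1812 : ok9 0xa9015200a8015000a40144001800810102 = true := by decide +kernel

theorem k9_1813 : ok9 0xb2014500b0014801480034008801010082 = true := by decide +kernel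

theorem k9_1814 : ok9 0xac015100aa015000a40141011200440088 = true := by decide +kernel

theorem k9_1815 : ok9 0x7800780186018401810182006100480014 = true := by decide +kernel

theorem k9_1816 : ok9 0x2d005600a8015000a80150018000810102 = true := by decide +kernel

theorem k9_1817 : ok9 0x2e005600a8015000a80150018101800004 = true := by decide +kernel

theorem k9_1818 : ok9 0x710072018c018c01800060006000810102 = true := by decide +kernel

theorem k9_1819 : ok9 0x2c005400a8015000a80150018200050002 = true := by decide +kernel

theorem k9_1820 : ok9 0xe2010c01180118006400e0009101010006 = true := by decide +kernel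

theorem k9_1821 : ok9 0xe20114010c010c008a007000e001110002 = true := by decide +kernel

theorem k9_1822 : ok9 0x710072018c018c01880070006000810102 = true := by decide +kernel

theorem k9_1823 : ok9 0xd20124012400c80109003200c101080014 = true := by decide +kernel

theorem k9_1824 : ok9 0xca0130013000c400c8011100230104000c = true := by decide +kernel

theorem k9_1825 : ok9 0xc30130013000c400c80015002a01040108 = true := by decide +kernel

theorem k9_1826 : ok9 0xb2014500b0014801480034008a01040080 = true := by decide +kernel

theorem k9_1827 : ok9 0xc3011c012c005100a200c000c001100120 = true := by decide +kernel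

theorem k9_1828 : ok9 0x8e0131003600c800c80130014101400084 = true := by decide +kernel

theorem k9_1829 : ok9 0xcc0132013200c500c80111012000c00028 = true := by decide +kernel

theorem k9_1830 : ok9 0xaa015400aa015400a1014100a001400018 = true := by decide +kernel

theorem k9_1831 : ok9 0x740036010b018801880070018100c00044 = true := by decide +kernel

theorem k9_1832 : ok9 0x7200710188018401840046003801090082 = true := by decide +kernel

theorem k9_1833 : ok9 0x7400740182018801880032018100490006 = true := by decide +kernel

theorem k9_1834 : ok9 0x2e005600a8015000a10141018001800018 = true := by decide +kernel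

theorem k9_1835 : ok9 0x78007801850184018201820062001c0040 = true := by decide +kernel

theorem k9_1836 : ok9 0x6c006c0192019200690190018100600014 = true := by decide +kernel

theorem k9_1837 : ok9 0xa8015000a1014200850106001800280050 = true := by decide +kernel

theorem k9_1838 : ok9 0xa8015000a8015000a20144000900110006 = true := by decide +kernel

theorem k9_1839 : ok9 0xd40128012800d0012100c20103000c0014 = true := by decide +kernel

theorem k9_1840 : ok9 0xcc0130013000c400c8011101220005000a = true := by decide +kernel

theorem k9_1841 : ok9 0x38005800a1014201840184001800210042 = true := by decide +kernel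

theorem k9_1842 : ok9 0xd2010c01240058012100a100c201040018 = true := by decide +kernel

theorem k9_1843 : ok9 0xd20125012800d001210046008801080090 = true := by decide +kernel

theorem k9_1844 : ok9 0xc301140128005400a8005100a201040108 = true := by decide +kernel

theorem k9_1845 : ok9 0x9a0124003400c80141012100c201040018 = true := by decide +kernel

theorem k9_1846 : ok9 0xc601180118001c00e000e0012101010006 = true := by decide +kernel

theorem k9_1847 : ok9 0x6a007101840184008a0114006801110082 = true := by decide +kernel

theorem k9_1848 : ok9 0x66007401880188008a0070018101110006 = true := by decide +kernel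

theorem k9_1849 : ok9 0x7800780183018401840181003200440048 = true := by decide +kernel

theorem k9_1850 : ok9 0xaa015400a8015000a80150008101010006 = true := by decide +kernel

theorem k9_1851 : ok9 0xb4014900b20148014800b0010300440084 = true := by decide +kernel

theorem k9_1852 : ok9 0x740074018a018801880070018100410006 = true := by decide +kernel

theorem k9_1853 : ok9 0x8a0114002a005400a8015000a101410006 = true := by decide +kernel

theorem k9_1854 : ok9 0xaa0154008a011400a8015000a101410006 = true := by decide +kernel

theorem k9_1855 : ok9 0xe40119010a011200a400c4011800610082 = true := by decide +kernel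

theorem ck9_28 : ∀ H ∈ rk9_28, ok9 H = true :=
  List.forall_mem_cons.mpr ⟨k9_1792, List.forall_mem_cons.mpr ⟨k9_1793, List.forall_mem_cons.mpr ⟨k9_1794, List.forall_mem_cons.mpr ⟨k9_1795, List.forall_mem_cons.mpr ⟨k9_1796, List.forall_mem_cons.mpr ⟨k9_1797, List.forall_mem_cons.mpr ⟨k9_1798, List.forall_mem_cons.mpr ⟨k9_1799, List.forall_mem_cons.mpr ⟨k9_1800, List.forall_mem_cons.mpr ⟨k9_1801, List.forall_mem_cons.mpr ⟨k9_1802, List.forall_mem_cons.mpr ⟨k9_1803, List.forall_mem_cons.mpr ⟨k9_1804, List.forall_mem_cons.mpr ⟨k9_1805, List.forall_mem_cons.mpr ⟨k9_1806, List.forall_mem_cons.mpr ⟨k9_1807, List.forall_mem_cons.mpr ⟨k9_1808, List.forall_mem_cons.mpr ⟨k9_1809, List.forall_mem_cons.mpr ⟨k9_1810, List.forall_mem_cons.mpr ⟨k9_1811, List.forall_mem_cons.mpr ⟨k9_1812, List.forall_mem_cons.mpr ⟨k9_1813, List.forall_mem_cons.mpr ⟨k9_1814, List.forall_mem_cons.mpr ⟨k9_1815, List.forall_mem_cons.mpr ⟨k9_1816, List.forall_mem_cons.mpr ⟨k9_1817, List.forall_mem_cons.mpr ⟨k9_1818, List.forall_mem_cons.mpr ⟨k9_1819, List.forall_mem_cons.mpr ⟨k9_1820, List.forall_mem_cons.mpr ⟨k9_1821, List.forall_mem_cons.mpr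 ⟨k9_1822, List.forall_mem_cons.mpr ⟨k9_1823, List.forall_mem_cons.mpr ⟨k9_1824, List.forall_mem_cons.mpr ⟨k9_1825, List.forall_mem_cons.mpr ⟨k9_1826, List.forall_mem_cons.mpr ⟨k9_1827, List.forall_mem_cons.mpr ⟨k9_1828, List.forall_mem_cons.mpr ⟨k9_1829, List.forall_mem_cons.mpr ⟨k9_1830, List.forall_mem_cons.mpr ⟨k9_1831, List.forall_mem_cons.mpr ⟨k9_1832, List.forall_mem_cons.mpr ⟨k9_1833, List.forall_mem_cons.mpr ⟨k9_1834, List.forall_mem_cons.mpr ⟨k9_1835, List.forall_mem_cons.mpr ⟨k9_1836, List.forall_mem_cons.mpr ⟨k9_1837, List.forall_mem_cons.mpr ⟨k9_1838, List.forall_mem_cons.mpr ⟨k9_1839, List.forall_mem_cons.mpr ⟨k9_1840, List.forall_mem_cons.mpr ⟨k9_1841, List.forall_mem_cons.mpr ⟨k9_1842, List.forall_mem_cons.mpr ⟨k9_1843, List.forall_mem_cons.mpr ⟨k9_1844, List.forall_mem_cons.mpr ⟨k9_1845, List.forall_mem_cons.mpr ⟨k9_1846, List.forall_mem_cons.mpr ⟨k9_1847, List.forall_mem_cons.mpr ⟨k9_1848, List.forall_mem_cons.mpr ⟨k9_1849, List.forall_mem_cons.mpr ⟨k9_1850, List.forall_mem_cons.mpr ⟨k9_1851, List.forall_mem_cons.mpr ⟨k9_1852, List.forall_mem_cons.mpr ⟨k9_1853, List.forall_mem_cons.mpr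 ⟨k9_1854, List.forall_mem_cons.mpr ⟨k9_1855, List.forall_mem_nil _⟩⟩⟩⟩⟩⟩⟩⟩⟩⟩⟩⟩⟩⟩⟩⟩⟩⟩⟩⟩⟩⟩⟩⟩⟩⟩⟩⟩⟩⟩⟩⟩⟩⟩⟩⟩⟩⟩⟩⟩⟩⟩⟩⟩⟩⟩⟩⟩⟩⟩⟩⟩⟩⟩⟩⟩⟩⟩⟩⟩⟩⟩⟩⟩

end Pool.Agent.ICyc.Flag
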