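import Pool.Agent.Lib.MP_131fce_co.Flag.T9

/-!
# Check of the graphs on `9` vertices, part 30
-/

set_option autoImplicit false
set_option maxRecDepth 100000

namespace Pool.Agent.ICyc.Flag

def rk9_29 : List ℕ :=
  [0xca0134013400c900c2012400c801110022, 0xaa015400aa015400a8015000a101410006, 
    0x3c003c003c01c101c201c001c000110022, 0x720072018c018c018c007100700181000a, 
    0xa4014200a80150002a0054010a00940000, 0xe10118010a011400a200c4002a00540100, 
    0x55006901820094012800920122004c0180, 0x9c0123003800c401410142012000880090, 
    0xc90126013200c8004c0130009100c00104, 0x69007101820184008a0114002a00540180, 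
    0x95012a003300c401480094012800c00140, 0xc90132013200c400c80114002900c00104, 
    0xa90152008d011600a80150006000a00140, 0x35003a003c01c001c000c101420085010a, 
    0x3a003c003c01c101c001c000c201050022, 0x5c005c01a1004e018301a001a000300050, 
    0x5a005a0185001d01a001a0006201840060, 0xa201440098011800620064008901110006, 
    0x860118001a001c00e000e0012101410006, 0xf0010901060103010500860058006800b0, 
    0x3c004c00b00141014101820182000c0030, 0x9a01610086009801240124005801410082, 
    0x3c005400a80141018101420182000c0030, 0xb201490094010c014800b0006201050082, 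
    0xc30134013800c100c20045008a01140128, 0x7800780183018501820184002a00540060, 
    0x2b005500a2015000a80114008a01440180, 0xc60138013800c100c200c4010901110026, 
    0xaa0154008b011500a8015000a201440060, 0x6c006c01910191006201820182001c0060, 
    0x7200720189018c018c0070003101810046, 0xaa015400aa015400a3014500a801500018, 
    0x3c003c003c01c101c101c201c2000d0032, 0xaa015400aa015400aa015400a901510006, 
    0x2e005600a8015000a80150018101810006, 0xf001050105010a010a003400c8003100c2, 
    0x8d0132003c00c100c101420142008c0130, 0x89014200a40051002a0114004800900120, 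
    0x8c0112002a005400a80150012100c10006, 0xf0010501060109010a003400c8005100a2, 
    0xa3014c00a3014c000f00b000b001500150]

theorem k9_1856 : ok9 0xca0134013400c900c2012400c801110022 = true := by decide +kernel

theorem k9_1857 : ok9 0xaa015400aa015400a8015000a101410006 = true := by decide +kernel

theorem k9_1858 : ok9 0x3c003c003c01c101c201c001c000110022 = true := by decide +kernel

theorem k9_1859 : ok9 0x720072018c018c018c007100700181000a = true := by decide +kernel

theorem k9_1860 : ok9 0xa4014200a80150002a0054010a00940000 = true := by decide +kernel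

theorem k9_1861 : ok9 0xe10118010a011400a200c4002a00540100 = true := by decide +kernel

theorem k9_1862 : ok9 0x55006901820094012800920122004c0180 = true := by decide +kernel

theorem k9_1863 : ok9 0x9c0123003800c401410142012000880090 = true := by decide +kernel

theorem k9_1864 : ok9 0xc90126013200c8004c0130009100c00104 = true := by decide +kernel

theorem k9_1865 : ok9 0x69007101820184008a0114002a00540180 = true := by decide +kernel

theorem k9_1866 : ok9 0x95012a003300c401480094012800c00140 = true := by decide +kernel

theorem k9_1867 : ok9 0xc90132013200c400c80114002900c00104 = true := by decide +kernel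

theorem k9_1868 : ok9 0xa90152008d011600a80150006000a00140 = true := by decide +kernel

theorem k9_1869 : ok9 0x35003a003c01c001c000c101420085010a = true := by decide +kernel

theorem k9_1870 : ok9 0x3a003c003c01c101c001c000c201050022 = true := by decide +kernel

theorem k9_1871 : ok9 0x5c005c01a1004e018301a001a000300050 = true := by decide +kernel

theorem k9_1872 : ok9 0x5a005a0185001d01a001a0006201840060 = true := by decide +kernel

theorem k9_1873 : ok9 0xa201440098011800620064008901110006 = true := by decide +kernel

theorem k9_1874 : ok9 0x860118001a001c00e000e0012101410006 = true := by decide +kernel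

theorem k9_1875 : ok9 0xf0010901060103010500860058006800b0 = true := by decide +kernel

theorem k9_1876 : ok9 0x3c004c00b00141014101820182000c0030 = true := by decide +kernel

theorem k9_1877 : ok9 0x9a01610086009801240124005801410082 = true := by decide +kernel

theorem k9_1878 : ok9 0x3c005400a80141018101420182000c0030 = true := by decide +kernel

theorem k9_1879 : ok9 0xb201490094010c014800b0006201050082 = true := by decide +kernel

theorem k9_1880 : ok9 0xc30134013800c100c20045008a01140128 = true := by decide +kernel

theorem k9_1881 : ok9 0x7800780183018501820184002a00540060 = true := by decide +kernel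

theorem k9_1882 : ok9 0x2b005500a2015000a80114008a01440180 = true := by decide +kernel

theorem k9_1883 : ok9 0xc60138013800c100c200c4010901110026 = true := by decide +kernel

theorem k9_1884 : ok9 0xaa0154008b011500a8015000a201440060 = true := by decide +kernel

theorem k9_1885 : ok9 0x6c006c01910191006201820182001c0060 = true := by decide +kernel

theorem k9_1886 : ok9 0x7200720189018c018c0070003101810046 = true := by decide +kernel

theorem k9_1887 : ok9 0xaa015400aa015400a3014500a801500018 = true := by decide +kernel

theorem k9_1888 : ok9 0x3c003c003c01c101c101c201c2000d0032 = true := by decide +kernel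

theorem k9_1889 : ok9 0xaa015400aa015400aa015400a901510006 = true := by decide +kernel

theorem k9_1890 : ok9 0x2e005600a8015000a80150018101810006 = true := by decide +kernel

theorem k9_1891 : ok9 0xf001050105010a010a003400c8003100c2 = true := by decide +kernel

theorem k9_1892 : ok9 0x8d0132003c00c100c101420142008c0130 = true := by decide +kernel

theorem k9_1893 : ok9 0x89014200a40051002a0114004800900120 = true := by decide +kernel

theorem k9_1894 : ok9 0x8c0112002a005400a80150012100c10006 = true := by decide +kernel

theorem k9_1895 : ok9 0xf0010501060109010a003400c8005100a2 = true := by decide +kernel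

theorem k9_1896 : ok9 0xa3014c00a3014c000f00b000b001500150 = true := by decide +kernel

theorem ck9_29 : ∀ H ∈ rk9_29, ok9 H = true :=
  List.forall_mem_cons.mpr ⟨k9_1856, List.forall_mem_cons.mpr ⟨k9_1857, List.forall_mem_cons.mpr ⟨k9_1858, List.forall_mem_cons.mpr ⟨k9_1859, List.forall_mem_cons.mpr ⟨k9_1860, List.forall_mem_cons.mpr ⟨k9_1861, List.forall_mem_cons.mpr ⟨k9_1862, List.forall_mem_cons.mpr ⟨k9_1863, List.forall_mem_cons.mpr ⟨k9_1864, List.forall_mem_cons.mpr ⟨k9_1865, List.forall_mem_cons.mpr ⟨k9_1866, List.forall_mem_cons.mpr ⟨k9_1867, List.forall_mem_cons.mpr ⟨k9_1868, List.forall_mem_cons.mpr ⟨k9_1869, List.forall_mem_cons.mpr ⟨k9_1870, List.forall_mem_cons.mpr ⟨k9_1871, List.forall_mem_cons.mpr ⟨k9_1872, List.forall_mem_cons.mpr ⟨k9_1873, List.forall_mem_cons.mpr ⟨k9_1874, List.forall_mem_cons.mpr ⟨k9_1875, List.forall_mem_cons.mpr ⟨k9_1876, List.forall_mem_cons.mpr ⟨k9_1877, List.forall_mem_cons.mpr ⟨k9_1878, List.forall_mem_cons.mpr ⟨k9_1879, List.forall_mem_cons.mpr ⟨k9_1880, List.forall_mem_cons.mpr ⟨k9_1881, List.forall_mem_cons.mpr ⟨k9_1882, List.forall_mem_cons.mpr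 ⟨k9_1883, List.forall_mem_cons.mpr ⟨k9_1884, List.forall_mem_cons.mpr ⟨k9_1885, List.forall_mem_cons.mpr ⟨k9_1886, List.forall_mem_cons.mpr ⟨k9_1887, List.forall_mem_cons.mpr ⟨k9_1888, List.forall_mem_cons.mpr ⟨k9_1889, List.forall_mem_cons.mpr ⟨k9_1890, List.forall_mem_cons.mpr ⟨k9_1891, List.forall_mem_cons.mpr ⟨k9_1892, List.forall_mem_cons.mpr ⟨k9_1893, List.forall_mem_cons.mpr ⟨k9_1894, List.forall_mem_cons.mpr ⟨k9_1895, List.forall_mem_cons.mpr ⟨k9_1896, List.forall_mem_nil _⟩⟩⟩⟩⟩⟩⟩⟩⟩⟩⟩⟩⟩⟩⟩⟩⟩⟩⟩⟩⟩⟩⟩⟩⟩⟩⟩⟩⟩⟩⟩⟩⟩⟩⟩⟩⟩⟩⟩⟩⟩

end Pool.Agent.ICyc.Flag
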