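import Pool.Agent.Lib.MP_131fce_co.Flag.Psd9a
import Pool.Agent.Lib.MP_131fce_co.Flag.Psd9b
import Pool.Agent.Lib.MP_131fce_co.Flag.Psd9c
import Pool.Agent.Lib.MP_131fce_co.Flag.Psd9d
import Pool.Agent.Lib.MP_131fce_co.Flag.Psd9e
import Pool.Agent.Lib.MP_131fce_co.Flag.Psd9f
import Pool.Agent.Lib.MP_131fce_co.Flag.Chk9x00
import Pool.Agent.Lib.MP_131fce_co.Flag.Chk9x01
import Pool.Agent.Lib.MP_131fce_co.Flag.Chk9x02
import Pool.Agent.Lib.MP_131fce_co.Flag.Chk9x03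
import Pool.Agent.Lib.MP_131fce_co.Flag.Chk9x04
import Pool.Agent.Lib.MP_131fce_co.Flag.Chk9x05
import Pool.Agent.Lib.MP_131fce_co.Flag.Chk9x06
import Pool.Agent.Lib.MP_131fce_co.Flag.Chk9x07
import Pool.Agent.Lib.MP_131fce_co.Flag.Chk9x08
import Pool.Agent.Lib.MP_131fce_co.Flag.Chk9x09
import Pool.Agent.Lib.MP_131fce_co.Flag.Chk9x10
import Pool.Agent.Lib.MP_131fce_co.Flag.Chk9x11
import Pool.Agent.Lib.MP_131fce_co.Flag.Chk9x12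
import Pool.Agent.Lib.MP_131fce_co.Flag.Chk9x13
import Pool.Agent.Lib.MP_131fce_co.Flag.Chk9x14
import Pool.Agent.Lib.MP_131fce_co.Flag.Chk9x15
import Pool.Agent.Lib.MP_131fce_co.Flag.Chk9x16
import Pool.Agent.Lib.MP_131fce_co.Flag.Chk9x17
import Pool.Agent.Lib.MP_131fce_co.Flag.Chk9x18
import Pool.Agent.Lib.MP_131fce_co.Flag.Chk9x19
import Pool.Agent.Lib.MP_131fce_co.Flag.Chk9x20
import Pool.Agent.Lib.MP_131fce_co.Flag.Chk9x21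
import Pool.Agent.Lib.MP_131fce_co.Flag.Chk9x22
import Pool.Agent.Lib.MP_131fce_co.Flag.Chk9x23
import Pool.Agent.Lib.MP_131fce_co.Flag.Chk9x24
import Pool.Agent.Lib.MP_131fce_co.Flag.Chk9x25
import Pool.Agent.Lib.MP_131fce_co.Flag.Chk9x26
import Pool.Agent.Lib.MP_131fce_co.Flag.Chk9x27
import Pool.Agent.Lib.MP_131fce_co.Flag.Chk9x28
import Pool.Agent.Lib.MP_131fce_co.Flag.Chk9x29
import Pool.Agent.Lib.MP_131fce_co.Flag.Reps9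

/-!
# The bound for `k = 9`
-/

set_option autoImplicit false
set_option maxRecDepth 100000

namespace Pool.Agent.ICyc.Flag

theorem rk9_eq : reps9 = rk9_0 ++ rk9_1 ++ rk9_2 ++ rk9_3 ++ rk9_4 ++ rk9_5 ++ rk9_6 ++ rk9_7 ++ rk9_8 ++ rk9_9 ++ rk9_10 ++ rk9_11 ++ rk9_12 ++ rk9_13 ++ rk9_14 ++ rk9_15 ++ rk9_16 ++ rk9_17 ++ rk9_18 ++ rk9_19 ++ rk9_20 ++ rk9_21 ++ rk9_22 ++ rk9_23 ++ rk9_24 ++ rk9_25 ++ rk9_26 ++ rk9_27 ++ rk9_28 ++ rk9_29 := by decide +kernel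

/-- triangle-free graphs have at most `(n / 9) ^ 9` induced cycles of length `9` -/
theorem bound9 (V : Type) [Fintype V] (G : SimpleGraph V) (hA : AdjOK (adjG G)) :
    (({S : Finset V | S.card = 9 ∧
          Nonempty (G.induce (S : Set V) ≃g SimpleGraph.cycleGraph 9)}.ncard : ℝ)
        ≤ ((Fintype.card V : ℝ) / ((9 : ℕ) : ℝ)) ^ 9) := by
  refine final_bound 9 (by norm_num) G 43200000 (by norm_num) (by norm_num) T9 [0, 1, 1, 1, 1, 1, 1, 1, 129] (by decide +kernel)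
    (fun H => H ∈ reps9) (cls9 hA) (by decide +kernel) (by decide +kernel) ?_ ?_
  · exact ⟨⟨g9_0, trivial⟩, ⟨⟨⟨⟨⟨⟨⟨g9_24, trivial⟩, trivial⟩, trivial⟩, trivial⟩, ⟨⟨⟨⟨⟨g9_23, ⟨g9_22, trivial⟩⟩, ⟨⟨g9_21, trivial⟩, trivial⟩⟩, trivial⟩, ⟨⟨⟨⟨g9_20, trivial⟩, trivial⟩, ⟨⟨⟨g9_19, ⟨g9_18, trivial⟩⟩, ⟨⟨g9_17, trivial⟩, ⟨⟨g9_16, trivial⟩, trivial⟩⟩⟩, trivial⟩⟩, ⟨⟨⟨⟨g9_15, trivial⟩, trivial⟩, ⟨⟨⟨g9_14, trivial⟩, ⟨⟨g9_13, ⟨g9_12, trivial⟩⟩, ⟨⟨g9_11, trivial⟩, trivial⟩⟩⟩, ⟨⟨⟨g9_10, trivial⟩, ⟨⟨g9_9, ⟨g9_8, trivial⟩⟩, ⟨⟨g9_7, ⟨g9_6, trivial⟩⟩, trivial⟩⟩⟩, trivial⟩⟩⟩, ⟨⟨⟨⟨g9_5, ⟨g9_4, trivial⟩⟩, trivial⟩, ⟨⟨⟨g9_3, trivial⟩, trivial⟩, ⟨⟨⟨g9_2, ⟨g9_1, trivial⟩⟩, trivial⟩, trivial⟩⟩⟩, trivial⟩⟩⟩⟩, trivial⟩⟩, trivial⟩, trivial⟩⟩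
  · intro H hH
    rw [show List.range 9 = [0, 1, 2, 3, 4, 5, 6, 7, 8] by decide, show 2 * 43200000 * Nat.factorial 9 = 31352832000000 by decide +kernel,
      show 43200000 * 9 ^ (9 - 1) = 1859618347200000 by norm_num]
    rw [rk9_eq] at hH
    simp only [List.mem_append] at hH
    rcases hH with ((((((((((((((((((((((((((((hH | hH) | hH) | hH) | hH) | hH) | hH) | hH) | hH) | hH) | hH) | hH) | hH) | hH) | hH) | hH) | hH) | hH) | hH) | hH) | hH) | hH) | hH) | hH) | hH) | hH) | hH) | hH) | hH) | hH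
    · exact ck9_0 H hH
    · exact ck9_1 H hH
    · exact ck9_2 H hH
    · exact ck9_3 H hH
    · exact ck9_4 H hH
    · exact ck9_5 H hH
    · exact ck9_6 H hH
    · exact ck9_7 H hH
    · exact ck9_8 H hH
    · exact ck9_9 H hH
    · exact ck9_10 H hH
    · exact ck9_11 H hH
    · exact ck9_12 H hH
    · exact ck9_13 H hH
    · exact ck9_14 H hH
    · exact ck9_15 H hH
    · exact ck9_16 H hH
    · exact ck9_17 H hH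
    · exact ck9_18 H hH
    · exact ck9_19 H hH
    · exact ck9_20 H hH
    · exact ck9_21 H hH
    · exact ck9_22 H hH
    · exact ck9_23 H hH
    · exact ck9_24 H hH
    · exact ck9_25 H hH
    · exact ck9_26 H hH
    · exact ck9_27 H hH
    · exact ck9_28 H hH
    · exact ck9_29 H hH

end Pool.Agent.ICyc.Flag
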