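import Pool.Agent.Lib.MP_131fce_co.Flag.T8

/-!
# Check of the graphs on `8` vertices, part 8
-/

set_option autoImplicit false
set_option maxRecDepth 100000

namespace Pool.Agent.ICyc.Flag

def rk8_7 : List ℕ :=
  [0x660088009000280050008100800004, 0x5400a8004100820040008000100020, 
    0x5400a8005000a00040008000010002, 0x6c0092009000600081008000400008, 
    0x34002a00c000880050008100400004, 0x34003800c000c00041008200040008, 
    0x34003800c000c00044008800010002, 0x3a003400c000c00084004800810002, 
    0x5800a4005200a00081004000200008, 0x38003800c400c000c0002000010002, 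
    0x3c003800c200c000c0008100200004, 0x15002a005000a00044008800400080, 
    0x2a003400c000480090004200840000, 0x39002600c000820084004800500080, 
    0x640089009200280050008000200040, 0x34003800c200c00044008800200000, 
    0x3a003400c100c00084004800800020, 0x5100a2005400a80010002000400080, 
    0x3c003800c100c200c0008000100020, 0x5500aa005000a00044008800400080, 
    0x35003a00c000c00044008800410082, 0x3a003c00c100c000c0004200840020, 
    0x3c003c00c100c200c000c000100020, 0x5000a0005000a00005000a00040008, 
    0x5000a0004400880011002200040008, 0x700088008400840042003000090002, 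
    0x4800a0005000280090000300040004, 0x700084008800820024004800110002, 
    0x780082008400810081002200440018, 0x700083008400880014002800400040, 
    0x700086008800880030004100400004, 0x70008a008400880050002100400004, 
    0x780085008400820082006000180040, 0x4400a0005000280014008800010002, 
    0x620088009000240044001800810002]

theorem k8_245 : ok8 0x660088009000280050008100800004 = true := by decide +kernel

theorem k8_246 : ok8 0x5400a8004100820040008000100020 = true := by decide +kernel

theorem k8_247 : ok8 0x5400a8005000a00040008000010002 = true := by decide +kernel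

theorem k8_248 : ok8 0x6c0092009000600081008000400008 = true := by decide +kernel

theorem k8_249 : ok8 0x34002a00c000880050008100400004 = true := by decide +kernel

theorem k8_250 : ok8 0x34003800c000c00041008200040008 = true := by decide +kernel

theorem k8_251 : ok8 0x34003800c000c00044008800010002 = true := by decide +kernel

theorem k8_252 : ok8 0x3a003400c000c00084004800810002 = true := by decide +kernel

theorem k8_253 : ok8 0x5800a4005200a00081004000200008 = true := by decide +kernel

theorem k8_254 : ok8 0x38003800c400c000c0002000010002 = true := by decide +kernel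

theorem k8_255 : ok8 0x3c003800c200c000c0008100200004 = true := by decide +kernel

theorem k8_256 : ok8 0x15002a005000a00044008800400080 = true := by decide +kernel

theorem k8_257 : ok8 0x2a003400c000480090004200840000 = true := by decide +kernel

theorem k8_258 : ok8 0x39002600c000820084004800500080 = true := by decide +kernel

theorem k8_259 : ok8 0x640089009200280050008000200040 = true := by decide +kernel

theorem k8_260 : ok8 0x34003800c200c00044008800200000 = true := by decide +kernel

theorem k8_261 : ok8 0x3a003400c100c00084004800800020 = true := by decide +kernel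

theorem k8_262 : ok8 0x5100a2005400a80010002000400080 = true := by decide +kernel

theorem k8_263 : ok8 0x3c003800c100c200c0008000100020 = true := by decide +kernel

theorem k8_264 : ok8 0x5500aa005000a00044008800400080 = true := by decide +kernel

theorem k8_265 : ok8 0x35003a00c000c00044008800410082 = true := by decide +kernel

theorem k8_266 : ok8 0x3a003c00c100c000c0004200840020 = true := by decide +kernel

theorem k8_267 : ok8 0x3c003c00c100c200c000c000100020 = true := by decide +kernel

theorem k8_268 : ok8 0x5000a0005000a00005000a00040008 = true := by decide +kernel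

theorem k8_269 : ok8 0x5000a0004400880011002200040008 = true := by decide +kernel

theorem k8_270 : ok8 0x700088008400840042003000090002 = true := by decide +kernel

theorem k8_271 : ok8 0x4800a0005000280090000300040004 = true := by decide +kernel

theorem k8_272 : ok8 0x700084008800820024004800110002 = true := by decide +kernel

theorem k8_273 : ok8 0x780082008400810081002200440018 = true := by decide +kernel

theorem k8_274 : ok8 0x700083008400880014002800400040 = true := by decide +kernel

theorem k8_275 : ok8 0x700086008800880030004100400004 = true := by decide +kernel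

theorem k8_276 : ok8 0x70008a008400880050002100400004 = true := by decide +kernel

theorem k8_277 : ok8 0x780085008400820082006000180040 = true := by decide +kernel

theorem k8_278 : ok8 0x4400a0005000280014008800010002 = true := by decide +kernel

theorem k8_279 : ok8 0x620088009000240044001800810002 = true := by decide +kernel

theorem ck8_7 : ∀ H ∈ rk8_7, ok8 H = true :=
  List.forall_mem_cons.mpr ⟨k8_245, List.forall_mem_cons.mpr ⟨k8_246, List.forall_mem_cons.mpr ⟨k8_247, List.forall_mem_cons.mpr ⟨k8_248, List.forall_mem_cons.mpr ⟨k8_249, List.forall_mem_cons.mpr ⟨k8_250, List.forall_mem_cons.mpr ⟨k8_251, List.forall_mem_cons.mpr ⟨k8_252, List.forall_mem_cons.mpr ⟨k8_253, List.forall_mem_cons.mpr ⟨k8_254, List.forall_mem_cons.mpr ⟨k8_255, List.forall_mem_cons.mpr ⟨k8_256, List.forall_mem_cons.mpr ⟨k8_257, List.forall_mem_cons.mpr ⟨k8_258, List.forall_mem_cons.mpr ⟨k8_259, List.forall_mem_cons.mpr ⟨k8_260, List.forall_mem_cons.mpr ⟨k8_261, List.forall_mem_cons.mpr ⟨k8_262, List.forall_mem_cons.mpr ⟨k8_263, List.forall_mem_cons.mpr ⟨k8_264, List.forall_mem_cons.mpr ⟨k8_265, List.forall_mem_cons.mpr ⟨k8_266,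 List.forall_mem_cons.mpr ⟨k8_267, List.forall_mem_cons.mpr ⟨k8_268, List.forall_mem_cons.mpr ⟨k8_269, List.forall_mem_cons.mpr ⟨k8_270, List.forall_mem_cons.mpr ⟨k8_271, List.forall_mem_cons.mpr ⟨k8_272, List.forall_mem_cons.mpr ⟨k8_273, List.forall_mem_cons.mpr ⟨k8_274, List.forall_mem_cons.mpr ⟨k8_275, List.forall_mem_cons.mpr ⟨k8_276, List.forall_mem_cons.mpr ⟨k8_277, List.forall_mem_cons.mpr ⟨k8_278, List.forall_mem_cons.mpr ⟨k8_279, List.forall_mem_nil _⟩⟩⟩⟩⟩⟩⟩⟩⟩⟩⟩⟩⟩⟩⟩⟩⟩⟩⟩⟩⟩⟩⟩⟩⟩⟩⟩⟩⟩⟩⟩⟩⟩⟩⟩

end Pool.Agent.ICyc.Flag
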