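import Pool.Agent.Lib.MP_131fce_co.Flag.T9

/-!
# Check of the graphs on `9` vertices, part 4
-/

set_option autoImplicit false
set_option maxRecDepth 100000

namespace Pool.Agent.ICyc.Flag

def rk9_3 : List ℕ :=
  [0x75007a0180018001800084010800800100, 0x7a007c0180018001800180008201040000, 
    0x7d007a0180018001800180010200840100, 0x7a007c0181018001800180008001000040, 
    0x7c007c0182018001800180018000400000, 0x7e007c0181018001800180018001000040, 
    0x7d007e0180018001800180018000810102, 0x7e007e0181018001800180018001800040, 
    0x3000c0030004000400080008001000100, 0xc001080110000600400080002000200000, 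
    0x9801400084000301000100004000200020, 0xa0014000a00140000c0010001000000000, 
    0xc80120012000c000060100001000100000, 0xcc0120012000c000030100010000100010, 
    0xc001100120004400880010002000000000, 0xc801100120004200840100001000200000, 
    0xcc01100120004100820100010000100020, 0xe001080110011000600084000800000000, 
    0xe401080110011000600082010000080000, 0xe601080110011000600081010001000008, 
    0xf00104010401080108003000c000000000, 0xf20104010401080108003000c001000000, 
    0xf30104010401080108003000c001000100, 0x8c01300003008000800100010000400040, 
    0xd0010c0120004201000080008000200000, 0xd801060120004101000100008000800020, 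
    0xe0010c0110011000600080008000000000, 0xe801060110011000600100008000800000, 
    0xec01030110011000600100010000800080, 0xf00103010c010001000040004000800080, 
    0x1c00600081008201000100010000200040, 0xe005000a0005000a00100010001000000, 
    0x6800070110011000600100008000800080, 0x8c014000a0005000220100010000100000, 
    0x6800460180011000210100008000800010, 0x7000460180010801080030008000800000, 
    0x7400430180010801080030010000800080, 0x6400680180018000030080010000100010, 
    0x7000640180018001080012008000080000, 0x7400620180018001080011010000800008, 
    0x7800620180018001040104001800800000, 0x7a00610180018001040104001801000080, 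
    0x7000700180018001800006000800080000, 0x7400700180018001800003010000080008, 
    0x7800700180018001800104000a00040000, 0x7a00700180018001800104000901000004, 
    0x7c007001800180018001020102000c0000, 0x7d007001800180018001020102000c0100, 
    0xb0010c0023014001000080008000400040, 0x7000380106018001800080004000400000, 
    0x7800340103018001800100008000400040, 0x7800380106018001800180004000400000, 
    0x7c00380103018001800180010000400040, 0x9c014200a0004101000100010000800020, 
    0x8e01600090009000600100010001000000, 0xe801070110011000600100008000800080, 
    0xf005000a0005000a00100010001000100, 0x8e014000a0005000210100010001000010, 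
    0x4700700180008800880030010001000100, 0x6600700180018000880011010001000008, 
    0x7800630180018001040104001800800080, 0x7800720180018001800104000900800004, 
    0x7c007101800180018001020102000c0080, 0x7800780180018001800180000300040004]

theorem k9_192 : ok9 0x75007a0180018001800084010800800100 = true := by decide +kernel

theorem k9_193 : ok9 0x7a007c0180018001800180008201040000 = true := by decide +kernel

theorem k9_194 : ok9 0x7d007a0180018001800180010200840100 = true := by decide +kernel

theorem k9_195 : ok9 0x7a007c0181018001800180008001000040 = true := by decide +kernel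

theorem k9_196 : ok9 0x7c007c0182018001800180018000400000 = true := by decide +kernel

theorem k9_197 : ok9 0x7e007c0181018001800180018001000040 = true := by decide +kernel

theorem k9_198 : ok9 0x7d007e0180018001800180018000810102 = true := by decide +kernel

theorem k9_199 : ok9 0x7e007e0181018001800180018001800040 = true := by decide +kernel

theorem k9_200 : ok9 0x3000c0030004000400080008001000100 = true := by decide +kernel

theorem k9_201 : ok9 0xc001080110000600400080002000200000 = true := by decide +kernel

theorem k9_202 : ok9 0x9801400084000301000100004000200020 = true := by decide +kernel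

theorem k9_203 : ok9 0xa0014000a00140000c0010001000000000 = true := by decide +kernel

theorem k9_204 : ok9 0xc80120012000c000060100001000100000 = true := by decide +kernel

theorem k9_205 : ok9 0xcc0120012000c000030100010000100010 = true := by decide +kernel

theorem k9_206 : ok9 0xc001100120004400880010002000000000 = true := by decide +kernel

theorem k9_207 : ok9 0xc801100120004200840100001000200000 = true := by decide +kernel

theorem k9_208 : ok9 0xcc01100120004100820100010000100020 = true := by decide +kernel

theorem k9_209 : ok9 0xe001080110011000600084000800000000 = true := by decide +kernel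

theorem k9_210 : ok9 0xe401080110011000600082010000080000 = true := by decide +kernel

theorem k9_211 : ok9 0xe601080110011000600081010001000008 = true := by decide +kernel

theorem k9_212 : ok9 0xf00104010401080108003000c000000000 = true := by decide +kernel

theorem k9_213 : ok9 0xf20104010401080108003000c001000000 = true := by decide +kernel

theorem k9_214 : ok9 0xf30104010401080108003000c001000100 = true := by decide +kernel

theorem k9_215 : ok9 0x8c01300003008000800100010000400040 = true := by decide +kernel

theorem k9_216 : ok9 0xd0010c0120004201000080008000200000 = true := by decide +kernel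

theorem k9_217 : ok9 0xd801060120004101000100008000800020 = true := by decide +kernel

theorem k9_218 : ok9 0xe0010c0110011000600080008000000000 = true := by decide +kernel

theorem k9_219 : ok9 0xe801060110011000600100008000800000 = true := by decide +kernel

theorem k9_220 : ok9 0xec01030110011000600100010000800080 = true := by decide +kernel

theorem k9_221 : ok9 0xf00103010c010001000040004000800080 = true := by decide +kernel

theorem k9_222 : ok9 0x1c00600081008201000100010000200040 = true := by decide +kernel

theorem k9_223 : ok9 0xe005000a0005000a00100010001000000 = true := by decide +kernel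

theorem k9_224 : ok9 0x6800070110011000600100008000800080 = true := by decide +kernel

theorem k9_225 : ok9 0x8c014000a0005000220100010000100000 = true := by decide +kernel

theorem k9_226 : ok9 0x6800460180011000210100008000800010 = true := by decide +kernel

theorem k9_227 : ok9 0x7000460180010801080030008000800000 = true := by decide +kernel

theorem k9_228 : ok9 0x7400430180010801080030010000800080 = true := by decide +kernel

theorem k9_229 : ok9 0x6400680180018000030080010000100010 = true := by decide +kernel

theorem k9_230 : ok9 0x7000640180018001080012008000080000 = true := by decide +kernel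

theorem k9_231 : ok9 0x7400620180018001080011010000800008 = true := by decide +kernel

theorem k9_232 : ok9 0x7800620180018001040104001800800000 = true := by decide +kernel

theorem k9_233 : ok9 0x7a00610180018001040104001801000080 = true := by decide +kernel

theorem k9_234 : ok9 0x7000700180018001800006000800080000 = true := by decide +kernel

theorem k9_235 : ok9 0x7400700180018001800003010000080008 = true := by decide +kernel

theorem k9_236 : ok9 0x7800700180018001800104000a00040000 = true := by decide +kernel

theorem k9_237 : ok9 0x7a00700180018001800104000901000004 = true := by decide +kernel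

theorem k9_238 : ok9 0x7c007001800180018001020102000c0000 = true := by decide +kernel

theorem k9_239 : ok9 0x7d007001800180018001020102000c0100 = true := by decide +kernel

theorem k9_240 : ok9 0xb0010c0023014001000080008000400040 = true := by decide +kernel

theorem k9_241 : ok9 0x7000380106018001800080004000400000 = true := by decide +kernel

theorem k9_242 : ok9 0x7800340103018001800100008000400040 = true := by decide +kernel

theorem k9_243 : ok9 0x7800380106018001800180004000400000 = true := by decide +kernel

theorem k9_244 : ok9 0x7c00380103018001800180010000400040 = true := by decide +kernel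

theorem k9_245 : ok9 0x9c014200a0004101000100010000800020 = true := by decide +kernel

theorem k9_246 : ok9 0x8e01600090009000600100010001000000 = true := by decide +kernel

theorem k9_247 : ok9 0xe801070110011000600100008000800080 = true := by decide +kernel

theorem k9_248 : ok9 0xf005000a0005000a00100010001000100 = true := by decide +kernel

theorem k9_249 : ok9 0x8e014000a0005000210100010001000010 = true := by decide +kernel

theorem k9_250 : ok9 0x4700700180008800880030010001000100 = true := by decide +kernel

theorem k9_251 : ok9 0x6600700180018000880011010001000008 = true := by decide +kernel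

theorem k9_252 : ok9 0x7800630180018001040104001800800080 = true := by decide +kernel

theorem k9_253 : ok9 0x7800720180018001800104000900800004 = true := by decide +kernel

theorem k9_254 : ok9 0x7c007101800180018001020102000c0080 = true := by decide +kernel

theorem k9_255 : ok9 0x7800780180018001800180000300040004 = true := by decide +kernel

theorem ck9_3 : ∀ H ∈ rk9_3, ok9 H = true :=
  List.forall_mem_cons.mpr ⟨k9_192, List.forall_mem_cons.mpr ⟨k9_193, List.forall_mem_cons.mpr ⟨k9_194, List.forall_mem_cons.mpr ⟨k9_195, List.forall_mem_cons.mpr ⟨k9_196, List.forall_mem_cons.mpr ⟨k9_197, List.forall_mem_cons.mpr ⟨k9_198, List.forall_mem_cons.mpr ⟨k9_199, List.forall_mem_cons.mpr ⟨k9_200, List.forall_mem_cons.mpr ⟨k9_201, List.forall_mem_cons.mpr ⟨k9_202, List.forall_mem_cons.mpr ⟨k9_203, List.forall_mem_cons.mpr ⟨k9_204, List.forall_mem_cons.mpr ⟨k9_205, List.forall_mem_cons.mpr ⟨k9_206, List.forall_mem_cons.mpr ⟨k9_207, List.forall_mem_cons.mpr ⟨k9_208, List.forall_mem_cons.mpr ⟨k9_209, List.forall_mem_cons.mpr ⟨k9_210, List.forall_mem_cons.mpr ⟨k9_211, List.forall_mem_cons.mpr ⟨k9_212, List.forall_mem_cons.mpr ⟨k9_213, List.forall_mem_cons.mpr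 ⟨k9_214, List.forall_mem_cons.mpr ⟨k9_215, List.forall_mem_cons.mpr ⟨k9_216, List.forall_mem_cons.mpr ⟨k9_217, List.forall_mem_cons.mpr ⟨k9_218, List.forall_mem_cons.mpr ⟨k9_219, List.forall_mem_cons.mpr ⟨k9_220, List.forall_mem_cons.mpr ⟨k9_221, List.forall_mem_cons.mpr ⟨k9_222, List.forall_mem_cons.mpr ⟨k9_223, List.forall_mem_cons.mpr ⟨k9_224, List.forall_mem_cons.mpr ⟨k9_225, List.forall_mem_cons.mpr ⟨k9_226, List.forall_mem_cons.mpr ⟨k9_227, List.forall_mem_cons.mpr ⟨k9_228, List.forall_mem_cons.mpr ⟨k9_229, List.forall_mem_cons.mpr ⟨k9_230, List.forall_mem_cons.mpr ⟨k9_231, List.forall_mem_cons.mpr ⟨k9_232, List.forall_mem_cons.mpr ⟨k9_233, List.forall_mem_cons.mpr ⟨k9_234, List.forall_mem_cons.mpr ⟨k9_235, List.forall_mem_cons.mpr ⟨k9_236, List.forall_mem_cons.mpr ⟨k9_237, List.forall_mem_cons.mpr ⟨k9_238, List.forall_mem_cons.mpr ⟨k9_239, List.forall_mem_cons.mpr ⟨k9_240, List.forall_mem_cons.mpr ⟨k9_241, List.forall_mem_cons.mpr ⟨k9_242, List.forall_mem_cons.mpr ⟨k9_243, List.forall_mem_cons.mpr ⟨k9_244, List.forall_mem_cons.mpr ⟨k9_245, List.forall_mem_cons.mpr ⟨k9_246, List.forall_mem_cons.mpr ⟨k9_247, List.forall_mem_cons.mpr ⟨k9_248,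 List.forall_mem_cons.mpr ⟨k9_249, List.forall_mem_cons.mpr ⟨k9_250, List.forall_mem_cons.mpr ⟨k9_251, List.forall_mem_cons.mpr ⟨k9_252, List.forall_mem_cons.mpr ⟨k9_253, List.forall_mem_cons.mpr ⟨k9_254, List.forall_mem_cons.mpr ⟨k9_255, List.forall_mem_nil _⟩⟩⟩⟩⟩⟩⟩⟩⟩⟩⟩⟩⟩⟩⟩⟩⟩⟩⟩⟩⟩⟩⟩⟩⟩⟩⟩⟩⟩⟩⟩⟩⟩⟩⟩⟩⟩⟩⟩⟩⟩⟩⟩⟩⟩⟩⟩⟩⟩⟩⟩⟩⟩⟩⟩⟩⟩⟩⟩⟩⟩⟩⟩⟩

end Pool.Agent.ICyc.Flag
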