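import Pool.Agent.Lib.MP_131fce_co.Flag.T9

/-!
# Check of the graphs on `9` vertices, part 13
-/

set_option autoImplicit false
set_option maxRecDepth 100000

namespace Pool.Agent.ICyc.Flag

def rk9_12 : List ℕ :=
  [0x7a00780184018401800180006001010002, 0x7000380106018001800084004800400000, 
    0x8b0130003400c000c00104004801000100, 0x38005800a2014401800180002000400000, 
    0xa601180038014100c000c0010001000020, 0x6400680190019000600084010800000000, 
    0xca0130013000c400c00104002801000000, 0xcb0130013000c400c00104002801000100, 
    0x7400700188018801820060010000100000, 0x7600700188018801810060010001000010, 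
    0xb8014600b0014001400101008000800008, 0xb8014600b0014001400104008800800000, 
    0xcb0134013000c000c00104008801000100, 0x3a00700085018001800104004801000040, 
    0x3c00620098018001400140010200840000, 0x3c00630098018001400140010200840080, 
    0x5c0038012200c101800180010000400020, 0x3c0070008c018201800140014000200000, 
    0x3c0072008c018101800140014000800020, 0x65006a0190019000600084010800800100, 
    0x7200740188018801800060008201040000, 0x7500720188018801800060010200840100, 
    0x7200740188018801810060008001000010, 0x7800780184018401820180006000100000, 
    0x7a00780184018401810180006001000010, 0xba014500b0014001400104008801000080, 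
    0x3d00620098018001400140010200840100, 0x3e004c00b0014001400180018001010002, 
    0x3e0071008c018001800140014001010082, 0x3e0070008c018101800140014001000020, 
    0x3e00780086018101800180014001400020, 0x79007a0184018401800180006000810102, 
    0x7c007c0182018201810180018000600010, 0xc60128013000c000480090010001000000, 
    0xb4014300a8014001080050010000800080, 0xb8014600b0014101400100008000800020, 
    0x7400780183018001800084010800400040, 0x7800780186018101800180004000400020, 
    0x7004800a0005000280090010001000100, 0x7000430180010401080014002800800080, 
    0x7000620180018001080014000900800004, 0x7800610180018001020104000a00140080, 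
    0x7000700180018001800005000a00040008, 0x7800700180018001800104000a00050002, 
    0x7c0070018001800180010101020005000a, 0xb0010c0023014001080090008000400040, 
    0xb801060031014001400104008800800040, 0x7800380106018001800180004100400004, 
    0x7c00380103018001800180010200440040, 0x8701600088009000280050010001000100, 
    0x5100620180008401080014002800800100, 0x6800700180018000820104000a00140000, 
    0x71006801800180010400820012000c0100, 0x7200380105018001800084004801000040, 
    0x940128003200c001400084010800400000, 0xaa01140031014000c00104008801000040, 
    0xb2010c00380140014000c0008101000004, 0xb4010a00380140014000c0010200840000, 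
    0xb5010a00380140014000c0010200840100, 0xe001140103010800880030008000400040, 
    0xd00122012400c001080011004000800008, 0xd00128012200c001040084001800400000, 
    0xb2014800a1014001040084001801000040, 0xc80130013000c000c00104000a00040000]

theorem k9_768 : ok9 0x7a00780184018401800180006001010002 = true := by decide +kernel

theorem k9_769 : ok9 0x7000380106018001800084004800400000 = true := by decide +kernel

theorem k9_770 : ok9 0x8b0130003400c000c00104004801000100 = true := by decide +kernel

theorem k9_771 : ok9 0x38005800a2014401800180002000400000 = true := by decide +kernel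

theorem k9_772 : ok9 0xa601180038014100c000c0010001000020 = true := by decide +kernel

theorem k9_773 : ok9 0x6400680190019000600084010800000000 = true := by decide +kernel

theorem k9_774 : ok9 0xca0130013000c400c00104002801000000 = true := by decide +kernel

theorem k9_775 : ok9 0xcb0130013000c400c00104002801000100 = true := by decide +kernel

theorem k9_776 : ok9 0x7400700188018801820060010000100000 = true := by decide +kernel

theorem k9_777 : ok9 0x7600700188018801810060010001000010 = true := by decide +kernel

theorem k9_778 : ok9 0xb8014600b0014001400101008000800008 = true := by decide +kernel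

theorem k9_779 : ok9 0xb8014600b0014001400104008800800000 = true := by decide +kernel

theorem k9_780 : ok9 0xcb0134013000c000c00104008801000100 = true := by decide +kernel

theorem k9_781 : ok9 0x3a00700085018001800104004801000040 = true := by decide +kernel

theorem k9_782 : ok9 0x3c00620098018001400140010200840000 = true := by decide +kernel

theorem k9_783 : ok9 0x3c00630098018001400140010200840080 = true := by decide +kernel

theorem k9_784 : ok9 0x5c0038012200c101800180010000400020 = true := by decide +kernel

theorem k9_785 : ok9 0x3c0070008c018201800140014000200000 = true := by decide +kernel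

theorem k9_786 : ok9 0x3c0072008c018101800140014000800020 = true := by decide +kernel

theorem k9_787 : ok9 0x65006a0190019000600084010800800100 = true := by decide +kernel

theorem k9_788 : ok9 0x7200740188018801800060008201040000 = true := by decide +kernel

theorem k9_789 : ok9 0x7500720188018801800060010200840100 = true := by decide +kernel

theorem k9_790 : ok9 0x7200740188018801810060008001000010 = true := by decide +kernel

theorem k9_791 : ok9 0x7800780184018401820180006000100000 = true := by decide +kernel

theorem k9_792 : ok9 0x7a00780184018401810180006001000010 = true := by decide +kernel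

theorem k9_793 : ok9 0xba014500b0014001400104008801000080 = true := by decide +kernel

theorem k9_794 : ok9 0x3d00620098018001400140010200840100 = true := by decide +kernel

theorem k9_795 : ok9 0x3e004c00b0014001400180018001010002 = true := by decide +kernel

theorem k9_796 : ok9 0x3e0071008c018001800140014001010082 = true := by decide +kernel

theorem k9_797 : ok9 0x3e0070008c018101800140014001000020 = true := by decide +kernel

theorem k9_798 : ok9 0x3e00780086018101800180014001400020 = true := by decide +kernel

theorem k9_799 : ok9 0x79007a0184018401800180006000810102 = true := by decide +kernel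

theorem k9_800 : ok9 0x7c007c0182018201810180018000600010 = true := by decide +kernel

theorem k9_801 : ok9 0xc60128013000c000480090010001000000 = true := by decide +kernel

theorem k9_802 : ok9 0xb4014300a8014001080050010000800080 = true := by decide +kernel

theorem k9_803 : ok9 0xb8014600b0014101400100008000800020 = true := by decide +kernel

theorem k9_804 : ok9 0x7400780183018001800084010800400040 = true := by decide +kernel

theorem k9_805 : ok9 0x7800780186018101800180004000400020 = true := by decide +kernel

theorem k9_806 : ok9 0x7004800a0005000280090010001000100 = true := by decide +kernel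

theorem k9_807 : ok9 0x7000430180010401080014002800800080 = true := by decide +kernel

theorem k9_808 : ok9 0x7000620180018001080014000900800004 = true := by decide +kernel

theorem k9_809 : ok9 0x7800610180018001020104000a00140080 = true := by decide +kernel

theorem k9_810 : ok9 0x7000700180018001800005000a00040008 = true := by decide +kernel

theorem k9_811 : ok9 0x7800700180018001800104000a00050002 = true := by decide +kernel

theorem k9_812 : ok9 0x7c0070018001800180010101020005000a = true := by decide +kernel

theorem k9_813 : ok9 0xb0010c0023014001080090008000400040 = true := by decide +kernel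

theorem k9_814 : ok9 0xb801060031014001400104008800800040 = true := by decide +kernel

theorem k9_815 : ok9 0x7800380106018001800180004100400004 = true := by decide +kernel

theorem k9_816 : ok9 0x7c00380103018001800180010200440040 = true := by decide +kernel

theorem k9_817 : ok9 0x8701600088009000280050010001000100 = true := by decide +kernel

theorem k9_818 : ok9 0x5100620180008401080014002800800100 = true := by decide +kernel

theorem k9_819 : ok9 0x6800700180018000820104000a00140000 = true := by decide +kernel

theorem k9_820 : ok9 0x71006801800180010400820012000c0100 = true := by decide +kernel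

theorem k9_821 : ok9 0x7200380105018001800084004801000040 = true := by decide +kernel

theorem k9_822 : ok9 0x940128003200c001400084010800400000 = true := by decide +kernel

theorem k9_823 : ok9 0xaa01140031014000c00104008801000040 = true := by decide +kernel

theorem k9_824 : ok9 0xb2010c00380140014000c0008101000004 = true := by decide +kernel

theorem k9_825 : ok9 0xb4010a00380140014000c0010200840000 = true := by decide +kernel

theorem k9_826 : ok9 0xb5010a00380140014000c0010200840100 = true := by decide +kernel

theorem k9_827 : ok9 0xe001140103010800880030008000400040 = true := by decide +kernel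

theorem k9_828 : ok9 0xd00122012400c001080011004000800008 = true := by decide +kernel

theorem k9_829 : ok9 0xd00128012200c001040084001800400000 = true := by decide +kernel

theorem k9_830 : ok9 0xb2014800a1014001040084001801000040 = true := by decide +kernel

theorem k9_831 : ok9 0xc80130013000c000c00104000a00040000 = true := by decide +kernel

theorem ck9_12 : ∀ H ∈ rk9_12, ok9 H = true :=
  List.forall_mem_cons.mpr ⟨k9_768, List.forall_mem_cons.mpr ⟨k9_769, List.forall_mem_cons.mpr ⟨k9_770, List.forall_mem_cons.mpr ⟨k9_771, List.forall_mem_cons.mpr ⟨k9_772, List.forall_mem_cons.mpr ⟨k9_773, List.forall_mem_cons.mpr ⟨k9_774, List.forall_mem_cons.mpr ⟨k9_775, List.forall_mem_cons.mpr ⟨k9_776, List.forall_mem_cons.mpr ⟨k9_777, List.forall_mem_cons.mpr ⟨k9_778, List.forall_mem_cons.mpr ⟨k9_779, List.forall_mem_cons.mpr ⟨k9_780, List.forall_mem_cons.mpr ⟨k9_781, List.forall_mem_cons.mpr ⟨k9_782, List.forall_mem_cons.mpr ⟨k9_783, List.forall_mem_cons.mpr ⟨k9_784, List.forall_mem_cons.mpr ⟨k9_785, List.forall_mem_cons.mpr ⟨k9_786, List.forall_mem_cons.mpr ⟨k9_787, List.forall_mem_cons.mpr ⟨k9_788, List.forall_mem_cons.mpr ⟨k9_789, List.forall_mem_cons.mpr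 ⟨k9_790, List.forall_mem_cons.mpr ⟨k9_791, List.forall_mem_cons.mpr ⟨k9_792, List.forall_mem_cons.mpr ⟨k9_793, List.forall_mem_cons.mpr ⟨k9_794, List.forall_mem_cons.mpr ⟨k9_795, List.forall_mem_cons.mpr ⟨k9_796, List.forall_mem_cons.mpr ⟨k9_797, List.forall_mem_cons.mpr ⟨k9_798, List.forall_mem_cons.mpr ⟨k9_799, List.forall_mem_cons.mpr ⟨k9_800, List.forall_mem_cons.mpr ⟨k9_801, List.forall_mem_cons.mpr ⟨k9_802, List.forall_mem_cons.mpr ⟨k9_803, List.forall_mem_cons.mpr ⟨k9_804, List.forall_mem_cons.mpr ⟨k9_805, List.forall_mem_cons.mpr ⟨k9_806, List.forall_mem_cons.mpr ⟨k9_807, List.forall_mem_cons.mpr ⟨k9_808, List.forall_mem_cons.mpr ⟨k9_809, List.forall_mem_cons.mpr ⟨k9_810, List.forall_mem_cons.mpr ⟨k9_811, List.forall_mem_cons.mpr ⟨k9_812, List.forall_mem_cons.mpr ⟨k9_813, List.forall_mem_cons.mpr ⟨k9_814, List.forall_mem_cons.mpr ⟨k9_815, List.forall_mem_cons.mpr ⟨k9_816, List.forall_mem_cons.mpr ⟨k9_817, List.forall_mem_cons.mpr ⟨k9_818, List.forall_mem_cons.mpr ⟨k9_819, List.forall_mem_cons.mpr ⟨k9_820, List.forall_mem_cons.mpr ⟨k9_821, List.forall_mem_cons.mpr ⟨k9_822, List.forall_mem_cons.mpr ⟨k9_823, List.forall_mem_cons.mpr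 ⟨k9_824, List.forall_mem_cons.mpr ⟨k9_825, List.forall_mem_cons.mpr ⟨k9_826, List.forall_mem_cons.mpr ⟨k9_827, List.forall_mem_cons.mpr ⟨k9_828, List.forall_mem_cons.mpr ⟨k9_829, List.forall_mem_cons.mpr ⟨k9_830, List.forall_mem_cons.mpr ⟨k9_831, List.forall_mem_nil _⟩⟩⟩⟩⟩⟩⟩⟩⟩⟩⟩⟩⟩⟩⟩⟩⟩⟩⟩⟩⟩⟩⟩⟩⟩⟩⟩⟩⟩⟩⟩⟩⟩⟩⟩⟩⟩⟩⟩⟩⟩⟩⟩⟩⟩⟩⟩⟩⟩⟩⟩⟩⟩⟩⟩⟩⟩⟩⟩⟩⟩⟩⟩⟩

end Pool.Agent.ICyc.Flag
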