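import Pool.Agent.Lib.MP_131fce_co.Flag.T9

/-!
# Check of the graphs on `9` vertices, part 22
-/

set_option autoImplicit false
set_option maxRecDepth 100000

namespace Pool.Agent.ICyc.Flag

def rk9_21 : List ℕ :=
  [0xcc0131013200c000c00101010200440088, 0xcc0132013100c800c00120010200840040, 
    0xc60138013800c400c000c0012001010002, 0xba014500b801440140014000a001010082, 
    0xcc0131013200c400c80110012000400080, 0x7800780186018201840180005000600000, 
    0x7900780186018201840180005000600100, 0x7c007c0183018101820180018000500060, 
    0x8a01140007001900a0012000c001400060, 0xc2010c01140019006000a000c001010022, 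
    0x94014200a4004a01090030014000a00010, 0xcc011101210046008a01100120003000c0, 
    0xb00142008c010a01050060005000a00010, 0xcc013001030085008a0110012000500060, 
    0x7000640188018801030060008200140010, 0x7000540188010a01810060008200240010, 
    0xcc0130012200c400890110012000410012, 0x980160008c009401210142006000080010, 
    0xe40118010a011200a400c1011000600008, 0xe601180109011100a200c4010801100060, 
    0x3800580086010601810180006000600010, 0x70001c0106010a018100a000c000600010, 
    0xa8015000a20144008a0114002800500000, 0xe10118010c011400a200c2006000180100, 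
    0xc80130013000c200c40106001800280000, 0xc90130013000c200c40106001800280100, 
    0xa8015000a8015000a20144000a00140000, 0xd10128012800d0012400c20012000c0100, 
    0xcc0130013000c400c801120122000c0000, 0xcd0130013000c400c801120122000c0100, 
    0x8e0121003100c8004601200110011000c0, 0x8e015000a4004900830120014001100030, 
    0x8e0130003100c400c80110012001010042, 0xa5015000a80142008c0052011000280100, 
    0x7400660188018101090052018000880030, 0xc50130013000c800c20026010800180100, 
    0x6c00660190019000610103018000880018, 0xc50130013000c800c800320102000c0100, 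
    0x6c0066019001900068011101800081000a, 0x740074018801880182006101800011000a, 
    0x6c006901900190006401820112000c0080, 0x6e006a019001900064018101110180000c, 
    0x6800700184018400890112006000080010, 0x3800680094018401420181006000100008, 
    0xc601180130004c00c200a1012001100008, 0xc601180128005200a400c1011001200008, 
    0xc701180128005200a400c1011001200108, 0xc60129013000c2004c0090011001200080, 
    0x38005800a2014401820184002800500000, 0xc5012801180094006200c2012000180100, 
    0x2c005400a8015000a80150018200040000, 0xe2010c01180118006400e0009101000004, 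
    0xe2010c01180118006400e0009201040000, 0xe3010c01180118006400e0009201040100, 
    0xb2014500b0014801480034008801000080, 0xac014300b00142004c0110011000a00080, 
    0x4e00700181008600890110012001200050, 0xa501180038014200c400c2011000280100, 
    0x8e0130003800c200c40141011001200008, 0x5500660188009801220061018000900108, 
    0xc601180118001c00e000e0012101000004, 0x72006501880188010c0070009201040080, 
    0x66007201880188008c0070011101800004, 0x73006601880188010c0070009101800104]

theorem k9_1344 : ok9 0xcc0131013200c000c00101010200440088 = true := by decide +kernel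

theorem k9_1345 : ok9 0xcc0132013100c800c00120010200840040 = true := by decide +kernel

theorem k9_1346 : ok9 0xc60138013800c400c000c0012001010002 = true := by decide +kernel

theorem k9_1347 : ok9 0xba014500b801440140014000a001010082 = true := by decide +kernel

theorem k9_1348 : ok9 0xcc0131013200c400c80110012000400080 = true := by decide +kernel

theorem k9_1349 : ok9 0x7800780186018201840180005000600000 = true := by decide +kernel

theorem k9_1350 : ok9 0x7900780186018201840180005000600100 = true := by decide +kernel

theorem k9_1351 : ok9 0x7c007c0183018101820180018000500060 = true := by decide +kernel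

theorem k9_1352 : ok9 0x8a01140007001900a0012000c001400060 = true := by decide +kernel

theorem k9_1353 : ok9 0xc2010c01140019006000a000c001010022 = true := by decide +kernel

theorem k9_1354 : ok9 0x94014200a4004a01090030014000a00010 = true := by decide +kernel

theorem k9_1355 : ok9 0xcc011101210046008a01100120003000c0 = true := by decide +kernel

theorem k9_1356 : ok9 0xb00142008c010a01050060005000a00010 = true := by decide +kernel

theorem k9_1357 : ok9 0xcc013001030085008a0110012000500060 = true := by decide +kernel

theorem k9_1358 : ok9 0x7000640188018801030060008200140010 = true := by decide +kernel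

theorem k9_1359 : ok9 0x7000540188010a01810060008200240010 = true := by decide +kernel

theorem k9_1360 : ok9 0xcc0130012200c400890110012000410012 = true := by decide +kernel

theorem k9_1361 : ok9 0x980160008c009401210142006000080010 = true := by decide +kernel

theorem k9_1362 : ok9 0xe40118010a011200a400c1011000600008 = true := by decide +kernel

theorem k9_1363 : ok9 0xe601180109011100a200c4010801100060 = true := by decide +kernel

theorem k9_1364 : ok9 0x3800580086010601810180006000600010 = true := by decide +kernel

theorem k9_1365 : ok9 0x70001c0106010a018100a000c000600010 = true := by decide +kernel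

theorem k9_1366 : ok9 0xa8015000a20144008a0114002800500000 = true := by decide +kernel

theorem k9_1367 : ok9 0xe10118010c011400a200c2006000180100 = true := by decide +kernel

theorem k9_1368 : ok9 0xc80130013000c200c40106001800280000 = true := by decide +kernel

theorem k9_1369 : ok9 0xc90130013000c200c40106001800280100 = true := by decide +kernel

theorem k9_1370 : ok9 0xa8015000a8015000a20144000a00140000 = true := by decide +kernel

theorem k9_1371 : ok9 0xd10128012800d0012400c20012000c0100 = true := by decide +kernel

theorem k9_1372 : ok9 0xcc0130013000c400c801120122000c0000 = true := by decide +kernel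

theorem k9_1373 : ok9 0xcd0130013000c400c801120122000c0100 = true := by decide +kernel

theorem k9_1374 : ok9 0x8e0121003100c8004601200110011000c0 = true := by decide +kernel

theorem k9_1375 : ok9 0x8e015000a4004900830120014001100030 = true := by decide +kernel

theorem k9_1376 : ok9 0x8e0130003100c400c80110012001010042 = true := by decide +kernel

theorem k9_1377 : ok9 0xa5015000a80142008c0052011000280100 = true := by decide +kernel

theorem k9_1378 : ok9 0x7400660188018101090052018000880030 = true := by decide +kernel

theorem k9_1379 : ok9 0xc50130013000c800c20026010800180100 = true := by decide +kernel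

theorem k9_1380 : ok9 0x6c00660190019000610103018000880018 = true := by decide +kernel

theorem k9_1381 : ok9 0xc50130013000c800c800320102000c0100 = true := by decide +kernel

theorem k9_1382 : ok9 0x6c0066019001900068011101800081000a = true := by decide +kernel

theorem k9_1383 : ok9 0x740074018801880182006101800011000a = true := by decide +kernel

theorem k9_1384 : ok9 0x6c006901900190006401820112000c0080 = true := by decide +kernel

theorem k9_1385 : ok9 0x6e006a019001900064018101110180000c = true := by decide +kernel

theorem k9_1386 : ok9 0x6800700184018400890112006000080010 = true := by decide +kernel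

theorem k9_1387 : ok9 0x3800680094018401420181006000100008 = true := by decide +kernel

theorem k9_1388 : ok9 0xc601180130004c00c200a1012001100008 = true := by decide +kernel

theorem k9_1389 : ok9 0xc601180128005200a400c1011001200008 = true := by decide +kernel

theorem k9_1390 : ok9 0xc701180128005200a400c1011001200108 = true := by decide +kernel

theorem k9_1391 : ok9 0xc60129013000c2004c0090011001200080 = true := by decide +kernel

theorem k9_1392 : ok9 0x38005800a2014401820184002800500000 = true := by decide +kernel

theorem k9_1393 : ok9 0xc5012801180094006200c2012000180100 = true := by decide +kernel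

theorem k9_1394 : ok9 0x2c005400a8015000a80150018200040000 = true := by decide +kernel

theorem k9_1395 : ok9 0xe2010c01180118006400e0009101000004 = true := by decide +kernel

theorem k9_1396 : ok9 0xe2010c01180118006400e0009201040000 = true := by decide +kernel

theorem k9_1397 : ok9 0xe3010c01180118006400e0009201040100 = true := by decide +kernel

theorem k9_1398 : ok9 0xb2014500b0014801480034008801000080 = true := by decide +kernel

theorem k9_1399 : ok9 0xac014300b00142004c0110011000a00080 = true := by decide +kernel

theorem k9_1400 : ok9 0x4e00700181008600890110012001200050 = true := by decide +kernel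

theorem k9_1401 : ok9 0xa501180038014200c400c2011000280100 = true := by decide +kernel

theorem k9_1402 : ok9 0x8e0130003800c200c40141011001200008 = true := by decide +kernel

theorem k9_1403 : ok9 0x5500660188009801220061018000900108 = true := by decide +kernel

theorem k9_1404 : ok9 0xc601180118001c00e000e0012101000004 = true := by decide +kernel

theorem k9_1405 : ok9 0x72006501880188010c0070009201040080 = true := by decide +kernel

theorem k9_1406 : ok9 0x66007201880188008c0070011101800004 = true := by decide +kernel

theorem k9_1407 : ok9 0x73006601880188010c0070009101800104 = true := by decide +kernel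

theorem ck9_21 : ∀ H ∈ rk9_21, ok9 H = true :=
  List.forall_mem_cons.mpr ⟨k9_1344, List.forall_mem_cons.mpr ⟨k9_1345, List.forall_mem_cons.mpr ⟨k9_1346, List.forall_mem_cons.mpr ⟨k9_1347, List.forall_mem_cons.mpr ⟨k9_1348, List.forall_mem_cons.mpr ⟨k9_1349, List.forall_mem_cons.mpr ⟨k9_1350, List.forall_mem_cons.mpr ⟨k9_1351, List.forall_mem_cons.mpr ⟨k9_1352, List.forall_mem_cons.mpr ⟨k9_1353, List.forall_mem_cons.mpr ⟨k9_1354, List.forall_mem_cons.mpr ⟨k9_1355, List.forall_mem_cons.mpr ⟨k9_1356, List.forall_mem_cons.mpr ⟨k9_1357, List.forall_mem_cons.mpr ⟨k9_1358, List.forall_mem_cons.mpr ⟨k9_1359, List.forall_mem_cons.mpr ⟨k9_1360, List.forall_mem_cons.mpr ⟨k9_1361, List.forall_mem_cons.mpr ⟨k9_1362, List.forall_mem_cons.mpr ⟨k9_1363, List.forall_mem_cons.mpr ⟨k9_1364, List.forall_mem_cons.mpr ⟨k9_1365, List.forall_mem_cons.mpr ⟨k9_1366, List.forall_mem_cons.mpr ⟨k9_1367, List.forall_mem_cons.mpr ⟨k9_1368, List.forall_mem_cons.mpr ⟨k9_1369, List.forall_mem_cons.mpr ⟨k9_1370, List.forall_mem_cons.mpr ⟨k9_1371, List.forall_mem_cons.mpr ⟨k9_1372, List.forall_mem_cons.mpr ⟨k9_1373, List.forall_mem_cons.mpr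 ⟨k9_1374, List.forall_mem_cons.mpr ⟨k9_1375, List.forall_mem_cons.mpr ⟨k9_1376, List.forall_mem_cons.mpr ⟨k9_1377, List.forall_mem_cons.mpr ⟨k9_1378, List.forall_mem_cons.mpr ⟨k9_1379, List.forall_mem_cons.mpr ⟨k9_1380, List.forall_mem_cons.mpr ⟨k9_1381, List.forall_mem_cons.mpr ⟨k9_1382, List.forall_mem_cons.mpr ⟨k9_1383, List.forall_mem_cons.mpr ⟨k9_1384, List.forall_mem_cons.mpr ⟨k9_1385, List.forall_mem_cons.mpr ⟨k9_1386, List.forall_mem_cons.mpr ⟨k9_1387, List.forall_mem_cons.mpr ⟨k9_1388, List.forall_mem_cons.mpr ⟨k9_1389, List.forall_mem_cons.mpr ⟨k9_1390, List.forall_mem_cons.mpr ⟨k9_1391, List.forall_mem_cons.mpr ⟨k9_1392, List.forall_mem_cons.mpr ⟨k9_1393, List.forall_mem_cons.mpr ⟨k9_1394, List.forall_mem_cons.mpr ⟨k9_1395, List.forall_mem_cons.mpr ⟨k9_1396, List.forall_mem_cons.mpr ⟨k9_1397, List.forall_mem_cons.mpr ⟨k9_1398, List.forall_mem_cons.mpr ⟨k9_1399, List.forall_mem_cons.mpr ⟨k9_1400, List.forall_mem_cons.mpr ⟨k9_1401, List.forall_mem_cons.mpr ⟨k9_1402, List.forall_mem_cons.mpr ⟨k9_1403, List.forall_mem_cons.mpr ⟨k9_1404, List.forall_mem_cons.mpr ⟨k9_1405, List.forall_mem_cons.mpr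 ⟨k9_1406, List.forall_mem_cons.mpr ⟨k9_1407, List.forall_mem_nil _⟩⟩⟩⟩⟩⟩⟩⟩⟩⟩⟩⟩⟩⟩⟩⟩⟩⟩⟩⟩⟩⟩⟩⟩⟩⟩⟩⟩⟩⟩⟩⟩⟩⟩⟩⟩⟩⟩⟩⟩⟩⟩⟩⟩⟩⟩⟩⟩⟩⟩⟩⟩⟩⟩⟩⟩⟩⟩⟩⟩⟩⟩⟩⟩

end Pool.Agent.ICyc.Flag
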