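import Pool.Agent.Lib.MP_131fce_co.Flag.ClsDefs

/-!
# Classification of triangle-free graphs by adding one vertex at a time
-/

set_option autoImplicit false

namespace Pool.Agent.ICyc.Flag

private theorem Cls_allB (n : ℕ) (p : ℕ → Bool) (h : allB n p = true) : ∀ i, i < n → p i = true := by
  induction n with
  | zero => intro i hi; omega
  | succ n ih =>
    have h' : (p n && allB n p) = true := h
    rw [Bool.and_eq_true] at h'
    intro i hi
    rcases Nat.lt_succ_iff_lt_or_eq.1 hi with h1 | h1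
    · exact ih h'.2 i h1
    · rw [h1]; exact h'.1

private theorem Cls_anyB (n : ℕ) (p : ℕ → Bool) (h : anyB n p = true) : ∃ i, i < n ∧ p i = true := by
  induction n with
  | zero => exact absurd h (by simp [anyB])
  | succ n ih =>
    have h' : (p n || anyB n p) = true := h
    rw [Bool.or_eq_true] at h'
    rcases h' with h1 | h1
    · exact ⟨n, Nat.lt_succ_self n, h1⟩
    · obtain ⟨i, hi, hp⟩ := ih h1
      exact ⟨i, by omega, hp⟩

theorem cls_zero {V : Type} (A : V → V → ℕ) (R : ℕ → Prop) (hR : R 0) : Cls A 0 R := by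
  intro l hl
  have : l = [] := List.eq_nil_of_length_eq_zero hl
  subst this
  exact ⟨0, hR, Fin.elim0, by simp, fun i => i.elim0⟩

private theorem Cls_bits (N : ℕ) (f : Fin N → ℕ) (hf : ∀ i, f i ≤ 1) :
    ∃ s, s < 2 ^ N ∧ ∀ i : Fin N, bitN s i = f i := by
  refine ⟨Nat.ofBits (fun i : Fin N => decide (f i = 1)), Nat.ofBits_lt_two_pow _, fun i => ?_⟩
  unfold bitN
  show Nat.ofBits (fun i : Fin N => decide (f i = 1)) >>> (i : ℕ) % 2 = f i
  rw [Nat.shiftRight_eq_div_pow, ← Nat.toNat_testBit, Nat.testBit_ofBits_lt _ _ i.2]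
  have := hf i
  by_cases h : f i = 1
  · simp [h]
  · have h0 : f i = 0 := by omega
    simp [h0]

theorem cls_step {V : Type} (A : V → V → ℕ) (hsym : ∀ u v, A u v = A v u)
    (hirr : ∀ v, A v v = 0) (h01 : ∀ u v, A u v ≤ 1)
    (htri : ∀ u v w, A u v = 1 → A v w = 1 → A u w = 1 → False)
    (N : ℕ) (R R' : ℕ → Prop) (hR : Cls A N R)
    (hstep : ∀ H, R H → ∀ s, s < 2 ^ N → (depB N H s = true ∨
      ∃ c H', R' H' ∧ stepOK N H s c H' = true)) :
    Cls A (N + 1) R' := by
  intro l hl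
  obtain ⟨v, t, rfl⟩ : ∃ v t, l = v :: t := by
    cases l with
    | nil => simp at hl
    | cons v t => exact ⟨v, t, rfl⟩
  rw [List.length_cons] at hl
  obtain ⟨H, hRH, φ, hperm, hadj⟩ := hR t (by omega)
  obtain ⟨s, hs, hbit⟩ := Cls_bits N (fun i => A (φ i) v) (fun i => h01 _ _)
  have hdep : ¬ depB N H s = true := by
    intro hd
    obtain ⟨i, hi, h1⟩ := Cls_anyB N _ hd
    rw [Bool.and_eq_true] at h1
    obtain ⟨j, hj, h2⟩ := Cls_anyB N _ h1.2
    rw [Bool.and_eq_true] at h2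
    have e1 := Nat.eq_of_beq_eq_true h1.1
    have e2 := Nat.eq_of_beq_eq_true h2.1
    have e3 := Nat.eq_of_beq_eq_true h2.2
    have e4 := hbit ⟨i, hi⟩
    have e5 := hbit ⟨j, hj⟩
    have e6 := hadj ⟨i, hi⟩ ⟨j, hj⟩
    simp only at e4 e5 e6
    rw [e1] at e4
    rw [e2] at e5
    rw [e3] at e6
    exact htri _ _ _ e6 e5.symm e4.symm
  rcases hstep H hRH s hs with h | ⟨c, H', hR', hok⟩
  · exact absurd h hdep
  have hok' : (depB N H s || (allB (N + 1) (fun v => anyB (N + 1) (fun i => Nat.beq (pd c i) v)) &&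
      allB (N + 1) (fun i => allB (N + 1) (fun j =>
        Nat.beq (adjM H' i j) (extM N H s (pd c i) (pd c j)))))) = true := hok
  rw [Bool.or_eq_true, Bool.and_eq_true] at hok'
  rcases hok' with h | ⟨hsurj, hmat⟩
  · exact absurd h hdep
  -- the permutation
  have hex : ∀ k : Fin (N + 1), ∃ i : Fin (N + 1), pd c i = k := by
    intro k
    obtain ⟨i, hi, h1⟩ := Cls_anyB (N + 1) _ (Cls_allB (N + 1) _ hsurj k k.2)
    exact ⟨⟨i, hi⟩, Nat.eq_of_beq_eq_true h1⟩
  choose g hg using hex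
  have hginj : Function.Injective g := by
    intro a b hab
    apply Fin.ext
    rw [← hg a, ← hg b, hab]
  have hgbij : Function.Bijective g := Finite.injective_iff_bijective.1 hginj
  set σ : Equiv.Perm (Fin (N + 1)) := Equiv.ofBijective g hgbij with hσ
  have hpd : ∀ i : Fin (N + 1), pd c i = ((σ.symm i : Fin (N + 1)) : ℕ) := by
    intro i
    have h1 : g (σ.symm i) = i := by
      have : σ (σ.symm i) = i := σ.apply_symm_apply i
      exact this
    have h2 := hg (σ.symm i)
    rw [h1] at h2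
    exact h2
  set ψ : Fin (N + 1) → V := fun k => if h : (k : ℕ) < N then φ ⟨k, h⟩ else v with hψ
  refine ⟨H', hR', ψ ∘ σ.symm, ?_, ?_⟩
  · refine (Equiv.Perm.ofFn_comp_perm σ.symm ψ).trans ?_
    have h1 : List.ofFn ψ = List.ofFn φ ++ [v] := by
      rw [List.ofFn_succ_last]
      congr 1
      · congr 1
        funext i
        simp [hψ]
      · simp [hψ]
    rw [h1]
    refine List.perm_append_comm.trans ?_
    exact hperm.cons v
  · intro i j
    have h1 := Cls_allB (N + 1) _ (Cls_allB (N + 1) _ hmat i i.2) j j.2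
    have h2 : adjM H' i j = extM N H s (pd c i) (pd c j) := Nat.eq_of_beq_eq_true h1
    rw [h2, hpd i, hpd j]
    show A (ψ (σ.symm i)) (ψ (σ.symm j)) = _
    obtain ⟨a, ha⟩ : ∃ a, a = σ.symm i := ⟨_, rfl⟩
    obtain ⟨b, hb⟩ : ∃ b, b = σ.symm j := ⟨_, rfl⟩
    rw [← ha, ← hb]
    have hblt : ∀ k : ℕ, k < N → Nat.blt k N = true := fun k hk => Nat.ble_eq_true_of_le hk
    have hblt' : ∀ k : ℕ, ¬ k < N → Nat.blt k N = false := by
      intro k hk
      rw [← Bool.not_eq_true]
      intro h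
      exact hk (Nat.le_of_ble_eq_true h)
    unfold extM
    by_cases ha1 : (a : ℕ) < N
    · by_cases hb1 : (b : ℕ) < N
      · rw [hblt _ ha1, hblt _ hb1, hψ]
        simp only [ha1, hb1, dif_pos]
        exact hadj ⟨a, ha1⟩ ⟨b, hb1⟩
      · rw [hblt _ ha1, hblt' _ hb1, hψ]
        simp only [ha1, hb1, dif_pos, dif_neg, not_false_eq_true]
        exact (hbit ⟨a, ha1⟩).symm
    · by_cases hb1 : (b : ℕ) < N
      · rw [hblt' _ ha1, hblt _ hb1, hψ]
        simp only [ha1, hb1, dif_pos, dif_neg, not_false_eq_true]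
        rw [hsym]
        exact (hbit ⟨b, hb1⟩).symm
      · rw [hblt' _ ha1, hblt' _ hb1, hψ]
        simp only [ha1, hb1, dif_neg, not_false_eq_true]
        exact hirr v

end Pool.Agent.ICyc.Flag
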