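import Pool.Agent.Lib.MP_131fce_co.Flag.Defs

/-!
# Classification of triangle-free graphs by adding one vertex at a time: definitions
-/

set_option autoImplicit false

namespace Pool.Agent.ICyc.Flag

/-- `i`-th value of the permutation coded by `c` -/
def pd (c i : ℕ) : ℕ := Nat.mod (Nat.shiftRight c (Nat.mul 4 i)) 16

/-- `i`-th bit of `s`, as a number -/
def bitN (s i : ℕ) : ℕ := Nat.mod (Nat.shiftRight s i) 2

/-- adjacency in the graph `H` on `0, ..., N - 1` together with a new vertex `N` adjacent to the
vertices of the set coded by `s` -/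
def extM (N H s i j : ℕ) : ℕ :=
  Bool.rec (motive := fun _ => ℕ)
    (Bool.rec (motive := fun _ => ℕ) 0 (bitN s j) (Nat.blt j N))
    (Bool.rec (motive := fun _ => ℕ) (bitN s i) (adjM H i j) (Nat.blt j N))
    (Nat.blt i N)

/-- all numbers below `n` satisfy `p` -/
def allB (n : ℕ) (p : ℕ → Bool) : Bool :=
  Nat.rec (motive := fun _ => Bool) true (fun i ih => and (p i) ih) n

/-- some number below `n` satisfies `p` -/
def anyB (n : ℕ) (p : ℕ → Bool) : Bool :=
  Nat.rec (motive := fun _ => Bool) false (fun i ih => or (p i) ih) n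

/-- the set coded by `s` contains an edge of `H` -/
def depB (N H s : ℕ) : Bool :=
  anyB N (fun i => and (Nat.beq (bitN s i) 1)
    (anyB N (fun j => and (Nat.beq (bitN s j) 1) (Nat.beq (adjM H i j) 1))))

/-- either the set `s` is not independent in `H`, or the permutation `c` of `0, ..., N` maps `H'`
to the extension of `H` by a vertex with neighbourhood `s` -/
def stepOK (N H s c H' : ℕ) : Bool :=
  or (depB N H s)
    (and (allB (N + 1) (fun v => anyB (N + 1) (fun i => Nat.beq (pd c i) v)))
      (allB (N + 1) (fun i => allB (N + 1) (fun j =>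
        Nat.beq (adjM H' i j) (extM N H s (pd c i) (pd c j))))))

/-- every list of `N` vertices is, up to a permutation, described by one of the codes in `R` -/
def Cls {V : Type} (A : V → V → ℕ) (N : ℕ) (R : ℕ → Prop) : Prop :=
  ∀ l : List V, l.length = N → ∃ H : ℕ, R H ∧ ∃ φ : Fin N → V,
    (List.ofFn φ).Perm l ∧ ∀ i j : Fin N, A (φ i) (φ j) = adjM H i j

end Pool.Agent.ICyc.Flag
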