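import Pool.Agent.Lib.MP_131fce_co.Flag.SumsDefs
import Pool.Agent.Lib.MP_131fce_co.Flag.ClsDefs
import Pool.Agent.Lib.MP_131fce_co.Defs

/-!
# The trie of the labelled cycle
-/

set_option autoImplicit false

namespace Pool.Agent.ICyc.Flag

open scoped Classical

/-- a path of keys that ends with the constant `w` -/
def pathTrie (w : ℕ) : List ℕ → Trie
  | [] => .leaf 0 0 1 0 0 (w + 39614081257132168796771975168)
  | key :: ks => .node (.cons key (pathTrie w ks) .nil)

/-- adjacency with values in `{0, 1}` -/
noncomputable def adjG {V : Type} (G : SimpleGraph V) (u v : V) : ℕ := if G.Adj u v then 1 else 0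

/-- the keys describe the labelled cycle: bit `d - 1 - i` of key number `d` is the adjacency of the
vertices `d` and `i` -/
def keysOK (k : ℕ) (ks : List ℕ) : Bool :=
  (ks.length == k) && (List.range k).all (fun d => decide (ks.getD d 0 < 2 ^ d) &&
    (List.range d).all (fun i => bitN (ks.getD d 0) (d - 1 - i) ==
      (if d = i + 1 ∨ (i = 0 ∧ d = k - 1) then 1 else 0)))

section aux

variable {V : Type}

/-- the list `l` follows the keys -/
def cyOk (A : V → V → ℕ) : List ℕ → List V → List V → Prop
  | [], _, _ => True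
  | _ :: _, _, [] => True
  | key :: ks, x, a :: l => key = row A x a ∧ cyOk A ks (a :: x) l

theorem cyOk_iff (A : V → V → ℕ) (ks : List ℕ) : ∀ (x l : List V),
    cyOk A ks x l ↔ ∀ d key v, ks[d]? = some key → l[d]? = some v →
      key = row A ((l.take d).reverse ++ x) v := by
  induction ks with
  | nil =>
    intro x l
    simp [cyOk]
  | cons key ks ih =>
    intro x l
    cases l with
    | nil => simp [cyOk]
    | cons a l =>
      rw [cyOk, ih]
      constructor
      · rintro ⟨h1, h2⟩ d key' v hk hv
        cases d with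
        | zero =>
          simp only [List.getElem?_cons_zero, Option.some.injEq] at hk hv
          subst hk; subst hv
          simpa using h1
        | succ d =>
          simp only [List.getElem?_cons_succ] at hk hv
          have := h2 d key' v hk hv
          rw [this]
          simp
      · intro h
        refine ⟨?_, fun d key' v hk hv => ?_⟩
        · simpa using h 0 key a rfl rfl
        · have := h (d + 1) key' v (by simpa using hk) (by simpa using hv)
          rw [this]
          simp

theorem cy_bit_zero (key : ℕ) : bitN key 0 = key % 2 := rfl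

theorem cy_bit_succ (key i : ℕ) : bitN key (i + 1) = bitN (key / 2) i := by
  show (key >>> (i + 1)) % 2 = ((key / 2) >>> i) % 2
  rw [Nat.shiftRight_eq_div_pow, Nat.shiftRight_eq_div_pow, pow_succ', Nat.div_div_eq_div_mul]

theorem cy_row_iff (A : V → V → ℕ) (hA : ∀ u v, A u v ≤ 1) (v : V) : ∀ (x : List V) (key : ℕ),
    key < 2 ^ x.length → (key = row A x v ↔ ∀ (i : ℕ) (u : V), x[i]? = some u → bitN key i = A u v) := by
  intro x
  induction x with
  | nil =>
    intro key hkey
    rw [row_nil]
    simp only [List.length_nil, pow_zero] at hkey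
    simp
    omega
  | cons a x ih =>
    intro key hkey
    rw [row_cons]
    have hA' := hA a v
    have h2 : key / 2 < 2 ^ x.length := by
      rw [List.length_cons, pow_succ] at hkey
      omega
    have h3 : (key = A a v + 2 * row A x v) ↔ (key % 2 = A a v ∧ key / 2 = row A x v) := by
      constructor
      · intro h
        constructor <;> omega
      · rintro ⟨h4, h5⟩
        omega
    rw [h3, ih _ h2]
    constructor
    · rintro ⟨h4, h5⟩ i u hu
      cases i with
      | zero =>
        simp only [List.getElem?_cons_zero, Option.some.injEq] at hu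
        subst hu
        rw [cy_bit_zero]
        exact h4
      | succ i =>
        simp only [List.getElem?_cons_succ] at hu
        rw [cy_bit_succ]
        exact h5 i u hu
    · intro h
      refine ⟨?_, fun i u hu => ?_⟩
      · rw [← cy_bit_zero]
        exact h 0 a rfl
      · rw [← cy_bit_succ]
        exact h (i + 1) u (by simpa using hu)

variable [Fintype V]

theorem cy_sumL_ofFn (n : ℕ) (f : List V → ℤ) :
    sumL n f = ∑ φ : Fin n → V, f (List.ofFn φ) := by
  induction n generalizing f with
  | zero =>
    rw [Fintype.sum_unique]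
    simp [sumL]
  | succ n ih =>
    have h1 : sumL (n + 1) f = ∑ v : V, sumL n (fun l => f (v :: l)) := rfl
    rw [h1]
    simp only [ih]
    rw [← Fintype.sum_prod_type']
    refine Fintype.sum_equiv (Fin.consEquiv (fun _ : Fin (n + 1) => V)) _ _ ?_
    rintro ⟨v, φ⟩
    simp [Fin.consEquiv, List.ofFn_succ]

omit [Fintype V] in
theorem cy_lk (w t : ℕ) : lk w t 0 = t % 2 ^ w := rfl

omit [Fintype V] in
theorem cy_mval (n mat : ℕ) : mval n mat 0 0 =
    Int.subNatNat (lk 96 mat 0) 39614081257132168796771975168 := by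
  have h : Nat.add (Nat.mul 0 n) 0 = 0 := by
    show 0 * n + 0 = 0
    omega
  rw [mval, h]

omit [Fintype V] in
theorem cy_pow : (2 : ℕ) ^ 96 =
    39614081257132168796771975168 + 39614081257132168796771975168 := by
  norm_num

omit [Fintype V] in
theorem cy_IV_nil_gen [Fintype V] (A : V → V → ℕ) (t key : ℕ) (x : List V) :
    (Trie.leaf 0 0 1 0 0 t).IV A key x =
      mval 1 t (flg A 0 1 0 0 x []) (flg A 0 1 0 0 x []) := rfl

theorem cy_leaf (A : V → V → ℕ) (w : ℕ) (hw : w < 39614081257132168796771975168) (key : ℕ)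
    (x : List V) : (pathTrie w []).IV A key x = (w : ℤ) := by
  have hfl : ∀ y : List V, flg A 0 1 0 0 x y = 0 := by
    intro y
    unfold flg
    exact Nat.mod_one _
  rw [pathTrie, cy_IV_nil_gen, hfl, cy_mval, cy_lk, Nat.mod_eq_of_lt (by rw [cy_pow]; omega),
    Int.subNatNat_eq_coe, Nat.cast_add]
  exact add_sub_cancel_right _ _

theorem cy_IV (A : V → V → ℕ) (w : ℕ) (hw : w < 39614081257132168796771975168) (ks : List ℕ) :
    ∀ (key : ℕ) (x : List V), (pathTrie w ks).IV A key x =
      (w : ℤ) * sumL ks.length (fun l => if cyOk A ks x l then 1 else 0) := by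
  induction ks with
  | nil =>
    intro key x
    rw [cy_leaf A w hw]
    simp [sumL, cyOk]
  | cons k0 ks ih =>
    intro key x
    show ∑ a : V, (if k0 = row A x a then (pathTrie w ks).IV A 0 (a :: x) else 0) = _
    have h1 : sumL (k0 :: ks).length (fun l => if cyOk A (k0 :: ks) x l then (1 : ℤ) else 0) =
        ∑ a : V, sumL ks.length (fun l => if cyOk A (k0 :: ks) x (a :: l) then 1 else 0) := rfl
    rw [h1, Finset.mul_sum]
    refine Finset.sum_congr rfl fun a _ => ?_
    by_cases h : k0 = row A x a
    · rw [if_pos h, ih]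
      simp [cyOk, h]
    · rw [if_neg h]
      have h2 : (fun l : List V => if cyOk A (k0 :: ks) x (a :: l) then (1 : ℤ) else 0) =
          fun _ => 0 := by
        funext l
        rw [if_neg]
        intro h3
        exact h h3.1
      have h3 : ∀ n : ℕ, sumL n (fun _ : List V => (0 : ℤ)) = 0 := by
        intro n
        induction n with
        | zero => rfl
        | succ n ih =>
          show ∑ v : V, sumL n (fun _ : List V => (0 : ℤ)) = 0
          rw [ih]
          simp
      rw [h2, h3, mul_zero]

end aux

/-- adjacencies of the labelled cycle, in terms of natural numbers -/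
def CyP {V : Type} (G : SimpleGraph V) (k : ℕ) (φ : Fin k → V) : Prop :=
  ∀ i d : Fin k, i.val < d.val →
    (G.Adj (φ i) (φ d) ↔ (d.val = i.val + 1 ∨ (i.val = 0 ∧ d.val = k - 1)))

theorem cyOk_iff_CyP {V : Type} (G : SimpleGraph V) (k : ℕ) (ks : List ℕ)
    (h : keysOK k ks = true) (φ : Fin k → V) :
    cyOk (adjG G) ks [] (List.ofFn φ) ↔ CyP G k φ := by
  rw [keysOK, Bool.and_eq_true, beq_iff_eq, List.all_eq_true] at h
  obtain ⟨hlen, hall⟩ := h
  have hA : ∀ u v, adjG G u v ≤ 1 := by
    intro u v
    unfold adjG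
    split_ifs <;> omega
  have hA1 : ∀ u v, (1 = adjG G u v) ↔ G.Adj u v := by
    intro u v
    unfold adjG
    split_ifs with h1 <;> simp [h1]
  have hA0 : ∀ u v, (0 = adjG G u v) ↔ ¬ G.Adj u v := by
    intro u v
    unfold adjG
    split_ifs with h1 <;> simp [h1]
  have hkey : ∀ d, d < k → ks.getD d 0 < 2 ^ d ∧ ∀ i, i < d →
      bitN (ks.getD d 0) (d - 1 - i) = (if d = i + 1 ∨ (i = 0 ∧ d = k - 1) then 1 else 0) := by
    intro d hd
    have h1 := hall d (List.mem_range.2 hd)
    rw [Bool.and_eq_true, decide_eq_true_eq, List.all_eq_true] at h1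
    refine ⟨h1.1, fun i hi => ?_⟩
    have h2 := h1.2 i (List.mem_range.2 hi)
    rwa [beq_iff_eq] at h2
  rw [cyOk_iff]
  have hget : ∀ d (hd : d < k), ks[d]? = some (ks.getD d 0) := by
    intro d hd
    rw [List.getD_eq_getElem?_getD, List.getElem?_eq_getElem (by omega)]
    rfl
  have hofn : ∀ d (hd : d < k), (List.ofFn φ)[d]? = some (φ ⟨d, hd⟩) := by
    intro d hd
    rw [List.getElem?_ofFn, dif_pos hd]
  -- entries of the reversed prefix
  have hrev : ∀ d (_ : d < k) (i : ℕ) (u : V),
      ((List.ofFn φ).take d).reverse[i]? = some u ↔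
        ∃ hi : i < d, u = φ ⟨d - 1 - i, by omega⟩ := by
    intro d hd i u
    have hl : ((List.ofFn φ).take d).length = d := by
      rw [List.length_take, List.length_ofFn]
      omega
    by_cases hi : i < d
    · rw [List.getElem?_reverse (by rw [hl]; exact hi), hl, List.getElem?_take,
        if_pos (by omega), hofn (d - 1 - i) (by omega), Option.some.injEq]
      constructor
      · intro h1; exact ⟨hi, h1.symm⟩
      · rintro ⟨_, h1⟩; exact h1.symm
    · rw [List.getElem?_eq_none (by rw [List.length_reverse, hl]; omega)]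
      constructor
      · intro h1; exact absurd h1 (by simp)
      · rintro ⟨h1, _⟩; exact absurd h1 hi
  have hmain : ∀ d (hd : d < k), (ks.getD d 0 =
      row (adjG G) (((List.ofFn φ).take d).reverse ++ []) (φ ⟨d, hd⟩)) ↔
      ∀ i : Fin k, i.val < d →
        (G.Adj (φ i) (φ ⟨d, hd⟩) ↔ (d = i.val + 1 ∨ (i.val = 0 ∧ d = k - 1))) := by
    intro d hd
    have hl : ((List.ofFn φ).take d).reverse.length = d := by
      rw [List.length_reverse, List.length_take, List.length_ofFn]
      omega
    rw [List.append_nil, cy_row_iff (adjG G) hA _ _ _ (by rw [hl]; exact (hkey d hd).1)]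
    constructor
    · intro h1 i hi
      have h2 := h1 (d - 1 - i.val) (φ i) ((hrev d hd _ _).2 ⟨by omega, by
        congr 1
        apply Fin.ext
        show i.val = d - 1 - (d - 1 - i.val)
        omega⟩)
      rw [(hkey d hd).2 i.val hi] at h2
      by_cases h3 : d = i.val + 1 ∨ (i.val = 0 ∧ d = k - 1)
      · rw [if_pos h3, hA1] at h2
        exact ⟨fun _ => h3, fun _ => h2⟩
      · rw [if_neg h3, hA0] at h2
        exact ⟨fun h4 => absurd h4 h2, fun h4 => absurd h4 h3⟩
    · intro h1 i u hu
      obtain ⟨hi, rfl⟩ := (hrev d hd i u).1 hu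
      have h2 := h1 ⟨d - 1 - i, by omega⟩ (by show d - 1 - i < d; omega)
      have h3 := (hkey d hd).2 (d - 1 - i) (by omega)
      have e : d - 1 - (d - 1 - i) = i := by omega
      rw [e] at h3
      rw [h3]
      by_cases h4 : d = (d - 1 - i) + 1 ∨ ((d - 1 - i) = 0 ∧ d = k - 1)
      · rw [if_pos h4, hA1]
        exact h2.2 h4
      · rw [if_neg h4, hA0]
        exact fun h5 => h4 (h2.1 h5)
  constructor
  · intro h1 i d hid
    have h2 := h1 d.val _ _ (hget d.val d.isLt) (hofn d.val d.isLt)
    exact (hmain d.val d.isLt).1 h2 i hid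
  · intro h1 d key v hk hv
    have hd : d < k := by
      by_contra hcon
      rw [List.getElem?_eq_none (by omega)] at hk
      exact absurd hk (by simp)
    rw [hget d hd, Option.some.injEq] at hk
    rw [hofn d hd, Option.some.injEq] at hv
    subst hk
    subst hv
    exact (hmain d hd).2 fun i hi => h1 i ⟨d, hd⟩ hi

theorem isCyc_iff_CyP {V : Type} [Fintype V] (G : SimpleGraph V) (k : ℕ) [NeZero k] (hk : 3 ≤ k)
    (x : ZMod k → V) : IsCyc G k x ↔ CyP G k (fun i => x (i.val : ZMod k)) := by
  have hval : ∀ i : ℕ, i < k → ((i : ZMod k)).val = i := fun i hi => ZMod.val_natCast_of_lt hi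
  have hone : (1 : ZMod k).val = 1 := by
    have h1 := hval 1 (by omega)
    rwa [Nat.cast_one] at h1
  have hsucc : ∀ i d : ℕ, i < k → d < k → i < d →
      (((d : ZMod k) = (i : ZMod k) + 1 ∨ (i : ZMod k) = (d : ZMod k) + 1) ↔
        (d = i + 1 ∨ (i = 0 ∧ d = k - 1))) := by
    intro i d hi hd hid
    have e1 : ((d : ZMod k) = (i : ZMod k) + 1) ↔ d = i + 1 := by
      have : (i : ZMod k) + 1 = ((i + 1 : ℕ) : ZMod k) := by push_cast; ring
      rw [this]
      constructor
      · intro h
        have h1 := congrArg ZMod.val h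
        rw [hval d hd] at h1
        rcases Nat.lt_or_ge (i + 1) k with h2 | h2
        · rw [hval _ h2] at h1
          exact h1
        · omega
      · intro h; rw [h]
    have e2 : ((i : ZMod k) = (d : ZMod k) + 1) ↔ (i = 0 ∧ d = k - 1) := by
      have : (d : ZMod k) + 1 = ((d + 1 : ℕ) : ZMod k) := by push_cast; ring
      rw [this]
      constructor
      · intro h
        have h1 := congrArg ZMod.val h
        rw [hval i hi] at h1
        rcases Nat.lt_or_ge (d + 1) k with h2 | h2
        · rw [hval _ h2] at h1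
          omega
        · have h3 : d + 1 = k := by omega
          rw [h3] at h1
          rw [ZMod.natCast_self, ZMod.val_zero] at h1
          exact ⟨h1, by omega⟩
      · rintro ⟨rfl, h⟩
        have h3 : d + 1 = k := by omega
        rw [h3, ZMod.natCast_self, Nat.cast_zero]
    rw [e1, e2]
  constructor
  · intro h i d hid
    rw [h (i.val : ZMod k) (d.val : ZMod k)]
    exact hsucc i.val d.val i.isLt d.isLt hid
  · intro h i j
    have hi := ZMod.val_lt i
    have hj := ZMod.val_lt j
    have ei : ((i.val : ℕ) : ZMod k) = i := ZMod.natCast_zmod_val i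
    have ej : ((j.val : ℕ) : ZMod k) = j := ZMod.natCast_zmod_val j
    rcases Nat.lt_trichotomy i.val j.val with h1 | h1 | h1
    · have h2 := h ⟨i.val, hi⟩ ⟨j.val, hj⟩ h1
      simp only [ei, ej] at h2
      rw [h2, ← hsucc i.val j.val hi hj h1, ei, ej]
    · have hij : i = j := ZMod.val_injective k h1
      subst hij
      have h10 : (1 : ZMod k) ≠ 0 := by
        intro h3
        rw [h3, ZMod.val_zero] at hone
        exact absurd hone (by norm_num)
      constructor
      · intro h3; exact absurd h3 (G.irrefl)
      · intro h3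
        exfalso
        rcases h3 with h3 | h3
        · exact h10 (by simpa using h3)
        · exact h10 (by simpa using h3)
    · have h2 := h ⟨j.val, hj⟩ ⟨i.val, hi⟩ h1
      simp only [ei, ej] at h2
      rw [G.adj_comm, h2, ← hsucc j.val i.val hj hi h1, ei, ej]
      exact or_comm

theorem IV_cycle {V : Type} [Fintype V] (G : SimpleGraph V) (k : ℕ) [NeZero k] (hk : 3 ≤ k)
    (w : ℕ) (hw : w < 39614081257132168796771975168) (ks : List ℕ) (h : keysOK k ks = true) :
    (pathTrie w ks).IV (adjG G) 0 [] = (w : ℤ) * ((Cyc G k).card : ℤ) := by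
  have hlen : ks.length = k := by
    rw [keysOK, Bool.and_eq_true, beq_iff_eq] at h
    exact h.1
  rw [cy_IV (adjG G) w hw ks, hlen, cy_sumL_ofFn]
  congr 1
  have h1 : (∑ φ : Fin k → V, (if cyOk (adjG G) ks [] (List.ofFn φ) then (1 : ℤ) else 0)) =
      (((Finset.univ : Finset (Fin k → V)).filter (fun φ => CyP G k φ)).card : ℤ) := by
    rw [Finset.card_filter]
    push_cast
    refine Finset.sum_congr rfl fun φ _ => ?_
    simp only [cyOk_iff_CyP G k ks h φ]
  rw [h1]
  norm_cast
  symm
  refine Finset.card_bij' (fun x _ => fun i : Fin k => x (i.val : ZMod k))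
    (fun φ _ => fun j : ZMod k => φ ⟨j.val, ZMod.val_lt j⟩) ?_ ?_ ?_ ?_
  · intro x hx
    rw [Cyc, Finset.mem_filter] at hx
    rw [Finset.mem_filter]
    exact ⟨Finset.mem_univ _, (isCyc_iff_CyP G k hk x).1 hx.2⟩
  · intro φ hφ
    rw [Finset.mem_filter] at hφ
    rw [Cyc, Finset.mem_filter]
    refine ⟨Finset.mem_univ _, (isCyc_iff_CyP G k hk _).2 ?_⟩
    have e : (fun i : Fin k => φ ⟨((i.val : ℕ) : ZMod k).val, ZMod.val_lt _⟩) = φ := by
      funext i
      congr 1
      apply Fin.ext
      exact ZMod.val_natCast_of_lt i.isLt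
    rw [e]
    exact hφ.2
  · intro x _
    funext j
    show x ((j.val : ℕ) : ZMod k) = x j
    rw [ZMod.natCast_zmod_val]
  · intro φ _
    funext i
    show φ ⟨((i.val : ℕ) : ZMod k).val, ZMod.val_lt _⟩ = φ i
    congr 1
    apply Fin.ext
    exact ZMod.val_natCast_of_lt i.isLt

end Pool.Agent.ICyc.Flag
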