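import Mathlib

/-!
# Finite flag algebra certificates for the number of induced cycles: definitions

Everything is stated for lists of vertices (sampling with replacement); `A` is the adjacency
relation with values in `{0, 1}`.  The functions are written with recursors and raw operations on
numbers, so that the kernel evaluates them quickly.
-/

set_option autoImplicit false

namespace Pool.Agent.ICyc.Flag

universe u

variable {α : Type u}

/-- sum of `f a r` over all ways of removing one entry `a` from a list, `r` the remaining list -/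
noncomputable def spSum (l : List α) : (α → List α → ℤ) → ℤ :=
  List.rec (motive := fun _ => (α → List α → ℤ) → ℤ) (fun _ => 0)
    (fun a t ih f => Int.add (f a t) (ih (fun b r => f b (a :: r)))) l

theorem spSum_nil (f : α → List α → ℤ) : spSum [] f = 0 := rfl

theorem spSum_cons (a : α) (t : List α) (f : α → List α → ℤ) :
    spSum (a :: t) f = f a t + spSum t (fun b r => f b (a :: r)) := rfl

/-- sum of `f s r` over all ordered selections `s` of `n` entries, `r` the remaining list -/
noncomputable def sel : ℕ → List α → (List α → List α → ℤ) → ℤ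
  | 0, L, f => f [] L
  | n + 1, L, f => spSum L (fun a r => sel n r (fun s r' => f (a :: s) r'))

/-- sum of `f s r` over all sublists `s` of length `n`, `r` the remaining list -/
noncomputable def sub (l : List α) : ℕ → (List α → List α → ℤ) → ℤ :=
  List.rec (motive := fun _ => ℕ → (List α → List α → ℤ) → ℤ)
    (fun n f => Nat.rec (motive := fun _ => ℤ) (f [] []) (fun _ _ => 0) n)
    (fun a t ih n f => Nat.rec (motive := fun _ => ℤ) (f [] (a :: t))
      (fun m _ => Int.add (ih m (fun s r => f (a :: s) r))
        (ih (Nat.succ m) (fun s r => f s (a :: r)))) n) l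

theorem sub_zero (l : List α) (f : List α → List α → ℤ) : sub l 0 f = f [] l := by
  cases l <;> rfl

theorem sub_nil_succ (n : ℕ) (f : List α → List α → ℤ) : sub [] (n + 1) f = 0 := rfl

theorem sub_cons_succ (a : α) (t : List α) (n : ℕ) (f : List α → List α → ℤ) :
    sub (a :: t) (n + 1) f =
      sub t n (fun s r => f (a :: s) r) + sub t (n + 1) (fun s r => f s (a :: r)) := rfl

/-- bit mask of the adjacencies of `v` to the entries of a list (head = lowest bit) -/
noncomputable def row (A : α → α → ℕ) (x : List α) (v : α) : ℕ :=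
  List.rec (motive := fun _ => ℕ) 0 (fun a _ ih => Nat.add (A a v) (Nat.mul 2 ih)) x

theorem row_nil (A : α → α → ℕ) (v : α) : row A [] v = 0 := rfl

theorem row_cons (A : α → α → ℕ) (a : α) (x : List α) (v : α) :
    row A (a :: x) v = A a v + 2 * row A x v := rfl

/-- number of entries of the list adjacent to `v` -/
noncomputable def cnt (A : α → α → ℕ) (y : List α) (v : α) : ℕ :=
  List.rec (motive := fun _ => ℕ) 0 (fun a _ ih => Nat.add (A a v) ih) y

theorem cnt_nil (A : α → α → ℕ) (v : α) : cnt A [] v = 0 := rfl

theorem cnt_cons (A : α → α → ℕ) (a : α) (y : List α) (v : α) :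
    cnt A (a :: y) v = A a v + cnt A y v := rfl

/-- table look-up: the `i`-th digit of `t` in base `2 ^ w` -/
def lk (w t i : ℕ) : ℕ := Nat.mod (Nat.shiftRight t (Nat.mul w i)) (Nat.pow 2 w)

/-- sum of the weights of the entries of `z`, as vertices of the flag `(x, y)` -/
noncomputable def wsum (A : α → α → ℕ) (b wt : ℕ) (x y z : List α) : ℕ :=
  List.rec (motive := fun _ => ℕ) 0
    (fun v _ ih => Nat.add (lk 16 wt (Nat.add (row A x v) (Nat.mul b (cnt A y v)))) ih) z

theorem wsum_nil (A : α → α → ℕ) (b wt : ℕ) (x y : List α) : wsum A b wt x y [] = 0 := rfl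

theorem wsum_cons (A : α → α → ℕ) (b wt : ℕ) (x y : List α) (v : α) (z : List α) :
    wsum A b wt x y (v :: z) =
      lk 16 wt (row A x v + b * cnt A y v) + wsum A b wt x y z := rfl

/-- index of the flag `(x, y)` -/
noncomputable def flg (A : α → α → ℕ) (b n wt tab : ℕ) (x y : List α) : ℕ :=
  Nat.mod (lk 8 tab (wsum A b wt x y y)) n

/-- index of the flag `(x, [y])` -/
noncomputable def fl1 (A : α → α → ℕ) (n tab : ℕ) (x : List α) (y : α) : ℕ :=
  Nat.mod (lk 8 tab (row A x y)) n

/-- entry of a matrix -/
def mval (n mat i j : ℕ) : ℤ :=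
  Int.subNatNat (lk 96 mat (Nat.add (Nat.mul i n) j)) 39614081257132168796771975168

/-- A certificate: a trie of types; a leaf contains a matrix indexed by flags. -/
inductive Trie where
  | nil : Trie
  | cons (key : ℕ) (child sib : Trie) : Trie
  | node (ch : Trie) : Trie
  | add (S T : Trie) : Trie
  | leaf1 (n tab mat : ℕ) : Trie
  | leaf (m b n wt tab mat : ℕ) : Trie

/-- slow evaluation on a list of vertices -/
noncomputable def Trie.E (A : α → α → ℕ) : Trie → ℕ → List α → List α → ℤ
  | .nil, _, _, _ => 0
  | .cons k c s, key, x, l => if k = key then c.E A 0 x l else s.E A key x l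
  | .node ch, _, x, l => spSum l (fun a r => ch.E A (row A x a) (a :: x) r)
  | .add S T, key, x, l => S.E A key x l + T.E A key x l
  | .leaf1 n tab mat, _, x, l =>
      spSum l (fun y r => spSum r (fun z _ => mval n mat (fl1 A n tab x y) (fl1 A n tab x z)))
  | .leaf m b n wt tab mat, _, x, l =>
      sel m l (fun y r => sel m r (fun z _ =>
        mval n mat (flg A b n wt tab x y) (flg A b n wt tab x z)))

/-- fast evaluation -/
noncomputable def Trie.ev (A : α → α → ℕ) (T : Trie) : ℕ → List α → List α → ℤ :=
  Trie.rec (motive := fun _ => ℕ → List α → List α → ℤ)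
    (fun _ _ _ => 0)
    (fun k _ _ ihc ihs key x l =>
      Bool.rec (motive := fun _ => ℤ) (ihs key x l) (ihc 0 x l) (Nat.beq k key))
    (fun _ ih _ x l => spSum l (fun a r => ih (row A x a) (a :: x) r))
    (fun _ _ ih1 ih2 key x l => Int.add (ih1 key x l) (ih2 key x l))
    (fun n tab mat _ x l =>
      spSum l (fun y r => spSum r (fun z _ => mval n mat (fl1 A n tab x y) (fl1 A n tab x z))))
    (fun m b n wt tab mat _ x l =>
      Int.mul (Int.ofNat (Nat.mul m.factorial m.factorial))
        (sub l m (fun y r => mval n mat (flg A b n wt tab x y) (flg A b n wt tab x r)))) T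

/-- all leaves are at the correct depth -/
def Trie.wf : Trie → ℕ → Bool
  | .nil, _ => true
  | .cons _ c s, N => c.wf N && s.wf N
  | .node ch, N => decide (1 ≤ N) && ch.wf (N - 1)
  | .add S T, N => S.wf N && T.wf N
  | .leaf1 _ _ _, N => N == 2
  | .leaf m _ _ _ _ _, N => N == 2 * m

/-- adjacency in the graph coded by a natural number -/
def adjM (H i j : ℕ) : ℕ := Nat.mod (Nat.shiftRight H (Nat.add (Nat.mul 16 i) j)) 2

end Pool.Agent.ICyc.Flag
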