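import Pool.Agent.Lib.MP_131fce_co.Flag.Defs

/-!
# `Trie.E` is invariant under permutations, natural, and equal to the fast evaluation `Trie.ev`
-/

set_option autoImplicit false

namespace Pool.Agent.ICyc.Flag

universe u v

variable {α : Type u} {β : Type v}

theorem spSum_perm {l l' : List α} (h : l.Perm l') (f f' : α → List α → ℤ)
    (hf : ∀ a r r', r.Perm r' → f a r = f' a r') : spSum l f = spSum l' f' := by
  induction h generalizing f f' with
  | nil => rfl
  | cons x h ih =>
    rw [spSum_cons, spSum_cons, hf x _ _ h]
    congr 1
    exact ih _ _ fun a r r' hr => hf a _ _ (hr.cons x)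
  | swap x y l =>
    rw [spSum_cons, spSum_cons, spSum_cons, spSum_cons, hf y _ _ (List.Perm.refl _),
      hf x _ _ (List.Perm.refl _)]
    have h1 : (fun b r => f b (y :: x :: r)) = fun b r => f' b (x :: y :: r) := by
      funext b r
      exact hf b _ _ (List.Perm.swap x y r)
    rw [h1]
    ring
  | trans h1 h2 ih1 ih2 =>
    rw [ih1 f f' hf]
    refine ih2 f' f' fun a r r' hr => ?_
    rw [← hf a r r (List.Perm.refl _)]
    exact hf a r r' hr

private theorem Perm_sel_perm (n : ℕ) : ∀ {l l' : List α}, l.Perm l' →
    ∀ f f' : List α → List α → ℤ, (∀ s r r', r.Perm r' → f s r = f' s r') →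
    sel n l f = sel n l' f' := by
  induction n with
  | zero =>
    intro l l' h f f' hf
    exact hf [] l l' h
  | succ n ih =>
    intro l l' h f f' hf
    exact spSum_perm h _ _ fun a r r' hr => ih hr _ _ fun s r1 r2 h12 => hf (a :: s) r1 r2 h12

theorem E_perm (A : α → α → ℕ) (T : Trie) : ∀ (key : ℕ) (x : List α) {l l' : List α},
    l.Perm l' → T.E A key x l = T.E A key x l' := by
  induction T with
  | nil => intro key x l l' h; rfl
  | cons k c s ihc ihs =>
    intro key x l l' h
    simp only [Trie.E]
    rw [ihc 0 x h, ihs key x h]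
  | node ch ih =>
    intro key x l l' h
    simp only [Trie.E]
    exact spSum_perm h _ _ fun a r r' hr => ih _ _ hr
  | add S T ihS ihT =>
    intro key x l l' h
    simp only [Trie.E]
    rw [ihS key x h, ihT key x h]
  | leaf1 n tab mat =>
    intro key x l l' h
    simp only [Trie.E]
    exact spSum_perm h _ _ fun a r r' hr => spSum_perm hr _ _ fun _ _ _ _ => rfl
  | leaf m b n wt tab mat =>
    intro key x l l' h
    simp only [Trie.E]
    exact Perm_sel_perm m h _ _ fun a r r' hr => Perm_sel_perm m hr _ _ fun _ _ _ _ => rfl

private theorem Perm_spSum_map (φ : α → β) (l : List α) : ∀ f : β → List β → ℤ,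
    spSum (l.map φ) f = spSum l (fun a r => f (φ a) (r.map φ)) := by
  induction l with
  | nil => intro f; rfl
  | cons a t ih =>
    intro f
    rw [List.map_cons, spSum_cons, spSum_cons, ih]
    rfl

private theorem Perm_sel_map (φ : α → β) (n : ℕ) : ∀ (l : List α) (f : List β → List β → ℤ),
    sel n (l.map φ) f = sel n l (fun s r => f (s.map φ) (r.map φ)) := by
  induction n with
  | zero => intro l f; rfl
  | succ n ih =>
    intro l f
    show spSum (l.map φ) (fun a r => sel n r (fun s r' => f (a :: s) r')) =
      spSum l (fun a r => sel n r (fun s r' => f ((a :: s).map φ) (r'.map φ)))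
    rw [Perm_spSum_map]
    congr 1
    funext a r
    rw [ih]
    rfl

private theorem Perm_row_map (A : β → β → ℕ) (B : α → α → ℕ) (φ : α → β)
    (h : ∀ i j, A (φ i) (φ j) = B i j) (x : List α) (v : α) :
    row A (x.map φ) (φ v) = row B x v := by
  induction x with
  | nil => rfl
  | cons a x ih => rw [List.map_cons, row_cons, row_cons, ih, h]

private theorem Perm_cnt_map (A : β → β → ℕ) (B : α → α → ℕ) (φ : α → β)
    (h : ∀ i j, A (φ i) (φ j) = B i j) (x : List α) (v : α) :
    cnt A (x.map φ) (φ v) = cnt B x v := by
  induction x with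
  | nil => rfl
  | cons a x ih => rw [List.map_cons, cnt_cons, cnt_cons, ih, h]

private theorem Perm_wsum_map (A : β → β → ℕ) (B : α → α → ℕ) (φ : α → β)
    (h : ∀ i j, A (φ i) (φ j) = B i j) (b wt : ℕ) (x y z : List α) :
    wsum A b wt (x.map φ) (y.map φ) (z.map φ) = wsum B b wt x y z := by
  induction z with
  | nil => rfl
  | cons v z ih =>
    rw [List.map_cons, wsum_cons, wsum_cons, ih, Perm_row_map A B φ h, Perm_cnt_map A B φ h]

theorem E_map (A : β → β → ℕ) (B : α → α → ℕ) (φ : α → β) (h : ∀ i j, A (φ i) (φ j) = B i j)
    (T : Trie) : ∀ (key : ℕ) (x l : List α), T.E A key (x.map φ) (l.map φ) = T.E B key x l := by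
  induction T with
  | nil => intro key x l; rfl
  | cons k c s ihc ihs =>
    intro key x l
    simp only [Trie.E]
    rw [ihc 0 x l, ihs key x l]
  | node ch ih =>
    intro key x l
    simp only [Trie.E]
    rw [Perm_spSum_map]
    congr 1
    funext a r
    rw [Perm_row_map A B φ h, ← List.map_cons, ih]
  | add S T ihS ihT =>
    intro key x l
    simp only [Trie.E]
    rw [ihS key x l, ihT key x l]
  | leaf1 n tab mat =>
    intro key x l
    simp only [Trie.E]
    rw [Perm_spSum_map]
    congr 1
    funext y r
    rw [Perm_spSum_map]
    congr 1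
    funext z r'
    unfold fl1
    rw [Perm_row_map A B φ h, Perm_row_map A B φ h]
  | leaf m b n wt tab mat =>
    intro key x l
    simp only [Trie.E]
    rw [Perm_sel_map]
    congr 1
    funext y r
    rw [Perm_sel_map]
    congr 1
    funext z r'
    unfold flg
    rw [Perm_wsum_map A B φ h, Perm_wsum_map A B φ h]

private theorem Perm_spSum_congr (l : List α) : ∀ F G : α → List α → ℤ,
    (∀ a r, r.length + 1 = l.length → F a r = G a r) → spSum l F = spSum l G := by
  induction l with
  | nil => intro F G _; rfl
  | cons a t ih =>
    intro F G h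
    rw [spSum_cons, spSum_cons, h a t (by simp)]
    congr 1
    refine ih _ _ fun b r hr => h b (a :: r) ?_
    simp only [List.length_cons]
    omega

private theorem Perm_sel_congr (m : ℕ) : ∀ (l : List α) (F G : List α → List α → ℤ),
    (∀ s r, r.length + m = l.length → F s r = G s r) → sel m l F = sel m l G := by
  induction m with
  | zero =>
    intro l F G h
    exact h [] l (by simp)
  | succ m ih =>
    intro l F G h
    refine Perm_spSum_congr l _ _ fun a r hr => ih r _ _ fun s r' hr' => h (a :: s) r' ?_
    omega

private theorem Perm_spSum_add (l : List α) : ∀ F G : α → List α → ℤ,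
    spSum l (fun a r => F a r + G a r) = spSum l F + spSum l G := by
  induction l with
  | nil => intro F G; rfl
  | cons a t ih =>
    intro F G
    rw [spSum_cons, spSum_cons, spSum_cons, ih]
    ring

private theorem Perm_spSum_mul (c : ℤ) (l : List α) : ∀ F : α → List α → ℤ,
    spSum l (fun a r => c * F a r) = c * spSum l F := by
  induction l with
  | nil => intro F; rw [spSum_nil, spSum_nil, mul_zero]
  | cons a t ih =>
    intro F
    rw [spSum_cons, spSum_cons, ih, mul_add]

private theorem Perm_sub_mul (c : ℤ) (l : List α) : ∀ (n : ℕ) (F : List α → List α → ℤ),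
    sub l n (fun a r => c * F a r) = c * sub l n F := by
  induction l with
  | nil =>
    intro n F
    cases n with
    | zero => rfl
    | succ n => rw [sub_nil_succ, sub_nil_succ, mul_zero]
  | cons a t ih =>
    intro n F
    cases n with
    | zero => rfl
    | succ n => rw [sub_cons_succ, sub_cons_succ, ih, ih, mul_add]

private theorem Perm_key (l : List α) : ∀ (m : ℕ) (f : List α → List α → ℤ),
    (∀ s s' r r', s.Perm s' → r.Perm r' → f s r = f s' r') →
    spSum l (fun a r => sub r m (fun s r' => f (a :: s) r')) = ((m : ℤ) + 1) * sub l (m + 1) f := by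
  induction l with
  | nil =>
    intro m f _
    rw [spSum_nil, sub_nil_succ, mul_zero]
  | cons b t ih =>
    intro m f hf
    have hf' : ∀ s s' r r', s.Perm s' → r.Perm r' →
        (fun s r => f s (b :: r)) s r = (fun s r => f s (b :: r)) s' r' :=
      fun s s' r r' hs hr => hf _ _ _ _ hs (hr.cons b)
    have hf'' : ∀ s s' r r', s.Perm s' → r.Perm r' →
        (fun s r => f (b :: s) r) s r = (fun s r => f (b :: s) r) s' r' :=
      fun s s' r r' hs hr => hf _ _ _ _ (hs.cons b) hr
    rw [spSum_cons, sub_cons_succ]
    cases m with
    | zero =>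
      have h1 := ih 0 (fun s r => f s (b :: r)) hf'
      have h2 : spSum t (fun b_1 r => sub (b :: r) 0 (fun s r' => f (b_1 :: s) r')) =
          spSum t (fun a r => sub r 0 (fun s r' => (fun s r => f s (b :: r)) (a :: s) r')) := by
        congr 1
        funext a r
        rw [sub_zero, sub_zero]
      rw [h2, h1]
      push_cast
      ring
    | succ m =>
      have h1 := ih (m + 1) (fun s r => f s (b :: r)) hf'
      have h2 := ih m (fun s r => f (b :: s) r) hf''
      have h3 : spSum t (fun b_1 r => sub (b :: r) (m + 1) (fun s r' => f (b_1 :: s) r')) =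
          spSum t (fun a r => sub r m (fun s r' => (fun s r => f (b :: s) r) (a :: s) r')) +
          spSum t (fun a r => sub r (m + 1) (fun s r' => (fun s r => f s (b :: r)) (a :: s) r')) := by
        rw [← Perm_spSum_add]
        congr 1
        funext a r
        rw [sub_cons_succ]
        congr 1
        congr 1
        funext s r'
        exact hf _ _ _ _ (List.Perm.swap b a s) (List.Perm.refl _)
      rw [h3, h1, h2]
      push_cast
      ring

private theorem Perm_sel_sub (m : ℕ) : ∀ (l : List α) (f : List α → List α → ℤ),
    (∀ s s' r r', s.Perm s' → r.Perm r' → f s r = f s' r') →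
    sel m l f = (m.factorial : ℤ) * sub l m f := by
  induction m with
  | zero =>
    intro l f _
    rw [sub_zero]
    show f [] l = _
    simp
  | succ m ih =>
    intro l f hf
    have h1 : sel (m + 1) l f =
        spSum l (fun a r => (m.factorial : ℤ) * sub r m (fun s r' => f (a :: s) r')) := by
      show spSum l (fun a r => sel m r (fun s r' => f (a :: s) r')) = _
      congr 1
      funext a r
      exact ih r _ fun s s' r r' hs hr => hf _ _ _ _ (hs.cons a) hr
    rw [h1, Perm_spSum_mul, Perm_key l m f hf, Nat.factorial_succ]
    push_cast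
    ring

private theorem Perm_sub_gt (l : List α) : ∀ (n : ℕ) (f : List α → List α → ℤ),
    l.length < n → sub l n f = 0 := by
  induction l with
  | nil =>
    intro n f h
    cases n with
    | zero => exact absurd h (by simp)
    | succ n => rfl
  | cons a t ih =>
    intro n f h
    cases n with
    | zero => exact absurd h (by simp)
    | succ n =>
      rw [List.length_cons] at h
      rw [sub_cons_succ, ih n _ (by omega), ih (n + 1) _ (by omega), add_zero]

private theorem Perm_sub_full (l : List α) : ∀ (n : ℕ) (f : List α → List α → ℤ),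
    l.length = n → sub l n f = f l [] := by
  induction l with
  | nil =>
    intro n f h
    cases n with
    | zero => rfl
    | succ n => exact absurd h (by simp)
  | cons a t ih =>
    intro n f h
    cases n with
    | zero => exact absurd h (by simp)
    | succ n =>
      rw [List.length_cons] at h
      rw [sub_cons_succ, ih n _ (by omega), Perm_sub_gt t (n + 1) _ (by omega), add_zero]

private theorem Perm_cnt_perm (A : α → α → ℕ) {y y' : List α} (h : y.Perm y') (v : α) :
    cnt A y v = cnt A y' v := by
  induction h with
  | nil => rfl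
  | cons x h ih => rw [cnt_cons, cnt_cons, ih]
  | swap x y l =>
    rw [cnt_cons, cnt_cons, cnt_cons, cnt_cons]
    ring
  | trans h1 h2 ih1 ih2 => rw [ih1, ih2]

private theorem Perm_wsum_cnt (A : α → α → ℕ) (b wt : ℕ) (x : List α) {y y' : List α}
    (h : y.Perm y') (z : List α) : wsum A b wt x y z = wsum A b wt x y' z := by
  induction z with
  | nil => rfl
  | cons v z ih => rw [wsum_cons, wsum_cons, ih, Perm_cnt_perm A h]

private theorem Perm_wsum_perm (A : α → α → ℕ) (b wt : ℕ) (x y : List α) {z z' : List α}
    (h : z.Perm z') : wsum A b wt x y z = wsum A b wt x y z' := by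
  induction h with
  | nil => rfl
  | cons v h ih => rw [wsum_cons, wsum_cons, ih]
  | swap v w l =>
    rw [wsum_cons, wsum_cons, wsum_cons, wsum_cons]
    ring
  | trans h1 h2 ih1 ih2 => rw [ih1, ih2]

private theorem Perm_flg (A : α → α → ℕ) (b n wt tab : ℕ) (x : List α) {y y' : List α}
    (h : y.Perm y') : flg A b n wt tab x y = flg A b n wt tab x y' := by
  unfold flg
  rw [Perm_wsum_cnt A b wt x h y, Perm_wsum_perm A b wt x y' h]

theorem E_eq_ev (A : α → α → ℕ) (T : Trie) : ∀ (key : ℕ) (x l : List α),
    T.wf l.length = true → T.E A key x l = T.ev A key x l := by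
  induction T with
  | nil => intro key x l _; rfl
  | cons k c s ihc ihs =>
    intro key x l hwf
    simp only [Trie.wf, Bool.and_eq_true] at hwf
    simp only [Trie.E]
    show _ = (Bool.rec (motive := fun _ => ℤ) (s.ev A key x l) (c.ev A 0 x l) (Nat.beq k key) : ℤ)
    by_cases h : k = key
    · rw [if_pos h, h]
      have h1 : Nat.beq key key = true := Nat.beq_refl key
      rw [h1]
      exact ihc 0 x l hwf.1
    · rw [if_neg h]
      have h1 : Nat.beq k key = false := by
        rw [← Bool.not_eq_true]
        intro h2
        exact h (Nat.eq_of_beq_eq_true h2)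
      rw [h1]
      exact ihs key x l hwf.2
  | node ch ih =>
    intro key x l hwf
    simp only [Trie.wf, Bool.and_eq_true] at hwf
    simp only [Trie.E]
    show _ = spSum l (fun a r => ch.ev A (row A x a) (a :: x) r)
    refine Perm_spSum_congr l _ _ fun a r hr => ih _ _ _ ?_
    have h1 : r.length = l.length - 1 := by omega
    rw [h1]
    exact hwf.2
  | add S T ihS ihT =>
    intro key x l hwf
    simp only [Trie.wf, Bool.and_eq_true] at hwf
    simp only [Trie.E]
    show _ = S.ev A key x l + T.ev A key x l
    rw [ihS key x l hwf.1, ihT key x l hwf.2]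
  | leaf1 n tab mat => intro key x l _; rfl
  | leaf m b n wt tab mat =>
    intro key x l hwf
    simp only [Trie.wf, beq_iff_eq] at hwf
    simp only [Trie.E]
    show _ = (((m.factorial * m.factorial : ℕ) : ℤ)) *
      (sub l m (fun y r => mval n mat (flg A b n wt tab x y) (flg A b n wt tab x r)))
    have h1 : sel m l (fun y r => sel m r (fun z _ =>
        mval n mat (flg A b n wt tab x y) (flg A b n wt tab x z))) =
        sel m l (fun y r => (m.factorial : ℤ) *
          mval n mat (flg A b n wt tab x y) (flg A b n wt tab x r)) := by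
      refine Perm_sel_congr m l _ _ fun y r hr => ?_
      show sel m r (fun z _ => mval n mat (flg A b n wt tab x y) (flg A b n wt tab x z)) = _
      rw [Perm_sel_sub m r _ fun s s' r r' hs _ => by
        show mval n mat _ (flg A b n wt tab x s) = mval n mat _ (flg A b n wt tab x s')
        rw [Perm_flg A b n wt tab x hs]]
      rw [Perm_sub_full r m _ (by omega)]
    rw [h1, Perm_sel_sub m l _ fun s s' r r' hs hr => by
      show (m.factorial : ℤ) * mval n mat (flg A b n wt tab x s) (flg A b n wt tab x r) =
        (m.factorial : ℤ) * mval n mat (flg A b n wt tab x s') (flg A b n wt tab x r')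
      rw [Perm_flg A b n wt tab x hs, Perm_flg A b n wt tab x hr]]
    rw [Perm_sub_mul]
    push_cast
    ring

end Pool.Agent.ICyc.Flag
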