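import Pool.Agent.Lib.MP_131fce_co.Flag.PsdDefs

/-!
# Soundness of the check of positive semidefiniteness
-/

set_option autoImplicit false

namespace Pool.Agent.ICyc.Flag

open Finset

theorem allF_true (n : ℕ) (p : ℕ → Bool) (h : allF n p = true) : ∀ i, i < n → p i = true := by
  induction n with
  | zero => intro i hi; omega
  | succ n ih =>
    intro i hi
    have h' : (p n && allF n p) = true := h
    rw [Bool.and_eq_true] at h'
    rcases Nat.lt_succ_iff_lt_or_eq.mp hi with h1 | h1
    · exact ih h'.2 i h1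
    · rw [h1]; exact h'.1

theorem unpk_succ (w r x : ℕ) : unpk w (r + 1) x = x % 2 ^ w :: unpk w r (x >>> w) := rfl

theorem lk_shift (w x k : ℕ) : lk w (x >>> w) k = lk w x (k + 1) := by
  change (x >>> w) >>> (w * k) % 2 ^ w = x >>> (w * (k + 1)) % 2 ^ w
  rw [← Nat.shiftRight_add, Nat.mul_succ, Nat.add_comm w]

theorem lk_zero (w x : ℕ) : lk w x 0 = x % 2 ^ w := by
  change x >>> (w * 0) % 2 ^ w = x % 2 ^ w
  simp

theorem dotN_cons (a b : ℕ) (x y : List ℕ) : dotN (a :: x) (b :: y) = a * b + dotN x y := rfl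

theorem sumN_cons (a : ℕ) (x : List ℕ) : sumN (a :: x) = a + sumN x := rfl

theorem dotN_unpk (w r : ℕ) : ∀ x y : ℕ,
    dotN (unpk w r x) (unpk w r y) = ∑ k ∈ range r, lk w x k * lk w y k := by
  induction r with
  | zero => intro x y; rfl
  | succ r ih =>
    intro x y
    rw [unpk_succ, unpk_succ, dotN_cons, ih, sum_range_succ', lk_zero, lk_zero, Nat.add_comm]
    congr 1
    exact sum_congr rfl (fun k _ => by rw [lk_shift, lk_shift])

theorem sumN_unpk (w r : ℕ) : ∀ x : ℕ, sumN (unpk w r x) = ∑ k ∈ range r, lk w x k := by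
  induction r with
  | zero => intro x; rfl
  | succ r ih =>
    intro x
    rw [unpk_succ, sumN_cons, ih, sum_range_succ', lk_zero, Nat.add_comm]
    congr 1
    exact sum_congr rfl (fun k _ => by rw [lk_shift])

theorem ent_eq (w h x k : ℕ) : ent w h x k = (lk w x k : ℤ) - h := by
  change Int.subNatNat (lk w x k) h = _
  rw [Int.subNatNat_eq_coe]

theorem zd_eq (w h r x y : ℕ) :
    zd w h r x y = ∑ k ∈ range r, ent w h x k * ent w h y k := by
  change Int.subNatNat (dotN (unpk w r x) (unpk w r y) + r * (h * h))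
    (h * (sumN (unpk w r x) + sumN (unpk w r y))) = _
  rw [Int.subNatNat_eq_coe, dotN_unpk, sumN_unpk, sumN_unpk]
  simp only [ent_eq]
  have : ∀ k ∈ range r, ((lk w x k : ℤ) - h) * ((lk w y k : ℤ) - h) =
      (lk w x k : ℤ) * lk w y k + h * h - h * ((lk w x k : ℤ) + lk w y k) := by
    intro k _; ring
  have e1 : ∑ k ∈ range r, ((h : ℤ) * h) = r * (h * h) := by simp
  have e2 : ∑ k ∈ range r, (h : ℤ) * ((lk w x k : ℤ) + lk w y k) =
      h * (∑ k ∈ range r, (lk w x k : ℤ) + ∑ k ∈ range r, (lk w y k : ℤ)) := by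
    rw [← mul_sum, sum_add_distrib]
  rw [sum_congr rfl this, sum_sub_distrib, sum_add_distrib, e1, e2]
  push_cast
  ring

/-- abstract form -/
theorem psd_abs (n r : ℕ) (s e : ℤ) (hs : 0 < s) (he : 0 ≤ e) (M P G R E : ℕ → ℕ → ℤ)
    (h1 : ∀ i < n, ∀ j < n, s * M i j = ∑ k ∈ range r, P i k * P j k + ∑ a ∈ range r, G i a * R j a)
    (h2 : ∀ i < n, ∀ a < r, G i a = ∑ b ∈ range r, R i b * E a b)
    (h3 : ∀ a < r, ∀ b < r, a ≠ b → |E a b| ≤ e) (h4 : ∀ a < r, r * e ≤ E a a) (c : ℕ → ℤ) :
    0 ≤ ∑ i ∈ range n, ∑ j ∈ range n, M i j * c i * c j := by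
  set u : ℕ → ℤ := fun b => ∑ i ∈ range n, R i b * c i with hu
  have key : s * ∑ i ∈ range n, ∑ j ∈ range n, M i j * c i * c j =
      ∑ k ∈ range r, (∑ i ∈ range n, P i k * c i) ^ 2 +
        ∑ a ∈ range r, ∑ b ∈ range r, E a b * u b * u a := by
    have e1 : s * ∑ i ∈ range n, ∑ j ∈ range n, M i j * c i * c j =
        ∑ i ∈ range n, ∑ j ∈ range n, (∑ k ∈ range r, (P i k * c i) * (P j k * c j) +
          ∑ a ∈ range r, (G i a * c i) * (R j a * c j)) := by
      rw [mul_sum]
      refine sum_congr rfl fun i hi => ?_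
      rw [mul_sum]
      refine sum_congr rfl fun j hj => ?_
      have := h1 i (mem_range.mp hi) j (mem_range.mp hj)
      calc s * (M i j * c i * c j) = (s * M i j) * (c i * c j) := by ring
        _ = _ := by
          rw [this, add_mul, sum_mul, sum_mul]
          congr 1 <;> exact sum_congr rfl (fun k _ => by ring)
    rw [e1]
    simp only [sum_add_distrib]
    congr 1
    · have : ∀ k ∈ range r, (∑ i ∈ range n, P i k * c i) ^ 2 =
          ∑ i ∈ range n, ∑ j ∈ range n, (P i k * c i) * (P j k * c j) := by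
        intro k _
        rw [sq, sum_mul_sum]
      rw [sum_congr rfl this]
      symm
      rw [sum_comm]
      refine sum_congr rfl fun i _ => ?_
      rw [sum_comm]
    · have : ∀ a ∈ range r, ∑ b ∈ range r, E a b * u b * u a =
          ∑ i ∈ range n, ∑ j ∈ range n, (G i a * c i) * (R j a * c j) := by
        intro a ha
        have hG : ∑ i ∈ range n, G i a * c i = ∑ b ∈ range r, E a b * u b := by
          calc ∑ i ∈ range n, G i a * c i
              = ∑ i ∈ range n, ∑ b ∈ range r, E a b * (R i b * c i) := by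
                refine sum_congr rfl fun i hi => ?_
                rw [h2 i (mem_range.mp hi) a (mem_range.mp ha), sum_mul]
                exact sum_congr rfl (fun b _ => by ring)
            _ = _ := by
                rw [sum_comm]
                refine sum_congr rfl fun b _ => ?_
                rw [hu, mul_sum]
        rw [← sum_mul, ← hG, hu, sum_mul_sum]
      rw [sum_congr rfl this]
      symm
      rw [sum_comm]
      refine sum_congr rfl fun i _ => ?_
      rw [sum_comm]
  have hE : 0 ≤ ∑ a ∈ range r, ∑ b ∈ range r, E a b * u b * u a := by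
    have hb : ∀ a ∈ range r, ∀ b ∈ range r,
        (if a = b then (r : ℤ) * e * (u a) ^ 2 else 0) - e * ((u a) ^ 2 + (u b) ^ 2) / 2 ≤
          E a b * u b * u a := by
      intro a ha b hb
      by_cases hab : a = b
      · subst hab
        rw [if_pos rfl]
        have h5 := h4 a (mem_range.mp ha)
        have h6 : 0 ≤ e * ((u a) ^ 2 + (u a) ^ 2) / 2 := by positivity
        nlinarith [sq_nonneg (u a)]
      · rw [if_neg hab]
        have h5 := h3 a (mem_range.mp ha) b (mem_range.mp hb) hab
        have h6 : -(e * (|u a| * |u b|)) ≤ E a b * u b * u a := by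
          have : |E a b * u b * u a| ≤ e * (|u a| * |u b|) := by
            rw [abs_mul, abs_mul, mul_assoc, mul_comm (|u b|)]
            exact mul_le_mul_of_nonneg_right h5 (by positivity)
          exact neg_le_of_abs_le this
        have h7 : 2 * (|u a| * |u b|) ≤ (u a) ^ 2 + (u b) ^ 2 := by
          nlinarith [sq_nonneg (|u a| - |u b|), sq_abs (u a), sq_abs (u b)]
        have h8 : e * (|u a| * |u b|) ≤ e * ((u a) ^ 2 + (u b) ^ 2) / 2 := by
          rw [Int.le_ediv_iff_mul_le (by norm_num)]
          nlinarith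
        linarith
    have h9 : 0 ≤ ∑ a ∈ range r, ∑ b ∈ range r,
        ((if a = b then (r : ℤ) * e * (u a) ^ 2 else 0) - e * ((u a) ^ 2 + (u b) ^ 2) / 2) := by
      simp only [sum_sub_distrib]
      have e1 : ∑ a ∈ range r, ∑ b ∈ range r, (if a = b then (r : ℤ) * e * (u a) ^ 2 else 0) =
          ∑ a ∈ range r, (r : ℤ) * e * (u a) ^ 2 := by
        refine sum_congr rfl fun a ha => ?_
        rw [sum_ite_eq, if_pos ha]
      have e2 : ∑ a ∈ range r, ∑ b ∈ range r, e * ((u a) ^ 2 + (u b) ^ 2) / 2 ≤
          ∑ a ∈ range r, (r : ℤ) * e * (u a) ^ 2 := by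
        have h10 : 2 * ∑ a ∈ range r, ∑ b ∈ range r, e * ((u a) ^ 2 + (u b) ^ 2) / 2 ≤
            ∑ a ∈ range r, ∑ b ∈ range r, e * ((u a) ^ 2 + (u b) ^ 2) := by
          rw [mul_sum]
          refine sum_le_sum fun a _ => ?_
          rw [mul_sum]
          refine sum_le_sum fun b _ => ?_
          exact Int.mul_ediv_self_le (by norm_num)
        have h11 : ∑ a ∈ range r, ∑ b ∈ range r, e * ((u a) ^ 2 + (u b) ^ 2) =
            2 * ∑ a ∈ range r, (r : ℤ) * e * (u a) ^ 2 := by
          simp only [mul_add, sum_add_distrib, sum_const, card_range, nsmul_eq_mul]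
          rw [two_mul]
          congr 1
          · exact sum_congr rfl (fun a _ => by ring)
          · rw [mul_sum]
            exact sum_congr rfl (fun a _ => by ring)
        linarith
      linarith
    exact h9.trans (sum_le_sum fun a ha => sum_le_sum fun b hb' => hb a ha b hb')
  have hP : 0 ≤ ∑ k ∈ range r, (∑ i ∈ range n, P i k * c i) ^ 2 :=
    sum_nonneg fun k _ => sq_nonneg _
  by_contra hneg
  push Not at hneg
  have := mul_neg_of_pos_of_neg hs hneg
  linarith

theorem psd_sound (n mat w h r s e : ℕ) (P G R E : List ℕ)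
    (hok : psdOK n mat w h r s e P G R E = true) (c : ℕ → ℤ) :
    0 ≤ ∑ i ∈ range n, ∑ j ∈ range n, mval n mat i j * c i * c j := by
  have hok' : (Nat.blt 0 s && (ok1 w h r s n mat P G R && (ok2 w h r n G R E && ok3 w h r e E))) =
    true := hok
  simp only [Bool.and_eq_true] at hok'
  obtain ⟨hs, h1, h2, h3⟩ := hok'
  have hs' : 0 < s := by
    have := Nat.blt_eq.mp hs
    exact this
  have h1' := fun i hi j hj => allF_true _ _ (allF_true _ _ h1 i hi) j hj
  have h2' := fun i hi a ha => allF_true _ _ (allF_true _ _ h2 i hi) a ha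
  have h3' := fun a ha b hb => allF_true _ _ (allF_true _ _ h3 a ha) b hb
  have hmv : ∀ i j, mval n mat i j = (lk 96 mat (i * n + j) : ℤ) - 39614081257132168796771975168 := by
    intro i j
    change Int.subNatNat (lk 96 mat (i * n + j)) 39614081257132168796771975168 = _
    rw [Int.subNatNat_eq_coe]; rfl
  have hlow : ∀ i < n, ∀ j < i + 1, mval n mat i j = mval n mat j i ∧ (s : ℤ) * mval n mat i j =
      ∑ k ∈ range r, ent w h (nth P i) k * ent w h (nth P j) k +
        ∑ a ∈ range r, ent w h (nth G i) a * ent w h (nth R j) a := by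
    intro i hi j hj
    have hh := h1' i hi j hj
    rw [Bool.and_eq_true] at hh
    refine ⟨?_, ?_⟩
    · rw [hmv, hmv]
      have := Nat.eq_of_beq_eq_true hh.1
      have h' : lk 96 mat (i * n + j) = lk 96 mat (j * n + i) := this
      rw [h']
    · have := of_decide_eq_true hh.2
      rw [← zd_eq, ← zd_eq]
      exact this
  have h2'' : ∀ i < n, ∀ a < r, ent w h (nth G i) a =
      ∑ b ∈ range r, ent w h (nth R i) b * ent w h (nth E a) b := by
    intro i hi a ha
    have := of_decide_eq_true (h2' i hi a ha)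
    rw [← zd_eq]
    exact this
  have hEs : ∀ a < r, ∀ b < r, ent w h (nth E a) b = ent w h (nth E b) a := by
    intro a ha b hb
    have hh := h3' a ha b hb
    rw [Bool.and_eq_true] at hh
    have := Nat.eq_of_beq_eq_true hh.1
    rw [ent_eq, ent_eq, this]
  have hEE : ∀ a < r, ∀ b < r, (a ≠ b → |ent w h (nth E a) b| ≤ (e : ℤ)) ∧
      (a = b → (r : ℤ) * e ≤ ent w h (nth E a) b) := by
    intro a ha b hb
    have hh0 := h3' a ha b hb
    rw [Bool.and_eq_true] at hh0
    have hh := hh0.2
    rw [ent_eq]
    constructor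
    · intro hab
      have hbe : Nat.beq a b = false := by
        rw [Bool.eq_false_iff]
        intro hc
        exact hab (Nat.eq_of_beq_eq_true hc)
      rw [hbe] at hh
      have hh' : (Nat.ble h (lk w (nth E a) b + e) && Nat.ble (lk w (nth E a) b) (h + e)) = true := hh
      rw [Bool.and_eq_true] at hh'
      have i1 := Nat.le_of_ble_eq_true hh'.1
      have i2 := Nat.le_of_ble_eq_true hh'.2
      rw [abs_le]
      constructor <;> omega
    · intro hab
      subst hab
      have hbe : Nat.beq a a = true := Nat.beq_refl a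
      rw [hbe] at hh
      have hh' : Nat.ble (h + r * e) (lk w (nth E a) a) = true := hh
      have i1 := Nat.le_of_ble_eq_true hh'
      have i2 : ((h + r * e : ℕ) : ℤ) ≤ (lk w (nth E a) a : ℤ) := by exact_mod_cast i1
      push_cast at i2
      linarith
  have hGR : ∀ i < n, ∀ j < n, ∑ a ∈ range r, ent w h (nth G i) a * ent w h (nth R j) a =
      ∑ a ∈ range r, ent w h (nth G j) a * ent w h (nth R i) a := by
    intro i hi j hj
    have e1 : ∑ a ∈ range r, ent w h (nth G i) a * ent w h (nth R j) a =
        ∑ a ∈ range r, ∑ b ∈ range r,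
          ent w h (nth R i) b * ent w h (nth E a) b * ent w h (nth R j) a := by
      refine sum_congr rfl fun a ha => ?_
      rw [h2'' i hi a (mem_range.mp ha), sum_mul]
    have e2 : ∑ a ∈ range r, ent w h (nth G j) a * ent w h (nth R i) a =
        ∑ a ∈ range r, ∑ b ∈ range r,
          ent w h (nth R j) b * ent w h (nth E a) b * ent w h (nth R i) a := by
      refine sum_congr rfl fun a ha => ?_
      rw [h2'' j hj a (mem_range.mp ha), sum_mul]
    rw [e1, e2, sum_comm]
    refine sum_congr rfl fun a ha => sum_congr rfl fun b hb => ?_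
    rw [hEs b (mem_range.mp hb) a (mem_range.mp ha)]
    ring
  refine psd_abs n r s e (by exact_mod_cast hs') (by positivity) (mval n mat)
    (fun i k => ent w h (nth P i) k) (fun i k => ent w h (nth G i) k)
    (fun i k => ent w h (nth R i) k) (fun a b => ent w h (nth E a) b) ?_ h2'' ?_ ?_ c
  · intro i hi j hj
    rcases Nat.lt_or_ge j (i + 1) with hji | hji
    · exact (hlow i hi j hji).2
    · have h5 := hlow j hj i (by omega)
      rw [← h5.1, h5.2, hGR j hj i hi]
      congr 1
      exact sum_congr rfl (fun k _ => mul_comm _ _)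
  · intro a ha b hb hab
    exact (hEE a ha b hb).1 hab
  · intro a ha
    exact (hEE a ha a ha).2 rfl

end Pool.Agent.ICyc.Flag
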