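import Pool.Agent.Lib.MP_131fce_co.Flag.Sums
import Pool.Agent.Lib.MP_131fce_co.Flag.Perm
import Pool.Agent.Lib.MP_131fce_co.Flag.Cycle
import Pool.Agent.Lib.MP_131fce_co.Flag.Cls
import Pool.Agent.Lib.MP_131fce_co.Flag.Psd
import Pool.Agent.Lib.MP_131fce_co.Count

/-!
# Finite certificates bound the number of induced cycles
-/

set_option autoImplicit false

namespace Pool.Agent.ICyc.Flag

open Finset

/-- the matrix is positive semidefinite and not empty -/
def PSDm (n mat : ℕ) : Prop :=
  0 < n ∧ ∀ c : ℕ → ℤ, 0 ≤ ∑ i ∈ range n, ∑ j ∈ range n, mval n mat i j * c i * c j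

/-- all leaves are positive semidefinite -/
def Trie.good : Trie → Prop
  | .nil => True
  | .cons _ c s => c.good ∧ s.good
  | .node ch => ch.good
  | .add S T => S.good ∧ T.good
  | .leaf1 n _ mat => PSDm n mat
  | .leaf _ _ n _ _ mat => PSDm n mat

variable {V : Type} [Fintype V]

theorem sumL_mulc (m : ℕ) (c : ℤ) (g : List V → ℤ) :
    sumL m (fun y => c * g y) = c * sumL m g := by
  induction m generalizing g with
  | zero => rfl
  | succ m ih =>
    change ∑ v : V, sumL m (fun l => c * g (v :: l)) = c * ∑ v : V, sumL m (fun l => g (v :: l))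
    rw [mul_sum]
    exact sum_congr rfl fun v _ => ih _

theorem sumL_sum (m : ℕ) (s : Finset ℕ) (g : ℕ → List V → ℤ) :
    sumL m (fun y => ∑ i ∈ s, g i y) = ∑ i ∈ s, sumL m (g i) := by
  induction m generalizing g with
  | zero => rfl
  | succ m ih =>
    change ∑ v : V, sumL m (fun l => ∑ i ∈ s, g i (v :: l)) =
      ∑ i ∈ s, ∑ v : V, sumL m (fun l => g i (v :: l))
    rw [sum_comm]
    exact sum_congr rfl fun v _ => ih _

theorem leaf_nonneg {ι : Type} (S : (ι → ℤ) → ℤ)
    (hmul : ∀ (c : ℤ) (g : ι → ℤ), S (fun y => c * g y) = c * S g)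
    (hsum : ∀ (s : Finset ℕ) (g : ℕ → ι → ℤ), S (fun y => ∑ i ∈ s, g i y) = ∑ i ∈ s, S (g i))
    (n : ℕ) (M : ℕ → ℕ → ℤ)
    (hM : ∀ c : ℕ → ℤ, 0 ≤ ∑ i ∈ range n, ∑ j ∈ range n, M i j * c i * c j)
    (f : ι → ℕ) (hf : ∀ y, f y < n) : 0 ≤ S (fun y => S (fun z => M (f y) (f z))) := by
  have h1 : ∀ a : ℕ, S (fun z => M a (f z)) =
      ∑ j ∈ range n, M a j * S (fun z => if f z = j then 1 else 0) := by
    intro a
    have : (fun z => M a (f z)) =
        fun z => ∑ j ∈ range n, M a j * (if f z = j then 1 else 0) := by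
      funext z
      rw [sum_eq_single_of_mem (f z) (mem_range.mpr (hf z))]
      · simp
      · intro b _ hb
        rw [if_neg (fun h => hb h.symm), mul_zero]
    rw [this, hsum]
    exact sum_congr rfl fun j _ => hmul _ _
  have h2 : S (fun y => S (fun z => M (f y) (f z))) =
      ∑ i ∈ range n, ∑ j ∈ range n, M i j * S (fun z => if f z = i then 1 else 0) *
        S (fun z => if f z = j then 1 else 0) := by
    have : (fun y => S (fun z => M (f y) (f z))) =
        fun y => ∑ i ∈ range n, (∑ j ∈ range n, M i j * S (fun z => if f z = j then 1 else 0)) *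
          (if f y = i then 1 else 0) := by
      funext y
      have e := h1 (f y)
      rw [e]
      symm
      rw [sum_eq_single_of_mem (f y) (mem_range.mpr (hf y))
        (fun b _ hb => by rw [if_neg (fun h : f y = b => hb h.symm), mul_zero]), if_pos rfl, mul_one]
    rw [this, hsum]
    refine sum_congr rfl fun i _ => ?_
    rw [hmul, sum_mul]
    exact sum_congr rfl fun j _ => by ring
  rw [h2]
  exact hM _

theorem IV_nonneg (A : V → V → ℕ) (T : Trie) : ∀ (key : ℕ) (x : List V), T.good →
    0 ≤ T.IV A key x := by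
  induction T with
  | nil => intro key x _; exact le_refl _
  | cons k c s ihc ihs =>
    intro key x h
    change 0 ≤ if k = key then c.IV A 0 x else s.IV A key x
    split
    · exact ihc 0 x h.1
    · exact ihs key x h.2
  | node ch ih =>
    intro key x h
    exact sum_nonneg fun a _ => ih _ _ h
  | add S T ihS ihT =>
    intro key x h
    exact add_nonneg (ihS key x h.1) (ihT key x h.2)
  | leaf1 n tab mat =>
    intro key x h
    exact leaf_nonneg (fun g : V → ℤ => ∑ y, g y) (fun c g => by rw [mul_sum])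
      (fun s g => sum_comm) n (mval n mat) h.2 (fun y => fl1 A n tab x y)
      (fun y => Nat.mod_lt _ h.1)
  | leaf m b n wt tab mat =>
    intro key x h
    exact leaf_nonneg (fun g : List V → ℤ => sumL m g) (fun c g => sumL_mulc m c g)
      (fun s g => sumL_sum m s g) n (mval n mat) h.2 (fun y => flg A b n wt tab x y)
      (fun y => Nat.mod_lt _ h.1)

/-- the check of one graph -/
noncomputable def chkRep (T C : Trie) (K : ℕ) (L : List ℕ) (H : ℕ) : Bool :=
  decide (Int.add (C.ev (adjM H) 0 [] L) (T.ev (adjM H) 0 [] L) ≤ Int.ofNat K)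

omit [Fintype V] in
theorem E_le (A : V → V → ℕ) (N K : ℕ) (T C : Trie) (R : ℕ → Prop) (hR : Cls A N R)
    (hT : T.wf N = true) (hC : C.wf N = true)
    (hchk : ∀ H, R H → chkRep T C K (List.range N) H = true) (l : List V) (hl : l.length = N) :
    C.E A 0 [] l + T.E A 0 [] l ≤ K := by
  obtain ⟨H, hRH, φ, hperm, hφ⟩ := hR l hl
  have key : ∀ X : Trie, X.wf N = true → X.E A 0 [] l = X.ev (adjM H) 0 [] (List.range N) := by
    intro X hX
    have e1 : X.E A 0 [] l = X.E A 0 [] ((List.finRange N).map φ) := by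
      rw [← List.ofFn_eq_map]
      exact E_perm A X 0 [] hperm.symm
    have e2 : X.E A 0 (([] : List (Fin N)).map φ) ((List.finRange N).map φ) =
        X.E (fun i j : Fin N => adjM H i j) 0 [] (List.finRange N) :=
      E_map A (fun i j : Fin N => adjM H i j) φ hφ X 0 [] (List.finRange N)
    have e3 : X.E (adjM H) 0 (([] : List (Fin N)).map Fin.val) ((List.finRange N).map Fin.val) =
        X.E (fun i j : Fin N => adjM H i j) 0 [] (List.finRange N) :=
      E_map (adjM H) (fun i j : Fin N => adjM H i j) Fin.val (fun _ _ => rfl) X 0 []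
        (List.finRange N)
    rw [e1]
    rw [List.map_nil] at e2 e3
    rw [e2, ← e3, List.map_coe_finRange_eq_range]
    exact E_eq_ev (adjM H) X 0 [] (List.range N) (by rw [List.length_range]; exact hX)
  have h := of_decide_eq_true (hchk H hRH)
  rw [key T hT, key C hC]
  exact h

theorem certificate (A : V → V → ℕ) (N K : ℕ) (T C : Trie) (R : ℕ → Prop) (hR : Cls A N R)
    (hT : T.wf N = true) (hC : C.wf N = true) (hgood : T.good)
    (hchk : ∀ H, R H → chkRep T C K (List.range N) H = true) :
    (N.factorial : ℤ) * C.IV A 0 [] ≤ (Fintype.card V : ℤ) ^ N * K := by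
  have h1 : sumL N (fun l : List V => C.E A 0 [] l + T.E A 0 [] l) ≤
      sumL N (fun _ : List V => (K : ℤ)) :=
    sumL_mono N _ _ fun l hl => E_le A N K T C R hR hT hC hchk l hl
  rw [sumL_add, sumL_const, sumL_E A C N 0 [] hC, sumL_E A T N 0 [] hT] at h1
  have h2 : 0 ≤ (N.factorial : ℤ) * T.IV A 0 [] :=
    mul_nonneg (by positivity) (IV_nonneg A T 0 [] hgood)
  linarith

/-- check of an extension step of the classification: `tabs` contains for every graph of `Rs` a
table with the entries (permutation, index in `Rs'`) for all sets `s` -/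
noncomputable def clsB (N : ℕ) (Rs' : List ℕ) (len : ℕ) (H tab : ℕ) : Bool :=
  allB (Nat.pow 2 N) (fun s => or (depB N H s)
    (and (Nat.blt (Nat.shiftRight (lk 64 tab s) 40) len)
      (stepOK N H s (Nat.mod (lk 64 tab s) (Nat.pow 2 40))
        (nth Rs' (Nat.shiftRight (lk 64 tab s) 40)))))

noncomputable def clsL (N : ℕ) (Rs' : List ℕ) (len : ℕ) (Rs tabs : List ℕ) : Bool :=
  List.rec (motive := fun _ => List ℕ → Bool) (fun _ => true)
    (fun H _ ih tabs => List.rec (motive := fun _ => Bool) false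
      (fun tab tabs' _ => and (clsB N Rs' len H tab) (ih tabs')) tabs) Rs tabs

theorem allB_true (n : ℕ) (p : ℕ → Bool) (h : allB n p = true) : ∀ i, i < n → p i = true :=
  allF_true n p h

theorem nth_mem (l : List ℕ) : ∀ i, i < l.length → nth l i ∈ l := by
  induction l with
  | nil => intro i hi; simp at hi
  | cons a l ih =>
    intro i hi
    cases i with
    | zero => exact List.mem_cons_self
    | succ i =>
      refine List.mem_cons_of_mem _ ?_
      exact ih i (by simpa using hi)

theorem clsL_mem (N : ℕ) (Rs' : List ℕ) (len : ℕ) (Rs : List ℕ) : ∀ tabs : List ℕ,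
    clsL N Rs' len Rs tabs = true → ∀ H ∈ Rs, ∃ tab, clsB N Rs' len H tab = true := by
  induction Rs with
  | nil => intro tabs _ H hH; simp at hH
  | cons H0 Rs ih =>
    intro tabs h H hH
    cases tabs with
    | nil => exact absurd h (by change ¬ false = true; simp)
    | cons tab tabs =>
      have h' : (clsB N Rs' len H0 tab && clsL N Rs' len Rs tabs) = true := h
      rw [Bool.and_eq_true] at h'
      rcases List.mem_cons.mp hH with h1 | h1
      · exact ⟨tab, h1 ▸ h'.1⟩
      · exact ih tabs h'.2 H h1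

omit [Fintype V] in
/-- one step of the classification, from a list of codes to a list of codes -/
theorem cls_list {A : V → V → ℕ} (hsym : ∀ u v, A u v = A v u)
    (hirr : ∀ v, A v v = 0) (h01 : ∀ u v, A u v ≤ 1)
    (htri : ∀ u v w, A u v = 1 → A v w = 1 → A u w = 1 → False)
    (N : ℕ) (Rs Rs' : List ℕ) (hR : Cls A N (fun H => H ∈ Rs))
    (h : ∀ H ∈ Rs, ∃ tab, clsB N Rs' Rs'.length H tab = true) :
    Cls A (N + 1) (fun H => H ∈ Rs') := by
  refine cls_step A hsym hirr h01 htri N _ _ hR ?_
  intro H hH s hs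
  obtain ⟨tab, htab⟩ := h H hH
  have h1 : (depB N H s || (Nat.blt (lk 64 tab s >>> 40) Rs'.length &&
      stepOK N H s (lk 64 tab s % 2 ^ 40) (nth Rs' (lk 64 tab s >>> 40)))) = true :=
    allB_true _ _ htab s hs
  rw [Bool.or_eq_true, Bool.and_eq_true] at h1
  rcases h1 with h1 | ⟨h1, h2⟩
  · exact Or.inl h1
  · exact Or.inr ⟨_, _, nth_mem Rs' _ (Nat.blt_eq.mp h1), h2⟩

/-- the check of a list of graphs -/
noncomputable def chkL (T C : Trie) (K : ℕ) (L : List ℕ) (Rs : List ℕ) : Bool :=
  List.rec (motive := fun _ => Bool) true (fun H _ ih => and (chkRep T C K L H) ih) Rs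

theorem chkL_mem (T C : Trie) (K : ℕ) (L Rs : List ℕ) (h : chkL T C K L Rs = true) :
    ∀ H ∈ Rs, chkRep T C K L H = true := by
  induction Rs with
  | nil => intro H hH; simp at hH
  | cons H0 Rs ih =>
    intro H hH
    have h' : (chkRep T C K L H0 && chkL T C K L Rs) = true := h
    rw [Bool.and_eq_true] at h'
    rcases List.mem_cons.mp hH with h1 | h1
    · exact h1 ▸ h'.1
    · exact ih h'.2 H h1

theorem final_bound (k : ℕ) [NeZero k] (hk : 5 ≤ k) (G : SimpleGraph V)
    (W : ℕ) (hW : 0 < W) (hw : W * k ^ (k - 1) < 39614081257132168796771975168)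
    (T : Trie) (ks : List ℕ) (hks : keysOK k ks = true) (R : ℕ → Prop) (hR : Cls (adjG G) k R)
    (hT : T.wf k = true) (hC : (pathTrie (W * k ^ (k - 1)) ks).wf k = true) (hgood : T.good)
    (hchk : ∀ H, R H → chkRep T (pathTrie (W * k ^ (k - 1)) ks) (2 * W * k.factorial)
      (List.range k) H = true) :
    (({S : Finset V | S.card = k ∧
          Nonempty (G.induce (S : Set V) ≃g SimpleGraph.cycleGraph k)}.ncard : ℝ)
        ≤ ((Fintype.card V : ℝ) / (k : ℝ)) ^ k) := by
  have h1 := certificate (adjG G) k _ T _ R hR hT hC hgood hchk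
  rw [IV_cycle G k (by omega) _ hw ks hks] at h1
  have hf : (0 : ℤ) < (k.factorial : ℤ) := by exact_mod_cast k.factorial_pos
  have h2 : (k : ℤ) ^ (k - 1) * ((Cyc G k).card : ℤ) ≤ 2 * (Fintype.card V : ℤ) ^ k := by
    have hW' : (0 : ℤ) < (W : ℤ) := by exact_mod_cast hW
    have h3 : (k.factorial : ℤ) * (W : ℤ) * ((k : ℤ) ^ (k - 1) * ((Cyc G k).card : ℤ)) ≤
        (k.factorial : ℤ) * (W : ℤ) * (2 * (Fintype.card V : ℤ) ^ k) := by
      push_cast at h1
      nlinarith [h1]
    exact le_of_mul_le_mul_left h3 (mul_pos hf hW')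
  have h4 := ncard_le (V := V) (G := G) (k := k) hk
  have hk0 : (0 : ℝ) < (k : ℝ) := by
    have : 0 < k := by omega
    exact_mod_cast this
  have h5 : (k : ℝ) ^ (k - 1) * NN G k ≤ 2 * (Fintype.card V : ℝ) ^ k := by
    rw [NN]
    exact_mod_cast h2
  have h6 : (k : ℝ) ^ k = (k : ℝ) ^ (k - 1) * k := by
    rw [← pow_succ]
    congr 1
    omega
  rw [div_pow, le_div_iff₀ (pow_pos hk0 k), h6]
  have h7 : (k : ℝ) ^ (k - 1) * (2 * (k : ℝ) *
      ({S : Finset V | S.card = k ∧
          Nonempty (G.induce (S : Set V) ≃g SimpleGraph.cycleGraph k)}.ncard : ℝ)) ≤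
      (k : ℝ) ^ (k - 1) * NN G k := mul_le_mul_of_nonneg_left h4 (by positivity)
  nlinarith [h5, h7]

end Pool.Agent.ICyc.Flag
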