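import Pool.Agent.Lib.MP_131fce_co.Flag.T5

/-!
# Positive semidefinite matrices for `k = 5`, part 1
-/

set_option autoImplicit false
set_option maxRecDepth 100000

namespace Pool.Agent.ICyc.Flag

theorem g5_0 : PSDm 5 m5_0 :=
  ⟨by norm_num, psd_sound 5 m5_0 9 0x100 3 1 8
    [0x402012e, 0x4020af2, 0x4ddf515, 0x3260310, 0x401f6f7]
    [0x3e9e1ca, 0x3fac6f8, 0x551fcfd, 0x2ad2f70, 0x4154aa3]
    [0x4020102, 0x4020300, 0x4060100, 0x3fdff01, 0x401feff]
    [0x3f5f165, 0x3fac6f8, 0x551fcfd]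
    (by decide +kernel)⟩

theorem g5_1 : PSDm 6 m5_1 :=
  ⟨by norm_num, psd_sound 6 m5_1 12 0x800 5 64 76
    [0x8008008008008f0, 0x8008008008a4752, 0x8008008977c4752, 0x80084b74c787732, 0x9d07dd7b27bf833, 
    0x6308237b77d9839]
    [0x830820820820b00, 0x7ce8007ecbac820, 0x7f084cb9b7ec820, 0x7bac0284c800820, 0xd497ba7f07ce830, 
    0x2c97da46947a490]
    [0x800800800800801, 0x800800800801800, 0x800800801800800, 0x800801800800800, 0x801800800800800, 
    0x7ff8007ff7ff7ff]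
    [0x830820820820b00, 0x7ce8007ecbac820, 0x7f084cb9b7ec820, 0x7bac0284c800820, 0xd497ba7f07ce830]
    (by decide +kernel)⟩

theorem g5_2 : PSDm 8 m5_2 :=
  ⟨by norm_num, psd_sound 8 m5_2 16 0x8000 4 4096 1146
    [0x8000800080008170, 0x8000800083a77c02, 0x8000835e7e957c02, 0x82f881f2814a8320, 
    0x7d087e0e7eb67c28, 0x80007ca2816b8346, 0x800080007c598346, 0x8000800080007dd8]
    [0x82007d207d20b780, 0x847a7dc9990b7e90, 0x80d296bf7dc97e90, 0x999880d2847a8100, 
    0x6568809e7cf66340, 0x7e2e6ab183a765b0, 0x7a8683a7686565b0, 0x7d00845084502cc0]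
    [0x8000800080008002, 0x8000800080018000, 0x8000800180008000, 0x8001800080008000, 
    0x7fff800080007fff, 0x80007fff80007fff, 0x800080007fff7fff, 0x8000800080007ffd]
    [0x81007e907e909bc0, 0x847a7dc9990b7e90, 0x80d296bf7dc97e90, 0x999880d2847a8100]
    (by decide +kernel)⟩

end Pool.Agent.ICyc.Flag
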