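import Pool.Agent.Lib.MP_131fce_co.Flag.Defs

/-!
# A check that an integer matrix is positive semidefinite

The certificate consists of integer matrices `P`, `G`, `R` (rows packed into natural numbers, `w`
binary digits per entry with offset `h`) and `E` (packed columns) with
`s M = P P^T + G R^T`, `G = R E`, where `E` is diagonally dominant.
-/

set_option autoImplicit false

namespace Pool.Agent.ICyc.Flag

/-- conjunction of `p i` for `i < n` -/
def allF (n : ℕ) (p : ℕ → Bool) : Bool :=
  Nat.rec (motive := fun _ => Bool) true (fun i ih => and (p i) ih) n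

/-- the list of the first `r` digits -/
def unpk (w r x : ℕ) : List ℕ :=
  Nat.rec (motive := fun _ => ℕ → List ℕ) (fun _ => [])
    (fun _ ih x => Nat.mod x (Nat.pow 2 w) :: ih (Nat.shiftRight x w)) r x

/-- dot product -/
def dotN (x : List ℕ) : List ℕ → ℕ :=
  List.rec (motive := fun _ => List ℕ → ℕ) (fun _ => 0)
    (fun a _ ih y => List.rec (motive := fun _ => ℕ) 0
      (fun b y' _ => Nat.add (Nat.mul a b) (ih y')) y) x

/-- sum -/
def sumN (x : List ℕ) : ℕ :=
  List.rec (motive := fun _ => ℕ) 0 (fun a _ ih => Nat.add a ih) x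

/-- dot product of two packed signed vectors of length `r` -/
def zd (w h r x y : ℕ) : ℤ :=
  Int.subNatNat (Nat.add (dotN (unpk w r x) (unpk w r y)) (Nat.mul r (Nat.mul h h)))
    (Nat.mul h (Nat.add (sumN (unpk w r x)) (sumN (unpk w r y))))

/-- entry `k` of a packed signed vector -/
def ent (w h x k : ℕ) : ℤ := Int.subNatNat (lk w x k) h

/-- entry of a list of numbers -/
def nth (l : List ℕ) (i : ℕ) : ℕ :=
  List.rec (motive := fun _ => ℕ → ℕ) (fun _ => 0)
    (fun a _ ih i => Nat.rec (motive := fun _ => ℕ) a (fun j _ => ih j) i) l i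

/-- `M` is symmetric and `s M_ij = P_i P_j + G_i R_j` for `j ≤ i` -/
def ok1 (w h r s n mat : ℕ) (P G R : List ℕ) : Bool :=
  allF n (fun i => allF (Nat.succ i) (fun j =>
    and (Nat.beq (lk 96 mat (Nat.add (Nat.mul i n) j)) (lk 96 mat (Nat.add (Nat.mul j n) i)))
      (decide (Int.mul (Int.ofNat s) (mval n mat i j) =
        Int.add (zd w h r (nth P i) (nth P j)) (zd w h r (nth G i) (nth R j))))))

/-- `G_ia = R_i E_a` -/
def ok2 (w h r n : ℕ) (G R E : List ℕ) : Bool :=
  allF n (fun i => allF r (fun a => decide (ent w h (nth G i) a =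
    zd w h r (nth R i) (nth E a))))

/-- `E` is symmetric and diagonally dominant: the entries off the diagonal are at most `e` in
absolute value, the diagonal entries are at least `r e` -/
def ok3 (w h r e : ℕ) (E : List ℕ) : Bool :=
  allF r (fun a => allF r (fun b => and (Nat.beq (lk w (nth E a) b) (lk w (nth E b) a))
    (Bool.rec (motive := fun _ => Bool)
      (and (Nat.ble h (Nat.add (lk w (nth E a) b) e)) (Nat.ble (lk w (nth E a) b) (Nat.add h e)))
      (Nat.ble (Nat.add h (Nat.mul r e)) (lk w (nth E a) b))
      (Nat.beq a b))))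

/-- certificate of positive semidefiniteness -/
def psdOK (n mat w h r s e : ℕ) (P G R E : List ℕ) : Bool :=
  and (Nat.blt 0 s) (and (ok1 w h r s n mat P G R) (and (ok2 w h r n G R E) (ok3 w h r e E)))

end Pool.Agent.ICyc.Flag
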