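import Pool.Agent.Lib.MP_131fce_co.Flag.Reps8
import Pool.Agent.Lib.MP_131fce_co.Flag.Reps9p00
import Pool.Agent.Lib.MP_131fce_co.Flag.Reps9p01
import Pool.Agent.Lib.MP_131fce_co.Flag.Reps9p02
import Pool.Agent.Lib.MP_131fce_co.Flag.Reps9p03
import Pool.Agent.Lib.MP_131fce_co.Flag.Reps9p04
import Pool.Agent.Lib.MP_131fce_co.Flag.Reps9p05
import Pool.Agent.Lib.MP_131fce_co.Flag.Reps9p06
import Pool.Agent.Lib.MP_131fce_co.Flag.Reps9p07
import Pool.Agent.Lib.MP_131fce_co.Flag.Reps9p08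
import Pool.Agent.Lib.MP_131fce_co.Flag.Reps9p09
import Pool.Agent.Lib.MP_131fce_co.Flag.Reps9p10
import Pool.Agent.Lib.MP_131fce_co.Flag.Reps9p11

/-!
# Classification of the triangle-free graphs on 9 vertices
-/

set_option autoImplicit false
set_option maxRecDepth 100000

namespace Pool.Agent.ICyc.Flag

theorem reps8_eq : reps8 = rc8_0 ++ rc8_1 ++ rc8_2 ++ rc8_3 ++ rc8_4 ++ rc8_5 ++ rc8_6 ++ rc8_7 ++ rc8_8 ++ rc8_9 ++ rc8_10 ++ rc8_11 := by decide +kernel

theorem st8 : ∀ H ∈ reps8, ∃ tab, clsB 8 reps9 reps9.length H tab = true := by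
  rw [show reps9.length = 1897 by decide +kernel, reps8_eq]
  intro H hH
  simp only [List.mem_append] at hH
  rcases hH with ((((((((((hH | hH) | hH) | hH) | hH) | hH) | hH) | hH) | hH) | hH) | hH) | hH
  · exact st8_0 H hH
  · exact st8_1 H hH
  · exact st8_2 H hH
  · exact st8_3 H hH
  · exact st8_4 H hH
  · exact st8_5 H hH
  · exact st8_6 H hH
  · exact st8_7 H hH
  · exact st8_8 H hH
  · exact st8_9 H hH
  · exact st8_10 H hH
  · exact st8_11 H hH

theorem cls9 {V : Type} {A : V → V → ℕ} (h : AdjOK A) : Cls A 9 (fun H => H ∈ reps9) :=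
  cls_list h.1 h.2.1 h.2.2.1 h.2.2.2 8 reps8 reps9 (cls8 h) st8

end Pool.Agent.ICyc.Flag
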