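import Pool.Agent.Lib.MP_131fce_co.Flag.SumsDefs

/-!
# Sums over all lists of vertices: the integral of `Trie.E` is `Trie.IV`
-/

set_option autoImplicit false

namespace Pool.Agent.ICyc.Flag

variable {V : Type} [Fintype V]

theorem sumL_zero_eq (f : List V → ℤ) : sumL 0 f = f [] := rfl

theorem sumL_succ_eq (n : ℕ) (f : List V → ℤ) :
    sumL (n + 1) f = ∑ v : V, sumL n (fun l => f (v :: l)) := rfl

theorem sumL_add (n : ℕ) (f g : List V → ℤ) :
    sumL n (fun l => f l + g l) = sumL n f + sumL n g := by
  induction n generalizing f g with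
  | zero => rfl
  | succ n ih =>
    simp only [sumL_succ_eq]
    rw [← Finset.sum_add_distrib]
    exact Finset.sum_congr rfl fun v _ => ih _ _

theorem sumL_const (n : ℕ) (c : ℤ) :
    sumL n (fun _ : List V => c) = (Fintype.card V : ℤ) ^ n * c := by
  induction n with
  | zero => simp [sumL_zero_eq]
  | succ n ih =>
    simp only [sumL_succ_eq]
    rw [ih, Finset.sum_const, Finset.card_univ, nsmul_eq_mul, pow_succ]
    ring

theorem sumL_mono (n : ℕ) (f g : List V → ℤ) (h : ∀ l, l.length = n → f l ≤ g l) :
    sumL n f ≤ sumL n g := by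
  induction n generalizing f g with
  | zero => exact h [] rfl
  | succ n ih =>
    simp only [sumL_succ_eq]
    refine Finset.sum_le_sum fun v _ => ih _ _ fun l hl => h _ ?_
    rw [List.length_cons, hl]

theorem sumL_spSum (n : ℕ) (g : V → List V → ℤ) :
    sumL (n + 1) (fun l => spSum l g) = (n + 1 : ℤ) * ∑ v : V, sumL n (g v) := by
  induction n generalizing g with
  | zero =>
    rw [sumL_succ_eq]
    simp only [sumL_zero_eq, spSum_cons, spSum_nil, add_zero]
    push_cast
    ring
  | succ n ih =>
    rw [sumL_succ_eq]
    simp only [spSum_cons]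
    have h1 : ∀ u : V, sumL (n + 1) (fun l => g u l + spSum l (fun b r => g b (u :: r))) =
        sumL (n + 1) (g u) + (n + 1 : ℤ) * ∑ v : V, sumL n (fun r => g v (u :: r)) := by
      intro u
      rw [sumL_add, ih]
    rw [Finset.sum_congr rfl fun u _ => h1 u, Finset.sum_add_distrib, ← Finset.mul_sum,
      Finset.sum_comm]
    have h2 : ∀ v : V, ∑ u : V, sumL n (fun r => g v (u :: r)) = sumL (n + 1) (g v) :=
      fun v => rfl
    rw [Finset.sum_congr rfl fun v _ => h2 v]
    push_cast
    ring

theorem sumL_sel (m r : ℕ) (f : List V → List V → ℤ) :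
    (r.factorial : ℤ) * sumL (m + r) (fun l => sel m l f) =
      ((m + r).factorial : ℤ) * sumL m (fun y => sumL r (f y)) := by
  induction m generalizing f with
  | zero =>
    rw [Nat.zero_add]
    rfl
  | succ m ih =>
    have e : m + 1 + r = m + r + 1 := by omega
    rw [e]
    have h1 : (fun l : List V => sel (m + 1) l f) =
        fun l => spSum l (fun a R => sel m R (fun s r' => f (a :: s) r')) := rfl
    rw [h1, sumL_spSum, sumL_succ_eq, Nat.factorial_succ]
    have h2 : ∀ v : V, (r.factorial : ℤ) *
        sumL (m + r) (fun R => sel m R (fun s r' => f (v :: s) r')) =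
        ((m + r).factorial : ℤ) * sumL m (fun y => sumL r (f (v :: y))) :=
      fun v => ih (fun s r' => f (v :: s) r')
    have h3 : (r.factorial : ℤ) * ∑ v : V,
        sumL (m + r) (fun R => sel m R (fun s r' => f (v :: s) r')) =
        ((m + r).factorial : ℤ) * ∑ v : V, sumL m (fun y => sumL r (f (v :: y))) := by
      rw [Finset.mul_sum, Finset.mul_sum]
      exact Finset.sum_congr rfl fun v _ => h2 v
    push_cast
    rw [mul_left_comm, h3]
    ring

theorem sumL_E (A : V → V → ℕ) (T : Trie) : ∀ (N : ℕ) (key : ℕ) (x : List V),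
    T.wf N = true → sumL N (fun l => T.E A key x l) = (N.factorial : ℤ) * T.IV A key x := by
  induction T with
  | nil =>
    intro N key x _
    have h := sumL_const (V := V) N 0
    rw [mul_zero] at h
    rw [Trie.IV, mul_zero]
    exact h
  | cons k c s ihc ihs =>
    intro N key x hwf
    rw [Trie.wf, Bool.and_eq_true] at hwf
    by_cases h : k = key
    · simp only [Trie.E, Trie.IV, h, if_true]
      exact ihc N 0 x hwf.1
    · simp only [Trie.E, Trie.IV, h, if_false]
      exact ihs N key x hwf.2
  | node ch ih =>
    intro N key x hwf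
    rw [Trie.wf, Bool.and_eq_true, decide_eq_true_eq] at hwf
    obtain ⟨M, rfl⟩ : ∃ M, N = M + 1 := ⟨N - 1, by omega⟩
    rw [Nat.add_sub_cancel] at hwf
    simp only [Trie.E, Trie.IV]
    rw [sumL_spSum, Nat.factorial_succ]
    have h2 : ∀ v : V, sumL M (fun r => ch.E A (row A x v) (v :: x) r) =
        (M.factorial : ℤ) * ch.IV A (row A x v) (v :: x) := fun v => ih M _ _ hwf.2
    rw [Finset.sum_congr rfl fun v _ => h2 v, ← Finset.mul_sum]
    push_cast
    ring
  | add S T ihS ihT =>
    intro N key x hwf
    rw [Trie.wf, Bool.and_eq_true] at hwf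
    simp only [Trie.E, Trie.IV]
    rw [sumL_add, ihS N key x hwf.1, ihT N key x hwf.2]
    ring
  | leaf1 n tab mat =>
    intro N key x hwf
    rw [Trie.wf, beq_iff_eq] at hwf
    subst hwf
    simp only [Trie.E, Trie.IV]
    rw [sumL_spSum]
    have h2 : ∀ y : V, sumL 1 (fun r => spSum r
        (fun z _ => mval n mat (fl1 A n tab x y) (fl1 A n tab x z))) =
        ∑ z : V, mval n mat (fl1 A n tab x y) (fl1 A n tab x z) := by
      intro y
      rw [sumL_spSum]
      simp only [sumL_zero_eq]
      push_cast
      ring
    rw [Finset.sum_congr rfl fun y _ => h2 y]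
    norm_num [Nat.factorial]
  | leaf m b n wt tab mat =>
    intro N key x hwf
    rw [Trie.wf, beq_iff_eq] at hwf
    have e : N = m + m := by omega
    subst e
    simp only [Trie.E, Trie.IV]
    have h1 := sumL_sel m m (fun y r => sel m r (fun z _ =>
        mval n mat (flg A b n wt tab x y) (flg A b n wt tab x z)))
    have h2 : ∀ y : List V, sumL m (fun r => sel m r (fun z _ =>
        mval n mat (flg A b n wt tab x y) (flg A b n wt tab x z))) =
        (m.factorial : ℤ) * sumL m (fun z =>
          mval n mat (flg A b n wt tab x y) (flg A b n wt tab x z)) := by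
      intro y
      have h3 := sumL_sel m 0 (fun z (_ : List V) =>
        mval n mat (flg A b n wt tab x y) (flg A b n wt tab x z))
      simp only [sumL_zero_eq, Nat.add_zero, Nat.factorial_zero, Nat.cast_one, one_mul] at h3
      exact h3
    simp only [h2] at h1
    have h4 : ∀ (c : ℤ) (k : ℕ) (f : List V → ℤ), sumL k (fun l => c * f l) = c * sumL k f := by
      intro c k
      induction k with
      | zero => intro f; rfl
      | succ k ihk =>
        intro f
        simp only [sumL_succ_eq]
        rw [Finset.mul_sum]
        exact Finset.sum_congr rfl fun v _ => ihk _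
    rw [h4] at h1
    have h5 : (m.factorial : ℤ) ≠ 0 := by exact_mod_cast Nat.factorial_ne_zero m
    apply mul_left_cancel₀ h5
    rw [h1]
    ring

end Pool.Agent.ICyc.Flag
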