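import Pool.Agent.Lib.MP_131fce_co.Flag.Defs

/-!
# Sums over all lists of vertices: definitions
-/

set_option autoImplicit false

namespace Pool.Agent.ICyc.Flag

variable {V : Type} [Fintype V]

/-- sum over all lists of length `n` -/
noncomputable def sumL : ℕ → (List V → ℤ) → ℤ
  | 0, f => f []
  | n + 1, f => ∑ v : V, sumL n (fun l => f (v :: l))

/-- the value of a certificate on a graph: types are sampled, the leaves are squares -/
noncomputable def Trie.IV (A : V → V → ℕ) : Trie → ℕ → List V → ℤ
  | .nil, _, _ => 0
  | .cons k c s, key, x => if k = key then c.IV A 0 x else s.IV A key x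
  | .node ch, _, x => ∑ a : V, ch.IV A (row A x a) (a :: x)
  | .add S T, key, x => S.IV A key x + T.IV A key x
  | .leaf1 n tab mat, _, x =>
      ∑ y : V, ∑ z : V, mval n mat (fl1 A n tab x y) (fl1 A n tab x z)
  | .leaf m b n wt tab mat, _, x =>
      sumL m (fun y => sumL m (fun z => mval n mat (flg A b n wt tab x y) (flg A b n wt tab x z)))

end Pool.Agent.ICyc.Flag
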