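import Pool.Agent.Lib.MP_131fce_co.Flag.Main

/-!
# The certificate for `k = 5`
-/

set_option autoImplicit false
set_option maxRecDepth 100000

namespace Pool.Agent.ICyc.Flag

def m5_0 : ℕ := 0x8000000000000000000001227fffffffffffffffffffff647fffffffffffffffffffff6680000000000000000000000a7ffffffffffffffffffffda87fffffffffffffffffffff64800000000000000000000e007ffffffffffffffffffff5247ffffffffffffffffffffebc8000000000000000000003c07fffffffffffffffffffff667ffffffffffffffffffff524800000000000000000000e027ffffffffffffffffffffeba8000000000000000000003c080000000000000000000000a7ffffffffffffffffffffebc7ffffffffffffffffffffeba8000000000000000000001407ffffffffffffffffffffd6c7ffffffffffffffffffffda88000000000000000000003c08000000000000000000003c07ffffffffffffffffffffd6c8000000000000000000009d8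
def m5_1 : ℕ := 0x800000000000000000000e147ffffffffffffffffffff3628000000000000000000000887ffffffffffffffffffffecf7ffffffffffffffffffffef38000000000000000000000c87ffffffffffffffffffff362800000000000000000000e168000000000000000000000887ffffffffffffffffffffefa7ffffffffffffffffffffece8000000000000000000000c08000000000000000000000888000000000000000000000888000000000000000000005de8000000000000000000000fa8000000000000000000000fa7ffffffffffffffffffffcfc7ffffffffffffffffffffecf7ffffffffffffffffffffefa8000000000000000000000fa80000000000000000000038480000000000000000000013f7ffffffffffffffffffffd747ffffffffffffffffffffef37ffffffffffffffffffffece8000000000000000000000fa80000000000000000000013f80000000000000000000038c7ffffffffffffffffffffd748000000000000000000000c88000000000000000000000c07ffffffffffffffffffffcfc7ffffffffffffffffffffd747ffffffffffffffffffffd74800000000000000000000390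
def m5_2 : ℕ := 0x80000000000000000000005a7fffffffffffffffffffff947fffffffffffffffffffff9480000000000000000000008a7fffffffffffffffffffff9480000000000000000000008a80000000000000000000008a7fffffffffffffffffffffc47fffffffffffffffffffff9480000000000000000000018480000000000000000000005a7fffffffffffffffffffff848000000000000000000000587fffffffffffffffffffff827ffffffffffffffffffffe588000000000000000000000487fffffffffffffffffffff9480000000000000000000005a8000000000000000000001847fffffffffffffffffffff848000000000000000000000587ffffffffffffffffffffe587fffffffffffffffffffff8280000000000000000000004880000000000000000000008a7fffffffffffffffffffff847fffffffffffffffffffff848000000000000000000001d47ffffffffffffffffffffe5a8000000000000000000000aa8000000000000000000000aa7fffffffffffffffffffffa47fffffffffffffffffffff948000000000000000000000588000000000000000000000587ffffffffffffffffffffe5a8000000000000000000001827fffffffffffffffffffff847fffffffffffffffffffff8480000000000000000000004880000000000000000000008a7fffffffffffffffffffff827ffffffffffffffffffffe588000000000000000000000aa7fffffffffffffffffffff848000000000000000000001d68000000000000000000000ac7fffffffffffffffffffffa480000000000000000000008a7ffffffffffffffffffffe587fffffffffffffffffffff828000000000000000000000aa7fffffffffffffffffffff848000000000000000000000ac8000000000000000000001d67fffffffffffffffffffffa47fffffffffffffffffffffc48000000000000000000000488000000000000000000000487fffffffffffffffffffffa48000000000000000000000487fffffffffffffffffffffa47fffffffffffffffffffffa4800000000000000000000028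

/-- the certificate for `k = 5` -/
def T5 : Trie :=
  (.node (.cons 0 (.node (.cons 0 (.node (.cons 0 (.leaf1 8 0x703050106020400 m5_2) .nil)) (.cons 1 (.node (.cons 0 (.leaf1 6 0x40105020300 m5_1) (.cons 2 (.leaf1 5 0x104020300 m5_0) .nil))) .nil))) .nil))

/-- the check of a graph on `5` vertices -/
noncomputable def ok5 (H : ℕ) : Bool := chkRep T5 (pathTrie 12500 [0, 1, 1, 1, 9]) 4800 [0, 1, 2, 3, 4] H

end Pool.Agent.ICyc.Flag
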